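import Mathlib
set_option autoImplicit false

/-! # the choice of the parameters -/

namespace H479.Z

lemma alg1 (b e : ℝ) (hb : 1 < b) (he0 : 0 < e) (he1 : e ≤ 1 / 4) (he2 : e ≤ (b - 1) / 4) :
    b * (b - 1) / 2 - e * (b + 1 + b ^ 2 / 2) ≤
      ((b - e) * ((b - e) - 1) / 2 - e) * (1 - 2 / Real.pi * e) := by
  have hπ := Real.pi_pos
  have hπ3 := Real.pi_gt_three
  have hk : b * (b - 1) / 2 - b * e ≤ (b - e) * ((b - e) - 1) / 2 := by nlinarith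
  have hk0 : 0 ≤ (b - e) * ((b - e) - 1) / 2 - e := by nlinarith
  have hkb : (b - e) * ((b - e) - 1) / 2 - e ≤ b ^ 2 / 2 := by nlinarith
  have hp : 2 / Real.pi ≤ 1 := by rw [div_le_one hπ]; linarith
  have hp0 : 0 ≤ 2 / Real.pi := by positivity
  have hpe : 2 / Real.pi * e ≤ e := by
    have := mul_le_mul_of_nonneg_right hp he0.le
    linarith
  generalize (b - e) * ((b - e) - 1) / 2 = κ at *
  have ha : (κ - e) * (2 / Real.pi * e) ≤ b ^ 2 / 2 * e :=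
    mul_le_mul hkb hpe (by positivity) (by positivity)
  have : (κ - e) * (1 - 2 / Real.pi * e) = κ - e - (κ - e) * (2 / Real.pi * e) := by ring
  rw [this]
  linarith

lemma alg2 (b e C n' : ℝ) (hb : 1 < b) (he0 : 0 < e) (he1 : e ≤ 1 / 4) (hn0 : 0 ≤ n')
    (hnC : n' ≤ C) :
    b ^ 2 * n' - 5 * b ^ 2 * e * C ≤ (1 - e) * (1 - 2 * e) * (b - e) ^ 2 * n' := by
  have ha : 1 - 3 * e ≤ (1 - e) * (1 - 2 * e) := by nlinarith
  have hb1 : b ^ 2 - 2 * b * e ≤ (b - e) ^ 2 := by nlinarith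
  have hb0 : 0 ≤ (b - e) ^ 2 := by positivity
  have hc : b ^ 2 - 5 * b ^ 2 * e ≤ (1 - e) * (1 - 2 * e) * (b - e) ^ 2 := by
    calc b ^ 2 - 5 * b ^ 2 * e ≤ (1 - 3 * e) * (b ^ 2 - 2 * b * e) := by
          have h1 : b * e ≤ b ^ 2 * e := by
            have : 1 * (b * e) ≤ b * (b * e) := by
              apply mul_le_mul_of_nonneg_right hb.le; positivity
            linarith
          have h2 : 0 ≤ e * (b * e) := by positivity
          linarith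
      _ ≤ (1 - 3 * e) * (b - e) ^ 2 := by
          apply mul_le_mul_of_nonneg_left hb1; linarith
      _ ≤ _ := mul_le_mul_of_nonneg_right ha hb0
  have hd := mul_le_mul_of_nonneg_right hc hn0
  have hf : 5 * b ^ 2 * e * n' ≤ 5 * b ^ 2 * e * C := by
    apply mul_le_mul_of_nonneg_left hnC; positivity
  refine le_trans ?_ hd
  linarith

lemma alg3 (b e C X n n' A1 A2 : ℝ) (hb : 1 < b) (he0 : 0 < e)
    (hn : n ≤ n' + e)
    (h1 : b * (b - 1) / 2 - e * (b + 1 + b ^ 2 / 2) ≤ A1)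
    (h2 : b ^ 2 * n' - 5 * b ^ 2 * e * C ≤ A2) (h : A1 + A2 ≤ (1 + e) * X + e) :
    b * (b - 1) / 2 + b ^ 2 * n - 5 * b ^ 2 * (1 + C) * e ≤ (1 + e) * X := by
  have hb2 : b ≤ b ^ 2 := by nlinarith
  have hb3 : 1 ≤ b ^ 2 := by nlinarith
  have h3 : b ^ 2 * n - b ^ 2 * e ≤ b ^ 2 * n' := by
    have := mul_le_mul_of_nonneg_left hn (by positivity : (0:ℝ) ≤ b ^ 2)
    linarith
  have hs : b + 1 + b ^ 2 / 2 + b ^ 2 + 1 ≤ 5 * b ^ 2 := by linarith
  have hse := mul_le_mul_of_nonneg_left hs he0.le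
  have hs2 : e * (b + 1 + b ^ 2 / 2) + b ^ 2 * e + e ≤ 5 * b ^ 2 * e := by linarith
  linarith

lemma alg4 (b e C X n ε : ℝ) (hb : 1 < b) (he0 : 0 < e) (he1 : e ≤ 1) (hC : 0 ≤ C)
    (hn : n ≤ 1 + C) (he3 : e * (8 * b ^ 2 * (1 + C)) ≤ ε) (hε : 0 < ε)
    (hY : b * (b - 1) / 2 + b ^ 2 * n - 5 * b ^ 2 * (1 + C) * e ≤ (1 + e) * X) :
    b * (b - 1) / 2 + b ^ 2 * n - ε ≤ X := by
  by_contra hcon
  push Not at hcon
  have hnC2 : b ^ 2 * n ≤ b ^ 2 * (1 + C) :=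
    mul_le_mul_of_nonneg_left hn (by positivity)
  have hbb : b * (b - 1) / 2 ≤ b ^ 2 := by nlinarith
  have hbC : 0 ≤ b ^ 2 * C := by positivity
  have hX : X ≤ 2 * b ^ 2 * (1 + C) := by linarith
  have heX : e * X ≤ e * (2 * b ^ 2 * (1 + C)) := mul_le_mul_of_nonneg_left hX he0.le
  have hpos : 0 < e * (b ^ 2 * (1 + C)) := by positivity
  linarith

/-- the main terms are continuous in the parameters -/
lemma alg (b C ε : ℝ) (hb : 1 < b) (hC : 0 ≤ C) (hε : 0 < ε) :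
    ∃ e : ℝ, 0 < e ∧ e ≤ 1 / 4 ∧ e ≤ (b - 1) / 4 ∧
    ∀ X n n' : ℝ, 0 ≤ n' → n' ≤ C → n ≤ n' + e →
      2 / Real.pi * (((b - e) * ((b - e) - 1) / 2 - e) * (Real.pi / 2 - e) +
        (1 - e) * Real.pi * (b - e) ^ 2 * ((1 / 2 - e) * n')) ≤ (1 + e) * X + e →
      b * (b - 1) / 2 + b ^ 2 * n - ε ≤ X := by
  have hD : 0 < 8 * b ^ 2 * (1 + C) := by positivity
  obtain ⟨e, he⟩ : ∃ e : ℝ, e = min (min (1 / 4) ((b - 1) / 4)) (ε / (8 * b ^ 2 * (1 + C))) :=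
    ⟨_, rfl⟩
  have he0 : 0 < e := by
    rw [he]
    refine lt_min (lt_min (by norm_num) (by linarith)) (by positivity)
  have he1 : e ≤ 1 / 4 := by rw [he]; exact (min_le_left _ _).trans (min_le_left _ _)
  have he2 : e ≤ (b - 1) / 4 := by rw [he]; exact (min_le_left _ _).trans (min_le_right _ _)
  have he3 : e * (8 * b ^ 2 * (1 + C)) ≤ ε := by
    rw [← le_div_iff₀ hD, he]
    exact min_le_right _ _
  refine ⟨e, he0, he1, he2, fun X n n' hn0 hnC hn h => ?_⟩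
  have hπ := Real.pi_pos
  have t1 : 2 / Real.pi * (((b - e) * ((b - e) - 1) / 2 - e) * (Real.pi / 2 - e)) =
      ((b - e) * ((b - e) - 1) / 2 - e) * (1 - 2 / Real.pi * e) := by
    field_simp
  have t2 : 2 / Real.pi * ((1 - e) * Real.pi * (b - e) ^ 2 * ((1 / 2 - e) * n')) =
      (1 - e) * (1 - 2 * e) * (b - e) ^ 2 * n' := by
    field_simp
  rw [mul_add, t1, t2] at h
  have h1 := alg1 b e hb he0 he1 he2
  have h2 := alg2 b e C n' hb he0 he1 hn0 hnC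
  exact alg4 b e C X n ε hb he0 (by linarith) hC (by linarith) he3 hε
    (alg3 b e C X n n' _ _ hb he0 hn h1 h2 h)

end H479.Z
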