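import Pool.Agent.H479.Z.Stm

/-! # an exponential average (proved by helper600) -/

/-! Subtask H479-Z-AV: an exponential average (helper600). -/

open MeasureTheory Complex Filter Topology
open scoped ENNReal

namespace H479.Z

namespace H600AV

theorem re_eq (T t h : ℝ) : (cexp ((-T + t * I : ℂ) * h)).re = Real.exp (-(T * h)) * Real.cos (t * h) := by
  rw [Complex.exp_re]
  have h1 : ((-T + t * I : ℂ) * h).re = -(T * h) := by simp
  have h2 : ((-T + t * I : ℂ) * h).im = t * h := by simp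
  rw [h1, h2]

theorem int2 {T : ℝ} (hT : 0 < T) (t : ℝ) :
    IntegrableOn (fun h : ℝ => Real.exp (-(T * h)) * Real.cos (t * h)) (Set.Ioi 0) ∧
    ∫ h in Set.Ioi (0 : ℝ), Real.exp (-(T * h)) * Real.cos (t * h) = T / (T ^ 2 + t ^ 2) := by
  have ha : ((-T + t * I : ℂ)).re < 0 := by simpa using hT
  have h1 := integrableOn_exp_mul_complex_Ioi ha 0
  have h2 := integral_exp_mul_complex_Ioi ha 0
  have h3 : ∀ h : ℝ, Real.exp (-(T * h)) * Real.cos (t * h) =
      RCLike.re (cexp ((-T + t * I : ℂ) * h)) := by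
    intro h
    rw [← re_eq]
    rfl
  constructor
  · have h4 := h1.re
    refine h4.congr (Eventually.of_forall fun h => ?_)
    exact (h3 h).symm
  · simp_rw [h3]
    rw [integral_re h1, h2]
    have hne : (T ^ 2 + t ^ 2 : ℝ) ≠ 0 := by positivity
    have h5 : -cexp ((-T + t * I : ℂ) * (0 : ℝ)) / (-T + t * I : ℂ) =
        ((T / (T ^ 2 + t ^ 2) : ℝ) : ℂ) + ((t / (T ^ 2 + t ^ 2) : ℝ) : ℂ) * I := by
      have h6 : (-T + t * I : ℂ) ≠ 0 := by
        intro h
        rw [h] at ha
        simp at ha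
      rw [ofReal_zero, mul_zero, Complex.exp_zero, div_eq_iff h6]
      have h7 : ((T : ℂ) ^ 2 + (t : ℂ) ^ 2) ≠ 0 := by exact_mod_cast hne
      push_cast
      field_simp
      ring_nf
      rw [I_sq]
      ring
    rw [h5]
    change (((T / (T ^ 2 + t ^ 2) : ℝ) : ℂ) + ((t / (T ^ 2 + t ^ 2) : ℝ) : ℂ) * I).re = _
    rw [add_re, ofReal_re, re_ofReal_mul, I_re, mul_zero, add_zero]

theorem int1 {T : ℝ} (hT : 0 < T) :
    IntegrableOn (fun h : ℝ => Real.exp (-(T * h))) (Set.Ioi 0) ∧
    ∫ h in Set.Ioi (0 : ℝ), Real.exp (-(T * h)) = 1 / T := by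
  have h1 := integrableOn_exp_mul_Ioi (a := -T) (by linarith) 0
  have h2 := integral_exp_mul_Ioi (a := -T) (by linarith) 0
  simp only [neg_mul] at h1 h2
  refine ⟨h1, ?_⟩
  rw [h2]
  simp

end H600AV

open H600AV in
theorem av : S_AV := by
  intro T t hT ht
  obtain ⟨i1, e1⟩ := int1 hT
  obtain ⟨i2, e2⟩ := int2 hT t
  have hfun : (fun h : ℝ => T * Real.exp (-(T * h)) * ((1 - Real.cos (t * h)) / (Real.pi * t ^ 2))) =
      fun h : ℝ => (T / (Real.pi * t ^ 2)) *
        (Real.exp (-(T * h)) - Real.exp (-(T * h)) * Real.cos (t * h)) := by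
    funext h
    ring
  have hint : IntegrableOn (fun h : ℝ => T * Real.exp (-(T * h)) *
      ((1 - Real.cos (t * h)) / (Real.pi * t ^ 2))) (Set.Ioi 0) := by
    rw [hfun]
    exact (i1.sub i2).const_mul _
  rw [← ofReal_integral_eq_lintegral_ofReal hint]
  · congr 1
    rw [hfun, integral_const_mul, integral_sub i1 i2, e1, e2]
    have hp := Real.pi_ne_zero
    have h1 : (T ^ 2 + t ^ 2 : ℝ) ≠ 0 := by positivity
    field_simp
    ring
  · refine Eventually.of_forall fun h => ?_
    have h1 := Real.cos_le_one (t * h)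
    have h2 := Real.exp_pos (-(T * h))
    exact mul_nonneg (mul_nonneg hT.le h2.le) (div_nonneg (by linarith) (by positivity))

end H479.Z
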