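import Pool.Agent.H479.Z.Stm

/-! # the zeros in the dyadic blocks (proved by helper772) -/


set_option autoImplicit false

open MeasureTheory Complex Filter Topology
open scoped ENNReal

namespace H479.Z

namespace BADL

open Classical in
/-- The multiplicity, except for the simple zeros on the line. -/
noncomputable def wt (s : ℂ) : ℝ := if s.re = 1 / 2 ∧ mult s = 1 then 0 else (mult s : ℝ)

theorem wt_nonneg (s : ℂ) : 0 ≤ wt s := by
  unfold wt
  split_ifs
  · exact le_rfl
  · exact Nat.cast_nonneg _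

theorem Nb_eq (hFIN : S_FIN) {a b : ℝ} (ha : 0 ≤ a) :
    Nb a b = ∑ s ∈ (hFIN.1 a b ha).toFinset, wt s := by
  classical
  have h1 : N a b = ∑ s ∈ (hFIN.1 a b ha).toFinset, mult s :=
    finsum_mem_eq_finite_toFinset_sum _ (hFIN.1 a b ha)
  have h2 : Ns a b =
      ((hFIN.1 a b ha).toFinset.filter fun s => s.re = 1 / 2 ∧ mult s = 1).card := by
    unfold Ns
    rw [← Set.ncard_coe_finset]
    congr 1
    ext s
    simp
  unfold Nb
  rw [h1, h2, Finset.card_filter]
  push_cast
  rw [← Finset.sum_sub_distrib]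
  refine Finset.sum_congr rfl fun s _ => ?_
  unfold wt
  by_cases h : s.re = 1 / 2 ∧ mult s = 1
  · rw [if_pos h, if_pos h, h.2]
    norm_num
  · rw [if_neg h, if_neg h]
    norm_num

theorem q_nonneg (m : ℕ) {x : ℝ} (hx : 0 ≤ x) : 0 ≤ q m x := by
  unfold q
  exact Finset.sum_nonneg fun k _ => by positivity

theorem q_cont (m : ℕ) : Continuous (q m) := by
  unfold q
  refine continuous_finsetSum _ fun k _ => ?_
  refine Continuous.div (by fun_prop) (by fun_prop) fun x => ?_
  positivity

/-- The integral for one zero. -/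
theorem one_zero {K : ℝ} {m : ℕ} {c T : ℝ} (hK : 2 ≤ K) (hT : 0 < T)
    (hq : ∀ x : ℝ, 2 / K ≤ x → x ≤ 1 → c ≤ ∫ y in (x / 2)..x, q m y) {γ W : ℝ} (hW : 0 ≤ W)
    (h1 : 2 * T / K < γ) (h2 : γ ≤ T) :
    ENNReal.ofReal (c / T ^ 2 * W) ≤ ∫⁻ τ in Set.Icc (T / K) (K * T),
      (Set.Ioo (γ / 2) γ).indicator (fun τ => ENNReal.ofReal (q m (τ / T) / T ^ 3 * W)) τ := by
  have hK0 : 0 < K := by linarith
  have hγ0 : 0 < γ := lt_of_le_of_lt (by positivity) h1
  have hsub : Set.Ioo (γ / 2) γ ⊆ Set.Icc (T / K) (K * T) := by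
    intro τ hτ
    constructor
    · have h3 : T / K < γ / 2 := by
        have h4 : 2 * T / K = 2 * (T / K) := by ring
        rw [h4] at h1
        linarith
      exact (h3.trans hτ.1).le
    · have h3 : T ≤ K * T := by nlinarith
      exact hτ.2.le.trans (h2.trans h3)
  rw [lintegral_indicator measurableSet_Ioo, Measure.restrict_restrict measurableSet_Ioo,
    Set.inter_eq_left.2 hsub]
  have hcont : Continuous (fun τ : ℝ => q m (τ / T) / T ^ 3 * W) := by
    have h3 := (q_cont m).comp (continuous_id.div_const T)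
    exact (h3.div_const _).mul continuous_const
  have hint : IntegrableOn (fun τ : ℝ => q m (τ / T) / T ^ 3 * W) (Set.Ioo (γ / 2) γ) :=
    (hcont.integrableOn_Icc (a := γ / 2) (b := γ)).mono_set Set.Ioo_subset_Icc_self
  have hnn : 0 ≤ᵐ[volume.restrict (Set.Ioo (γ / 2) γ)]
      (fun τ : ℝ => q m (τ / T) / T ^ 3 * W) := by
    refine (ae_restrict_mem measurableSet_Ioo).mono fun τ hτ => ?_
    have h3 : 0 ≤ τ / T := div_nonneg (by linarith [hτ.1]) hT.le
    have h4 := q_nonneg m h3
    positivity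
  rw [← ofReal_integral_eq_lintegral_ofReal hint hnn]
  apply ENNReal.ofReal_le_ofReal
  rw [← integral_Ioc_eq_integral_Ioo, ← intervalIntegral.integral_of_le (by linarith),
    intervalIntegral.integral_mul_const, intervalIntegral.integral_div,
    intervalIntegral.integral_comp_div (fun y => q m y) hT.ne', smul_eq_mul]
  have h5 := hq (γ / T) (by
    rw [div_le_div_iff₀ hK0 hT]
    have h6 : 2 * T / K * K < γ * K := mul_lt_mul_of_pos_right h1 hK0
    rw [div_mul_cancel₀ _ hK0.ne'] at h6
    exact h6.le) ((div_le_one hT).2 h2)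
  have h7 : γ / 2 / T = γ / T / 2 := by ring
  rw [h7]
  have h8 : T * (∫ y in (γ / T / 2)..(γ / T), q m y) / T ^ 3 =
      (∫ y in (γ / T / 2)..(γ / T), q m y) / T ^ 2 := by
    field_simp
  rw [h8]
  gcongr

end BADL

open BADL

theorem bad (hFIN : S_FIN) : S_BAD := by
  classical
  intro K m c T hK hT hc hq
  have hK0 : 0 < K := by linarith
  have ha : 0 ≤ 2 * T / K := by positivity
  have hZ : ∀ s ∈ (hFIN.1 (2 * T / K) T ha).toFinset, 2 * T / K < s.im ∧ s.im ≤ T := by
    intro s hs
    have h1 := (Set.Finite.mem_toFinset _).1 hs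
    exact ⟨h1.2.2.1, h1.2.2.2.1⟩
  calc ENNReal.ofReal (c / T ^ 2 * Nb (2 * T / K) T)
      = ∑ s ∈ (hFIN.1 (2 * T / K) T ha).toFinset, ENNReal.ofReal (c / T ^ 2 * wt s) := by
        rw [Nb_eq hFIN ha, Finset.mul_sum, ENNReal.ofReal_sum_of_nonneg]
        intro s _
        have := wt_nonneg s
        positivity
    _ ≤ ∑ s ∈ (hFIN.1 (2 * T / K) T ha).toFinset, ∫⁻ τ in Set.Icc (T / K) (K * T),
        (Set.Ioo (s.im / 2) s.im).indicator
          (fun τ => ENNReal.ofReal (q m (τ / T) / T ^ 3 * wt s)) τ :=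
        Finset.sum_le_sum fun s hs =>
          one_zero hK hT hq (wt_nonneg s) (hZ s hs).1 (hZ s hs).2
    _ = ∫⁻ τ in Set.Icc (T / K) (K * T), ∑ s ∈ (hFIN.1 (2 * T / K) T ha).toFinset,
        (Set.Ioo (s.im / 2) s.im).indicator
          (fun τ => ENNReal.ofReal (q m (τ / T) / T ^ 3 * wt s)) τ := by
        rw [lintegral_finsetSum]
        intro s _
        refine Measurable.indicator ?_ measurableSet_Ioo
        have h3 := (q_cont m).comp (continuous_id.div_const T)
        exact ((h3.div_const _).mul continuous_const).measurable.ennreal_ofReal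
    _ ≤ ∫⁻ τ in Set.Icc (T / K) (K * T), ENNReal.ofReal (q m (τ / T) / T ^ 3 * Nb τ (2 * τ)) := by
        refine setLIntegral_mono_ae' measurableSet_Icc (ae_of_all _ fun τ hτ => ?_)
        have hτ0 : 0 < τ := lt_of_lt_of_le (by positivity) hτ.1
        have hQ : 0 ≤ q m (τ / T) / T ^ 3 := by
          have := q_nonneg m (div_nonneg hτ0.le hT.le)
          positivity
        have h1 : ∑ s ∈ (hFIN.1 (2 * T / K) T ha).toFinset,
            (Set.Ioo (s.im / 2) s.im).indicator
              (fun τ => ENNReal.ofReal (q m (τ / T) / T ^ 3 * wt s)) τ =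
            ∑ s ∈ (hFIN.1 (2 * T / K) T ha).toFinset.filter
              (fun s => τ ∈ Set.Ioo (s.im / 2) s.im),
              ENNReal.ofReal (q m (τ / T) / T ^ 3 * wt s) := by
          rw [Finset.sum_filter]
          refine Finset.sum_congr rfl fun s _ => ?_
          rw [Set.indicator_apply]
        rw [h1, ← ENNReal.ofReal_sum_of_nonneg (fun s _ => mul_nonneg hQ (wt_nonneg s)),
          ← Finset.mul_sum, Nb_eq hFIN hτ0.le]
        apply ENNReal.ofReal_le_ofReal
        refine mul_le_mul_of_nonneg_left ?_ hQ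
        refine Finset.sum_le_sum_of_subset_of_nonneg ?_ fun s _ _ => wt_nonneg s
        intro s hs
        obtain ⟨hs1, hs2⟩ := Finset.mem_filter.1 hs
        have hs3 := (Set.Finite.mem_toFinset _).1 hs1
        refine (Set.Finite.mem_toFinset _).2 ⟨hs3.1, hs3.2.1, hs2.2, ?_, hs3.2.2.2.2⟩
        have := hs2.1
        linarith

end H479.Z
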