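import Pool.Agent.H479.Z.Stm

/-! # the masses of the weights (proved by helper921) -/


open MeasureTheory Complex Filter Topology
open scoped ENNReal

namespace H479.Z

namespace QM921

/-- `arctan z - z / (1 + z²)` -/
noncomputable def Psi (z : ℝ) : ℝ := Real.arctan z - z / (1 + z ^ 2)

theorem arctan_le {z : ℝ} (hz : 0 ≤ z) : Real.arctan z ≤ z := by
  have h1 := Real.le_tan (Real.arctan_nonneg.2 hz) (Real.arctan_lt_pi_div_two z)
  rwa [Real.tan_arctan] at h1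

theorem le_arctan {z : ℝ} (hz : 0 < z) : Real.pi / 2 - 1 / z ≤ Real.arctan z := by
  have h1 := Real.arctan_inv_of_pos hz
  have h2 := arctan_le (inv_nonneg.2 hz.le)
  rw [h1, ← one_div] at h2
  linarith

theorem Psi_le {z : ℝ} (hz : 0 ≤ z) : Psi z ≤ z := by
  have h1 : 0 ≤ z / (1 + z ^ 2) := by positivity
  unfold Psi
  linarith [arctan_le hz]

theorem le_Psi {z : ℝ} (hz : 0 < z) : Real.pi / 2 - 2 / z ≤ Psi z := by
  have h1 : z / (1 + z ^ 2) ≤ 1 / z := by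
    rw [div_le_div_iff₀ (by positivity) hz]
    nlinarith
  have h2 : 2 / z = 1 / z + 1 / z := by ring
  unfold Psi
  linarith [le_arctan hz]

theorem dP (a x : ℝ) (ha : a ≠ 0) :
    HasDerivAt (fun x => Psi (a * x) / a) (2 * (a * x) ^ 2 / (1 + (a * x) ^ 2) ^ 2) x := by
  have h1 : HasDerivAt (fun x => a * x) a x := by simpa using (hasDerivAt_id x).const_mul a
  have h2 := h1.arctan
  have hne : (1 + (a * x) ^ 2) ≠ 0 := by positivity
  have h3 : HasDerivAt (fun x => 1 + (a * x) ^ 2) (2 * (a * x) * a) x := by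
    have := (h1.pow 2).const_add 1
    simpa using this
  have h4 := h1.div h3 hne
  have h5 := (h2.sub h4).div_const a
  refine h5.congr_deriv ?_
  field_simp
  ring

/-- the `k`-th term of `q` -/
noncomputable def qt (k : ℕ) (x : ℝ) : ℝ := 8 * 4 ^ k * x / (1 + 4 ^ (k + 1) * x ^ 2) ^ 2

theorem qt_cont (k : ℕ) : Continuous (qt k) := by
  unfold qt
  refine Continuous.div (by fun_prop) (by fun_prop) (fun x => ?_)
  positivity

theorem xqt_cont (k : ℕ) : Continuous (fun x : ℝ => x * qt k x) := continuous_id.mul (qt_cont k)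

theorem q_eq (m : ℕ) (x : ℝ) : q m x = ∑ k ∈ Finset.range m, qt k x := rfl

theorem dQ (k : ℕ) (x : ℝ) : HasDerivAt (fun x : ℝ => -(1 + 4 ^ (k + 1) * x ^ 2)⁻¹) (qt k x) x := by
  have h1 : HasDerivAt (fun x : ℝ => 1 + 4 ^ (k + 1) * x ^ 2) (4 ^ (k + 1) * (2 * x)) x := by
    have := ((hasDerivAt_pow 2 x).const_mul ((4 : ℝ) ^ (k + 1))).const_add 1
    simpa using this
  have hne : (1 + 4 ^ (k + 1) * x ^ 2) ≠ 0 := by positivity
  refine (h1.inv hne).neg.congr_deriv ?_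
  unfold qt
  field_simp
  ring

theorem int_qt (k : ℕ) (x : ℝ) :
    ∫ y in (x / 2)..x, qt k y = (1 + 4 ^ k * x ^ 2)⁻¹ - (1 + 4 ^ (k + 1) * x ^ 2)⁻¹ := by
  rw [intervalIntegral.integral_eq_sub_of_hasDerivAt (fun y _ => dQ k y)
    ((qt_cont k).intervalIntegrable _ _)]
  have h1 : 4 ^ (k + 1) * (x / 2) ^ 2 = 4 ^ k * x ^ 2 := by ring
  rw [h1]
  ring

theorem int_q (m : ℕ) (x : ℝ) :
    ∫ y in (x / 2)..x, q m y = (1 + x ^ 2)⁻¹ - (1 + 4 ^ m * x ^ 2)⁻¹ := by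
  have h0 : (fun y => q m y) = fun y => ∑ k ∈ Finset.range m, qt k y := rfl
  rw [h0, intervalIntegral.integral_finsetSum
    (fun k _ => (qt_cont k).intervalIntegrable _ _), Finset.sum_congr rfl fun k _ => int_qt k x]
  have h1 := Finset.sum_range_sub' (fun k : ℕ => (1 + (4 : ℝ) ^ k * x ^ 2)⁻¹) m
  rw [h1]
  norm_num

theorem xqt (k : ℕ) (x : ℝ) :
    x * qt k x = 2 * (2 ^ (k + 1) * x) ^ 2 / (1 + (2 ^ (k + 1) * x) ^ 2) ^ 2 := by
  have h1 : ((2 : ℝ) ^ (k + 1) * x) ^ 2 = 4 ^ (k + 1) * x ^ 2 := by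
    rw [mul_pow, ← pow_mul, mul_comm (k + 1) 2, pow_mul]
    norm_num
  unfold qt
  rw [h1]
  ring

theorem int_xqt (k : ℕ) (a b : ℝ) : ∫ x in a..b, x * qt k x =
    Psi (2 ^ (k + 1) * b) / 2 ^ (k + 1) - Psi (2 ^ (k + 1) * a) / 2 ^ (k + 1) := by
  rw [intervalIntegral.integral_eq_sub_of_hasDerivAt
    (f := fun x => Psi (2 ^ (k + 1) * x) / 2 ^ (k + 1))
    (fun y _ => (dP _ y (by positivity)).congr_deriv (xqt k y).symm)
    ((xqt_cont k).intervalIntegrable _ _)]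

theorem int_xq (m : ℕ) (a b : ℝ) :
    ∫ x in a..b, x * q m x = ∑ k ∈ Finset.range m, ∫ x in a..b, x * qt k x := by
  have h0 : (fun x => x * q m x) = fun x => ∑ k ∈ Finset.range m, x * qt k x := by
    funext x
    rw [q_eq, Finset.mul_sum]
  rw [h0, intervalIntegral.integral_finsetSum
    (fun k _ => (xqt_cont k).intervalIntegrable _ _)]

theorem geo (M : ℕ) : ∑ k ∈ Finset.range M, (1 : ℝ) / 2 ^ (k + 1) = 1 - 1 / 2 ^ M := by
  induction M with
  | zero => norm_num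
  | succ M ih =>
    rw [Finset.sum_range_succ, ih, pow_succ]
    field_simp
    ring

theorem term_le (M k : ℕ) (hk : k < M) {K : ℝ} (hK : 1 ≤ K) :
    (Real.pi / 2 - (2 + 2 ^ M) / K) * (1 / 2 ^ (k + 1)) ≤ ∫ x in (1 / K)..K, x * qt k x := by
  rw [int_xqt, ← sub_div, mul_one_div]
  have hK0 : 0 < K := by linarith
  have ha : (1 : ℝ) ≤ 2 ^ (k + 1) := one_le_pow₀ (by norm_num)
  have haM : (2 : ℝ) ^ (k + 1) ≤ 2 ^ M := pow_le_pow_right₀ (by norm_num) hk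
  refine div_le_div_of_nonneg_right ?_ (by positivity)
  have h1 := le_Psi (z := 2 ^ (k + 1) * K) (by positivity)
  have h2 := Psi_le (z := 2 ^ (k + 1) * (1 / K)) (by positivity)
  have h3 : 2 / (2 ^ (k + 1) * K) ≤ 2 / K := by
    refine div_le_div_of_nonneg_left (by norm_num) hK0 ?_
    nlinarith
  have h4 : 2 ^ (k + 1) * (1 / K) ≤ 2 ^ M / K := by
    rw [mul_one_div]
    exact div_le_div_of_nonneg_right haM hK0.le
  have h5 : (2 + (2 : ℝ) ^ M) / K = 2 / K + 2 ^ M / K := by ring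
  rw [h5]
  linarith

theorem term_nonneg (k : ℕ) {K : ℝ} (hK : 1 ≤ K) : 0 ≤ ∫ x in (1 / K)..K, x * qt k x := by
  have hK0 : 0 < K := by linarith
  refine intervalIntegral.integral_nonneg ?_ (fun x _ => ?_)
  · rw [div_le_iff₀ hK0]
    nlinarith
  · rw [xqt]
    positivity

theorem partA (M m : ℕ) (hm : M ≤ m) {K ε : ℝ} (hK : 1 ≤ K)
    (h1 : (1 / 2 ^ M) * (Real.pi / 2) ≤ ε / 2) (h2 : (2 + 2 ^ M) / K ≤ ε / 2) :
    Real.pi / 2 - ε ≤ ∫ x in (1 / K)..K, x * q m x := by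
  have hK0 : 0 < K := by linarith
  rw [int_xq]
  have h3 : ∑ k ∈ Finset.range M, ∫ x in (1 / K)..K, x * qt k x ≤
      ∑ k ∈ Finset.range m, ∫ x in (1 / K)..K, x * qt k x :=
    Finset.sum_le_sum_of_subset_of_nonneg (Finset.range_mono hm) fun k _ _ => term_nonneg k hK
  have h4 : ∑ k ∈ Finset.range M, (Real.pi / 2 - (2 + 2 ^ M) / K) * (1 / 2 ^ (k + 1)) ≤
      ∑ k ∈ Finset.range M, ∫ x in (1 / K)..K, x * qt k x :=
    Finset.sum_le_sum fun k hk => term_le M k (Finset.mem_range.1 hk) hK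
  rw [← Finset.mul_sum, geo] at h4
  have h5 : (0 : ℝ) ≤ (2 + 2 ^ M) / K := by positivity
  have h6 : (0 : ℝ) ≤ 1 / 2 ^ M := by positivity
  nlinarith [mul_nonneg h5 h6]

theorem partB (m : ℕ) {K ε x : ℝ} (hK : 1 ≤ K) (hε : 0 < ε) (hm : K ^ 2 / ε ≤ 4 ^ m)
    (hx : 2 / K ≤ x) (hx1 : x ≤ 1) : 1 / 2 - ε ≤ ∫ y in (x / 2)..x, q m y := by
  have hK0 : 0 < K := by linarith
  have hx0 : 0 < x := lt_of_lt_of_le (by positivity) hx
  rw [int_q]
  have h1 : (1 / 2 : ℝ) ≤ (1 + x ^ 2)⁻¹ := by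
    rw [one_div]
    exact inv_anti₀ (by positivity) (by nlinarith)
  have h2 : (1 + 4 ^ m * x ^ 2)⁻¹ ≤ ε := by
    rw [inv_le_comm₀ (by positivity) hε]
    have h3 : (2 / K) ^ 2 ≤ x ^ 2 := pow_le_pow_left₀ (by positivity) hx 2
    have h4 : K ^ 2 / ε * (2 / K) ^ 2 ≤ 4 ^ m * x ^ 2 :=
      mul_le_mul hm h3 (by positivity) (by positivity)
    have h5 : K ^ 2 / ε * (2 / K) ^ 2 = 4 * ε⁻¹ := by
      field_simp
      ring
    have h6 : 0 < ε⁻¹ := inv_pos.2 hε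
    linarith
  linarith

end QM921

open QM921 in
theorem qm : S_QM := by
  intro ε hε
  obtain ⟨M, hM⟩ := exists_pow_lt_of_lt_one
    (show 0 < ε / 2 / (Real.pi / 2) by positivity) (show (1 / 2 : ℝ) < 1 by norm_num)
  have h1 : (1 / 2 ^ M) * (Real.pi / 2) ≤ ε / 2 := by
    rw [← one_div_pow, ← le_div_iff₀ (by positivity)]
    exact hM.le
  refine ⟨max 1 (2 * (2 + 2 ^ M) / ε), le_max_left _ _, fun K hK => ?_⟩
  have hK1 : 1 ≤ K := (le_max_left _ _).trans hK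
  have hK0 : 0 < K := by linarith
  have hK2 : 2 * (2 + 2 ^ M) / ε ≤ K := (le_max_right _ _).trans hK
  have h2 : (2 + 2 ^ M) / K ≤ ε / 2 := by
    rw [div_le_iff₀ hε] at hK2
    rw [div_le_iff₀ hK0]
    linarith
  obtain ⟨m₁, hm₁⟩ := pow_unbounded_of_one_lt (K ^ 2 / ε) (show (1 : ℝ) < 4 by norm_num)
  refine ⟨max M m₁, partA M _ (le_max_left _ _) hK1 h1 h2, fun x hx hx1 => ?_⟩
  refine partB _ hK1 hε (hm₁.le.trans ?_) hx hx1
  exact pow_le_pow_right₀ (by norm_num) (le_max_right _ _)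

end H479.Z
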