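import Pool.Agent.H479.Z.Fin
import Pool.Agent.H479.Z.Bad
import Pool.Agent.H479.Z.Qm

/-! # the zeros in the dyadic blocks: the sharp weights -/

open MeasureTheory Complex Filter Topology
open scoped ENNReal

namespace H479.Z

open BADL QM921

/-- the mass of a zero at `x T`, for the weights truncated after `m` steps -/
noncomputable def cm (m : ℕ) (x : ℝ) : ℝ := (1 + x ^ 2)⁻¹ - (1 + 4 ^ m * x ^ 2)⁻¹

lemma cm_nonneg (m : ℕ) (x : ℝ) : 0 ≤ cm m x := by
  unfold cm
  rw [sub_nonneg]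
  apply inv_anti₀ (by positivity)
  have : (1 : ℝ) ≤ 4 ^ m := one_le_pow₀ (by norm_num)
  nlinarith [sq_nonneg x]

lemma cm_le_one (m : ℕ) (x : ℝ) : cm m x ≤ 1 := by
  unfold cm
  have h1 : (1 + x ^ 2)⁻¹ ≤ 1 := inv_le_one_of_one_le₀ (by nlinarith [sq_nonneg x])
  have h2 : 0 ≤ (1 + 4 ^ m * x ^ 2)⁻¹ := by positivity
  linarith

/-- the zeros in `(2 T / K, K₀ T]` -/
noncomputable def ZB (a b : ℝ) (ha : 0 ≤ a) : Finset ℂ := (fin.1 a b ha).toFinset

lemma mem_ZB {a b : ℝ} {ha : 0 ≤ a} {s : ℂ} : s ∈ ZB a b ha ↔ s ∈ zeros a b :=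
  Set.Finite.mem_toFinset _

/-- The integral for one zero. -/
theorem one_zero2 {K : ℝ} {m : ℕ} {T : ℝ} (hK : 2 ≤ K) (hT : 0 < T) {γ W : ℝ} (hW : 0 ≤ W)
    (h1 : 2 * T / K < γ) (h2 : γ ≤ K * T) :
    ENNReal.ofReal (cm m (γ / T) / T ^ 2 * W) ≤ ∫⁻ τ in Set.Icc (T / K) (K * T),
      (Set.Ioo (γ / 2) γ).indicator (fun τ => ENNReal.ofReal (q m (τ / T) / T ^ 3 * W)) τ := by
  have hK0 : 0 < K := by linarith
  have hγ0 : 0 < γ := lt_of_le_of_lt (by positivity) h1
  have hsub : Set.Ioo (γ / 2) γ ⊆ Set.Icc (T / K) (K * T) := by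
    intro τ hτ
    constructor
    · have h3 : T / K < γ / 2 := by
        have h4 : 2 * T / K = 2 * (T / K) := by ring
        rw [h4] at h1
        linarith
      exact (h3.trans hτ.1).le
    · exact hτ.2.le.trans h2
  rw [lintegral_indicator measurableSet_Ioo, Measure.restrict_restrict measurableSet_Ioo,
    Set.inter_eq_left.2 hsub]
  have hcont : Continuous (fun τ : ℝ => q m (τ / T) / T ^ 3 * W) := by
    have h3 := (BADL.q_cont m).comp (continuous_id.div_const T)
    exact (h3.div_const _).mul continuous_const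
  have hint : IntegrableOn (fun τ : ℝ => q m (τ / T) / T ^ 3 * W) (Set.Ioo (γ / 2) γ) :=
    (hcont.integrableOn_Icc (a := γ / 2) (b := γ)).mono_set Set.Ioo_subset_Icc_self
  have hnn : 0 ≤ᵐ[volume.restrict (Set.Ioo (γ / 2) γ)]
      (fun τ : ℝ => q m (τ / T) / T ^ 3 * W) := by
    refine (ae_restrict_mem measurableSet_Ioo).mono fun τ hτ => ?_
    have h3 : 0 ≤ τ / T := div_nonneg (by linarith [hτ.1]) hT.le
    have h4 := q_nonneg m h3
    positivity
  rw [← ofReal_integral_eq_lintegral_ofReal hint hnn]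
  apply ENNReal.ofReal_le_ofReal
  rw [← integral_Ioc_eq_integral_Ioo, ← intervalIntegral.integral_of_le (by linarith),
    intervalIntegral.integral_mul_const, intervalIntegral.integral_div,
    intervalIntegral.integral_comp_div (fun y => q m y) hT.ne', smul_eq_mul]
  have h7 : γ / 2 / T = γ / T / 2 := by ring
  rw [h7, int_q]
  have h8 : T * ((1 + (γ / T) ^ 2)⁻¹ - (1 + 4 ^ m * (γ / T) ^ 2)⁻¹) / T ^ 3 =
      cm m (γ / T) / T ^ 2 := by
    unfold cm
    field_simp
  rw [h8]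

theorem bad2 (K K₀ : ℝ) (m : ℕ) (T : ℝ) (hK : 2 ≤ K) (hKK : K₀ ≤ K) (hT : 0 < T)
    (ha : 0 ≤ 2 * T / K) :
    ENNReal.ofReal (1 / T ^ 2 * ∑ s ∈ ZB (2 * T / K) (K₀ * T) ha, cm m (s.im / T) * wt s) ≤
      ∫⁻ τ in Set.Icc (T / K) (K * T), ENNReal.ofReal (q m (τ / T) / T ^ 3 * Nb τ (2 * τ)) := by
  classical
  have hK0 : 0 < K := by linarith
  have hZ : ∀ s ∈ ZB (2 * T / K) (K₀ * T) ha, 2 * T / K < s.im ∧ s.im ≤ K * T := by
    intro s hs
    have h1 := mem_ZB.1 hs
    exact ⟨h1.2.2.1, h1.2.2.2.1.trans (mul_le_mul_of_nonneg_right hKK hT.le)⟩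
  calc ENNReal.ofReal (1 / T ^ 2 * ∑ s ∈ ZB (2 * T / K) (K₀ * T) ha, cm m (s.im / T) * wt s)
      = ∑ s ∈ ZB (2 * T / K) (K₀ * T) ha, ENNReal.ofReal (cm m (s.im / T) / T ^ 2 * wt s) := by
        rw [Finset.mul_sum, ENNReal.ofReal_sum_of_nonneg]
        · refine Finset.sum_congr rfl fun s _ => ?_
          congr 1
          ring
        · intro s _
          have := wt_nonneg s
          have := cm_nonneg m (s.im / T)
          positivity
    _ ≤ ∑ s ∈ ZB (2 * T / K) (K₀ * T) ha, ∫⁻ τ in Set.Icc (T / K) (K * T),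
        (Set.Ioo (s.im / 2) s.im).indicator
          (fun τ => ENNReal.ofReal (q m (τ / T) / T ^ 3 * wt s)) τ :=
        Finset.sum_le_sum fun s hs =>
          one_zero2 hK hT (wt_nonneg s) (hZ s hs).1 (hZ s hs).2
    _ = ∫⁻ τ in Set.Icc (T / K) (K * T), ∑ s ∈ ZB (2 * T / K) (K₀ * T) ha,
        (Set.Ioo (s.im / 2) s.im).indicator
          (fun τ => ENNReal.ofReal (q m (τ / T) / T ^ 3 * wt s)) τ := by
        rw [lintegral_finsetSum]
        intro s _
        refine Measurable.indicator ?_ measurableSet_Ioo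
        have h3 := (BADL.q_cont m).comp (continuous_id.div_const T)
        exact ((h3.div_const _).mul continuous_const).measurable.ennreal_ofReal
    _ ≤ ∫⁻ τ in Set.Icc (T / K) (K * T), ENNReal.ofReal (q m (τ / T) / T ^ 3 * Nb τ (2 * τ)) := by
        refine setLIntegral_mono_ae' measurableSet_Icc (ae_of_all _ fun τ hτ => ?_)
        have hτ0 : 0 < τ := lt_of_lt_of_le (by positivity) hτ.1
        have hQ : 0 ≤ q m (τ / T) / T ^ 3 := by
          have := q_nonneg m (div_nonneg hτ0.le hT.le)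
          positivity
        have h1 : ∑ s ∈ ZB (2 * T / K) (K₀ * T) ha,
            (Set.Ioo (s.im / 2) s.im).indicator
              (fun τ => ENNReal.ofReal (q m (τ / T) / T ^ 3 * wt s)) τ =
            ∑ s ∈ (ZB (2 * T / K) (K₀ * T) ha).filter
              (fun s => τ ∈ Set.Ioo (s.im / 2) s.im),
              ENNReal.ofReal (q m (τ / T) / T ^ 3 * wt s) := by
          rw [Finset.sum_filter]
          refine Finset.sum_congr rfl fun s _ => ?_
          rw [Set.indicator_apply]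
        rw [h1, ← ENNReal.ofReal_sum_of_nonneg (fun s _ => mul_nonneg hQ (wt_nonneg s)),
          ← Finset.mul_sum, Nb_eq fin hτ0.le]
        apply ENNReal.ofReal_le_ofReal
        refine mul_le_mul_of_nonneg_left ?_ hQ
        refine Finset.sum_le_sum_of_subset_of_nonneg ?_ fun s _ _ => wt_nonneg s
        intro s hs
        obtain ⟨hs1, hs2⟩ := Finset.mem_filter.1 hs
        have hs3 := mem_ZB.1 hs1
        refine (Set.Finite.mem_toFinset _).2 ⟨hs3.1, hs3.2.1, hs2.2, ?_, hs3.2.2.2.2⟩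
        have := hs2.1
        linarith

end H479.Z
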