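import Pool.Agent.H479.Z.Stm

/-! # the lower bound for a dyadic block (proved by helper548) -/


open MeasureTheory Complex Filter Topology
open scoped ENNReal

namespace H479.Z

namespace BKL

theorem ofReal_int_le {α : Type*} [MeasurableSpace α] {μ : Measure α} {f : α → ℝ}
    (hf : 0 ≤ᵐ[μ] f) : ENNReal.ofReal (∫ x, f x ∂μ) ≤ ∫⁻ x, ENNReal.ofReal (f x) ∂μ := by
  by_cases h : Integrable f μ
  · rw [ofReal_integral_eq_lintegral_ofReal h hf]
  · rw [integral_undef h, ENNReal.ofReal_zero]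
    exact zero_le

theorem norm_R_sq (u t : ℝ) : ‖R u t‖ ^ 2 = 2 * Real.pi * Real.exp (u + 1 / 4 - t ^ 2) := by
  unfold R
  rw [norm_mul, norm_exp, norm_real, Real.norm_of_nonneg (Real.sqrt_nonneg _), mul_pow,
    Real.sq_sqrt (by positivity), ← Real.exp_nat_mul]
  congr 2
  have e1 : ((1 / 2 : ℂ) - t * I) ^ 2 = ((1 / 4 - t ^ 2 : ℝ) : ℂ) + ((-t : ℝ) : ℂ) * I := by
    push_cast
    have : I ^ 2 = -1 := I_sq
    linear_combination (t : ℂ) ^ 2 * this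
  have e2 : (((1 / 2 : ℂ) - t * I) * u + (((1 / 4 - t ^ 2 : ℝ) : ℂ) + ((-t : ℝ) : ℂ) * I) / 2).re =
      u / 2 + (1 / 4 - t ^ 2) / 2 := by
    have e3 : (((1 / 2 : ℂ) - t * I) * u).re = u / 2 := by
      simp
      ring
    have e4 : ((((1 / 4 - t ^ 2 : ℝ) : ℂ) + ((-t : ℝ) : ℂ) * I) / 2).re = (1 / 4 - t ^ 2) / 2 := by
      rw [show (2 : ℂ) = ((2 : ℝ) : ℂ) by norm_num, div_ofReal_re, add_re, ofReal_re, re_ofReal_mul,
        I_re, mul_zero, add_zero]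
    rw [add_re, e3, e4]
  rw [e1, e2]
  push_cast
  ring

theorem norm_P_sq (u t δ : ℝ) (hδ : 0 < δ) :
    ‖P u t‖ ^ 2 ≤ (1 + δ) * ‖Q u t‖ ^ 2 + (1 + 1 / δ) * ‖R u t‖ ^ 2 := by
  have h1 : ‖P u t‖ ≤ ‖Q u t‖ + ‖R u t‖ := by
    have e : P u t = Q u t + R u t := by
      unfold Q
      ring
    rw [e]
    exact norm_add_le _ _
  have h2 : ‖P u t‖ ^ 2 ≤ (‖Q u t‖ + ‖R u t‖) ^ 2 := pow_le_pow_left₀ (norm_nonneg _) h1 2
  have h3 : 2 * ‖Q u t‖ * ‖R u t‖ ≤ δ * ‖Q u t‖ ^ 2 + 1 / δ * ‖R u t‖ ^ 2 := by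
    have h4 : 0 ≤ (δ * ‖Q u t‖ - ‖R u t‖) ^ 2 / δ := by positivity
    have e : (δ * ‖Q u t‖ - ‖R u t‖) ^ 2 / δ =
        δ * ‖Q u t‖ ^ 2 + 1 / δ * ‖R u t‖ ^ 2 - 2 * ‖Q u t‖ * ‖R u t‖ := by
      field_simp
      ring
    linarith
  nlinarith

/-- the change of variables -/
theorem mean_eq {bq τ : ℝ} (hτ : 0 < τ) (hl : 0 < Real.log τ) :
    Real.log τ ^ 2 * τ * (∫ α in (0 : ℝ)..bq, (bq - α) * M α τ) =
      ∫ u in (0 : ℝ)..(bq * Real.log τ), (bq - u / Real.log τ) / Real.sqrt Real.pi *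
        ∫ t in τ..(2 * τ), ‖P u t‖ ^ 2 := by
  have h1 := intervalIntegral.integral_comp_mul_right (a := 0) (b := bq)
    (fun u : ℝ => (bq - u / Real.log τ) / Real.sqrt Real.pi * ∫ t in τ..(2 * τ), ‖P u t‖ ^ 2) hl.ne'
  rw [zero_mul, smul_eq_mul] at h1
  have h2 : (∫ u in (0 : ℝ)..(bq * Real.log τ), (bq - u / Real.log τ) / Real.sqrt Real.pi *
        ∫ t in τ..(2 * τ), ‖P u t‖ ^ 2) = Real.log τ * ∫ α in (0 : ℝ)..bq,
          (bq - α * Real.log τ / Real.log τ) / Real.sqrt Real.pi *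
            ∫ t in τ..(2 * τ), ‖P (α * Real.log τ) t‖ ^ 2 := by
    rw [h1, ← mul_assoc, mul_inv_cancel₀ hl.ne', one_mul]
  rw [h2, ← intervalIntegral.integral_const_mul, ← intervalIntegral.integral_const_mul]
  refine intervalIntegral.integral_congr fun α _ => ?_
  have hs : Real.sqrt Real.pi ≠ 0 := (Real.sqrt_pos.2 Real.pi_pos).ne'
  simp only [M]
  rw [mul_div_assoc, div_self hl.ne', mul_one]
  have hl' := hl.ne'
  field_simp

/-- the integral inequality -/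
theorem main_int (hMZ : S_MZ) {bq τ δ : ℝ} (hbq : 0 < bq) (hτ : 0 < τ) (hl : 0 < Real.log τ)
    (hδ : 0 < δ) :
    ENNReal.ofReal (Real.log τ ^ 2 * τ * (∫ α in (0 : ℝ)..bq, (bq - α) * M α τ)) ≤
      ENNReal.ofReal (1 + δ) * (∫⁻ t in Set.Ioc τ (2 * τ), ∫⁻ u in Set.Ioc (0 : ℝ) (bq * Real.log τ),
        ENNReal.ofReal ((bq - u / Real.log τ) / Real.sqrt Real.pi * ‖Q u t‖ ^ 2)) +
      ENNReal.ofReal ((1 + 1 / δ) * (bq / Real.sqrt Real.pi *
        (2 * Real.pi * Real.exp (bq * Real.log τ + 1 / 4 - τ ^ 2))) * τ * (bq * Real.log τ)) := by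
  have hs : 0 < Real.sqrt Real.pi := Real.sqrt_pos.2 Real.pi_pos
  have hbl : 0 < bq * Real.log τ := mul_pos hbq hl
  set lam := Real.log τ with hlam
  set w : ℝ → ℝ := fun u => (bq - u / lam) / Real.sqrt Real.pi with hw
  have hw0 : ∀ u ∈ Set.Ioc (0 : ℝ) (bq * lam), 0 ≤ w u ∧ w u ≤ bq / Real.sqrt Real.pi := by
    intro u hu
    have h1 : u / lam ≤ bq := (div_le_iff₀ hl).2 hu.2
    have h2 : 0 ≤ u / lam := div_nonneg hu.1.le hl.le
    exact ⟨div_nonneg (by linarith) hs.le, div_le_div_of_nonneg_right (by linarith) hs.le⟩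
  rw [mean_eq hτ hl, intervalIntegral.integral_of_le hbl.le]
  have hg : ∀ u, 0 ≤ ∫ t in τ..(2 * τ), ‖P u t‖ ^ 2 := fun u =>
    intervalIntegral.integral_nonneg (by linarith) fun t _ => sq_nonneg _
  -- first step: to lintegrals
  have s1 : ENNReal.ofReal (∫ u in Set.Ioc (0 : ℝ) (bq * lam), w u * ∫ t in τ..(2 * τ), ‖P u t‖ ^ 2) ≤
      ∫⁻ u in Set.Ioc (0 : ℝ) (bq * lam), ∫⁻ t in Set.Ioc τ (2 * τ),
        ENNReal.ofReal (w u * ‖P u t‖ ^ 2) := by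
    refine (ofReal_int_le ?_).trans ?_
    · filter_upwards [ae_restrict_mem measurableSet_Ioc] with u hu
      exact mul_nonneg (hw0 u hu).1 (hg u)
    · refine lintegral_mono_ae ?_
      filter_upwards [ae_restrict_mem measurableSet_Ioc] with u hu
      rw [intervalIntegral.integral_of_le (by linarith), ← integral_const_mul]
      refine ofReal_int_le ?_
      filter_upwards with t
      exact mul_nonneg (hw0 u hu).1 (sq_nonneg _)
  refine s1.trans ?_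
  set E0 : ℝ := (1 + 1 / δ) * (bq / Real.sqrt Real.pi *
        (2 * Real.pi * Real.exp (bq * lam + 1 / 4 - τ ^ 2))) with hE0
  have hE0n : 0 ≤ E0 := by positivity
  -- pointwise
  have s2 : ∀ u ∈ Set.Ioc (0 : ℝ) (bq * lam), ∀ t ∈ Set.Ioc τ (2 * τ),
      ENNReal.ofReal (w u * ‖P u t‖ ^ 2) ≤
        ENNReal.ofReal (1 + δ) * ENNReal.ofReal (w u * ‖Q u t‖ ^ 2) + ENNReal.ofReal E0 := by
    intro u hu t ht
    obtain ⟨h1, h2⟩ := hw0 u hu
    have h3 := norm_P_sq u t δ hδ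
    have h4 : ‖R u t‖ ^ 2 ≤ 2 * Real.pi * Real.exp (bq * lam + 1 / 4 - τ ^ 2) := by
      rw [norm_R_sq]
      have h5 : τ ^ 2 ≤ t ^ 2 := pow_le_pow_left₀ hτ.le ht.1.le 2
      have h6 : u + 1 / 4 - t ^ 2 ≤ bq * lam + 1 / 4 - τ ^ 2 := by linarith [hu.2]
      have := Real.pi_pos
      gcongr
    have h5 : w u * ‖P u t‖ ^ 2 ≤ (1 + δ) * (w u * ‖Q u t‖ ^ 2) + E0 := by
      have h6 := mul_le_mul_of_nonneg_left h3 h1
      have h7 : w u * ‖R u t‖ ^ 2 ≤ bq / Real.sqrt Real.pi *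
          (2 * Real.pi * Real.exp (bq * lam + 1 / 4 - τ ^ 2)) :=
        mul_le_mul h2 h4 (sq_nonneg _) (by positivity)
      have h8 := mul_le_mul_of_nonneg_left h7 (show 0 ≤ 1 + 1 / δ by positivity)
      calc w u * ‖P u t‖ ^ 2 ≤ w u * ((1 + δ) * ‖Q u t‖ ^ 2 + (1 + 1 / δ) * ‖R u t‖ ^ 2) := h6
        _ = (1 + δ) * (w u * ‖Q u t‖ ^ 2) + (1 + 1 / δ) * (w u * ‖R u t‖ ^ 2) := by ring
        _ ≤ _ := by linarith
    calc ENNReal.ofReal (w u * ‖P u t‖ ^ 2) ≤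
          ENNReal.ofReal ((1 + δ) * (w u * ‖Q u t‖ ^ 2) + E0) := ENNReal.ofReal_le_ofReal h5
      _ ≤ ENNReal.ofReal ((1 + δ) * (w u * ‖Q u t‖ ^ 2)) + ENNReal.ofReal E0 :=
          ENNReal.ofReal_add_le
      _ = _ := by rw [ENNReal.ofReal_mul (by positivity)]
  have hmw : Measurable w := by
    rw [hw]
    fun_prop
  have hmQ : Measurable (fun p : ℝ × ℝ => ENNReal.ofReal (w p.1 * ‖Q p.1 p.2‖ ^ 2)) :=
    ((hmw.comp measurable_fst).mul (hMZ.2.2.1.norm.pow_const 2)).ennreal_ofReal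
  have s3 : ∫⁻ u in Set.Ioc (0 : ℝ) (bq * lam), ∫⁻ t in Set.Ioc τ (2 * τ),
        ENNReal.ofReal (w u * ‖P u t‖ ^ 2) ≤
      ∫⁻ u in Set.Ioc (0 : ℝ) (bq * lam), ∫⁻ t in Set.Ioc τ (2 * τ),
        (ENNReal.ofReal (1 + δ) * ENNReal.ofReal (w u * ‖Q u t‖ ^ 2) + ENNReal.ofReal E0) := by
    refine lintegral_mono_ae ?_
    filter_upwards [ae_restrict_mem measurableSet_Ioc] with u hu
    refine lintegral_mono_ae ?_
    filter_upwards [ae_restrict_mem measurableSet_Ioc] with t ht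
    exact s2 u hu t ht
  refine s3.trans ?_
  have s4 : ∀ u : ℝ, ∫⁻ t in Set.Ioc τ (2 * τ),
        (ENNReal.ofReal (1 + δ) * ENNReal.ofReal (w u * ‖Q u t‖ ^ 2) + ENNReal.ofReal E0) =
      ENNReal.ofReal (1 + δ) * (∫⁻ t in Set.Ioc τ (2 * τ), ENNReal.ofReal (w u * ‖Q u t‖ ^ 2)) +
        ENNReal.ofReal E0 * ENNReal.ofReal τ := by
    intro u
    have hm1 : Measurable (fun t : ℝ => ENNReal.ofReal (w u * ‖Q u t‖ ^ 2)) :=
      hmQ.comp (measurable_const.prodMk measurable_id)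
    rw [lintegral_add_left (hm1.const_mul _), lintegral_const_mul _ hm1, lintegral_const,
      Measure.restrict_apply_univ, Real.volume_Ioc]
    congr 3
    ring
  have hm2 : Measurable (fun u : ℝ => ∫⁻ t in Set.Ioc τ (2 * τ),
      ENNReal.ofReal (w u * ‖Q u t‖ ^ 2)) := hmQ.lintegral_prod_right'
  have s5 : (∫⁻ u in Set.Ioc (0 : ℝ) (bq * lam), ∫⁻ t in Set.Ioc τ (2 * τ),
        (ENNReal.ofReal (1 + δ) * ENNReal.ofReal (w u * ‖Q u t‖ ^ 2) + ENNReal.ofReal E0)) =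
      ENNReal.ofReal (1 + δ) * (∫⁻ u in Set.Ioc (0 : ℝ) (bq * lam), ∫⁻ t in Set.Ioc τ (2 * τ),
        ENNReal.ofReal (w u * ‖Q u t‖ ^ 2)) +
        ENNReal.ofReal E0 * ENNReal.ofReal τ * ENNReal.ofReal (bq * lam) := by
    rw [lintegral_congr fun u => s4 u, lintegral_add_left (hm2.const_mul _),
      lintegral_const_mul _ hm2, lintegral_const, Measure.restrict_apply_univ, Real.volume_Ioc,
      sub_zero]
  rw [s5, lintegral_lintegral_swap (f := fun u t => ENNReal.ofReal (w u * ‖Q u t‖ ^ 2))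
    hmQ.aemeasurable]
  refine le_of_eq ?_
  congr 1
  rw [← ENNReal.ofReal_mul hE0n, ← ENNReal.ofReal_mul (mul_nonneg hE0n hτ.le)]

/-- the weights -/
theorem weight_le (bq bp lam L lk : ℝ) (hL : 0 < L) (hlam : 0 < lam) (hbq : 0 < bq)
    (hlk : 0 ≤ lk) (h1 : lam ≤ L + lk) (h2 : bq * lk ≤ (bp - bq) * L) :
    bq * lam ≤ bp * L ∧ ∀ u : ℝ, 0 < u → u ≤ bq * lam → bq - u / lam ≤ bp - u / L := by
  constructor
  · nlinarith
  · intro u hu hu2
    have e : u / L - u / lam = u / lam * ((lam - L) / L) := by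
      field_simp
    have h3 : u / lam ≤ bq := (div_le_iff₀ hlam).2 hu2
    have h4 : 0 ≤ u / lam := by positivity
    have h5 : (lam - L) / L ≤ lk / L := by
      apply div_le_div_of_nonneg_right _ hL.le
      linarith
    have h6 : u / lam * ((lam - L) / L) ≤ bq * (lk / L) := by
      calc u / lam * ((lam - L) / L) ≤ u / lam * (lk / L) := mul_le_mul_of_nonneg_left h5 h4
        _ ≤ bq * (lk / L) := mul_le_mul_of_nonneg_right h3 (by positivity)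
    have h7 : bq * (lk / L) ≤ bp - bq := by
      rw [← mul_div_assoc, div_le_iff₀ hL]
      exact h2
    linarith

theorem Nb_nonneg (hFIN : S_FIN) {a b : ℝ} (ha : 0 ≤ a) : 0 ≤ Nb a b := by
  have hf := hFIN.1 a b ha
  have h1 : Ns a b ≤ N a b := by
    have h2 : Ns a b ≤ (zeros a b).ncard := by
      unfold Ns
      exact Set.ncard_le_ncard (fun s hs => hs.1) hf
    refine h2.trans ?_
    unfold N
    rw [finsum_mem_eq_finite_toFinset_sum _ hf, Set.ncard_eq_toFinset_card _ hf,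
      Finset.card_eq_sum_ones]
    refine Finset.sum_le_sum fun s hs => ?_
    rw [Set.Finite.mem_toFinset] at hs
    obtain ⟨h3, h4, h5, -, h6⟩ := hs
    exact hFIN.2 s h3 h4 (lt_of_le_of_lt ha h5) h6
  unfold Nb
  have h2 : (Ns a b : ℝ) ≤ N a b := by exact_mod_cast h1
  linarith

/-- the final inequality of real numbers -/
theorem fin_ineq {e0 ε κ L lam τ E p N : ℝ} (he0 : 0 < e0) (he1 : e0 ≤ ε / 16)
    (he2 : e0 ≤ 1 / 16) (he3 : e0 * κ ≤ ε / 16) (hκ0 : 0 ≤ κ) (hL0 : 0 < L) (hlam0 : 0 < lam)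
    (hτ0 : 0 < τ) (hε : 0 < ε) (hp : 0 ≤ p) (hN : 0 ≤ N) (hlow : (1 - e0) * L ≤ lam)
    (hup : lam ≤ (1 + e0) * L) (hE : E ≤ ε / 4 * (L ^ 2 * τ)) :
    (1 + e0) * (L ^ 2 * τ * (κ - ε) + (1 - ε) * p * L * N) + E ≤
      lam ^ 2 * τ * (κ - e0) + (1 - e0) * p * lam * N := by
  have hL2 : 0 < L ^ 2 := by positivity
  have n1 : (1 - e0) * ((1 - e0) * L) ≤ (1 - e0) * lam :=
    mul_le_mul_of_nonneg_left hlow (by linarith)
  have n2 : (1 + e0) * (1 - ε) ≤ (1 - e0) * (1 - e0) := by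
    have : 0 ≤ e0 * ε := by positivity
    have h2 : 0 ≤ e0 * e0 := by positivity
    linarith
  have n3 := mul_le_mul_of_nonneg_right n2 hL0.le
  have n4 : (1 + e0) * (1 - ε) * L ≤ (1 - e0) * lam := by linarith
  have n5 := mul_le_mul_of_nonneg_right n4 (mul_nonneg hp hN)
  have m1 : ((1 - e0) * L) ^ 2 ≤ lam ^ 2 :=
    pow_le_pow_left₀ (mul_nonneg (by linarith) hL0.le) hlow 2
  have m2 : lam ^ 2 ≤ (2 * L) ^ 2 := by
    refine pow_le_pow_left₀ hlam0.le (hup.trans ?_) 2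
    exact mul_le_mul_of_nonneg_right (by linarith) hL0.le
  have m3 := mul_le_mul_of_nonneg_right m1 hκ0
  have m4 := mul_le_mul_of_nonneg_right m2 he0.le
  have m5 : (1 + e0) * (κ - ε) + ε / 4 ≤ (1 - e0) ^ 2 * κ - 4 * e0 := by
    have h1 : 0 ≤ e0 ^ 2 * κ := by positivity
    have h2 : 0 ≤ e0 * ε := by positivity
    have e : (1 - e0) ^ 2 * κ = κ - 2 * (e0 * κ) + e0 ^ 2 * κ := by ring
    have e' : (1 + e0) * (κ - ε) = κ - ε + e0 * κ - e0 * ε := by ring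
    rw [e, e']
    linarith
  have m6 := mul_le_mul_of_nonneg_right m5 hL2.le
  have m7 : ((1 + e0) * (κ - ε) + ε / 4) * L ^ 2 ≤ lam ^ 2 * (κ - e0) := by
    refine m6.trans ?_
    have e1 : ((1 - e0) ^ 2 * κ - 4 * e0) * L ^ 2 = ((1 - e0) * L) ^ 2 * κ - (2 * L) ^ 2 * e0 := by
      ring
    have e2 : lam ^ 2 * (κ - e0) = lam ^ 2 * κ - lam ^ 2 * e0 := by ring
    rw [e1, e2]
    linarith
  have m8 := mul_le_mul_of_nonneg_right m7 hτ0.le
  have e1 : (1 + e0) * (L ^ 2 * τ * (κ - ε) + (1 - ε) * p * L * N) + ε / 4 * (L ^ 2 * τ) =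
      ((1 + e0) * (κ - ε) + ε / 4) * L ^ 2 * τ + (1 + e0) * (1 - ε) * L * (p * N) := by ring
  have e2 : lam ^ 2 * τ * (κ - e0) + (1 - e0) * p * lam * N =
      lam ^ 2 * (κ - e0) * τ + (1 - e0) * lam * (p * N) := by ring
  calc (1 + e0) * (L ^ 2 * τ * (κ - ε) + (1 - ε) * p * L * N) + E ≤
        (1 + e0) * (L ^ 2 * τ * (κ - ε) + (1 - ε) * p * L * N) + ε / 4 * (L ^ 2 * τ) := by linarith
    _ ≤ _ := by
      rw [e1, e2]
      linarith

end BKL

theorem bk (hMB : S_MB) (hFIN : S_FIN) (hMZ : S_MZ) : S_BK := by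
  intro bq bp K ε hbq hbqp hK hε
  have hbq0 : 0 < bq := by linarith
  obtain ⟨κ, hκ⟩ : ∃ κ : ℝ, κ = bq * (bq - 1) / 2 := ⟨_, rfl⟩
  have hκ0 : 0 ≤ κ := by
    rw [hκ]
    have : 0 ≤ bq - 1 := by linarith
    positivity
  obtain ⟨e0, he0, he1, he2, he3⟩ : ∃ e0 : ℝ, 0 < e0 ∧ e0 ≤ ε / 16 ∧ e0 ≤ 1 / 16 ∧
      e0 * κ ≤ ε / 16 := by
    refine ⟨min (min (ε / 16) (1 / 16)) (ε / (16 * (κ + 1))), by positivity,
      (min_le_left _ _).trans (min_le_left _ _), (min_le_left _ _).trans (min_le_right _ _), ?_⟩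
    calc min (min (ε / 16) (1 / 16)) (ε / (16 * (κ + 1))) * κ ≤ ε / (16 * (κ + 1)) * κ :=
          mul_le_mul_of_nonneg_right (min_le_right _ _) hκ0
      _ ≤ ε / (16 * (κ + 1)) * (κ + 1) := mul_le_mul_of_nonneg_left (by linarith) (by positivity)
      _ = ε / 16 := by field_simp
  obtain ⟨T₁, hT₁⟩ := hMB bq e0 hbq he0
  have hs : 0 < Real.sqrt Real.pi := Real.sqrt_pos.2 Real.pi_pos
  have hpi := Real.pi_pos
  obtain ⟨C₁, hC₁⟩ : ∃ C₁ : ℝ, C₁ = (1 + 1 / e0) * (bq / Real.sqrt Real.pi *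
    (2 * Real.pi * Real.exp (1 / 4))) * bq := ⟨_, rfl⟩
  have hC₁0 : 0 < C₁ := by rw [hC₁]; positivity
  have hK0 : 0 < K := by linarith
  have hlK : 0 ≤ Real.log K := Real.log_nonneg hK
  have hex : ∃ T₀ : ℝ, ∀ T : ℝ, T₀ ≤ T → 1 ≤ Real.log T ∧ Real.log K / e0 ≤ Real.log T ∧
      bq * Real.log K / (bp - bq) ≤ Real.log T ∧ T₁ ≤ T / K ∧ bq + 1 ≤ T / K ∧
      Real.exp 1 ≤ T / K ∧ Real.log (8 * C₁ / ε) ≤ T / K ∧ 0 < T := by
    have h1 := Real.tendsto_log_atTop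
    have h2 : Tendsto (fun T : ℝ => T / K) atTop atTop := tendsto_id.atTop_div_const hK0
    have := ((h1.eventually_ge_atTop 1).and ((h1.eventually_ge_atTop (Real.log K / e0)).and
      ((h1.eventually_ge_atTop (bq * Real.log K / (bp - bq))).and
      ((h2.eventually_ge_atTop T₁).and ((h2.eventually_ge_atTop (bq + 1)).and
      ((h2.eventually_ge_atTop (Real.exp 1)).and
      ((h2.eventually_ge_atTop (Real.log (8 * C₁ / ε))).and (eventually_gt_atTop 0))))))))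
    exact eventually_atTop.1 this
  obtain ⟨T₀, hT₀⟩ := hex
  refine ⟨T₀, fun T hT τ hτ1 hτ2 => ?_⟩
  obtain ⟨a1, a2, a3, a4, a5, a6, a7, hT0⟩ := hT₀ T hT
  have hτ0 : 0 < τ := lt_of_lt_of_le (by positivity) hτ1
  obtain ⟨L, hL⟩ : ∃ L : ℝ, L = Real.log T := ⟨_, rfl⟩
  obtain ⟨lam, hlam⟩ : ∃ lam : ℝ, lam = Real.log τ := ⟨_, rfl⟩
  have hlam1 : 1 ≤ lam := by
    rw [hlam, Real.le_log_iff_exp_le hτ0]
    linarith
  have hlamL : L - Real.log K ≤ lam := by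
    rw [hL, hlam, ← Real.log_div hT0.ne' hK0.ne']
    exact Real.log_le_log (by positivity) hτ1
  have hlamU : lam ≤ L + Real.log K := by
    rw [hL, hlam, ← Real.log_mul hT0.ne' hK0.ne', mul_comm T K]
    exact Real.log_le_log hτ0 hτ2
  rw [← hL] at a1 a2 a3
  have b2 : Real.log K ≤ e0 * L := by
    rw [div_le_iff₀ he0] at a2
    linarith
  have b3 : bq * Real.log K ≤ (bp - bq) * L := by
    rw [div_le_iff₀ (by linarith)] at a3
    linarith
  have hL0 : 0 < L := by linarith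
  have hlam0 : 0 < lam := by linarith
  have hNb := BKL.Nb_nonneg hFIN (b := 2 * τ) hτ0.le
  -- the mean square
  have hmb := hT₁ τ (by linarith)
  rw [← hlam, ← hκ] at hmb
  have hA : lam ^ 2 * τ * (κ - e0) + (1 - e0) * Real.pi * bq ^ 2 * lam * Nb τ (2 * τ) ≤
      lam ^ 2 * τ * (∫ α in (0 : ℝ)..bq, (bq - α) * M α τ) := by
    have h1 := mul_le_mul_of_nonneg_left hmb (show 0 ≤ lam ^ 2 * τ by positivity)
    refine le_trans (le_of_eq ?_) h1
    field_simp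
  have hint := BKL.main_int hMZ hbq0 hτ0 (by rw [← hlam]; exact hlam0) he0 (δ := e0)
  rw [← hlam] at hint
  -- the error
  obtain ⟨E, hE⟩ : ∃ E : ℝ, E = (1 + 1 / e0) * (bq / Real.sqrt Real.pi *
        (2 * Real.pi * Real.exp (bq * lam + 1 / 4 - τ ^ 2))) * τ * (bq * lam) := ⟨_, rfl⟩
  rw [← hE] at hint
  have hE0 : 0 ≤ E := by rw [hE]; positivity
  have hEle : E ≤ ε / 4 * (L ^ 2 * τ) := by
    have h1 : E = C₁ * Real.exp (bq * lam - τ ^ 2) * (lam * τ) := by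
      rw [hE, hC₁]
      have : Real.exp (bq * lam + 1 / 4 - τ ^ 2) = Real.exp (1 / 4) * Real.exp (bq * lam - τ ^ 2) := by
        rw [← Real.exp_add]
        congr 1
        ring
      rw [this]
      ring
    have h2 : lam ≤ τ := by
      rw [hlam]
      exact (Real.log_le_sub_one_of_pos hτ0).trans (by linarith)
    have h3 : bq * lam - τ ^ 2 ≤ -τ := by
      have g1 := mul_le_mul_of_nonneg_left h2 hbq0.le
      have g2 := mul_le_mul_of_nonneg_right (a5.trans hτ1) hτ0.le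
      have g3 : τ ^ 2 = τ * τ := sq τ
      rw [g3]
      linarith
    have h4 : Real.exp (bq * lam - τ ^ 2) ≤ ε / (8 * C₁) := by
      have h5 : Real.log (8 * C₁ / ε) ≤ τ := a7.trans hτ1
      have h6 : 8 * C₁ / ε ≤ Real.exp τ := by
        rwa [Real.log_le_iff_le_exp (by positivity)] at h5
      calc Real.exp (bq * lam - τ ^ 2) ≤ Real.exp (-τ) := Real.exp_le_exp.2 h3
        _ = 1 / Real.exp τ := by rw [Real.exp_neg, one_div]
        _ ≤ 1 / (8 * C₁ / ε) := one_div_le_one_div_of_le (by positivity) h6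
        _ = ε / (8 * C₁) := by field_simp
    have h5 : C₁ * Real.exp (bq * lam - τ ^ 2) ≤ ε / 8 := by
      calc C₁ * Real.exp (bq * lam - τ ^ 2) ≤ C₁ * (ε / (8 * C₁)) :=
            mul_le_mul_of_nonneg_left h4 hC₁0.le
        _ = ε / 8 := by field_simp
    have h6 : lam ≤ 2 * L ^ 2 := by
      have h7 : e0 * L ≤ 1 * L := mul_le_mul_of_nonneg_right (by linarith) hL0.le
      have h8 : L * 1 ≤ L * L := mul_le_mul_of_nonneg_left a1 hL0.le
      have h9 : L ^ 2 = L * L := sq L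
      rw [h9]
      linarith
    rw [h1]
    calc C₁ * Real.exp (bq * lam - τ ^ 2) * (lam * τ) ≤ ε / 8 * (2 * L ^ 2 * τ) := by
          refine mul_le_mul h5 (mul_le_mul_of_nonneg_right h6 hτ0.le) (by positivity) (by positivity)
      _ = _ := by ring
  -- the final inequality of real numbers
  have hlow : (1 - e0) * L ≤ lam := by
    rw [sub_mul, one_mul]
    linarith
  have hup : lam ≤ (1 + e0) * L := by
    rw [add_mul, one_mul]
    linarith
  have hfin := BKL.fin_ineq (p := Real.pi * bq ^ 2) (N := Nb τ (2 * τ)) he0 he1 he2 he3 hκ0 hL0 hlam0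
    hτ0 hε (by positivity) hNb hlow hup hEle
  have hfin' : (1 + e0) * (L ^ 2 * τ * (κ - ε) + (1 - ε) * Real.pi * bq ^ 2 * L * Nb τ (2 * τ)) + E ≤
      lam ^ 2 * τ * (κ - e0) + (1 - e0) * Real.pi * bq ^ 2 * lam * Nb τ (2 * τ) := by
    refine le_trans (le_of_eq ?_) (hfin.trans (le_of_eq ?_))
    · ring
    · ring
  -- the end
  obtain ⟨hw1, hw2⟩ := BKL.weight_le bq bp lam L (Real.log K) hL0 hlam0 hbq0 hlK hlamU b3
  have hmono : (∫⁻ t in Set.Ioc τ (2 * τ), ∫⁻ u in Set.Ioc (0 : ℝ) (bq * lam),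
        ENNReal.ofReal ((bq - u / lam) / Real.sqrt Real.pi * ‖Q u t‖ ^ 2)) ≤
      ∫⁻ t in Set.Ioc τ (2 * τ), ∫⁻ u in Set.Ioc (0 : ℝ) (bp * L),
        ENNReal.ofReal ((bp - u / L) / Real.sqrt Real.pi * ‖Q u t‖ ^ 2) := by
    refine lintegral_mono fun t => ?_
    refine le_trans ?_ (lintegral_mono_set (Set.Ioc_subset_Ioc_right hw1))
    refine lintegral_mono_ae ?_
    filter_upwards [ae_restrict_mem measurableSet_Ioc] with u hu
    refine ENNReal.ofReal_le_ofReal ?_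
    refine mul_le_mul_of_nonneg_right ?_ (sq_nonneg _)
    exact div_le_div_of_nonneg_right (hw2 u hu.1 hu.2) hs.le
  rw [← hL, ← hκ]
  obtain ⟨Φ, hΦ⟩ : ∃ Φ : ℝ≥0∞, Φ = ∫⁻ t in Set.Ioc τ (2 * τ), ∫⁻ u in Set.Ioc (0 : ℝ) (bp * L),
        ENNReal.ofReal ((bp - u / L) / Real.sqrt Real.pi * ‖Q u t‖ ^ 2) := ⟨_, rfl⟩
  rw [← hΦ] at hmono ⊢
  obtain ⟨B, hB⟩ : ∃ B : ℝ, B = L ^ 2 * τ * (κ - ε) + (1 - ε) * Real.pi * bq ^ 2 * L * Nb τ (2 * τ) :=
    ⟨_, rfl⟩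
  rw [← hB] at hfin' ⊢
  have hkey : ENNReal.ofReal ((1 + e0) * B + E) ≤ ENNReal.ofReal (1 + e0) * Φ + ENNReal.ofReal E := by
    refine (ENNReal.ofReal_le_ofReal (hfin'.trans hA)).trans (hint.trans ?_)
    gcongr
  rcases le_or_gt B 0 with hB0 | hB0
  · rw [ENNReal.ofReal_of_nonpos hB0]
    exact zero_le
  · rw [ENNReal.ofReal_add (by positivity) hE0] at hkey
    have h1 := (ENNReal.add_le_add_iff_right ENNReal.ofReal_ne_top).1 hkey
    rw [ENNReal.ofReal_mul (by positivity)] at h1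
    have hne : ENNReal.ofReal (1 + e0) ≠ 0 := by
      rw [Ne, ENNReal.ofReal_eq_zero, not_le]
      linarith
    exact (ENNReal.mul_le_mul_iff_right hne ENNReal.ofReal_ne_top).1 h1

end H479.Z
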