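import Pool.Agent.H479.Z.Stm

/-! # 1/(T²+t²) as a combination of dyadic blocks (proved by helper276) -/

open MeasureTheory Complex Filter Topology
open scoped ENNReal

namespace H479.Z

namespace BLaux

theorem q_cont (m : ℕ) : Continuous (q m) := by
  unfold q
  refine continuous_finsetSum _ fun k _ => ?_
  refine Continuous.div (by fun_prop) (by fun_prop) ?_
  intro x
  have : (0 : ℝ) ≤ 4 ^ (k + 1) * x ^ 2 := by positivity
  positivity

theorem q_nonneg (m : ℕ) {x : ℝ} (hx : 0 ≤ x) : 0 ≤ q m x := by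
  unfold q
  refine Finset.sum_nonneg fun k _ => ?_
  positivity

/-- the primitive -/
noncomputable def Ph (m : ℕ) (T τ : ℝ) : ℝ :=
  ∑ k ∈ Finset.range m, -(1 / T ^ 2) * (1 + 4 ^ (k + 1) * (τ / T) ^ 2)⁻¹

theorem hasDeriv (m : ℕ) {T : ℝ} (hT : 0 < T) (τ : ℝ) :
    HasDerivAt (Ph m T) (q m (τ / T) / T ^ 3) τ := by
  unfold Ph q
  rw [Finset.sum_div]
  refine HasDerivAt.fun_sum fun k _ => ?_
  have hne : (1 : ℝ) + 4 ^ (k + 1) * (τ / T) ^ 2 ≠ 0 := by positivity
  have h1 : HasDerivAt (fun τ : ℝ => 1 + 4 ^ (k + 1) * (τ / T) ^ 2)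
      (4 ^ (k + 1) * (2 * (τ / T) * (1 / T))) τ := by
    have h0 : HasDerivAt (fun τ : ℝ => τ / T) (1 / T) τ := (hasDerivAt_id τ).div_const T
    have h2 := (h0.pow 2).const_mul ((4 : ℝ) ^ (k + 1))
    have h3 := h2.const_add 1
    refine h3.congr_deriv ?_
    norm_num
  have h4 := (h1.inv hne).const_mul (-(1 / T ^ 2))
  refine h4.congr_deriv ?_
  have hT' : T ≠ 0 := hT.ne'
  rw [pow_succ (4 : ℝ) k]
  field_simp
  ring

theorem prim (m : ℕ) {T t : ℝ} (hT : 0 < T) :
    ∫ τ in (t / 2)..t, q m (τ / T) / T ^ 3 = Ph m T t - Ph m T (t / 2) := by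
  refine intervalIntegral.integral_eq_sub_of_hasDerivAt (fun τ _ => hasDeriv m hT τ) ?_
  refine Continuous.intervalIntegrable ?_ _ _
  exact ((q_cont m).comp (continuous_id.div_const T)).div_const _

theorem tele (m : ℕ) {T t : ℝ} (hT : 0 < T) :
    Ph m T t - Ph m T (t / 2) =
      1 / T ^ 2 * ((1 + (t / T) ^ 2)⁻¹ - (1 + 4 ^ m * (t / T) ^ 2)⁻¹) := by
  induction m with
  | zero => simp [Ph]
  | succ m ih =>
    have e1 : Ph (m + 1) T t = Ph m T t + -(1 / T ^ 2) * (1 + 4 ^ (m + 1) * (t / T) ^ 2)⁻¹ := by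
      unfold Ph
      rw [Finset.sum_range_succ]
    have e2 : Ph (m + 1) T (t / 2) = Ph m T (t / 2) +
        -(1 / T ^ 2) * (1 + 4 ^ m * (t / T) ^ 2)⁻¹ := by
      unfold Ph
      rw [Finset.sum_range_succ]
      have : (4 : ℝ) ^ (m + 1) * (t / 2 / T) ^ 2 = 4 ^ m * (t / T) ^ 2 := by
        rw [pow_succ]
        field_simp
        ring
      rw [this]
    rw [e1, e2]
    linear_combination ih

theorem bound (m : ℕ) {T t : ℝ} (hT : 0 < T) :
    ∫ τ in (t / 2)..t, q m (τ / T) / T ^ 3 ≤ 1 / (T ^ 2 + t ^ 2) := by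
  rw [prim m hT, tele m hT]
  have h1 : (0 : ℝ) ≤ (1 + 4 ^ m * (t / T) ^ 2)⁻¹ := by positivity
  have h2 : 1 / T ^ 2 * (1 + (t / T) ^ 2)⁻¹ = 1 / (T ^ 2 + t ^ 2) := by
    have : T ≠ 0 := hT.ne'
    have h3 : T ^ 2 + t ^ 2 ≠ 0 := by positivity
    have h4 : 1 + (t / T) ^ 2 = (T ^ 2 + t ^ 2) / T ^ 2 := by
      field_simp
    rw [h4, inv_div]
    field_simp
  rw [← h2]
  have h5 : (0 : ℝ) ≤ 1 / T ^ 2 := by positivity
  nlinarith

/-- the integrand after expanding -/
noncomputable def F (f : ℝ → ℝ≥0∞) (m : ℕ) (T : ℝ) (τ t : ℝ) : ℝ≥0∞ :=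
  ENNReal.ofReal (q m (τ / T) / T ^ 3) * (if τ < t ∧ t ≤ 2 * τ then f t else 0)

theorem F_meas {f : ℝ → ℝ≥0∞} (hf : Measurable f) (m : ℕ) (T : ℝ) :
    Measurable (Function.uncurry (F f m T)) := by
  have h1 : Measurable fun p : ℝ × ℝ => ENNReal.ofReal (q m (p.1 / T) / T ^ 3) := by
    refine ENNReal.measurable_ofReal.comp ?_
    refine Measurable.div_const ?_ _
    exact (q_cont m).measurable.comp (measurable_fst.div_const T)
  have hs : MeasurableSet {p : ℝ × ℝ | p.1 < p.2 ∧ p.2 ≤ 2 * p.1} :=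
    (measurableSet_lt measurable_fst measurable_snd).inter
      (measurableSet_le measurable_snd (measurable_fst.const_mul 2))
  have h2 : Measurable fun p : ℝ × ℝ => (if p.1 < p.2 ∧ p.2 ≤ 2 * p.1 then f p.2 else 0) :=
    Measurable.ite hs (hf.comp measurable_snd) measurable_const
  exact h1.mul h2

end BLaux

open BLaux

theorem bl : S_BL := by
  intro f hf T K m hT hK
  have hK0 : 0 < K := by linarith
  have step1 : ∀ τ : ℝ, ENNReal.ofReal (q m (τ / T) / T ^ 3) * (∫⁻ t in Set.Ioc τ (2 * τ), f t) =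
      ∫⁻ t, F f m T τ t := by
    intro τ
    unfold F
    rw [lintegral_const_mul _ (by
      exact Measurable.ite ((measurableSet_lt measurable_const measurable_id).inter
        (measurableSet_le measurable_id measurable_const)) hf measurable_const)]
    congr 1
    rw [← lintegral_indicator measurableSet_Ioc]
    refine lintegral_congr fun t => ?_
    by_cases h : τ < t ∧ t ≤ 2 * τ
    · rw [if_pos h, Set.indicator_of_mem (show t ∈ Set.Ioc τ (2 * τ) from h)]
    · rw [if_neg h, Set.indicator_of_notMem (show t ∉ Set.Ioc τ (2 * τ) from h)]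
  simp_rw [step1]
  rw [lintegral_lintegral_swap (F_meas hf m T).aemeasurable,
    ← lintegral_indicator measurableSet_Ioi]
  refine lintegral_mono fun t => ?_
  show ∫⁻ τ in Set.Icc (T / K) (K * T), F f m T τ t ≤ _
  rcases le_or_gt t 0 with ht | ht
  · have h0 : ∫⁻ τ in Set.Icc (T / K) (K * T), F f m T τ t = 0 := by
      rw [setLIntegral_congr_fun (g := fun _ => 0) measurableSet_Icc]
      · simp
      · intro τ hτ
        have h1 : 0 < T / K := by positivity
        have h2 : ¬ (τ < t ∧ t ≤ 2 * τ) := by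
          rintro ⟨h3, _⟩
          linarith [hτ.1]
        simp only [F]
        rw [if_neg h2, mul_zero]
    rw [h0]
    exact bot_le
  · rw [Set.indicator_of_mem (show t ∈ Set.Ioi (0 : ℝ) from ht)]
    calc ∫⁻ τ in Set.Icc (T / K) (K * T), F f m T τ t
        ≤ ∫⁻ τ, F f m T τ t := setLIntegral_le_lintegral _ _
      _ = ∫⁻ τ in Set.Ico (t / 2) t, f t * ENNReal.ofReal (q m (τ / T) / T ^ 3) := by
          rw [← lintegral_indicator measurableSet_Ico]
          refine lintegral_congr fun τ => ?_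
          by_cases h : τ < t ∧ t ≤ 2 * τ
          · have h' : τ ∈ Set.Ico (t / 2) t := ⟨by linarith [h.2], h.1⟩
            rw [Set.indicator_of_mem h']
            unfold F
            rw [if_pos h, mul_comm]
          · have h' : τ ∉ Set.Ico (t / 2) t := fun h2 => h ⟨h2.2, by linarith [h2.1]⟩
            rw [Set.indicator_of_notMem h']
            unfold F
            rw [if_neg h, mul_zero]
      _ = f t * ∫⁻ τ in Set.Ico (t / 2) t, ENNReal.ofReal (q m (τ / T) / T ^ 3) := by
          rw [lintegral_const_mul]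
          refine ENNReal.measurable_ofReal.comp ?_
          refine Measurable.div_const ?_ _
          exact (q_cont m).measurable.comp (measurable_id.div_const T)
      _ = f t * ENNReal.ofReal (∫ τ in (t / 2)..t, q m (τ / T) / T ^ 3) := by
          congr 1
          rw [intervalIntegral.integral_of_le (by linarith), ← integral_Ico_eq_integral_Ioc,
            ofReal_integral_eq_lintegral_ofReal]
          · have hc : Continuous fun τ : ℝ => q m (τ / T) / T ^ 3 :=
              ((q_cont m).comp (continuous_id.div_const T)).div_const _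
            exact (hc.integrableOn_Icc (a := t / 2) (b := t)).mono_set Set.Ico_subset_Icc_self
          · refine (ae_restrict_iff' measurableSet_Ico).2 (Filter.Eventually.of_forall fun τ hτ => ?_)
            have h1 : 0 ≤ τ / T := div_nonneg (by linarith [hτ.1]) hT.le
            exact div_nonneg (q_nonneg m h1) (by positivity)
      _ ≤ f t * ENNReal.ofReal (1 / (T ^ 2 + t ^ 2)) := by
          gcongr
          exact bound m hT

end H479.Z
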