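import Pool.Agent.H479.Z.Stm

/-! # the frequency side: from the time side to the spectral density -/

open MeasureTheory Complex Filter Topology
open scoped ENNReal

namespace H479.Z

/-- the mean over `u` of the spectral density -/
noncomputable def fT (bp T t : ℝ) : ℝ≥0∞ :=
  ∫⁻ u in Set.Ioc (0 : ℝ) (bp * Real.log T),
      ENNReal.ofReal ((bp - u / Real.log T) / Real.sqrt Real.pi * ‖Q u t‖ ^ 2)

lemma fT_meas (hMZ : S_MZ) (bp T : ℝ) : Measurable (fT bp T) := by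
  unfold fT
  apply Measurable.lintegral_prod_right' (f := fun p : ℝ × ℝ =>
    ENNReal.ofReal ((bp - p.2 / Real.log T) / Real.sqrt Real.pi * ‖Q p.2 p.1‖ ^ 2))
  have h := (hMZ.2.2.1).comp measurable_swap
  have h2 : Measurable (fun p : ℝ × ℝ => Q p.2 p.1) := h
  fun_prop

lemma fq_aux1 (hMZ : S_MZ) (c k T u : ℝ) (hc : 0 ≤ c) (hk : k = 2 / Real.pi) (hT : 0 < T) :
    ENNReal.ofReal c *
        ∫⁻ t in Set.Ioi (0 : ℝ), ENNReal.ofReal (2 * ‖Q u t‖ ^ 2 / (Real.pi * (T ^ 2 + t ^ 2))) =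
      ∫⁻ t in Set.Ioi (0 : ℝ), ENNReal.ofReal k *
          (ENNReal.ofReal (c * ‖Q u t‖ ^ 2) * ENNReal.ofReal (1 / (T ^ 2 + t ^ 2))) := by
  have hQu : Measurable (fun t => Q u t) := (hMZ.2.1 u).measurable
  have hk0 : 0 ≤ k := by rw [hk]; positivity
  have hm : Measurable (fun t : ℝ =>
      ENNReal.ofReal (2 * ‖Q u t‖ ^ 2 / (Real.pi * (T ^ 2 + t ^ 2)))) := by fun_prop
  rw [← lintegral_const_mul _ hm]
  refine lintegral_congr fun t => ?_
  rw [← ENNReal.ofReal_mul hc, ← ENNReal.ofReal_mul (by positivity),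
    ← ENNReal.ofReal_mul hk0]
  congr 1
  rw [hk]
  have hπ := Real.pi_pos
  have : T ^ 2 + t ^ 2 ≠ 0 := by positivity
  field_simp

lemma fq_aux2g (g : ℝ → ℝ≥0∞) (hg : Measurable g) (c d : ℝ≥0∞) (μ : Measure ℝ) :
    ∫⁻ u, c * (g u * d) ∂μ = c * ((∫⁻ u, g u ∂μ) * d) := by
  rw [lintegral_const_mul c (hg.mul_const d), lintegral_mul_const d hg]

lemma fq_aux2 (hMZ : S_MZ) (k bp T t : ℝ) :
    ∫⁻ u in Set.Ioc (0 : ℝ) (bp * Real.log T), ENNReal.ofReal k *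
      (ENNReal.ofReal ((bp - u / Real.log T) / Real.sqrt Real.pi * ‖Q u t‖ ^ 2) *
        ENNReal.ofReal (1 / (T ^ 2 + t ^ 2))) =
    ENNReal.ofReal k * (fT bp T t * ENNReal.ofReal (1 / (T ^ 2 + t ^ 2))) := by
  have hm : Measurable (fun u : ℝ =>
    ENNReal.ofReal ((bp - u / Real.log T) / Real.sqrt Real.pi * ‖Q u t‖ ^ 2)) := by
    have hQm : Measurable (fun p : ℝ × ℝ => Q p.1 p.2) := hMZ.2.2.1
    have hpr : Measurable (fun u : ℝ => (u, t)) := measurable_id.prodMk measurable_const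
    have hQt : Measurable (fun u : ℝ => Q u t) :=
      Measurable.comp (g := fun p : ℝ × ℝ => Q p.1 p.2) (f := fun u : ℝ => (u, t)) hQm hpr
    fun_prop
  unfold fT
  exact fq_aux2g _ hm (ENNReal.ofReal k) (ENNReal.ofReal (1 / (T ^ 2 + t ^ 2)))
    (volume.restrict (Set.Ioc (0 : ℝ) (bp * Real.log T)))

lemma freq_le (hMZ : S_MZ) (hTF : S_TF) (hSQ : S_SQ) (hSW : S_SW) {bp η T : ℝ} (hbp : 0 < bp)
    (hη : 0 < η) (hT : Real.exp 1 ≤ T) :
    ENNReal.ofReal (2 / Real.pi) *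
      ∫⁻ t in Set.Ioi (0 : ℝ), fT bp T t * ENNReal.ofReal (1 / (T ^ 2 + t ^ 2)) ≤
    ∫⁻ y : ℝ, ∫⁻ s in Set.Ioi (0 : ℝ), ENNReal.ofReal
      (T * Real.exp (-(T * s)) * J (Real.exp y) s ^ 2 * OM η T bp y s) := by
  have hT0 : 0 < T := lt_of_lt_of_le (Real.exp_pos 1) hT
  have hL : 1 ≤ Real.log T := by
    rw [Real.le_log_iff_exp_le hT0]; exact hT
  rw [← hSW bp η T hbp hη hT]
  have hQm : Measurable (fun p : ℝ × ℝ => Q p.1 p.2) := hMZ.2.2.1
  have hmain : ENNReal.ofReal (2 / Real.pi) *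
      ∫⁻ t in Set.Ioi (0 : ℝ), fT bp T t * ENNReal.ofReal (1 / (T ^ 2 + t ^ 2)) =
    ∫⁻ u in Set.Ioc (0 : ℝ) (bp * Real.log T),
      ENNReal.ofReal ((bp - u / Real.log T) / Real.sqrt Real.pi) *
        ∫⁻ t in Set.Ioi (0 : ℝ), ENNReal.ofReal (2 * ‖Q u t‖ ^ 2 / (Real.pi * (T ^ 2 + t ^ 2))) := by
    have h1 : ∀ u ∈ Set.Ioc (0 : ℝ) (bp * Real.log T),
        ENNReal.ofReal ((bp - u / Real.log T) / Real.sqrt Real.pi) *
        ∫⁻ t in Set.Ioi (0 : ℝ), ENNReal.ofReal (2 * ‖Q u t‖ ^ 2 / (Real.pi * (T ^ 2 + t ^ 2))) =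
        ∫⁻ t in Set.Ioi (0 : ℝ), ENNReal.ofReal (2 / Real.pi) *
          (ENNReal.ofReal ((bp - u / Real.log T) / Real.sqrt Real.pi * ‖Q u t‖ ^ 2) *
            ENNReal.ofReal (1 / (T ^ 2 + t ^ 2))) := by
      intro u hu
      refine fq_aux1 hMZ _ _ T u ?_ rfl hT0
      apply div_nonneg _ (Real.sqrt_nonneg _)
      have : u / Real.log T ≤ bp := by
        rw [div_le_iff₀ (by linarith)]
        exact hu.2
      linarith
    have hmm : Measurable (fun p : ℝ × ℝ => ENNReal.ofReal (2 / Real.pi) *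
        (ENNReal.ofReal ((bp - p.1 / Real.log T) / Real.sqrt Real.pi * ‖Q p.1 p.2‖ ^ 2) *
          ENNReal.ofReal (1 / (T ^ 2 + p.2 ^ 2)))) := by
      have hA : Measurable (fun p : ℝ × ℝ =>
          ENNReal.ofReal ((bp - p.1 / Real.log T) / Real.sqrt Real.pi * ‖Q p.1 p.2‖ ^ 2)) :=
        ENNReal.measurable_ofReal.comp (((measurable_const.sub
          (measurable_fst.div_const _)).div_const _).mul (hQm.norm.pow_const 2))
      have hB : Measurable (fun p : ℝ × ℝ => ENNReal.ofReal (1 / (T ^ 2 + p.2 ^ 2))) := by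
        fun_prop
      exact (hA.mul hB).const_mul _
    have hfm := fT_meas hMZ bp T
    have hfm2 : Measurable (fun t : ℝ => fT bp T t * ENNReal.ofReal (1 / (T ^ 2 + t ^ 2))) :=
      hfm.mul (by fun_prop)
    rw [setLIntegral_congr_fun measurableSet_Ioc h1, lintegral_lintegral_swap hmm.aemeasurable,
      ← lintegral_const_mul _ hfm2]
    exact lintegral_congr fun t => (fq_aux2 hMZ _ bp T t).symm
  rw [hmain]
  apply lintegral_mono
  intro u
  refine mul_le_mul_right ?_ _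
  rw [← hTF u T hT0]
  apply lintegral_mono
  intro y
  exact hSQ u y T η hT0 hη

end H479.Z
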