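import Pool.Agent.H479.Z.Fin
import Pool.Agent.H479.Z.Fq

/-! # the frequency side: the contribution of the dyadic blocks -/

open MeasureTheory Complex Filter Topology
open scoped ENNReal

namespace H479.Z

lemma q_nonneg' (m : ℕ) {x : ℝ} (hx : 0 ≤ x) : 0 ≤ q m x := by
  unfold q
  exact Finset.sum_nonneg fun k _ => by positivity

lemma q_cont (m : ℕ) : Continuous (q m) := by
  unfold q
  refine continuous_finset_sum _ fun k _ => ?_
  refine Continuous.div (by fun_prop) (by fun_prop) fun x => ?_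
  positivity

lemma Nb_nonneg (a b : ℝ) (ha : 0 ≤ a) : 0 ≤ Nb a b := by
  classical
  unfold Nb
  rw [sub_nonneg]
  have hfin := fin.1 a b ha
  have : Ns a b ≤ N a b := by
    unfold Ns N
    rw [finsum_mem_eq_finite_toFinset_sum _ hfin]
    have hs : ({s ∈ zeros a b | s.re = 1 / 2 ∧ mult s = 1}).ncard ≤ (zeros a b).ncard :=
      Set.ncard_le_ncard (fun s hs => hs.1) hfin
    refine hs.trans ?_
    rw [Set.ncard_eq_toFinset_card _ hfin, Finset.card_eq_sum_ones]
    apply Finset.sum_le_sum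
    intro s hs
    rw [Set.Finite.mem_toFinset] at hs
    exact fin.2 s hs.1 hs.2.1 (lt_of_le_of_lt ha hs.2.2.1) hs.2.2.2.2
  exact_mod_cast this

lemma first_int (m : ℕ) (T K c : ℝ) (hT : 0 < T) (hK : 1 ≤ K) (hc : 0 ≤ c) :
    ∫⁻ τ in Set.Icc (T / K) (K * T), ENNReal.ofReal (q m (τ / T) / T ^ 3 * (c * τ)) =
      ENNReal.ofReal (c / T * ∫ x in (1 / K)..K, x * q m x) := by
  have hK0 : 0 < K := by linarith
  have hle : T / K ≤ K * T := by
    rw [div_le_iff₀ hK0]
    have : 1 ≤ K * K := by nlinarith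
    nlinarith
  have hcont : Continuous (fun τ : ℝ => q m (τ / T) / T ^ 3 * (c * τ)) := by
    have := q_cont m
    fun_prop
  rw [← ofReal_integral_eq_lintegral_ofReal]
  · congr 1
    rw [integral_Icc_eq_integral_Ioc, ← intervalIntegral.integral_of_le hle]
    have h1 : (fun τ : ℝ => q m (τ / T) / T ^ 3 * (c * τ)) =
        fun τ => c / T ^ 2 * ((fun x => x * q m x) (τ / T)) := by
      funext τ
      simp only
      field_simp
    rw [h1, intervalIntegral.integral_const_mul,
      intervalIntegral.integral_comp_div (fun x => x * q m x) hT.ne']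
    have h2 : T / K / T = 1 / K := by field_simp
    have h3 : K * T / T = K := by field_simp
    rw [h2, h3, smul_eq_mul]
    field_simp
  · exact hcont.continuousOn.integrableOn_compact isCompact_Icc
  · rw [EventuallyLE, ae_restrict_iff' measurableSet_Icc]
    refine Eventually.of_forall fun τ hτ => ?_
    have h0 : 0 ≤ τ := le_trans (by positivity) hτ.1
    have := q_nonneg' m (x := τ / T) (by positivity)
    simp only [Pi.zero_apply]
    positivity

lemma blocks (hMZ : S_MZ) (hBL : S_BL) (hBK : S_BK) (hBAD : S_BAD) (bq bp K e c I : ℝ) (m : ℕ)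
    (h1 : 1 ≤ bq) (h2 : bq < bp) (hK : 2 ≤ K) (he : 0 < e) (he1 : e ≤ 1)
    (hk : 0 ≤ bq * (bq - 1) / 2 - e) (hc : 0 ≤ c)
    (hI : I ≤ ∫ x in (1 / K)..K, x * q m x)
    (hcx : ∀ x : ℝ, 2 / K ≤ x → x ≤ 1 → c ≤ ∫ y in (x / 2)..x, q m y) :
    ∃ T₀ : ℝ, ∀ T : ℝ, T₀ ≤ T →
      ENNReal.ofReal (Real.log T ^ 2 * (bq * (bq - 1) / 2 - e) / T * I +
        (1 - e) * Real.pi * bq ^ 2 * Real.log T * (c / T ^ 2 * Nb (2 * T / K) T)) ≤
      ∫⁻ t in Set.Ioi (0 : ℝ), fT bp T t * ENNReal.ofReal (1 / (T ^ 2 + t ^ 2)) := by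
  obtain ⟨T₁, hT₁⟩ := hBK bq bp K e h1 h2 (by linarith) he
  refine ⟨max T₁ 1, fun T hT => ?_⟩
  have hT1 : T₁ ≤ T := (le_max_left _ _).trans hT
  have hTone : 1 ≤ T := (le_max_right _ _).trans hT
  have hTpos : 0 < T := by linarith
  have hL : 0 ≤ Real.log T := Real.log_nonneg hTone
  have hK1 : 1 ≤ K := by linarith
  have hπ := Real.pi_pos
  set κ := bq * (bq - 1) / 2 - e with hκ
  refine le_trans ?_ (hBL (fT bp T) (fT_meas hMZ bp T) T K m hTpos hK1)
  have hstep : ∀ τ ∈ Set.Icc (T / K) (K * T),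
      ENNReal.ofReal (q m (τ / T) / T ^ 3 * ((Real.log T ^ 2 * κ) * τ)) +
        ENNReal.ofReal ((1 - e) * Real.pi * bq ^ 2 * Real.log T) *
          ENNReal.ofReal (q m (τ / T) / T ^ 3 * Nb τ (2 * τ)) ≤
      ENNReal.ofReal (q m (τ / T) / T ^ 3) * (∫⁻ t in Set.Ioc τ (2 * τ), fT bp T t) := by
    intro τ hτ
    have h0 : 0 ≤ τ := le_trans (by positivity) hτ.1
    have hq := q_nonneg' m (x := τ / T) (by positivity)
    have hNb := Nb_nonneg τ (2 * τ) h0
    have h1e : 0 ≤ 1 - e := by linarith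
    have hb := hT₁ T hT1 τ hτ.1 hτ.2
    refine le_trans (le_of_eq ?_) (mul_le_mul_right hb _)
    rw [← ENNReal.ofReal_mul (by positivity), ← ENNReal.ofReal_mul (by positivity),
      ← ENNReal.ofReal_add (by positivity) (by positivity)]
    congr 1
    ring
  refine le_trans ?_ (setLIntegral_mono' measurableSet_Icc hstep)
  have hcont : Continuous (fun τ : ℝ => q m (τ / T) / T ^ 3 * ((Real.log T ^ 2 * κ) * τ)) := by
    have := q_cont m
    fun_prop
  rw [lintegral_add_left (hcont.measurable.ennreal_ofReal),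
    lintegral_const_mul' _ _ ENNReal.ofReal_ne_top, first_int m T K _ hTpos hK1 (by positivity)]
  have h1e : 0 ≤ 1 - e := by linarith
  have hNb := Nb_nonneg (2 * T / K) T (by positivity)
  refine le_trans ENNReal.ofReal_add_le ?_
  gcongr
  · rw [ENNReal.ofReal_mul (by positivity)]
    gcongr
    exact hBAD K m c T hK hTpos hc hcx

end H479.Z
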