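import Pool.Agent.H479.Z.Blk
import Pool.Agent.H479.Z.Bad2

/-! # the frequency side with the sharp weights of the zeros -/

open MeasureTheory Complex Filter Topology
open scoped ENNReal

namespace H479.Z



/-- the weighted sum over the multiple zeros and the zeros off the line -/
noncomputable def SB (m : ℕ) (K K₀ T : ℝ) (ha : 0 ≤ 2 * T / K) : ℝ :=
  ∑ s ∈ ZB (2 * T / K) (K₀ * T) ha, cm m (s.im / T) * BADL.wt s

lemma SB_nonneg (m : ℕ) (K K₀ T : ℝ) (ha : 0 ≤ 2 * T / K) : 0 ≤ SB m K K₀ T ha :=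
  Finset.sum_nonneg fun s _ => mul_nonneg (cm_nonneg m _) (BADL.wt_nonneg s)

lemma blocks2 (hMZ : S_MZ) (hBL : S_BL) (hBK : S_BK) (bq bp K K₀ e I : ℝ) (m : ℕ)
    (h1 : 1 ≤ bq) (h2 : bq < bp) (hK : 2 ≤ K) (hKK : K₀ ≤ K) (he : 0 < e) (he1 : e ≤ 1)
    (hk : 0 ≤ bq * (bq - 1) / 2 - e)
    (hI : I ≤ ∫ x in (1 / K)..K, x * q m x) :
    ∃ T₀ : ℝ, ∀ T : ℝ, T₀ ≤ T → ∀ ha : 0 ≤ 2 * T / K,
      ENNReal.ofReal (Real.log T ^ 2 * (bq * (bq - 1) / 2 - e) / T * I +
        (1 - e) * Real.pi * bq ^ 2 * Real.log T * (1 / T ^ 2 * SB m K K₀ T ha)) ≤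
      ∫⁻ t in Set.Ioi (0 : ℝ), fT bp T t * ENNReal.ofReal (1 / (T ^ 2 + t ^ 2)) := by
  obtain ⟨T₁, hT₁⟩ := hBK bq bp K e h1 h2 (by linarith) he
  refine ⟨max T₁ 1, fun T hT ha => ?_⟩
  have hT1 : T₁ ≤ T := (le_max_left _ _).trans hT
  have hTone : 1 ≤ T := (le_max_right _ _).trans hT
  have hTpos : 0 < T := by linarith
  have hL : 0 ≤ Real.log T := Real.log_nonneg hTone
  have hK1 : 1 ≤ K := by linarith
  have hπ := Real.pi_pos
  set κ := bq * (bq - 1) / 2 - e with hκ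
  refine le_trans ?_ (hBL (fT bp T) (fT_meas hMZ bp T) T K m hTpos hK1)
  have hstep : ∀ τ ∈ Set.Icc (T / K) (K * T),
      ENNReal.ofReal (q m (τ / T) / T ^ 3 * ((Real.log T ^ 2 * κ) * τ)) +
        ENNReal.ofReal ((1 - e) * Real.pi * bq ^ 2 * Real.log T) *
          ENNReal.ofReal (q m (τ / T) / T ^ 3 * Nb τ (2 * τ)) ≤
      ENNReal.ofReal (q m (τ / T) / T ^ 3) * (∫⁻ t in Set.Ioc τ (2 * τ), fT bp T t) := by
    intro τ hτ
    have h0 : 0 ≤ τ := le_trans (by positivity) hτ.1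
    have hq := q_nonneg' m (x := τ / T) (by positivity)
    have hNb := Nb_nonneg τ (2 * τ) h0
    have h1e : 0 ≤ 1 - e := by linarith
    have hb := hT₁ T hT1 τ hτ.1 hτ.2
    refine le_trans (le_of_eq ?_) (mul_le_mul_right hb _)
    rw [← ENNReal.ofReal_mul (by positivity), ← ENNReal.ofReal_mul (by positivity),
      ← ENNReal.ofReal_add (by positivity) (by positivity)]
    congr 1
    ring
  refine le_trans ?_ (setLIntegral_mono' measurableSet_Icc hstep)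
  have hcont : Continuous (fun τ : ℝ => q m (τ / T) / T ^ 3 * ((Real.log T ^ 2 * κ) * τ)) := by
    have := q_cont m
    fun_prop
  rw [lintegral_add_left (hcont.measurable.ennreal_ofReal),
    lintegral_const_mul' _ _ ENNReal.ofReal_ne_top, first_int m T K _ hTpos hK1 (by positivity)]
  have h1e : 0 ≤ 1 - e := by linarith
  have hSB := SB_nonneg m K K₀ T ha
  refine le_trans ENNReal.ofReal_add_le ?_
  gcongr
  · rw [ENNReal.ofReal_mul (by positivity)]
    gcongr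
    exact bad2 K K₀ m T hK hKK hTpos ha

end H479.Z
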