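import Pool.Agent.H479.Z.Blk2

/-! # the zeros with the Cauchy weight -/

open MeasureTheory Complex Filter Topology
open scoped ENNReal

namespace H479.Z

/-- the zeros that are multiple or off the line, with the weight `1/(T² + γ²)` -/
noncomputable def nB (K₀ T : ℝ) : ℝ :=
  ∑ s ∈ ZB 0 (K₀ * T) le_rfl, BADL.wt s / (T ^ 2 + s.im ^ 2)

/-- all the zeros, with the weight `1/(T² + γ²)` -/
noncomputable def nA (K₀ T : ℝ) : ℝ :=
  ∑ s ∈ ZB 0 (K₀ * T) le_rfl, (mult s : ℝ) / (T ^ 2 + s.im ^ 2)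

lemma wt_le_mult (s : ℂ) : BADL.wt s ≤ mult s := by
  unfold BADL.wt
  split_ifs
  · exact Nat.cast_nonneg _
  · exact le_rfl

lemma N_eq_sum (a b : ℝ) (ha : 0 ≤ a) : (N a b : ℝ) = ∑ s ∈ ZB a b ha, (mult s : ℝ) := by
  have h1 : N a b = ∑ s ∈ ZB a b ha, mult s :=
    finsum_mem_eq_finite_toFinset_sum _ (fin.1 a b ha)
  rw [h1]
  push_cast
  rfl

lemma nB_nonneg (K₀ T : ℝ) : 0 ≤ nB K₀ T :=
  Finset.sum_nonneg fun s _ => div_nonneg (BADL.wt_nonneg s) (by positivity)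

lemma nA_nonneg (K₀ T : ℝ) : 0 ≤ nA K₀ T :=
  Finset.sum_nonneg fun s _ => div_nonneg (Nat.cast_nonneg _) (by positivity)

lemma nB_le_nA (K₀ T : ℝ) : nB K₀ T ≤ nA K₀ T :=
  Finset.sum_le_sum fun s _ => div_le_div_of_nonneg_right (wt_le_mult s) (by positivity)

lemma split2 (m : ℕ) (K K₀ T : ℝ) (hK : 2 ≤ K) (hT : 0 < T) (ha : 0 ≤ 2 * T / K) :
    T ^ 2 * nB K₀ T ≤ SB m K K₀ T ha + N 0 (2 * T / K) + K ^ 2 / 4 ^ m * N 0 (K₀ * T) := by
  classical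
  have hK0 : 0 < K := by linarith
  unfold nB SB
  rw [N_eq_sum 0 (2 * T / K) le_rfl, N_eq_sum 0 (K₀ * T) le_rfl, Finset.mul_sum, Finset.mul_sum]
  have h1 : ∑ s ∈ ZB (2 * T / K) (K₀ * T) ha, cm m (s.im / T) * BADL.wt s =
      ∑ s ∈ ZB 0 (K₀ * T) le_rfl,
        if 2 * T / K < s.im then cm m (s.im / T) * BADL.wt s else 0 := by
    rw [← Finset.sum_filter]
    apply Finset.sum_congr _ fun _ _ => rfl
    ext s
    rw [Finset.mem_filter, mem_ZB, mem_ZB]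
    constructor
    · rintro ⟨h1, h2, h3, h4, h5⟩
      exact ⟨⟨h1, h2, lt_of_le_of_lt ha h3, h4, h5⟩, h3⟩
    · rintro ⟨⟨h1, h2, h3, h4, h5⟩, h6⟩
      exact ⟨h1, h2, h6, h4, h5⟩
  have h2 : ∑ s ∈ ZB 0 (K₀ * T) le_rfl, (if s.im ≤ 2 * T / K then (mult s : ℝ) else 0) ≤
      ∑ s ∈ ZB 0 (2 * T / K) le_rfl, (mult s : ℝ) := by
    rw [← Finset.sum_filter]
    apply Finset.sum_le_sum_of_subset_of_nonneg
    · intro s hs
      rw [Finset.mem_filter, mem_ZB] at hs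
      obtain ⟨⟨h1, h2, h3, h4, h5⟩, h6⟩ := hs
      exact mem_ZB.2 ⟨h1, h2, h3, h6, h5⟩
    · intro s _ _
      exact Nat.cast_nonneg _
  rw [h1]
  refine le_trans ?_ (add_le_add (add_le_add le_rfl h2) le_rfl)
  rw [← Finset.sum_add_distrib, ← Finset.sum_add_distrib]
  apply Finset.sum_le_sum
  intro s hs
  obtain ⟨-, -, h3, h4, -⟩ := mem_ZB.1 hs
  have hw0 := BADL.wt_nonneg s
  have hwm := wt_le_mult s
  have hm0 : (0 : ℝ) ≤ mult s := Nat.cast_nonneg _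
  have e1 : T ^ 2 * (BADL.wt s / (T ^ 2 + s.im ^ 2)) = (1 + (s.im / T) ^ 2)⁻¹ * BADL.wt s := by
    field_simp
  have h44 : (0 : ℝ) < 4 ^ m := by positivity
  rw [e1]
  by_cases h : 2 * T / K < s.im
  · rw [if_pos h, if_neg (not_le.2 h), add_zero]
    have h5 : (1 + 4 ^ m * (s.im / T) ^ 2)⁻¹ ≤ K ^ 2 / 4 ^ m := by
      have h6 : 2 / K ≤ s.im / T := by
        rw [le_div_iff₀ hT]
        have : 2 / K * T = 2 * T / K := by ring
        rw [this]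
        exact h.le
      have h7 : (2 / K) ^ 2 ≤ (s.im / T) ^ 2 := by
        apply pow_le_pow_left₀ (by positivity) h6
      have h8 : 4 ^ m / K ^ 2 ≤ 1 + 4 ^ m * (s.im / T) ^ 2 := by
        have h9 : (4 : ℝ) ^ m * (2 / K) ^ 2 ≤ 4 ^ m * (s.im / T) ^ 2 := by gcongr
        have h10 : (4 : ℝ) ^ m * (2 / K) ^ 2 = 4 * (4 ^ m / K ^ 2) := by
          field_simp
          norm_num
        have h11 : 0 ≤ (4 : ℝ) ^ m / K ^ 2 := by positivity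
        linarith
      calc (1 + 4 ^ m * (s.im / T) ^ 2)⁻¹ ≤ (4 ^ m / K ^ 2)⁻¹ := inv_anti₀ (by positivity) h8
        _ = K ^ 2 / 4 ^ m := by rw [inv_div]
    have h12 : (1 + (s.im / T) ^ 2)⁻¹ = cm m (s.im / T) + (1 + 4 ^ m * (s.im / T) ^ 2)⁻¹ := by
      unfold cm
      ring
    rw [h12, add_mul]
    have h13 : (1 + 4 ^ m * (s.im / T) ^ 2)⁻¹ * BADL.wt s ≤ K ^ 2 / 4 ^ m * mult s :=
      mul_le_mul h5 hwm hw0 (by positivity)
    linarith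
  · rw [if_neg h, if_pos (not_lt.1 h), zero_add]
    have h5 : (1 + (s.im / T) ^ 2)⁻¹ ≤ 1 := inv_le_one_of_one_le₀ (by nlinarith [sq_nonneg (s.im / T)])
    have h6 : (1 + (s.im / T) ^ 2)⁻¹ * BADL.wt s ≤ 1 * mult s :=
      mul_le_mul h5 hwm hw0 (by norm_num)
    have h7 : 0 ≤ K ^ 2 / 4 ^ m * (mult s : ℝ) := by positivity
    linarith

end H479.Z
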