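import Pool.Agent.H479.Z.Cor
import Pool.Agent.H479.Z.Spl

/-! # the number of zeros with the Cauchy weight, from below -/

open MeasureTheory Complex Filter Topology

namespace H479.Z

/-- minus the derivative of `(1 + y²)⁻¹` -/
noncomputable def hh (y : ℝ) : ℝ := 2 * y / (1 + y ^ 2) ^ 2

lemma hh_cont : Continuous hh := by
  unfold hh
  refine Continuous.div (by fun_prop) (by fun_prop) fun x => ?_
  positivity

lemma hh_int (a b : ℝ) : ∫ y in a..b, hh y = (1 + a ^ 2)⁻¹ - (1 + b ^ 2)⁻¹ := by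
  have h : ∀ y ∈ Set.uIcc a b, HasDerivAt (fun y : ℝ => -(1 + y ^ 2)⁻¹) (hh y) y := by
    intro y _
    have h1 : HasDerivAt (fun y : ℝ => 1 + y ^ 2) (2 * y) y := by
      have := (hasDerivAt_pow 2 y).const_add 1
      simpa using this
    have h2 := (h1.inv (by positivity)).neg
    have h3 : hh y = -(-(2 * y) / (1 + y ^ 2) ^ 2) := by
      unfold hh
      ring
    rw [h3]
    exact h2
  rw [intervalIntegral.integral_eq_sub_of_hasDerivAt h (hh_cont.intervalIntegrable _ _)]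
  ring

lemma yhh_int (a b : ℝ) : ∫ y in a..b, y * hh y =
    (Real.arctan b - b * (1 + b ^ 2)⁻¹) - (Real.arctan a - a * (1 + a ^ 2)⁻¹) := by
  have h : ∀ y ∈ Set.uIcc a b,
      HasDerivAt (fun y : ℝ => Real.arctan y - y * (1 + y ^ 2)⁻¹) (y * hh y) y := by
    intro y _
    have h1 : HasDerivAt (fun y : ℝ => 1 + y ^ 2) (2 * y) y := by
      have := (hasDerivAt_pow 2 y).const_add 1
      simpa using this
    have hp : (1 : ℝ) + y ^ 2 ≠ 0 := by positivity
    have h2 := (Real.hasDerivAt_arctan y).sub ((hasDerivAt_id y).mul (h1.inv hp))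
    have h3 : y * hh y = 1 / (1 + y ^ 2) - (1 * (1 + y ^ 2)⁻¹ + y * (-(2 * y) / (1 + y ^ 2) ^ 2)) := by
      unfold hh
      field_simp
      ring
    rw [h3]
    exact h2
  rw [intervalIntegral.integral_eq_sub_of_hasDerivAt h
    ((continuous_id.mul hh_cont).intervalIntegrable _ _)]

lemma hh_nonneg {y : ℝ} (hy : 0 ≤ y) : 0 ≤ hh y := by
  unfold hh
  positivity

/-- the indicator of `y ≥ x`, times `hh` -/
noncomputable def hi (x y : ℝ) : ℝ := (Set.Ici x).indicator hh y

lemma hi_int (x a b : ℝ) : IntervalIntegrable (hi x) volume a b := by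
  have h := hh_cont.intervalIntegrable (μ := volume) a b
  rw [intervalIntegrable_iff] at h ⊢
  exact h.indicator measurableSet_Ici

lemma g_ge {ρ K x : ℝ} (hρK : ρ ≤ K) (hx : 0 ≤ x) (hxK : x ≤ K) :
    (1 + K ^ 2)⁻¹ + ∫ y in ρ..K, hi x y ≤ (1 + x ^ 2)⁻¹ := by
  rcases le_or_gt x ρ with h | h
  · have e : ∫ y in ρ..K, hi x y = ∫ y in ρ..K, hh y := by
      apply intervalIntegral.integral_congr
      intro y hy
      rw [Set.uIcc_of_le hρK] at hy
      unfold hi
      exact Set.indicator_of_mem (show y ∈ Set.Ici x from h.trans hy.1) _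
    rw [e, hh_int]
    have : (1 + ρ ^ 2)⁻¹ ≤ (1 + x ^ 2)⁻¹ := by
      apply inv_anti₀ (by positivity)
      nlinarith
    linarith
  · rw [← intervalIntegral.integral_add_adjacent_intervals (hi_int x ρ x) (hi_int x x K)]
    have e1 : ∫ y in ρ..x, hi x y = 0 := by
      rw [intervalIntegral.integral_of_le h.le, integral_Ioc_eq_integral_Ioo]
      rw [setIntegral_congr_fun (g := fun _ => (0 : ℝ)) measurableSet_Ioo, integral_zero]
      intro y hy
      unfold hi
      exact Set.indicator_of_notMem (show y ∉ Set.Ici x from not_le.2 hy.2) _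
    have e2 : ∫ y in x..K, hi x y = ∫ y in x..K, hh y := by
      apply intervalIntegral.integral_congr
      intro y hy
      rw [Set.uIcc_of_le hxK] at hy
      unfold hi
      exact Set.indicator_of_mem (show y ∈ Set.Ici x from hy.1) _
    rw [e1, e2, hh_int]
    linarith

/-- summation by parts -/
lemma nA_parts {ρ K T : ℝ} (hρ : 0 ≤ ρ) (hρK : ρ ≤ K) (hT : 0 < T) (c : ℝ)
    (h : ∀ y : ℝ, ρ ≤ y → y ≤ K → c * y ≤ N 0 (y * T)) :
    c * (Real.arctan K - (Real.arctan ρ - ρ * (1 + ρ ^ 2)⁻¹)) ≤ T ^ 2 * nA K T := by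
  classical
  have h1 : T ^ 2 * nA K T = ∑ s ∈ ZB 0 (K * T) le_rfl, (mult s : ℝ) * (1 + (s.im / T) ^ 2)⁻¹ := by
    unfold nA
    rw [Finset.mul_sum]
    refine Finset.sum_congr rfl fun s hs => ?_
    field_simp
  have h2 : ∑ s ∈ ZB 0 (K * T) le_rfl, (mult s : ℝ) *
      ((1 + K ^ 2)⁻¹ + ∫ y in ρ..K, hi (s.im / T) y) ≤ T ^ 2 * nA K T := by
    rw [h1]
    apply Finset.sum_le_sum
    intro s hs
    obtain ⟨-, -, h3, h4, -⟩ := mem_ZB.1 hs
    apply mul_le_mul_of_nonneg_left _ (Nat.cast_nonneg _)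
    exact g_ge hρK (by positivity) (by rw [div_le_iff₀ hT]; exact h4)
  refine le_trans ?_ h2
  have h3 : ∑ s ∈ ZB 0 (K * T) le_rfl, (mult s : ℝ) *
      ((1 + K ^ 2)⁻¹ + ∫ y in ρ..K, hi (s.im / T) y) =
      N 0 (K * T) * (1 + K ^ 2)⁻¹ + ∫ y in ρ..K, ∑ s ∈ ZB 0 (K * T) le_rfl,
        (mult s : ℝ) * hi (s.im / T) y := by
    rw [intervalIntegral.integral_finsetSum (fun s _ => (hi_int _ _ _).const_mul _),
      N_eq_sum 0 (K * T) le_rfl, Finset.sum_mul, ← Finset.sum_add_distrib]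
    refine Finset.sum_congr rfl fun s _ => ?_
    rw [intervalIntegral.integral_const_mul]
    ring
  rw [h3]
  have h4 : ∫ y in ρ..K, c * (y * hh y) ≤ ∫ y in ρ..K, ∑ s ∈ ZB 0 (K * T) le_rfl,
        (mult s : ℝ) * hi (s.im / T) y := by
    apply intervalIntegral.integral_mono_on hρK
    · exact ((continuous_id.mul hh_cont).intervalIntegrable _ _).const_mul _
    · have h5 := IntervalIntegrable.sum (μ := volume) (a := ρ) (b := K) (ZB 0 (K * T) le_rfl)
        (f := fun s y => (mult s : ℝ) * hi (s.im / T) y)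
        fun s _ => (hi_int _ _ _).const_mul _
      have h6 : (fun y => ∑ s ∈ ZB 0 (K * T) le_rfl, (mult s : ℝ) * hi (s.im / T) y) =
          ∑ s ∈ ZB 0 (K * T) le_rfl, fun y => (mult s : ℝ) * hi (s.im / T) y := by
        ext y
        rw [Finset.sum_apply]
      rw [h6]
      exact h5
    · intro y hy
      have h5 : ∑ s ∈ ZB 0 (K * T) le_rfl, (mult s : ℝ) * hi (s.im / T) y =
          N 0 (y * T) * hh y := by
        rw [N_eq_sum 0 (y * T) le_rfl, Finset.sum_mul]
        have h6 : ZB 0 (y * T) le_rfl = (ZB 0 (K * T) le_rfl).filter fun s => s.im / T ≤ y := by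
          ext s
          rw [Finset.mem_filter, mem_ZB, mem_ZB, div_le_iff₀ hT]
          constructor
          · rintro ⟨h1, h2, h3, h4, h5⟩
            exact ⟨⟨h1, h2, h3, h4.trans (mul_le_mul_of_nonneg_right hy.2 hT.le), h5⟩, h4⟩
          · rintro ⟨⟨h1, h2, h3, h4, h5⟩, h6⟩
            exact ⟨h1, h2, h3, h6, h5⟩
        rw [h6, Finset.sum_filter]
        refine Finset.sum_congr rfl fun s _ => ?_
        unfold hi
        by_cases h7 : s.im / T ≤ y
        · rw [if_pos h7, Set.indicator_of_mem (show y ∈ Set.Ici (s.im / T) from h7)]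
        · rw [if_neg h7, Set.indicator_of_notMem (show y ∉ Set.Ici (s.im / T) from h7), mul_zero]
      rw [h5, ← mul_assoc]
      exact mul_le_mul_of_nonneg_right (h y hy.1 hy.2) (hh_nonneg (hρ.trans hy.1))
  rw [intervalIntegral.integral_const_mul, yhh_int] at h4
  have h5 := mul_le_mul_of_nonneg_right (h K hρK le_rfl)
    (show 0 ≤ (1 + K ^ 2)⁻¹ by positivity)
  have e : c * (Real.arctan K - (Real.arctan ρ - ρ * (1 + ρ ^ 2)⁻¹)) =
      c * K * (1 + K ^ 2)⁻¹ +
      c * (Real.arctan K - K * (1 + K ^ 2)⁻¹ - (Real.arctan ρ - ρ * (1 + ρ ^ 2)⁻¹)) := by ring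
  rw [e]
  exact add_le_add h5 h4

end H479.Z
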