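import Pool.Agent.H479.Z.Ca

/-! # the number of zeros with the Cauchy weight, from below -/

open MeasureTheory Complex Filter Topology

namespace H479.Z

lemma arctan_le' {x : ℝ} (hx : 0 ≤ x) : Real.arctan x ≤ x := by
  rcases hx.eq_or_lt with h | h
  · rw [← h, Real.arctan_zero]
  · have h1 : 0 < Real.arctan x := by
      rw [← Real.arctan_zero]
      exact Real.arctan_strictMono h
    have h2 := Real.lt_tan h1 (Real.arctan_lt_pi_div_two x)
    rw [Real.tan_arctan] at h2
    exact h2.le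

lemma nA_lower (K η : ℝ) (hK : 0 < K) (hη : 0 < η) : ∃ T₀ : ℝ, ∀ T : ℝ, T₀ ≤ T →
    Real.arctan K / (2 * Real.pi) - η ≤ T / Real.log T * nA K T := by
  obtain ⟨ρ, hρ⟩ : ∃ ρ : ℝ, ρ = min K η := ⟨_, rfl⟩
  have hρ0 : 0 < ρ := by rw [hρ]; exact lt_min hK hη
  have hρK : ρ ≤ K := by rw [hρ]; exact min_le_left _ _
  have hρη : ρ ≤ η := by rw [hρ]; exact min_le_right _ _
  obtain ⟨ε, hε⟩ : ∃ ε : ℝ, ε = min (1 / 2) η := ⟨_, rfl⟩
  have hε0 : 0 < ε := by rw [hε]; exact lt_min (by norm_num) hη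
  have hε1 : ε ≤ 1 / 2 := by rw [hε]; exact min_le_left _ _
  have hεη : ε ≤ η := by rw [hε]; exact min_le_right _ _
  obtain ⟨T1, hT1⟩ := N_lower ε hε0
  obtain ⟨T2, hT2⟩ := Filter.eventually_atTop.1 (Real.tendsto_log_atTop.eventually_ge_atTop
    (-Real.log ρ / ε))
  refine ⟨max (max (T1 / ρ) T2) (max (Real.exp 1) (1 / ρ)), fun T hT => ?_⟩
  simp only [max_le_iff] at hT
  obtain ⟨⟨h1, h2⟩, h3, h4⟩ := hT
  have hTpos : 0 < T := lt_of_lt_of_le (Real.exp_pos 1) h3
  have hL : 1 ≤ Real.log T := by rw [Real.le_log_iff_exp_le hTpos]; exact h3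
  have hL0 : 0 < Real.log T := by linarith
  have hπ := Real.pi_pos
  have hTL : 0 < T * Real.log T := by positivity
  have h5 := hT2 T h2
  rw [div_le_iff₀ hε0] at h5
  have h1e : 0 ≤ 1 - ε := by linarith
  have hc : ∀ y : ℝ, ρ ≤ y → y ≤ K →
      (1 - ε) ^ 2 * (T * Real.log T / (2 * Real.pi)) * y ≤ N 0 (y * T) := by
    intro y hy _
    have hy0 : 0 < y := hρ0.trans_le hy
    have h6 : T1 ≤ y * T := by
      rw [div_le_iff₀ hρ0] at h1
      have : ρ * T ≤ y * T := mul_le_mul_of_nonneg_right hy hTpos.le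
      linarith
    refine le_trans ?_ (hT1 (y * T) h6)
    have h7 : (1 - ε) * Real.log T ≤ Real.log (y * T) := by
      rw [Real.log_mul hy0.ne' hTpos.ne']
      have := Real.log_le_log hρ0 hy
      linarith
    have h8 := mul_le_mul_of_nonneg_left h7 (show 0 ≤ (1 - ε) * (y * T / (2 * Real.pi)) by positivity)
    have e1 : (1 - ε) ^ 2 * (T * Real.log T / (2 * Real.pi)) * y =
        (1 - ε) * (y * T / (2 * Real.pi)) * ((1 - ε) * Real.log T) := by ring
    have e2 : (1 - ε) * (y * T * Real.log (y * T) / (2 * Real.pi)) =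
        (1 - ε) * (y * T / (2 * Real.pi)) * Real.log (y * T) := by ring
    rw [e1, e2]
    exact h8
  have h6 := nA_parts hρ0.le hρK hTpos _ hc
  have e : T / Real.log T * nA K T = T ^ 2 * nA K T / (T * Real.log T) := by
    field_simp
  rw [e, le_div_iff₀ hTL]
  refine le_trans ?_ h6
  have hA0 : 0 ≤ Real.arctan K := by
    rw [← Real.arctan_zero]
    exact (Real.arctan_strictMono hK).le
  have hA1 := (Real.arctan_lt_pi_div_two K).le
  have h7 : Real.arctan K - ρ ≤ Real.arctan K - (Real.arctan ρ - ρ * (1 + ρ ^ 2)⁻¹) := by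
    have := arctan_le' hρ0.le
    have : 0 ≤ ρ * (1 + ρ ^ 2)⁻¹ := by positivity
    linarith
  have h8 : 2 * Real.pi * (Real.arctan K / (2 * Real.pi) - η) ≤ (1 - ε) ^ 2 * (Real.arctan K - ρ) := by
    have e1 : 2 * Real.pi * (Real.arctan K / (2 * Real.pi) - η) =
        Real.arctan K - 2 * Real.pi * η := by field_simp
    rw [e1]
    have h9 : (1 - 2 * ε) * Real.arctan K ≤ (1 - ε) ^ 2 * Real.arctan K := by
      apply mul_le_mul_of_nonneg_right _ hA0
      nlinarith
    have h10 : (1 - ε) ^ 2 * ρ ≤ 1 * ρ := by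
      apply mul_le_mul_of_nonneg_right _ hρ0.le
      nlinarith
    have h11 : ε * Real.arctan K ≤ η * (Real.pi / 2) := mul_le_mul hεη hA1 hA0 hη.le
    have h12 : η ≤ Real.pi * η := by
      have := Real.pi_gt_three
      nlinarith
    linarith
  have h9 : (Real.arctan K / (2 * Real.pi) - η) * (T * Real.log T) =
      2 * Real.pi * (Real.arctan K / (2 * Real.pi) - η) * (T * Real.log T / (2 * Real.pi)) := by
    field_simp
  rw [h9]
  calc 2 * Real.pi * (Real.arctan K / (2 * Real.pi) - η) * (T * Real.log T / (2 * Real.pi))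
      ≤ (1 - ε) ^ 2 * (Real.arctan K - ρ) * (T * Real.log T / (2 * Real.pi)) := by
        apply mul_le_mul_of_nonneg_right h8 (by positivity)
    _ = (1 - ε) ^ 2 * (T * Real.log T / (2 * Real.pi)) * (Real.arctan K - ρ) := by ring
    _ ≤ _ := by
        apply mul_le_mul_of_nonneg_left h7 (by positivity)

end H479.Z
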