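import Pool.Agent.H479.Z.Main

/-! # consequences for the number of zeros -/

open MeasureTheory Complex Filter Topology
open scoped ENNReal

namespace H479.Z

lemma N_lower_k (k : ℕ) : ∃ C T₀ : ℝ, 0 ≤ C ∧ ∀ T : ℝ, T₀ ≤ T →
    (1 - (1 / 2) ^ k) * (T * Real.log T / (2 * Real.pi)) - C * T ≤ N 0 T := by
  obtain ⟨C, T1, hC, hT1, h⟩ := H370.nn_asymp H370.good_zeta
  have hmain : ∀ T : ℝ, T1 ≤ T → T * Real.log T / (2 * Real.pi) - C * T ≤ (N T (2 * T) : ℝ) := by
    intro T hT
    have := h T hT T (2 * T) le_rfl (by linarith) (by linarith) le_rfl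
    have h2 := (abs_le.1 this).1
    have h3 : (H370.NN riemannZeta T (2 * T) : ℝ) = N T (2 * T) := rfl
    rw [h3] at h2
    linarith
  have hπ := Real.pi_pos
  induction k with
  | zero => exact ⟨0, 0, le_rfl, fun T hT => by simp⟩
  | succ k ih =>
    obtain ⟨Ck, Tk, hCk, hk⟩ := ih
    refine ⟨Ck + C + Real.log 2 + 0, max (2 * Tk) (2 * T1), by
      have := Real.log_nonneg (show (1:ℝ) ≤ 2 by norm_num)
      positivity, fun T hT => ?_⟩
    have ha := hk (T / 2) (by
      have := (le_max_left _ _).trans hT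
      linarith)
    have hb := hmain (T / 2) (by
      have := (le_max_right _ _).trans hT
      linarith)
    have h2T : 2 * T1 ≤ T := (le_max_right _ _).trans hT
    have hTpos : 0 < T := by linarith
    have e1 : 2 * (T / 2) = T := by ring
    rw [e1] at hb
    have hadd : (N 0 T : ℝ) = N 0 (T / 2) + N (T / 2) T := by
      exact_mod_cast N_add (a := 0) (b := T / 2) (c := T) le_rfl (by linarith) (by linarith)
    have hlog : Real.log (T / 2) = Real.log T - Real.log 2 :=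
      Real.log_div hTpos.ne' (by norm_num)
    rw [hlog] at ha hb
    have hl2 : 0 ≤ Real.log 2 := Real.log_nonneg (by norm_num)
    have hp0 : (0 : ℝ) ≤ (1 / 2) ^ k := by positivity
    have hp : (1 / 2 : ℝ) ^ (k + 1) = (1 / 2) ^ k / 2 := by rw [pow_succ]; ring
    rw [hp, hadd]
    generalize (1 / 2 : ℝ) ^ k = p at *
    have e2 : (1 - p / 2) * (T * Real.log T / (2 * Real.pi)) =
        (1 - p) * (T / 2 * (Real.log T - Real.log 2) / (2 * Real.pi)) +
        T / 2 * (Real.log T - Real.log 2) / (2 * Real.pi) +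
        (2 - p) * (T / 2 * Real.log 2 / (2 * Real.pi)) := by
      field_simp
      ring
    rw [e2]
    have e3 : (2 - p) * (T / 2 * Real.log 2 / (2 * Real.pi)) ≤ Real.log 2 * T := by
      have h1 : T / 2 * Real.log 2 / (2 * Real.pi) ≤ Real.log 2 * T / 2 := by
        rw [div_le_iff₀ (by positivity)]
        have : Real.log 2 * T * 1 ≤ Real.log 2 * T * (2 * Real.pi) := by
          apply mul_le_mul_of_nonneg_left _ (by positivity)
          linarith [Real.pi_gt_three]
        linarith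
      have h0 : 0 ≤ T / 2 * Real.log 2 / (2 * Real.pi) := by positivity
      have h2 : (2 - p) * (T / 2 * Real.log 2 / (2 * Real.pi)) ≤
          2 * (T / 2 * Real.log 2 / (2 * Real.pi)) := by
        apply mul_le_mul_of_nonneg_right _ h0
        linarith
      linarith
    have e4 : 0 ≤ Ck * (T / 2) := by positivity
    have e5 : 0 ≤ C * (T / 2) := by positivity
    linarith

lemma N_lower (ε : ℝ) (hε : 0 < ε) : ∃ T₀ : ℝ, ∀ T : ℝ, T₀ ≤ T →
    (1 - ε) * (T * Real.log T / (2 * Real.pi)) ≤ N 0 T := by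
  obtain ⟨k, hk⟩ := exists_pow_lt_of_lt_one (show 0 < ε / 2 by linarith)
    (show (1 / 2 : ℝ) < 1 by norm_num)
  obtain ⟨C, T0, hC, h⟩ := N_lower_k k
  obtain ⟨T1, hT1⟩ := Filter.eventually_atTop.1 (Real.tendsto_log_atTop.eventually_ge_atTop
    (2 * Real.pi * C / (ε / 2)))
  refine ⟨max T0 (max T1 1), fun T hT => ?_⟩
  have h1 := h T ((le_max_left _ _).trans hT)
  have h2 := hT1 T (((le_max_left _ _).trans (le_max_right _ _)).trans hT)
  have h3 : (1 : ℝ) ≤ T := ((le_max_right _ _).trans (le_max_right _ _)).trans hT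
  have hπ := Real.pi_pos
  have hL := Real.log_nonneg h3
  have hCT : C * T ≤ ε / 2 * (T * Real.log T / (2 * Real.pi)) := by
    rw [div_le_iff₀ (by linarith)] at h2
    rw [← mul_div_assoc, le_div_iff₀ (by positivity)]
    have := mul_le_mul_of_nonneg_left h2 (show 0 ≤ T by linarith)
    linarith
  have hm : (1 - ε / 2) * (T * Real.log T / (2 * Real.pi)) ≤
      (1 - (1 / 2) ^ k) * (T * Real.log T / (2 * Real.pi)) := by
    apply mul_le_mul_of_nonneg_right _ (by positivity)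
    linarith
  linarith

/-- the weighted mean of the variance, normalised -/
noncomputable def W (b T : ℝ) : ℝ :=
  T / Real.log T ^ 2 * ∫ x in T..(T ^ b), (b - Real.log x / Real.log T) * EJ T x / x ^ 2

lemma W_eq (b T : ℝ) : W b T = T / Real.log T ^ 2 * I0 1 b T := by
  unfold W I0
  rw [Real.rpow_one]

theorem bad_le (δ : ℝ) (hδ : 0 ≤ δ)
    (h : ∀ ε : ℝ, 0 < ε → ∀ B : ℝ, ∃ b : ℝ, B < b ∧ ∀ᶠ T in atTop,
      W b T ≤ (1 + δ + ε) * ((b - 1) ^ 2 / 2)) :
    ∀ ε : ℝ, 0 < ε → ∀ᶠ T in atTop, Nb 0 T ≤ (Real.pi * δ + ε) * N 0 T := by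
  intro ε hε
  have hπ := Real.pi_pos
  -- `e` with `π (δ + 2 e) ≤ (π δ + ε) (1 - e)`
  obtain ⟨e, he0, he1⟩ : ∃ e : ℝ, 0 < e ∧ Real.pi * (δ + 2 * e) ≤ (Real.pi * δ + ε) * (1 - e) := by
    refine ⟨ε / (2 * Real.pi + Real.pi * δ + ε), by positivity, ?_⟩
    have hD : 0 < 2 * Real.pi + Real.pi * δ + ε := by positivity
    have : ε / (2 * Real.pi + Real.pi * δ + ε) * (2 * Real.pi + Real.pi * δ + ε) = ε :=
      div_mul_cancel₀ _ hD.ne'
    generalize ε / (2 * Real.pi + Real.pi * δ + ε) = e at *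
    linarith
  obtain ⟨b, hb, hW⟩ := h e he0 (max 1 (7 / (3 * e)))
  have hb1 : 1 < b := (le_max_left _ _).trans_lt hb
  have hb2 : 7 / (3 * e) < b := (le_max_right _ _).trans_lt hb
  obtain ⟨T1, hT1⟩ := lower_bound b 1 hb1 one_pos
  obtain ⟨T2, hT2⟩ := N_lower e he0
  filter_upwards [hW, eventually_ge_atTop T1, eventually_ge_atTop T2,
    eventually_ge_atTop (Real.exp 1)] with T hWT h1 h2 h3
  have hTpos : 0 < T := lt_of_lt_of_le (Real.exp_pos 1) h3
  have hL : 1 ≤ Real.log T := by rw [Real.le_log_iff_exp_le hTpos]; exact h3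
  have hTL : 0 < T * Real.log T := by positivity
  have ha := hT1 T h1
  have hc := hT2 T h2
  rw [← W_eq] at ha
  have hb0 : 0 < b ^ 2 := by positivity
  have h4 : b ^ 2 * (Nb 0 T / (T * Real.log T)) ≤ (δ + e) * ((b - 1) ^ 2 / 2) + 7 / 6 := by
    rw [mul_div_assoc] at ha
    linarith
  have h5 : (δ + e) * ((b - 1) ^ 2 / 2) ≤ (δ + e) * (b ^ 2 / 2) := by
    apply mul_le_mul_of_nonneg_left _ (by linarith)
    nlinarith
  have h6 : 7 / 6 ≤ e * (b ^ 2 / 2) := by
    rw [div_lt_iff₀ (by positivity)] at hb2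
    have : b ≤ b ^ 2 := by nlinarith
    have := mul_le_mul_of_nonneg_left this he0.le
    linarith
  have h7 : b ^ 2 * (Nb 0 T / (T * Real.log T)) ≤ b ^ 2 * ((δ + 2 * e) / 2) := by linarith
  have h8 : Nb 0 T / (T * Real.log T) ≤ (δ + 2 * e) / 2 := le_of_mul_le_mul_left h7 hb0
  rw [div_le_iff₀ hTL] at h8
  have h9 : (δ + 2 * e) / 2 * (T * Real.log T) =
      Real.pi * (δ + 2 * e) * (T * Real.log T / (2 * Real.pi)) := by
    field_simp
  have h10 : Real.pi * (δ + 2 * e) * (T * Real.log T / (2 * Real.pi)) ≤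
      (Real.pi * δ + ε) * (1 - e) * (T * Real.log T / (2 * Real.pi)) := by
    apply mul_le_mul_of_nonneg_right he1 (by positivity)
  have h11 := mul_le_mul_of_nonneg_left hc (show 0 ≤ Real.pi * δ + ε by positivity)
  linarith

theorem simple (h : ∀ ε : ℝ, 0 < ε → ∀ B : ℝ, ∃ b : ℝ, B < b ∧ ∀ᶠ T in atTop,
      W b T ≤ (1 + ε) * ((b - 1) ^ 2 / 2)) :
    Tendsto (fun T : ℝ => (Ns 0 T : ℝ) / N 0 T) atTop (𝓝 1) := by
  have hb := bad_le 0 le_rfl (by simpa using h)
  obtain ⟨T1, hT1⟩ := N_lower (1 / 2) (by norm_num)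
  rw [Metric.tendsto_nhds]
  intro ε hε
  filter_upwards [hb (ε / 2) (by linarith), eventually_ge_atTop T1,
    eventually_ge_atTop (Real.exp 1)] with T h1 h2 h3
  have hTpos : 0 < T := lt_of_lt_of_le (Real.exp_pos 1) h3
  have hL : 1 ≤ Real.log T := by rw [Real.le_log_iff_exp_le hTpos]; exact h3
  have hπ := Real.pi_pos
  have hN : (0 : ℝ) < N 0 T := by
    have := hT1 T h2
    have h4 : 0 < (1 - 1 / 2) * (T * Real.log T / (2 * Real.pi)) := by
      have : 0 < Real.log T := by linarith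
      have : (0 : ℝ) < 1 - 1 / 2 := by norm_num
      positivity
    linarith
  have h0 := Nb_nonneg 0 T le_rfl
  have e1 : (Ns 0 T : ℝ) / N 0 T = 1 - Nb 0 T / N 0 T := by
    unfold Nb
    field_simp
    ring
  rw [e1, Real.dist_eq]
  have e2 : (1 : ℝ) - Nb 0 T / N 0 T - 1 = -(Nb 0 T / N 0 T) := by ring
  rw [e2, abs_neg, abs_of_nonneg (by positivity), div_lt_iff₀ hN]
  have : ε / 2 * (N 0 T : ℝ) < ε * N 0 T := by
    apply mul_lt_mul_of_pos_right _ hN
    linarith
  simp only [mul_zero, zero_add] at h1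
  linarith

end H479.Z
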