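import Pool.Agent.H479.Z.Main2
import Pool.Agent.H479.Z.Ca2

/-! # consequences for the proportion of the zeros -/

open MeasureTheory Complex Filter Topology

namespace H479.Z

/-- the proportion of the zeros that are multiple or off the line, with the weight `1/(T² + γ²)` -/
noncomputable def DD (K T : ℝ) : ℝ := nB K T / nA K T

lemma DD_nonneg (K T : ℝ) : 0 ≤ DD K T := div_nonneg (nB_nonneg K T) (nA_nonneg K T)

lemma DD_le_one (K T : ℝ) : DD K T ≤ 1 := div_le_one_of_le₀ (nB_le_nA K T) (nA_nonneg K T)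

lemma nB_eq (K T : ℝ) : nB K T = nA K T * DD K T := by
  unfold DD
  by_cases h : nA K T = 0
  · have h1 := nB_nonneg K T
    have h2 := nB_le_nA K T
    rw [h] at h2 ⊢
    rw [zero_mul]
    linarith
  · field_simp

theorem lower_share (b ε K : ℝ) (hb : 1 < b) (hε : 0 < ε) (hK : 0 < K) :
    ∃ T₀ : ℝ, ∀ T : ℝ, T₀ ≤ T →
    (b - 1) ^ 2 / 2 - 1 / 6 + b ^ 2 / Real.pi * Real.arctan K * DD K T - ε ≤ W b T := by
  obtain ⟨T1, h1⟩ := lower_bound2 b (ε / 2) K hb (by linarith) hK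
  have hb2 : 0 < 4 * b ^ 2 := by positivity
  obtain ⟨T2, h2⟩ := nA_lower K (ε / (4 * b ^ 2)) hK (by positivity)
  refine ⟨max T1 T2, fun T hT => ?_⟩
  have h3 := h1 T ((le_max_left _ _).trans hT)
  have h4 := h2 T ((le_max_right _ _).trans hT)
  rw [W_eq]
  refine le_trans ?_ h3
  have h5 := mul_le_mul_of_nonneg_right h4 (DD_nonneg K T)
  have h6 : T / Real.log T * nB K T = T / Real.log T * nA K T * DD K T := by
    rw [nB_eq]
    ring
  rw [h6]
  have h7 : ε / (4 * b ^ 2) * DD K T ≤ ε / (4 * b ^ 2) * 1 :=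
    mul_le_mul_of_nonneg_left (DD_le_one K T) (by positivity)
  have h8 : b ^ 2 / Real.pi * Real.arctan K * DD K T =
      2 * b ^ 2 * (Real.arctan K / (2 * Real.pi) * DD K T) := by
    have := Real.pi_ne_zero
    field_simp
  have h9 : 2 * b ^ 2 * (ε / (4 * b ^ 2) * 1) = ε / 2 := by
    have : b ≠ 0 := by positivity
    field_simp
    norm_num
  have h10 : 2 * b ^ 2 * (Real.arctan K / (2 * Real.pi) * DD K T - ε / (4 * b ^ 2) * 1) ≤
      2 * b ^ 2 * (T / Real.log T * nA K T * DD K T) := by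
    apply mul_le_mul_of_nonneg_left _ (by positivity)
    linarith
  rw [mul_sub, h9, ← h8] at h10
  linarith

lemma share_core {b x K ε W' D' : ℝ} (hb : 1 < b) (hε : 0 < ε)
    (h1 : (b - 1) ^ 2 / 2 - 1 / 6 + b ^ 2 / Real.pi * Real.arctan K * D' - ε ≤ W')
    (h2 : W' ≤ (1 + x + ε) * ((b - 1) ^ 2 / 2)) :
    2 / Real.pi * Real.arctan K * D' ≤ x * ((b - 1) / b) ^ 2 + 1 / (3 * b ^ 2) + ε + 2 * ε / b ^ 2 := by
  have hb0 : 0 < b := by linarith
  have h3 : b ^ 2 / Real.pi * Real.arctan K * D' ≤ (x + ε) * ((b - 1) ^ 2 / 2) + 1 / 6 + ε := by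
    linarith
  have h4 : b ^ 2 / Real.pi * Real.arctan K * D' =
      b ^ 2 / 2 * (2 / Real.pi * Real.arctan K * D') := by ring
  rw [h4] at h3
  have h5 : b ^ 2 / 2 * (x * ((b - 1) / b) ^ 2 + 1 / (3 * b ^ 2) + ε + 2 * ε / b ^ 2) =
      x * ((b - 1) ^ 2 / 2) + 1 / 6 + ε * (b ^ 2 / 2) + ε := by
    field_simp
    ring
  have h6 : ε * ((b - 1) ^ 2 / 2) ≤ ε * (b ^ 2 / 2) := by
    apply mul_le_mul_of_nonneg_left _ hε.le
    nlinarith
  refine le_of_mul_le_mul_left ?_ (show 0 < b ^ 2 / 2 by positivity)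
  rw [h5]
  linarith

/-- one value of `b` -/
theorem share_one (b δ : ℝ) (hb : 1 < b)
    (h : ∀ ε : ℝ, 0 < ε → ∀ᶠ T in atTop, W b T ≤ (1 + δ + ε) * ((b - 1) ^ 2 / 2)) :
    ∀ K ε : ℝ, 0 < K → 0 < ε → ∀ᶠ T in atTop,
      2 / Real.pi * Real.arctan K * DD K T ≤ δ * ((b - 1) / b) ^ 2 + 1 / (3 * b ^ 2) + ε := by
  intro K ε hK hε
  obtain ⟨T1, h1⟩ := lower_share b (ε / 3) K hb (by linarith) hK
  filter_upwards [h (ε / 3) (by linarith), eventually_ge_atTop T1] with T h2 h3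
  have h4 := share_core hb (by linarith) (h1 T h3) h2
  have h5 : 2 * (ε / 3) / b ^ 2 ≤ 2 * (ε / 3) := by
    apply div_le_self (by positivity)
    nlinarith
  linarith

/-- arbitrarily large values of `b` -/
theorem share_le (δ : ℝ) (hδ : 0 ≤ δ)
    (h : ∀ ε : ℝ, 0 < ε → ∀ B : ℝ, ∃ b : ℝ, B < b ∧ ∀ᶠ T in atTop,
      W b T ≤ (1 + δ + ε) * ((b - 1) ^ 2 / 2)) :
    ∀ K ε : ℝ, 0 < K → 0 < ε → ∀ᶠ T in atTop,
      2 / Real.pi * Real.arctan K * DD K T ≤ δ + ε := by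
  intro K ε hK hε
  obtain ⟨b, hb, hW⟩ := h (ε / 6) (by linarith) (max 1 (1 / ε))
  have hb1 : 1 < b := (le_max_left _ _).trans_lt hb
  have hb2 : 1 / ε < b := (le_max_right _ _).trans_lt hb
  have hb0 : 0 < b := by linarith
  obtain ⟨T1, h1⟩ := lower_share b (ε / 6) K hb1 (by linarith) hK
  filter_upwards [hW, eventually_ge_atTop T1] with T h2 h3
  have h4 := share_core hb1 (by linarith) (h1 T h3) h2
  have hbb : 1 ≤ b ^ 2 := by nlinarith
  have h5 : 2 * (ε / 6) / b ^ 2 ≤ 2 * (ε / 6) := div_le_self (by positivity) hbb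
  have h6 : 1 / (3 * b ^ 2) ≤ ε / 3 := by
    rw [div_lt_iff₀ hε] at hb2
    rw [div_le_iff₀ (by positivity)]
    have h7 : b ≤ b ^ 2 := by nlinarith
    have h8 := mul_le_mul_of_nonneg_left h7 hε.le
    linarith
  have h7 : δ * ((b - 1) / b) ^ 2 ≤ δ * 1 := by
    apply mul_le_mul_of_nonneg_left _ hδ
    have h8 : (b - 1) / b ≤ 1 := by
      rw [div_le_one hb0]
      linarith
    have h9 : 0 ≤ (b - 1) / b := by
      have : 0 ≤ b - 1 := by linarith
      positivity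
    nlinarith
  linarith

/-! ### the sums as `finsum`s -/

lemma nA_finsum (K T : ℝ) : nA K T = ∑ᶠ s ∈ zeros 0 (K * T), (mult s : ℝ) / (T ^ 2 + s.im ^ 2) :=
  (finsum_mem_eq_finite_toFinset_sum _ (fin.1 0 (K * T) le_rfl)).symm

lemma nB_finsum (K T : ℝ) : nB K T =
    ∑ᶠ s ∈ {s ∈ zeros 0 (K * T) | ¬ (s.re = 1 / 2 ∧ mult s = 1)},
      (mult s : ℝ) / (T ^ 2 + s.im ^ 2) := by
  classical
  have hf : ({s ∈ zeros 0 (K * T) | ¬ (s.re = 1 / 2 ∧ mult s = 1)}).Finite :=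
    (fin.1 0 (K * T) le_rfl).subset fun s hs => hs.1
  rw [finsum_mem_eq_finite_toFinset_sum _ hf]
  have h1 : hf.toFinset = (ZB 0 (K * T) le_rfl).filter fun s => ¬ (s.re = 1 / 2 ∧ mult s = 1) := by
    ext s
    rw [Finset.mem_filter, mem_ZB, Set.Finite.mem_toFinset]
    rfl
  rw [h1, Finset.sum_filter]
  unfold nB
  refine Finset.sum_congr rfl fun s _ => ?_
  unfold BADL.wt
  by_cases h : s.re = 1 / 2 ∧ mult s = 1
  · rw [if_pos h, if_neg (not_not.2 h), zero_div]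
  · rw [if_neg h, if_pos h]

end H479.Z
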