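import Pool.Agent.H479.Z.Stm

/-! # the range x ≤ T (proved by helper289) -/
set_option autoImplicit false


open MeasureTheory Complex Filter Topology
open scoped ENNReal

namespace H479.Z

namespace DGh289


theorem ld_nonneg (n : ℕ) : 0 ≤ ld n := ArithmeticFunction.vonMangoldt_nonneg

theorem ld_le_log (n : ℕ) : ld n ≤ Real.log n := ArithmeticFunction.vonMangoldt_le_log

theorem ioc_cons {a b : ℕ} (h : a < b) :
    Finset.Ioc a b = insert (a + 1) (Finset.Ioc (a + 1) b) := by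
  ext n
  simp only [Finset.mem_Ioc, Finset.mem_insert]
  omega

theorem sq_sum_eq (f : ℕ → ℝ) (d : ℕ) : ∀ a b : ℕ, b = a + d →
    (∑ n ∈ Finset.Ioc a b, f n) ^ 2 =
      ∑ n ∈ Finset.Ioc a b, (f n ^ 2 + 2 * f n * ∑ k ∈ Finset.Ioc n b, f k) := by
  induction d with
  | zero =>
    intro a b hab
    subst hab
    simp
  | succ d ih =>
    intro a b hab
    have h1 := ih (a + 1) b (by omega)
    rw [ioc_cons (show a < b by omega), Finset.sum_insert (by simp), Finset.sum_insert (by simp),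
      ← h1]
    ring

theorem sq_sum_le (f : ℕ → ℝ) (hf : ∀ n, 0 ≤ f n) (a b : ℕ) (E : ℕ → ℝ)
    (hE : ∀ n ∈ Finset.Ioc a b, ∑ k ∈ Finset.Ioc n b, f k ≤ E n) :
    (∑ n ∈ Finset.Ioc a b, f n) ^ 2 ≤ ∑ n ∈ Finset.Ioc a b, (f n ^ 2 + 2 * f n * E n) := by
  rcases le_or_gt a b with h | h
  · rw [sq_sum_eq f (b - a) a b (by omega)]
    refine Finset.sum_le_sum fun n hn => ?_
    have h1 := mul_le_mul_of_nonneg_left (hE n hn) (show 0 ≤ 2 * f n by linarith [hf n])
    linarith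
  · rw [Finset.Ioc_eq_empty (by omega)]
    simp

/-- the summands -/
noncomputable def F (h : ℝ) (n : ℕ) : ℝ :=
  ld n ^ 2 + 2 * ld n * (n * (Real.exp h - 1) * (Real.log n + h))

theorem F_nonneg {h : ℝ} (hh : 0 < h) (n : ℕ) : 0 ≤ F h n := by
  have h1 := ld_nonneg n
  have h2 : 0 ≤ Real.exp h - 1 := by linarith [Real.add_one_le_exp h]
  have h3 : 0 ≤ Real.log (n : ℝ) := Real.log_natCast_nonneg n
  unfold F
  positivity

theorem psi_sub {x y : ℝ} (hxy : x ≤ y) :
    Chebyshev.psi y - Chebyshev.psi x = ∑ n ∈ Finset.Ioc ⌊x⌋₊ ⌊y⌋₊, ld n := by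
  unfold Chebyshev.psi ld
  rw [← Finset.sum_Ioc_consecutive _ (Nat.zero_le ⌊x⌋₊) (Nat.floor_mono hxy)]
  ring

theorem a_sq {x h : ℝ} (hx : 0 < x) (hh : 0 < h) :
    (Chebyshev.psi (Real.exp h * x) - Chebyshev.psi x) ^ 2 ≤
      ∑ n ∈ Finset.Ioc ⌊x⌋₊ ⌊Real.exp h * x⌋₊, F h n := by
  have he : 1 ≤ Real.exp h := by linarith [Real.add_one_le_exp h]
  have hxy : x ≤ Real.exp h * x := by nlinarith
  rw [psi_sub hxy]
  refine sq_sum_le ld ld_nonneg _ _ (fun n => n * (Real.exp h - 1) * (Real.log n + h))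
    fun n hn => ?_
  rw [Finset.mem_Ioc] at hn
  have hn1 : x < n := (Nat.floor_lt hx.le).1 hn.1
  have hn0 : (0 : ℝ) < n := hx.trans hn1
  have h1 : ∀ k ∈ Finset.Ioc n ⌊Real.exp h * x⌋₊, ld k ≤ Real.log n + h := by
    intro k hk
    rw [Finset.mem_Ioc] at hk
    have hk0 : (0 : ℝ) < k := by
      have : n < k := hk.1
      exact_mod_cast (show 0 < k by omega)
    have hk1 : (k : ℝ) ≤ Real.exp h * x :=
      (Nat.le_floor_iff (by positivity)).1 hk.2
    have hk2 : (k : ℝ) ≤ Real.exp h * n := hk1.trans (by gcongr)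
    refine (ld_le_log k).trans ((Real.log_le_log hk0 hk2).trans ?_)
    rw [Real.log_mul (Real.exp_pos h).ne' hn0.ne', Real.log_exp]
    linarith
  refine (Finset.sum_le_sum h1).trans ?_
  rw [Finset.sum_const, Nat.card_Ioc, nsmul_eq_mul]
  have h2 : ((⌊Real.exp h * x⌋₊ - n : ℕ) : ℝ) ≤ n * (Real.exp h - 1) := by
    rw [Nat.cast_sub hn.2]
    have h3 : ((⌊Real.exp h * x⌋₊ : ℕ) : ℝ) ≤ Real.exp h * x := Nat.floor_le (by positivity)
    nlinarith
  have h4 : 0 ≤ Real.log (n : ℝ) := Real.log_natCast_nonneg n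
  exact mul_le_mul_of_nonneg_right h2 (by linarith)

theorem J_sq {x h : ℝ} (hx : 0 < x) (hh : 0 < h) :
    J x h ^ 2 ≤ ((Real.exp h - 1) * x) ^ 2 + ∑ n ∈ Finset.Ioc ⌊x⌋₊ ⌊Real.exp h * x⌋₊, F h n := by
  have he : 1 ≤ Real.exp h := by linarith [Real.add_one_le_exp h]
  have hxy : x ≤ Real.exp h * x := by nlinarith
  have h1 := a_sq hx hh
  have h2 : 0 ≤ Chebyshev.psi (Real.exp h * x) - Chebyshev.psi x :=
    sub_nonneg.2 (Chebyshev.psi_mono hxy)
  have h3 : 0 ≤ (Real.exp h - 1) * x := mul_nonneg (by linarith) hx.le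
  unfold J
  nlinarith [mul_nonneg h2 h3]

/-- the weights -/
noncomputable def W (b T h : ℝ) (n : ℕ) : ℝ :=
  if (n : ℝ) ≤ T then b - Real.log n / Real.log T + h / Real.log T else b

theorem W_nonneg {b T h : ℝ} (hb : 1 ≤ b) (hL : 1 ≤ Real.log T) (hh : 0 < h) {n : ℕ} (hn : 0 < n) :
    0 ≤ W b T h n := by
  unfold W
  split_ifs with h1
  · have hn0 : (0 : ℝ) < n := by exact_mod_cast hn
    have h2 : Real.log n / Real.log T ≤ 1 := by
      rw [div_le_one (by linarith)]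
      exact Real.log_le_log hn0 h1
    have h3 : 0 ≤ h / Real.log T := by positivity
    linarith
  · linarith

theorem W_le {b T h : ℝ} (_ : 1 ≤ b) (hL : 1 ≤ Real.log T) (hh : 0 < h) (n : ℕ) :
    W b T h n ≤ b + h := by
  have h3 : h / Real.log T ≤ h := div_le_self hh.le hL
  unfold W
  split_ifs with h1
  · have h2 : 0 ≤ Real.log n / Real.log T :=
      div_nonneg (Real.log_natCast_nonneg n) (by linarith)
    linarith
  · linarith

/-- the indicator -/
noncomputable def ind (h : ℝ) (n : ℕ) (x : ℝ) : ℝ :=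
  Set.indicator (Set.Ico (n * Real.exp (-h)) (n : ℝ)) (fun x => 1 / x ^ 2) x

theorem ind_nonneg (h : ℝ) (n : ℕ) (x : ℝ) : 0 ≤ ind h n x := by
  unfold ind
  exact Set.indicator_nonneg (fun x _ => by positivity) x

theorem pointwise {b T x h : ℝ} (hb : 1 ≤ b) (hL : 1 ≤ Real.log T) (hx : 1 < x) (hxT : x ≤ T)
    (hh : 0 < h) :
    (b - Real.log x / Real.log T) / x ^ 2 * J x h ^ 2 ≤ b * (Real.exp h - 1) ^ 2 +
      ∑ n ∈ Finset.Ioc 0 ⌊Real.exp h * T⌋₊, W b T h n * F h n * ind h n x := by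
  have hx0 : 0 < x := by linarith
  have hlx : 0 ≤ Real.log x := Real.log_nonneg hx.le
  have hlT : Real.log x ≤ Real.log T := Real.log_le_log hx0 hxT
  have hL0 : 0 < Real.log T := by linarith
  have hw1 : Real.log x / Real.log T ≤ 1 := (div_le_one hL0).2 hlT
  have hw2 : 0 ≤ Real.log x / Real.log T := div_nonneg hlx hL0.le
  set w : ℝ := b - Real.log x / Real.log T with hw
  have hw0 : 0 ≤ w := by rw [hw]; linarith
  have hwb : w ≤ b := by rw [hw]; linarith
  have h1 := mul_le_mul_of_nonneg_left (J_sq hx0 hh) (show 0 ≤ w / x ^ 2 by positivity)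
  refine h1.trans ?_
  rw [mul_add]
  refine add_le_add ?_ ?_
  · have e1 : w / x ^ 2 * ((Real.exp h - 1) * x) ^ 2 = w * (Real.exp h - 1) ^ 2 := by
      field_simp
    rw [e1]
    exact mul_le_mul_of_nonneg_right hwb (sq_nonneg _)
  · have hxT' : Real.exp h * x ≤ Real.exp h * T := by gcongr
    have hsub : Finset.Ioc ⌊x⌋₊ ⌊Real.exp h * x⌋₊ ⊆ Finset.Ioc 0 ⌊Real.exp h * T⌋₊ :=
      Finset.Ioc_subset_Ioc (Nat.zero_le _) (Nat.floor_mono hxT')
    refine le_trans ?_ (Finset.sum_le_sum_of_subset_of_nonneg hsub fun n hn _ => ?_)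
    · rw [Finset.mul_sum]
      refine Finset.sum_le_sum fun n hn => ?_
      rw [Finset.mem_Ioc] at hn
      have hn1 : x < n := (Nat.floor_lt hx0.le).1 hn.1
      have hn2 : (n : ℝ) ≤ Real.exp h * x := (Nat.le_floor_iff (by positivity)).1 hn.2
      have hn0 : (0 : ℝ) < n := hx0.trans hn1
      have hn3 : (n : ℝ) * Real.exp (-h) ≤ x := by
        rw [Real.exp_neg, ← div_eq_mul_inv, div_le_iff₀ (Real.exp_pos h)]
        linarith
      have e1 : ind h n x = 1 / x ^ 2 := by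
        unfold ind
        exact Set.indicator_of_mem (s := Set.Ico ((n : ℝ) * Real.exp (-h)) (n : ℝ))
          ⟨hn3, hn1⟩ (fun x : ℝ => 1 / x ^ 2)
      have e2 : w ≤ W b T h n := by
        unfold W
        split_ifs
        · have h5 : Real.log n ≤ Real.log x + h := by
            have := Real.log_le_log hn0 hn2
            rw [Real.log_mul (Real.exp_pos h).ne' hx0.ne', Real.log_exp] at this
            linarith
          have h6 : Real.log n / Real.log T ≤ Real.log x / Real.log T + h / Real.log T := by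
            rw [← add_div]
            gcongr
          rw [hw]
          linarith
        · exact hwb
      rw [e1]
      have h7 : w * F h n * (1 / x ^ 2) ≤ W b T h n * F h n * (1 / x ^ 2) :=
        mul_le_mul_of_nonneg_right (mul_le_mul_of_nonneg_right e2 (F_nonneg hh n)) (by positivity)
      calc w / x ^ 2 * F h n = w * F h n * (1 / x ^ 2) := by ring
        _ ≤ _ := h7
    · rw [Finset.mem_Ioc] at hn
      exact mul_nonneg (mul_nonneg (W_nonneg hb hL hh hn.1) (F_nonneg hh n)) (ind_nonneg h n x)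



theorem ind_meas (h : ℝ) (n : ℕ) : Measurable (ind h n) := by
  unfold ind
  exact Measurable.indicator (by fun_prop) measurableSet_Ico

theorem int_ind (T : ℝ) {n : ℕ} (hn : 0 < n) {h : ℝ} (hh : 0 < h) :
    ∫⁻ x in Set.Ioc 1 T, ENNReal.ofReal (ind h n x) ≤ ENNReal.ofReal ((Real.exp h - 1) / n) := by
  have hn0 : (0 : ℝ) < n := by exact_mod_cast hn
  have ha : 0 < (n : ℝ) * Real.exp (-h) := by positivity
  have hab : (n : ℝ) * Real.exp (-h) ≤ n := by
    have : Real.exp (-h) ≤ 1 := Real.exp_le_one_iff.2 (by linarith)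
    nlinarith
  refine (setLIntegral_le_lintegral _ _).trans ?_
  have h2 : ∀ x, ENNReal.ofReal (ind h n x) = Set.indicator
      (Set.Ico ((n : ℝ) * Real.exp (-h)) (n : ℝ)) (fun x => ENNReal.ofReal (1 / x ^ 2)) x := by
    intro x
    unfold ind
    by_cases hx : x ∈ Set.Ico ((n : ℝ) * Real.exp (-h)) (n : ℝ)
    · rw [Set.indicator_of_mem hx, Set.indicator_of_mem hx]
    · rw [Set.indicator_of_notMem hx, Set.indicator_of_notMem hx, ENNReal.ofReal_zero]
  simp_rw [h2]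
  rw [lintegral_indicator measurableSet_Ico]
  have hc : ContinuousOn (fun x : ℝ => 1 / x ^ 2) (Set.Icc ((n : ℝ) * Real.exp (-h)) (n : ℝ)) := by
    refine ContinuousOn.div continuousOn_const (by fun_prop) fun x hx => ?_
    have : 0 < x := ha.trans_le hx.1
    positivity
  have hint : IntegrableOn (fun x : ℝ => 1 / x ^ 2)
      (Set.Ico ((n : ℝ) * Real.exp (-h)) (n : ℝ)) :=
    hc.integrableOn_Icc.mono_set Set.Ico_subset_Icc_self
  rw [← ofReal_integral_eq_lintegral_ofReal hint (Eventually.of_forall fun x => by positivity)]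
  refine ENNReal.ofReal_le_ofReal (le_of_eq ?_)
  rw [integral_Ico_eq_integral_Ioc, ← intervalIntegral.integral_of_le hab]
  have h3 : ∫ x in ((n : ℝ) * Real.exp (-h))..(n : ℝ), 1 / x ^ 2 =
      (-(n : ℝ)⁻¹) - (-((n : ℝ) * Real.exp (-h))⁻¹) := by
    refine intervalIntegral.integral_eq_sub_of_hasDerivAt (f := fun x : ℝ => -x⁻¹)
      (fun x hx => ?_) ?_
    · rw [Set.uIcc_of_le hab] at hx
      have hx0 : x ≠ 0 := (ha.trans_le hx.1).ne'
      have h4 := (hasDerivAt_inv hx0).neg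
      rw [neg_neg, ← one_div] at h4
      exact h4
    · rw [intervalIntegrable_iff_integrableOn_Ico_of_le hab]
      exact hint
  rw [h3, Real.exp_neg]
  have hE := Real.exp_pos h
  field_simp
  ring

theorem int_x {b T h : ℝ} (hb : 1 ≤ b) (hL : 1 ≤ Real.log T) (hT : 1 ≤ T) (hh : 0 < h) :
    ∫⁻ x in Set.Ioc 1 T, ENNReal.ofReal ((b - Real.log x / Real.log T) / x ^ 2 * J x h ^ 2) ≤
      ENNReal.ofReal (b * (Real.exp h - 1) ^ 2 * T + ∑ n ∈ Finset.Ioc 0 ⌊Real.exp h * T⌋₊,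
        W b T h n * F h n * ((Real.exp h - 1) / n)) := by
  have hE : 0 ≤ Real.exp h - 1 := by linarith [Real.add_one_le_exp h]
  have hWF : ∀ n ∈ Finset.Ioc 0 ⌊Real.exp h * T⌋₊, 0 ≤ W b T h n * F h n := fun n hn =>
    mul_nonneg (W_nonneg hb hL hh (Finset.mem_Ioc.1 hn).1) (F_nonneg hh n)
  have hb0 : 0 ≤ b * (Real.exp h - 1) ^ 2 := by positivity
  calc ∫⁻ x in Set.Ioc 1 T, ENNReal.ofReal ((b - Real.log x / Real.log T) / x ^ 2 * J x h ^ 2)
      ≤ ∫⁻ x in Set.Ioc 1 T, (ENNReal.ofReal (b * (Real.exp h - 1) ^ 2) +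
        ∑ n ∈ Finset.Ioc 0 ⌊Real.exp h * T⌋₊,
          ENNReal.ofReal (W b T h n * F h n) * ENNReal.ofReal (ind h n x)) := by
        refine setLIntegral_mono' measurableSet_Ioc fun x hx => ?_
        refine (ENNReal.ofReal_le_ofReal (pointwise hb hL hx.1 hx.2 hh)).trans ?_
        rw [ENNReal.ofReal_add hb0 (Finset.sum_nonneg fun n hn =>
          mul_nonneg (hWF n hn) (ind_nonneg h n x)),
          ENNReal.ofReal_sum_of_nonneg fun n hn => mul_nonneg (hWF n hn) (ind_nonneg h n x)]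
        refine add_le_add le_rfl (Finset.sum_le_sum fun n hn => ?_)
        rw [ENNReal.ofReal_mul (hWF n hn)]
    _ = ENNReal.ofReal (b * (Real.exp h - 1) ^ 2) * volume (Set.Ioc 1 T) +
        ∑ n ∈ Finset.Ioc 0 ⌊Real.exp h * T⌋₊, ENNReal.ofReal (W b T h n * F h n) *
          ∫⁻ x in Set.Ioc 1 T, ENNReal.ofReal (ind h n x) := by
        rw [lintegral_add_left measurable_const, setLIntegral_const,
          lintegral_finsetSum _ fun n _ => (ind_meas h n).ennreal_ofReal.const_mul _]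
        congr 1
        refine Finset.sum_congr rfl fun n _ => ?_
        rw [lintegral_const_mul _ (ind_meas h n).ennreal_ofReal]
    _ ≤ ENNReal.ofReal (b * (Real.exp h - 1) ^ 2) * ENNReal.ofReal T +
        ∑ n ∈ Finset.Ioc 0 ⌊Real.exp h * T⌋₊, ENNReal.ofReal (W b T h n * F h n) *
          ENNReal.ofReal ((Real.exp h - 1) / n) := by
        refine add_le_add (mul_le_mul_right ?_ _) (Finset.sum_le_sum fun n hn =>
          mul_le_mul_right (int_ind T (Finset.mem_Ioc.1 hn).1 hh) _)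
        rw [Real.volume_Ioc]
        exact ENNReal.ofReal_le_ofReal (by linarith)
    _ = _ := by
        rw [ENNReal.ofReal_add (by positivity) (Finset.sum_nonneg fun n hn =>
          mul_nonneg (hWF n hn) (by positivity)), ENNReal.ofReal_mul hb0,
          ENNReal.ofReal_sum_of_nonneg fun n hn => mul_nonneg (hWF n hn) (by positivity)]
        congr 1
        refine Finset.sum_congr rfl fun n hn => ?_
        rw [ENNReal.ofReal_mul (hWF n hn)]

/-- the main term -/
noncomputable def D0 (b T : ℝ) : ℝ :=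
  ∑ n ∈ Finset.Icc 1 ⌊T⌋₊, ld n ^ 2 / n * (b - Real.log n / Real.log T)

theorem D0_nonneg {b T : ℝ} (hb : 1 ≤ b) (hL : 1 ≤ Real.log T) (hT : 1 ≤ T) : 0 ≤ D0 b T := by
  unfold D0
  refine Finset.sum_nonneg fun n hn => ?_
  rw [Finset.mem_Icc] at hn
  have hn1 : (0 : ℝ) < n := by exact_mod_cast (show 0 < n by omega)
  have hn2 : (n : ℝ) ≤ T := (Nat.le_floor_iff (by linarith)).1 hn.2
  have h2 : Real.log n / Real.log T ≤ 1 := by
    rw [div_le_one (by linarith)]
    exact Real.log_le_log hn1 hn2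
  exact mul_nonneg (by positivity) (by linarith)

theorem S1_le {T : ℝ} (hL : 1 ≤ Real.log T) (hT : 1 ≤ T) :
    ∑ n ∈ Finset.Ioc 0 ⌊T⌋₊, ld n ^ 2 / n ≤ Real.log T ^ 2 * (1 + Real.log T) := by
  have h1 : ∀ n ∈ Finset.Ioc 0 ⌊T⌋₊, ld n ^ 2 / n ≤ Real.log T ^ 2 * (n : ℝ)⁻¹ := by
    intro n hn
    rw [Finset.mem_Ioc] at hn
    have hn1 : (0 : ℝ) < n := by exact_mod_cast hn.1
    have hn2 : (n : ℝ) ≤ T := (Nat.le_floor_iff (by linarith)).1 hn.2
    rw [div_eq_mul_inv]
    have h3 : ld n ≤ Real.log T := (ld_le_log n).trans (Real.log_le_log hn1 hn2)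
    exact mul_le_mul_of_nonneg_right (pow_le_pow_left₀ (ld_nonneg n) h3 2) (by positivity)
  refine (Finset.sum_le_sum h1).trans ?_
  rw [← Finset.mul_sum]
  refine mul_le_mul_of_nonneg_left ?_ (by positivity)
  have h2 := harmonic_floor_le_one_add_log T hT
  rw [harmonic_eq_sum_Icc] at h2
  push_cast at h2
  exact h2

theorem S2_le {T h : ℝ} (hL : 1 ≤ Real.log T) (hT : 1 ≤ T) (hh : 0 < h) :
    ∑ n ∈ Finset.Ioc ⌊T⌋₊ ⌊Real.exp h * T⌋₊, ld n ^ 2 / n ≤
      (Real.exp h * T - T + 1) * ((Real.log T + h) ^ 2 / T) := by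
  have hT0 : 0 < T := by linarith
  have he : 1 ≤ Real.exp h := by linarith [Real.add_one_le_exp h]
  have h1 : ∀ n ∈ Finset.Ioc ⌊T⌋₊ ⌊Real.exp h * T⌋₊, ld n ^ 2 / n ≤
      (Real.log T + h) ^ 2 / T := by
    intro n hn
    rw [Finset.mem_Ioc] at hn
    have hn1 : T < n := (Nat.floor_lt hT0.le).1 hn.1
    have hn0 : (0 : ℝ) < n := by linarith
    have hn2 : (n : ℝ) ≤ Real.exp h * T := (Nat.le_floor_iff (by positivity)).1 hn.2
    have h3 : ld n ≤ Real.log T + h := by
      refine (ld_le_log n).trans ((Real.log_le_log hn0 hn2).trans ?_)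
      rw [Real.log_mul (Real.exp_pos h).ne' hT0.ne', Real.log_exp]
      linarith
    exact div_le_div₀ (by positivity) (pow_le_pow_left₀ (ld_nonneg n) h3 2) hT0 hn1.le
  refine (Finset.sum_le_sum h1).trans ?_
  rw [Finset.sum_const, Nat.card_Ioc, nsmul_eq_mul]
  refine mul_le_mul_of_nonneg_right ?_ (by positivity)
  have h4 : ⌊T⌋₊ ≤ ⌊Real.exp h * T⌋₊ := Nat.floor_mono (by nlinarith)
  rw [Nat.cast_sub h4]
  have h5 : ((⌊Real.exp h * T⌋₊ : ℕ) : ℝ) ≤ Real.exp h * T := Nat.floor_le (by positivity)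
  have h6 : T < (⌊T⌋₊ : ℝ) + 1 := Nat.lt_floor_add_one T
  linarith

theorem sum_bd {b T h : ℝ} (hb : 1 ≤ b) (hL : 1 ≤ Real.log T) (hT : 1 ≤ T) (hh : 0 < h) :
    ∑ n ∈ Finset.Ioc 0 ⌊Real.exp h * T⌋₊, W b T h n * F h n * ((Real.exp h - 1) / n) ≤
      (Real.exp h - 1) * D0 b T +
      (Real.exp h - 1) * (h / Real.log T) * (Real.log T ^ 2 * (1 + Real.log T)) +
      b * (Real.exp h - 1) * ((Real.exp h * T - T + 1) * ((Real.log T + h) ^ 2 / T)) +
      2 * (b + h) * (Real.exp h - 1) ^ 2 * (Real.log T + 2 * h) *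
        ((Real.log 4 + 4) * (Real.exp h * T)) := by
  have hT0 : 0 < T := by linarith
  have he : 1 ≤ Real.exp h := by linarith [Real.add_one_le_exp h]
  have hE : 0 ≤ Real.exp h - 1 := by linarith
  have h4 : ⌊T⌋₊ ≤ ⌊Real.exp h * T⌋₊ := Nat.floor_mono (by nlinarith)
  -- splitting of the summands
  have e1 : ∀ n ∈ Finset.Ioc 0 ⌊Real.exp h * T⌋₊, W b T h n * F h n * ((Real.exp h - 1) / n) ≤
      (Real.exp h - 1) * (W b T h n * (ld n ^ 2 / n)) +
        2 * (b + h) * (Real.exp h - 1) ^ 2 * (Real.log T + 2 * h) * ld n := by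
    intro n hn
    rw [Finset.mem_Ioc] at hn
    have hn0 : (0 : ℝ) < n := by exact_mod_cast hn.1
    have hn2 : (n : ℝ) ≤ Real.exp h * T := (Nat.le_floor_iff (by positivity)).1 hn.2
    have h3 : Real.log n ≤ Real.log T + h := by
      refine (Real.log_le_log hn0 hn2).trans ?_
      rw [Real.log_mul (Real.exp_pos h).ne' hT0.ne', Real.log_exp]
      linarith
    have h5 : W b T h n * F h n * ((Real.exp h - 1) / n) =
        (Real.exp h - 1) * (W b T h n * (ld n ^ 2 / n)) +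
        2 * (Real.exp h - 1) ^ 2 * ld n * (W b T h n * (Real.log n + h)) := by
      unfold F
      field_simp
    rw [h5]
    have h6 : W b T h n * (Real.log n + h) ≤ (b + h) * (Real.log T + 2 * h) :=
      mul_le_mul (W_le hb hL hh n) (by linarith)
        (by linarith [Real.log_natCast_nonneg n]) (by linarith)
    have h7 : 0 ≤ 2 * (Real.exp h - 1) ^ 2 * ld n := by
      have := ld_nonneg n
      positivity
    have h8 := mul_le_mul_of_nonneg_left h6 h7
    linarith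
  refine (Finset.sum_le_sum e1).trans ?_
  rw [Finset.sum_add_distrib, ← Finset.mul_sum, ← Finset.mul_sum,
    ← Finset.sum_Ioc_consecutive _ (Nat.zero_le ⌊T⌋₊) h4]
  have e2 : ∑ n ∈ Finset.Ioc 0 ⌊T⌋₊, W b T h n * (ld n ^ 2 / n) ≤
      D0 b T + (h / Real.log T) * (Real.log T ^ 2 * (1 + Real.log T)) := by
    have h5 : ∑ n ∈ Finset.Ioc 0 ⌊T⌋₊, W b T h n * (ld n ^ 2 / n) =
        D0 b T + (h / Real.log T) * ∑ n ∈ Finset.Ioc 0 ⌊T⌋₊, ld n ^ 2 / n := by
      unfold D0
      rw [Finset.mul_sum]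
      have h6 : Finset.Icc 1 ⌊T⌋₊ = Finset.Ioc 0 ⌊T⌋₊ := by
        ext n
        simp only [Finset.mem_Icc, Finset.mem_Ioc]
        omega
      rw [h6, ← Finset.sum_add_distrib]
      refine Finset.sum_congr rfl fun n hn => ?_
      rw [Finset.mem_Ioc] at hn
      have hn2 : (n : ℝ) ≤ T := (Nat.le_floor_iff hT0.le).1 hn.2
      unfold W
      rw [if_pos hn2]
      ring
    rw [h5]
    refine add_le_add le_rfl (mul_le_mul_of_nonneg_left (S1_le hL hT) (by positivity))
  have e3 : ∑ n ∈ Finset.Ioc ⌊T⌋₊ ⌊Real.exp h * T⌋₊, W b T h n * (ld n ^ 2 / n) ≤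
      b * ((Real.exp h * T - T + 1) * ((Real.log T + h) ^ 2 / T)) := by
    have h5 : ∑ n ∈ Finset.Ioc ⌊T⌋₊ ⌊Real.exp h * T⌋₊, W b T h n * (ld n ^ 2 / n) =
        b * ∑ n ∈ Finset.Ioc ⌊T⌋₊ ⌊Real.exp h * T⌋₊, ld n ^ 2 / n := by
      rw [Finset.mul_sum]
      refine Finset.sum_congr rfl fun n hn => ?_
      rw [Finset.mem_Ioc] at hn
      have hn1 : T < n := (Nat.floor_lt hT0.le).1 hn.1
      unfold W
      rw [if_neg (not_le.2 hn1)]
    rw [h5]
    exact mul_le_mul_of_nonneg_left (S2_le hL hT hh) (by linarith)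
  have e4 : ∑ n ∈ Finset.Ioc 0 ⌊Real.exp h * T⌋₊, ld n ≤
      (Real.log 4 + 4) * (Real.exp h * T) :=
    Chebyshev.psi_le_const_mul_self (by positivity)
  have e5 := mul_le_mul_of_nonneg_left (add_le_add e2 e3) hE
  have e6 := mul_le_mul_of_nonneg_left e4
    (show 0 ≤ 2 * (b + h) * (Real.exp h - 1) ^ 2 * (Real.log T + 2 * h) by positivity)
  linarith



/-- the constants of the error terms -/
noncomputable def cA (b T : ℝ) : ℝ := 2 * Real.log T ^ 2 + b * Real.log T ^ 2 +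
  2 * b * (Real.log 4 + 4) * T * Real.log T + b * T

noncomputable def cB (b T : ℝ) : ℝ := b * Real.log T ^ 2 / T

theorem elem {b T h : ℝ} (hb : 1 ≤ b) (hL : 1 ≤ Real.log T) (hT : 1 ≤ T) (hh : 0 < h) :
    b * (Real.exp h - 1) ^ 2 * T + ((Real.exp h - 1) * D0 b T +
      (Real.exp h - 1) * (h / Real.log T) * (Real.log T ^ 2 * (1 + Real.log T)) +
      b * (Real.exp h - 1) * ((Real.exp h * T - T + 1) * ((Real.log T + h) ^ 2 / T)) +
      2 * (b + h) * (Real.exp h - 1) ^ 2 * (Real.log T + 2 * h) *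
        ((Real.log 4 + 4) * (Real.exp h * T))) ≤
    h * Real.exp h * D0 b T + Real.exp h ^ 6 * (cA b T * h ^ 2 + cB b T * h) := by
  have hT0 : 0 < T := by linarith
  have hD := D0_nonneg (b := b) hb hL hT
  set E := Real.exp h with hEd
  set L := Real.log T with hLd
  have hE1 : 1 + h ≤ E := by linarith [Real.add_one_le_exp h]
  have hE0 : 1 ≤ E := by linarith
  have hEp : 0 < E := by linarith
  have hE2 : E - 1 ≤ h * E := by
    have h1 := Real.add_one_le_exp (-h)
    have h2 : Real.exp (-h) * E = 1 := by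
      rw [hEd, ← Real.exp_add, neg_add_cancel, Real.exp_zero]
    nlinarith
  have hEm : 0 ≤ E - 1 := by linarith
  have hE3 : 1 + 2 * h ≤ E ^ 2 := by nlinarith
  have hC : 0 ≤ Real.log 4 + 4 := by
    have : 0 ≤ Real.log 4 := Real.log_nonneg (by norm_num)
    linarith
  have p2 : E ^ 2 ≤ E ^ 6 := pow_le_pow_right₀ hE0 (by norm_num)
  have p1 : E ≤ E ^ 6 := by
    calc E = E ^ 1 := (pow_one E).symm
      _ ≤ E ^ 6 := pow_le_pow_right₀ hE0 (by norm_num)
  have p3 : E ^ 3 ≤ E ^ 6 := pow_le_pow_right₀ hE0 (by norm_num)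
  have p4 : E ^ 4 ≤ E ^ 6 := pow_le_pow_right₀ hE0 (by norm_num)
  have q1 : L + h ≤ L * E := by nlinarith
  have q2 : L + 2 * h ≤ L * E ^ 2 := by nlinarith
  have q3 : b + h ≤ b * E := by nlinarith
  have i1 : b * (E - 1) ^ 2 * T ≤ E ^ 6 * (b * T * h ^ 2) := by
    calc b * (E - 1) ^ 2 * T ≤ b * (h * E) ^ 2 * T := by gcongr
      _ = E ^ 2 * (b * T * h ^ 2) := by ring
      _ ≤ _ := by gcongr
  have i2 : (E - 1) * D0 b T ≤ h * E * D0 b T := mul_le_mul_of_nonneg_right hE2 hD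
  have i3 : (E - 1) * (h / L) * (L ^ 2 * (1 + L)) ≤ E ^ 6 * (2 * L ^ 2 * h ^ 2) := by
    calc (E - 1) * (h / L) * (L ^ 2 * (1 + L)) ≤ (h * E) * (h / L) * (L ^ 2 * (L + L)) := by gcongr
      _ = E * (2 * L ^ 2 * h ^ 2) := by
        field_simp
        ring
      _ ≤ _ := by gcongr
  have i4 : b * (E - 1) * ((E * T - T + 1) * ((L + h) ^ 2 / T)) ≤
      E ^ 6 * (b * L ^ 2 * h ^ 2) + E ^ 6 * (b * L ^ 2 / T * h) := by
    have r1 : E * T - T + 1 ≤ T * (h * E) + 1 := by nlinarith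
    have r2 : 0 ≤ E * T - T + 1 := by nlinarith
    calc b * (E - 1) * ((E * T - T + 1) * ((L + h) ^ 2 / T)) ≤
        b * (h * E) * ((T * (h * E) + 1) * ((L * E) ^ 2 / T)) := by gcongr
      _ = E ^ 4 * (b * L ^ 2 * h ^ 2) + E ^ 3 * (b * L ^ 2 / T * h) := by
        field_simp
      _ ≤ _ := by gcongr
  have i5 : 2 * (b + h) * (E - 1) ^ 2 * (L + 2 * h) * ((Real.log 4 + 4) * (E * T)) ≤
      E ^ 6 * (2 * b * (Real.log 4 + 4) * T * L * h ^ 2) := by
    calc 2 * (b + h) * (E - 1) ^ 2 * (L + 2 * h) * ((Real.log 4 + 4) * (E * T)) ≤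
        2 * (b * E) * (h * E) ^ 2 * (L * E ^ 2) * ((Real.log 4 + 4) * (E * T)) := by gcongr
      _ = _ := by ring
  have i6 : E ^ 6 * (cA b T * h ^ 2 + cB b T * h) = E ^ 6 * (b * T * h ^ 2) +
      E ^ 6 * (2 * L ^ 2 * h ^ 2) + (E ^ 6 * (b * L ^ 2 * h ^ 2) + E ^ 6 * (b * L ^ 2 / T * h)) +
      E ^ 6 * (2 * b * (Real.log 4 + 4) * T * L * h ^ 2) := by
    unfold cA cB
    rw [← hLd]
    ring
  rw [i6]
  linarith

theorem mom (k : ℕ) {r : ℝ} (hr : 0 < r) :
    IntegrableOn (fun h : ℝ => h ^ k * Real.exp (-(r * h))) (Set.Ioi 0) ∧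
      ∫ h in Set.Ioi (0 : ℝ), h ^ k * Real.exp (-(r * h)) = k.factorial / r ^ (k + 1) := by
  have key : ∫ h in Set.Ioi (0 : ℝ), h ^ k * Real.exp (-(r * h)) = k.factorial / r ^ (k + 1) := by
    have h1 := Real.integral_rpow_mul_exp_neg_mul_Ioi (a := (k : ℝ) + 1) (r := r)
      (by positivity) hr
    simp_rw [add_sub_cancel_right, Real.rpow_natCast] at h1
    rw [h1, Real.Gamma_nat_eq_factorial, one_div, Real.inv_rpow hr.le,
      show (k : ℝ) + 1 = ((k + 1 : ℕ) : ℝ) by push_cast; ring, Real.rpow_natCast]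
    field_simp
  refine ⟨?_, key⟩
  refine Integrable.of_integral_ne_zero ?_
  rw [key]
  positivity

theorem h_int {T D A B : ℝ} (hT : 12 ≤ T) (hD : 0 ≤ D) (hA : 0 ≤ A) (hB : 0 ≤ B) :
    ∫⁻ h in Set.Ioi (0 : ℝ), ENNReal.ofReal (T * Real.exp (-(T * h))) *
      ENNReal.ofReal (h * Real.exp h * D + Real.exp h ^ 6 * (A * h ^ 2 + B * h)) ≤
    ENNReal.ofReal (T * D / (T - 1) ^ 2 + 2 * T * A / (T - 6) ^ 3 + T * B / (T - 6) ^ 2) := by
  obtain ⟨a1, a2⟩ := mom 1 (show 0 < T - 1 by linarith)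
  obtain ⟨b1, b2⟩ := mom 2 (show 0 < T - 6 by linarith)
  obtain ⟨c1, c2⟩ := mom 1 (show 0 < T - 6 by linarith)
  have e1 : ∀ h : ℝ, T * Real.exp (-(T * h)) *
      (h * Real.exp h * D + Real.exp h ^ 6 * (A * h ^ 2 + B * h)) =
      T * D * (h ^ 1 * Real.exp (-((T - 1) * h))) + T * A * (h ^ 2 * Real.exp (-((T - 6) * h))) +
        T * B * (h ^ 1 * Real.exp (-((T - 6) * h))) := by
    intro h
    have g1 : Real.exp (-((T - 1) * h)) = Real.exp (-(T * h)) * Real.exp h := by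
      rw [← Real.exp_add]
      congr 1
      ring
    have g2 : Real.exp (-((T - 6) * h)) = Real.exp (-(T * h)) * Real.exp h ^ 6 := by
      rw [← Real.exp_nat_mul, ← Real.exp_add]
      congr 1
      push_cast
      ring
    rw [g1, g2]
    ring
  have hint : IntegrableOn (fun h : ℝ => T * D * (h ^ 1 * Real.exp (-((T - 1) * h))) +
      T * A * (h ^ 2 * Real.exp (-((T - 6) * h))) +
        T * B * (h ^ 1 * Real.exp (-((T - 6) * h)))) (Set.Ioi 0) :=
    ((a1.const_mul _).add (b1.const_mul _)).add (c1.const_mul _)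
  have hI : ∫ h in Set.Ioi (0 : ℝ), (T * D * (h ^ 1 * Real.exp (-((T - 1) * h))) +
      T * A * (h ^ 2 * Real.exp (-((T - 6) * h))) +
        T * B * (h ^ 1 * Real.exp (-((T - 6) * h)))) =
      T * D / (T - 1) ^ 2 + 2 * T * A / (T - 6) ^ 3 + T * B / (T - 6) ^ 2 := by
    have hab : IntegrableOn (fun h : ℝ => T * D * (h ^ 1 * Real.exp (-((T - 1) * h))) +
        T * A * (h ^ 2 * Real.exp (-((T - 6) * h)))) (Set.Ioi 0) :=
      (a1.const_mul _).add (b1.const_mul _)
    rw [integral_add hab (c1.const_mul _),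
      integral_add (a1.const_mul _) (b1.const_mul _), integral_const_mul, integral_const_mul,
      integral_const_mul, a2, b2, c2]
    norm_num [Nat.factorial]
    ring
  rw [← hI, ofReal_integral_eq_lintegral_ofReal hint ?_]
  · refine setLIntegral_mono' measurableSet_Ioi fun h hh => ?_
    rw [← ENNReal.ofReal_mul (by positivity), e1]
  · refine (ae_restrict_iff' measurableSet_Ioi).2 (Eventually.of_forall fun h hh => ?_)
    have hh0 : (0 : ℝ) < h := hh
    simp only [Pi.zero_apply]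
    positivity

theorem main_bd (hJC : S_JC) (hIN : S_IN) {b T : ℝ} (hb : 1 ≤ b) (hL : 1 ≤ Real.log T)
    (hT : 12 ≤ T) :
    ∫ x in (1 : ℝ)..T, (b - Real.log x / Real.log T) * EJ T x / x ^ 2 ≤
      T * D0 b T / (T - 1) ^ 2 + 2 * T * cA b T / (T - 6) ^ 3 + T * cB b T / (T - 6) ^ 2 := by
  have hT1 : 1 ≤ T := by linarith
  have hT0 : 0 < T := by linarith
  have hL0 : 0 < Real.log T := by linarith
  have hC : 0 ≤ Real.log 4 + 4 := by
    have : 0 ≤ Real.log 4 := Real.log_nonneg (by norm_num)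
    linarith
  have hA : 0 ≤ cA b T := by
    unfold cA
    positivity
  have hB : 0 ≤ cB b T := by
    unfold cB
    positivity
  have hD := D0_nonneg (b := b) hb hL hT1
  have hw : ∀ x ∈ Set.Ioc 1 T, 0 ≤ b - Real.log x / Real.log T := by
    intro x hx
    have h1 : Real.log x / Real.log T ≤ 1 := by
      rw [div_le_one hL0]
      exact Real.log_le_log (by linarith [hx.1]) hx.2
    linarith
  have hEJ := fun x (hx : 0 < x) => (hIN.1 T (by linarith)).choose_spec x hx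
  have hf0 : ∀ x ∈ Set.Ioc 1 T, 0 ≤ (b - Real.log x / Real.log T) * EJ T x / x ^ 2 := by
    intro x hx
    have h1 := (hEJ x (by linarith [hx.1])).1
    have h2 := hw x hx
    positivity
  have hfi : IntegrableOn (fun x => (b - Real.log x / Real.log T) * EJ T x / x ^ 2)
      (Set.Ioc 1 T) := (intervalIntegrable_iff_integrableOn_Ioc_of_le hT1).1
    (hIN.2 T b 1 T (by linarith) one_pos hT1)
  have hm2 : Measurable (Function.uncurry J) := hJC.1
  have hEJ2 : ∀ x, 0 < x → ENNReal.ofReal (EJ T x) ≤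
      ∫⁻ h in Set.Ioi (0 : ℝ), ENNReal.ofReal (T * Real.exp (-(T * h)) * J x h ^ 2) := by
    intro x hx
    unfold EJ
    have hmx : Measurable (J x) := hm2.of_uncurry_left
    have hmeas : Measurable fun h : ℝ => T * Real.exp (-(T * h)) * J x h ^ 2 :=
      Measurable.mul (by fun_prop) (hmx.pow_const 2)
    have hnn : 0 ≤ᵐ[volume.restrict (Set.Ioi (0 : ℝ))]
        fun h : ℝ => T * Real.exp (-(T * h)) * J x h ^ 2 :=
      Eventually.of_forall fun h => by
        show 0 ≤ T * Real.exp (-(T * h)) * J x h ^ 2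
        positivity
    rw [integral_eq_lintegral_of_nonneg_ae hnn hmeas.aestronglyMeasurable]
    exact ENNReal.ofReal_toReal_le
  have key : ENNReal.ofReal (∫ x in (1 : ℝ)..T,
      (b - Real.log x / Real.log T) * EJ T x / x ^ 2) ≤
      ENNReal.ofReal (T * D0 b T / (T - 1) ^ 2 + 2 * T * cA b T / (T - 6) ^ 3 +
        T * cB b T / (T - 6) ^ 2) := by
    rw [intervalIntegral.integral_of_le hT1, ofReal_integral_eq_lintegral_ofReal hfi
      ((ae_restrict_iff' measurableSet_Ioc).2 (Eventually.of_forall hf0))]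
    have s1 : ∫⁻ x in Set.Ioc 1 T,
        ENNReal.ofReal ((b - Real.log x / Real.log T) * EJ T x / x ^ 2) ≤
        ∫⁻ x in Set.Ioc 1 T, ∫⁻ h in Set.Ioi (0 : ℝ),
          ENNReal.ofReal ((b - Real.log x / Real.log T) / x ^ 2) *
            ENNReal.ofReal (T * Real.exp (-(T * h)) * J x h ^ 2) := by
      refine setLIntegral_mono' measurableSet_Ioc fun x hx => ?_
      rw [lintegral_const_mul' _ _ ENNReal.ofReal_ne_top]
      have h1 : (b - Real.log x / Real.log T) * EJ T x / x ^ 2 =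
          (b - Real.log x / Real.log T) / x ^ 2 * EJ T x := by ring
      rw [h1, ENNReal.ofReal_mul (div_nonneg (hw x hx) (by positivity))]
      exact mul_le_mul_right (hEJ2 x (by linarith [hx.1])) _
    refine s1.trans ?_
    have hmm : Measurable (Function.uncurry fun x h : ℝ =>
        ENNReal.ofReal ((b - Real.log x / Real.log T) / x ^ 2) *
          ENNReal.ofReal (T * Real.exp (-(T * h)) * J x h ^ 2)) := by
      have m1 : Measurable fun p : ℝ × ℝ =>
          ENNReal.ofReal ((b - Real.log p.1 / Real.log T) / p.1 ^ 2) := by fun_prop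
      have m2 : Measurable fun p : ℝ × ℝ => T * Real.exp (-(T * p.2)) := by fun_prop
      exact m1.mul (m2.mul (hm2.pow_const 2)).ennreal_ofReal
    rw [lintegral_lintegral_swap hmm.aemeasurable]
    refine le_trans ?_ (h_int hT hD hA hB)
    refine setLIntegral_mono' measurableSet_Ioi fun h hh => ?_
    have hh0 : (0 : ℝ) < h := hh
    have s2 : ∫⁻ x in Set.Ioc 1 T, ENNReal.ofReal ((b - Real.log x / Real.log T) / x ^ 2) *
            ENNReal.ofReal (T * Real.exp (-(T * h)) * J x h ^ 2) =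
        ENNReal.ofReal (T * Real.exp (-(T * h))) * ∫⁻ x in Set.Ioc 1 T,
          ENNReal.ofReal ((b - Real.log x / Real.log T) / x ^ 2 * J x h ^ 2) := by
      rw [← lintegral_const_mul' _ _ ENNReal.ofReal_ne_top]
      refine setLIntegral_congr_fun measurableSet_Ioc fun x hx => ?_
      have h2 : 0 ≤ (b - Real.log x / Real.log T) / x ^ 2 :=
        div_nonneg (hw x hx) (by positivity)
      show ENNReal.ofReal _ * ENNReal.ofReal _ = ENNReal.ofReal _ * ENNReal.ofReal _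
      rw [← ENNReal.ofReal_mul h2, ← ENNReal.ofReal_mul (by positivity)]
      congr 1
      ring
    rw [s2]
    refine mul_le_mul_right ((int_x hb hL hT1 hh0).trans (ENNReal.ofReal_le_ofReal ?_)) _
    exact (add_le_add le_rfl (sum_bd hb hL hT1 hh0)).trans (elem hb hL hT1 hh0)
  have h6 : 0 < T - 6 := by linarith
  exact (ENNReal.ofReal_le_ofReal_iff (by positivity)).1 key



theorem lim_inv (c : ℝ) : Tendsto (fun T : ℝ => (T - c)⁻¹) atTop (𝓝 0) := by
  have h1 : Tendsto (fun T : ℝ => T - c) atTop atTop := by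
    simp_rw [sub_eq_add_neg]
    exact tendsto_atTop_add_const_right atTop (-c) tendsto_id
  exact tendsto_inv_atTop_zero.comp h1

theorem lim_one (c : ℝ) : Tendsto (fun T : ℝ => T * (T - c)⁻¹) atTop (𝓝 1) := by
  have h1 : Tendsto (fun T : ℝ => 1 + c * (T - c)⁻¹) atTop (𝓝 (1 + c * 0)) :=
    ((lim_inv c).const_mul c).const_add 1
  rw [mul_zero, add_zero] at h1
  refine h1.congr' ?_
  filter_upwards [eventually_gt_atTop c] with T hT
  have h2 : T - c ≠ 0 := by
    have : 0 < T - c := by linarith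
    exact this.ne'
  field_simp
  ring

theorem lim_log : Tendsto (fun T : ℝ => (Real.log T)⁻¹) atTop (𝓝 0) :=
  tendsto_inv_atTop_zero.comp Real.tendsto_log_atTop

end DGh289

open DGh289 in
theorem dg (hL2 : S_L2) (hJC : S_JC) (hIN : S_IN) : S_DG := by
  intro b ε hb hε
  have h0 : Tendsto (fun T : ℝ => 1 / Real.log T ^ 2 * D0 b T) atTop (𝓝 (b / 2 - 1 / 3)) :=
    hL2 b hb
  have hU : Tendsto (fun T : ℝ => 1 / Real.log T ^ 2 * D0 b T * (T * (T - 1)⁻¹) ^ 2 +
      2 * (T * (T - 6)⁻¹) ^ 2 * ((2 + b) * (T - 6)⁻¹ + (T * (T - 6)⁻¹) *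
        (2 * b * (Real.log 4 + 4) * (Real.log T)⁻¹ + b * (Real.log T)⁻¹ ^ 2)) +
      (T * (T - 6)⁻¹) ^ 2 * (b * (T - 0)⁻¹)) atTop
      (𝓝 ((b / 2 - 1 / 3) * 1 ^ 2 + 2 * 1 ^ 2 * ((2 + b) * 0 + 1 *
        (2 * b * (Real.log 4 + 4) * 0 + b * 0 ^ 2)) + 1 ^ 2 * (b * 0))) := by
    refine Tendsto.add (Tendsto.add ?_ ?_) ?_
    · exact h0.mul ((lim_one 1).pow 2)
    · refine Tendsto.mul (((lim_one 6).pow 2).const_mul 2) (Tendsto.add ?_ ?_)
      · exact (lim_inv 6).const_mul _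
      · exact (lim_one 6).mul ((lim_log.const_mul _).add ((lim_log.pow 2).const_mul _))
    · exact ((lim_one 6).pow 2).mul ((lim_inv 0).const_mul _)
  have hlim : (b / 2 - 1 / 3) * 1 ^ 2 + 2 * 1 ^ 2 * ((2 + b) * 0 + 1 *
        (2 * b * (Real.log 4 + 4) * 0 + b * 0 ^ 2)) + 1 ^ 2 * (b * 0) = b / 2 - 1 / 3 := by ring
  rw [hlim] at hU
  have hev := hU.eventually (gt_mem_nhds (show b / 2 - 1 / 3 < b / 2 - 1 / 3 + ε by linarith))
  have hlog : ∀ᶠ T : ℝ in atTop, 1 ≤ Real.log T :=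
    Real.tendsto_log_atTop.eventually_ge_atTop 1
  obtain ⟨T₀, hT₀⟩ := Filter.eventually_atTop.1 (hev.and (hlog.and (eventually_ge_atTop 12)))
  refine ⟨T₀, fun T hT => ?_⟩
  obtain ⟨g1, hL, hT12⟩ := hT₀ T hT
  refine le_trans ?_ g1.le
  have hmb := main_bd hJC hIN hb hL hT12
  have hL0 : 0 < Real.log T := by linarith
  have hT0 : 0 < T := by linarith
  have h1 : 0 < T - 1 := by linarith
  have h6 : 0 < T - 6 := by linarith
  refine (mul_le_mul_of_nonneg_left hmb (by positivity)).trans (le_of_eq ?_)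
  unfold cA cB
  rw [sub_zero]
  field_simp
  ring

end H479.Z
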