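import Pool.Agent.H479.Z.Stm
import Pool.Graph.R_seed8.H370R2.Count
import Pool.Agent.H479.U.Cnt

/-! # finiteness and the number of zeros -/

set_option autoImplicit false

open MeasureTheory Complex Filter Topology

namespace H479.Z

theorem fin : S_FIN := by
  refine ⟨fun a b ha => ?_, fun s h1 h2 h3 h4 => ?_⟩
  · exact (H370.zeta_zeros_finite b).subset fun s hs => ⟨hs.1, hs.2.1, lt_of_le_of_lt ha hs.2.2.1,
      hs.2.2.2.1, hs.2.2.2.2⟩
  · exact H370.Loc.mult_pos' H370.good_zeta h3 h4

lemma N_mono {a b a' b' : ℝ} (h0 : 0 ≤ a') (ha : a' ≤ a) (hb : b ≤ b') : N a b ≤ N a' b' := by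
  classical
  unfold N
  rw [finsum_mem_eq_finite_toFinset_sum _ (fin.1 a b (h0.trans ha)),
    finsum_mem_eq_finite_toFinset_sum _ (fin.1 a' b' h0)]
  apply Finset.sum_le_sum_of_subset
  intro s hs
  rw [Set.Finite.mem_toFinset] at hs ⊢
  exact ⟨hs.1, hs.2.1, ha.trans_lt hs.2.2.1, hs.2.2.2.1.trans hb, hs.2.2.2.2⟩

lemma N_add {a b c : ℝ} (h0 : 0 ≤ a) (hab : a ≤ b) (hbc : b ≤ c) : N a c = N a b + N b c := by
  classical
  unfold N
  rw [finsum_mem_eq_finite_toFinset_sum _ (fin.1 a b h0),
    finsum_mem_eq_finite_toFinset_sum _ (fin.1 a c h0),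
    finsum_mem_eq_finite_toFinset_sum _ (fin.1 b c (h0.trans hab)), ← Finset.sum_union]
  · apply Finset.sum_congr _ fun _ _ => rfl
    ext s
    simp only [Set.Finite.mem_toFinset, Finset.mem_union, zeros, Set.mem_setOf_eq]
    constructor
    · rintro ⟨h1, h2, h3, h4, h5⟩
      rcases le_or_gt s.im b with h | h
      · exact Or.inl ⟨h1, h2, h3, h, h5⟩
      · exact Or.inr ⟨h1, h2, h, h4, h5⟩
    · rintro (⟨h1, h2, h3, h4, h5⟩ | ⟨h1, h2, h3, h4, h5⟩)
      · exact ⟨h1, h2, h3, h4.trans hbc, h5⟩
      · exact ⟨h1, h2, hab.trans_lt h3, h4, h5⟩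
  · rw [Finset.disjoint_left]
    intro s hs hs'
    rw [Set.Finite.mem_toFinset] at hs hs'
    exact absurd hs'.2.2.1 (not_lt.2 hs.2.2.2.1)

/-- the number of the zeros in `[T, 2T]` and up to `T` -/
theorem cn : S_CN := by
  obtain ⟨C, T0, hC, hT0, h⟩ := H370.nn_asymp H370.good_zeta
  have hπ := Real.pi_pos
  have hmain : ∀ T : ℝ, T0 ≤ T → |(N T (2 * T) : ℝ) - T * Real.log T / (2 * Real.pi)| ≤ C * T := by
    intro T hT
    exact h T hT T (2 * T) le_rfl (by linarith) (by linarith) le_rfl
  refine ⟨fun ε hε => ?_, ?_⟩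
  · -- choose T so large that C T < min(1, ε) T log T / 2π
    have hlim := Real.tendsto_log_atTop
    obtain ⟨T1, hT1⟩ := Filter.eventually_atTop.1 (hlim.eventually_gt_atTop
      (2 * Real.pi * C * (1 + 1 / ε)))
    refine ⟨max T0 T1, fun T hT => ?_⟩
    have hT0' : T0 ≤ T := (le_max_left _ _).trans hT
    have hT10 : (10 : ℝ) ≤ T := hT0.trans hT0'
    have hl := hT1 T ((le_max_right _ _).trans hT)
    have h1 := abs_le.1 (hmain T hT0')
    have e1 : 2 * Real.pi * C * (1 + 1 / ε) = 2 * Real.pi * C + 2 * Real.pi * C / ε := by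
      field_simp
    rw [e1] at hl
    have h2 : 0 < 2 * Real.pi * C / ε := by positivity
    have h2' : 0 < 2 * Real.pi * C := by positivity
    have h3 : C * T < T * Real.log T / (2 * Real.pi) := by
      rw [lt_div_iff₀ (by positivity)]
      have : T * (2 * Real.pi * C) < T * Real.log T := by
        apply mul_lt_mul_of_pos_left _ (by linarith)
        linarith
      nlinarith
    have h4 : C * T ≤ ε * (T * Real.log T / (2 * Real.pi)) := by
      have h5 : 2 * Real.pi * C / ε ≤ Real.log T := by linarith
      rw [div_le_iff₀ hε] at h5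
      rw [← mul_div_assoc, le_div_iff₀ (by positivity)]
      nlinarith
    constructor
    · linarith [h1.1]
    · linarith [h1.2]
  · -- N(0,T) ≤ N(0,2T0) + sum over dyadic blocks
    have hN0 : ∀ k : ℕ, ∀ T : ℝ, T ≤ 2 ^ k * T0 → T0 ≤ T →
        (N 0 T : ℝ) ≤ N 0 (2 * T0) + (C + 1) * (4 * T) * Real.log T := by
      intro k
      induction k with
      | zero =>
        intro T hT hT'
        have : (N 0 T : ℝ) ≤ N 0 (2 * T0) := by
          exact_mod_cast N_mono le_rfl le_rfl (by simp at hT; linarith)
        have h2 : 0 ≤ (C + 1) * (4 * T) * Real.log T := by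
          have := Real.log_nonneg (show (1 : ℝ) ≤ T by linarith)
          have : 0 < T := by linarith
          positivity
        linarith
      | succ k ih =>
        intro T hT hT'
        rcases le_or_gt T (2 * T0) with h2 | h2
        · have : (N 0 T : ℝ) ≤ N 0 (2 * T0) := by
            exact_mod_cast N_mono le_rfl le_rfl h2
          have h2 : 0 ≤ (C + 1) * (4 * T) * Real.log T := by
            have := Real.log_nonneg (show (1 : ℝ) ≤ T by linarith)
            have : 0 < T := by linarith
            positivity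
          linarith
        · have h3 := ih (T / 2) (by rw [pow_succ] at hT; linarith) (by linarith)
          have h4 := abs_le.1 (hmain (T / 2) (by linarith))
          rw [show 2 * (T / 2) = T by ring] at h4
          have h5 : (N 0 T : ℝ) = N 0 (T / 2) + N (T / 2) T := by
            exact_mod_cast N_add le_rfl (by linarith) (by linarith)
          have hlog : Real.log (T / 2) ≤ Real.log T :=
            Real.log_le_log (by linarith) (by linarith)
          have hl1 : 1 ≤ Real.log T := by
            rw [Real.le_log_iff_exp_le (by linarith)]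
            linarith [Real.exp_one_lt_d9]
          have hTp : 0 < T := by linarith
          have h6 : (C + 1) * (4 * (T / 2)) * Real.log (T / 2) ≤
              (C + 1) * (2 * T) * Real.log T := by
            have : (C + 1) * (4 * (T / 2)) = (C + 1) * (2 * T) := by ring
            rw [this]
            gcongr
          have h7 : T / 2 * Real.log (T / 2) / (2 * Real.pi) ≤ T * Real.log T := by
            rw [div_le_iff₀ (by positivity)]
            have : T / 2 * Real.log (T / 2) ≤ T * Real.log T * 1 := by
              rw [mul_one]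
              apply mul_le_mul (by linarith) hlog _ hTp.le
              exact Real.log_nonneg (by linarith)
            refine this.trans ?_
            have : 0 ≤ T * Real.log T := by positivity
            apply mul_le_mul_of_nonneg_left _ this
            linarith [Real.pi_gt_three]
          have h8 : C * (T / 2) ≤ C * T * Real.log T := by
            have : C * T * 1 ≤ C * T * Real.log T := by gcongr
            nlinarith
          rw [h5]
          nlinarith [h4.2]
    obtain ⟨C', hC'⟩ : ∃ C' : ℝ, (N 0 (2 * T0) : ℝ) ≤ C' := ⟨_, le_rfl⟩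
    refine ⟨|C'| + 4 * (C + 1), T0, fun T hT => ?_⟩
    obtain ⟨k, hk⟩ : ∃ k : ℕ, T ≤ 2 ^ k * T0 := by
      obtain ⟨k, hk⟩ := pow_unbounded_of_one_lt (T / T0) (one_lt_two)
      refine ⟨k, ?_⟩
      rw [div_lt_iff₀ (by linarith)] at hk
      exact hk.le
    have h1 := hN0 k T hk hT
    have hl1 : 1 ≤ Real.log T := by
      rw [Real.le_log_iff_exp_le (by linarith)]
      linarith [Real.exp_one_lt_d9]
    have h2 : |C'| * 1 ≤ |C'| * (T * Real.log T) := by
      apply mul_le_mul_of_nonneg_left _ (abs_nonneg _)
      nlinarith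
    have := le_abs_self C'
    nlinarith

end H479.Z
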