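import Pool.Agent.H479.Z.Stm

/-! # Fourier transform of a smoothed mass of the prime powers in a short interval (proved by helper784) -/


set_option autoImplicit false

open MeasureTheory Complex Filter Topology
open scoped ENNReal

namespace H479.Z

namespace FT784

theorem osc (t v h : ℝ) (ht : t ≠ 0) :
    ∫ y in (v - h)..v, cexp (-(t * y * I)) =
      cexp (-(t * v * I)) * ((cexp (t * h * I) - 1) / (t * I)) := by
  have ht' : (t : ℂ) ≠ 0 := by exact_mod_cast ht
  have hc : (-(t : ℂ) * I) ≠ 0 := mul_ne_zero (neg_ne_zero.2 ht') I_ne_zero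
  have h1 : ∀ y : ℝ, cexp (-(t * y * I)) = cexp ((-(t : ℂ) * I) * y) := by
    intro y
    congr 1
    ring
  simp_rw [h1]
  rw [integral_exp_mul_complex hc]
  have h2 : cexp ((-(t : ℂ) * I) * ((v - h : ℝ) : ℂ)) =
      cexp ((-(t : ℂ) * I) * v) * cexp (t * h * I) := by
    rw [← Complex.exp_add]
    congr 1
    push_cast
    ring
  rw [h2]
  have hI : (I : ℂ) ≠ 0 := I_ne_zero
  field_simp
  ring

theorem norm_e (t y : ℝ) : ‖cexp (-(t * y * I))‖ = 1 := by
  have : (-(t * y * I) : ℂ) = ((-(t * y) : ℝ) : ℂ) * I := by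
    push_cast
    ring
  rw [this, Complex.norm_exp_ofReal_mul_I]

theorem cont_e (t : ℝ) : Continuous (fun y : ℝ => cexp (-(t * y * I))) := by
  fun_prop

/-- The mass of a finite measure in a moving interval. -/
theorem key (μ : Measure ℝ) [IsFiniteMeasure μ] (h : ℝ) (hh : 0 < h) :
    Integrable (fun y : ℝ => μ.real (Set.Ioc y (y + h))) ∧
    ∀ t : ℝ, t ≠ 0 → ∫ y : ℝ, ((μ.real (Set.Ioc y (y + h)) : ℝ) : ℂ) * cexp (-(t * y * I)) =
      (∫ v, cexp (-(t * v * I)) ∂μ) * ((cexp (t * h * I) - 1) / (t * I)) := by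
  obtain ⟨S, hSdef⟩ : ∃ S : Set (ℝ × ℝ), S = {p | p.1 < p.2 ∧ p.2 ≤ p.1 + h} := ⟨_, rfl⟩
  have hS : MeasurableSet S := by
    rw [hSdef]
    exact (measurableSet_lt measurable_fst measurable_snd).inter
      (measurableSet_le measurable_snd (measurable_fst.add_const h))
  have hs1 : ∀ v : ℝ, (fun y : ℝ => (y, v)) ⁻¹' S = Set.Ico (v - h) v := by
    intro v
    ext y
    rw [hSdef]
    constructor
    · rintro ⟨h1, h2⟩
      exact ⟨by simp only at h2; linarith, h1⟩
    · rintro ⟨h1, h2⟩
      exact ⟨h2, by simp only; linarith⟩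
  have hs2 : ∀ y : ℝ, (fun v : ℝ => (y, v)) ⁻¹' S = Set.Ioc y (y + h) := by
    intro y
    ext v
    rw [hSdef]
    rfl
  have hfin : (volume.prod μ) S < ⊤ := by
    rw [Measure.prod_apply_symm hS]
    have h1 : ∀ v : ℝ, volume ((fun y : ℝ => (y, v)) ⁻¹' S) = ENNReal.ofReal h := by
      intro v
      rw [hs1, Real.volume_Ico]
      congr 1
      ring
    simp_rw [h1]
    rw [lintegral_const]
    exact ENNReal.mul_lt_top ENNReal.ofReal_lt_top (measure_lt_top _ _)
  have hint : Integrable (S.indicator (fun _ => (1 : ℝ))) (volume.prod μ) :=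
    (integrable_indicator_iff hS).2 (integrableOn_const hfin.ne)
  have hind : ∀ y v : ℝ, S.indicator (fun _ => (1 : ℝ)) (y, v) =
      (Set.Ioc y (y + h)).indicator (fun _ => (1 : ℝ)) v := by
    intro y v
    rw [← hs2 y]
    rfl
  have hF : ∀ y : ℝ, ∫ v, S.indicator (fun _ => (1 : ℝ)) (y, v) ∂μ = μ.real (Set.Ioc y (y + h)) := by
    intro y
    simp_rw [hind]
    rw [integral_indicator measurableSet_Ioc]
    simp
  refine ⟨?_, fun t ht => ?_⟩
  · have h1 := hint.integral_prod_left
    simp_rw [hF] at h1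
    exact h1
  · have hG : Integrable (fun p : ℝ × ℝ => ((S.indicator (fun _ => (1 : ℝ)) p : ℝ) : ℂ) *
        cexp (-(t * p.1 * I))) (volume.prod μ) := by
      refine Integrable.mono' hint ?_ ?_
      · exact (Complex.continuous_ofReal.comp_aestronglyMeasurable hint.1).mul
          ((cont_e t).comp continuous_fst).aestronglyMeasurable
      · refine Eventually.of_forall (fun p => ?_)
        rw [norm_mul, norm_e, mul_one, Complex.norm_real, Real.norm_eq_abs, abs_of_nonneg]
        exact Set.indicator_nonneg (fun _ _ => zero_le_one) p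
    have hsw := integral_integral_swap
      (f := fun y v : ℝ => ((S.indicator (fun _ => (1 : ℝ)) (y, v) : ℝ) : ℂ) *
        cexp (-(t * y * I))) hG
    have e1 : ∀ y : ℝ, ∫ v, ((S.indicator (fun _ => (1 : ℝ)) (y, v) : ℝ) : ℂ) *
        cexp (-(t * y * I)) ∂μ = ((μ.real (Set.Ioc y (y + h)) : ℝ) : ℂ) * cexp (-(t * y * I)) := by
      intro y
      rw [integral_mul_const, integral_complex_ofReal, hF]
    have e2 : ∀ v : ℝ, ∫ y : ℝ, ((S.indicator (fun _ => (1 : ℝ)) (y, v) : ℝ) : ℂ) *
        cexp (-(t * y * I)) = cexp (-(t * v * I)) * ((cexp (t * h * I) - 1) / (t * I)) := by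
      intro v
      have e3 : ∀ y : ℝ, ((S.indicator (fun _ => (1 : ℝ)) (y, v) : ℝ) : ℂ) *
          cexp (-(t * y * I)) = (Set.Ico (v - h) v).indicator (fun y : ℝ => cexp (-(t * y * I))) y := by
        intro y
        rw [← hs1 v]
        by_cases hy : (y, v) ∈ S
        · rw [Set.indicator_of_mem hy, Set.indicator_of_mem (show y ∈ (fun y : ℝ => (y, v)) ⁻¹' S from hy)]
          simp
        · rw [Set.indicator_of_notMem hy,
            Set.indicator_of_notMem (show y ∉ (fun y : ℝ => (y, v)) ⁻¹' S from hy)]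
          simp
      simp_rw [e3]
      rw [integral_indicator measurableSet_Ico, integral_Ico_eq_integral_Ioc,
        ← intervalIntegral.integral_of_le (by linarith), osc t v h ht]
    simp_rw [e1, e2] at hsw
    rw [hsw, integral_mul_const]

/-- Square integrability of bounded integrable functions. -/
theorem memLp_two (f : ℝ → ℂ) (hf : Integrable f) (B : ℝ) (hB : ∀ y, ‖f y‖ ≤ B) :
    MemLp f 2 := by
  rw [memLp_two_iff_integrable_sq_norm hf.1]
  refine Integrable.mono' (hf.norm.const_mul B) (hf.norm.1.pow 2) (Eventually.of_forall fun y => ?_)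
  rw [Real.norm_eq_abs, abs_of_nonneg (by positivity), sq]
  exact mul_le_mul_of_nonneg_right (hB y) (norm_nonneg _)

/-- the weights -/
noncomputable def c (u : ℝ) (n : ℕ) : ℝ := ld n * ph u (Real.log n)

theorem ld_nonneg (n : ℕ) : 0 ≤ ld n := ArithmeticFunction.vonMangoldt_nonneg

theorem c_nonneg (u : ℝ) (n : ℕ) : 0 ≤ c u n :=
  mul_nonneg (ld_nonneg n) (Real.exp_pos _).le

theorem summable_c (u : ℝ) : Summable (c u) := by
  have h2 : Summable (fun n : ℕ => Real.exp ((u + 5 / 2) ^ 2 / 2 - u ^ 2 / 2) * (1 / (n : ℝ) ^ 2)) :=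
    (Real.summable_one_div_nat_pow.2 (by norm_num)).mul_left _
  refine Summable.of_nonneg_of_le (c_nonneg u) (fun n => ?_) h2
  rcases Nat.eq_zero_or_pos n with hn | hn
  · subst hn
    have : c u 0 = 0 := by
      unfold c ld
      simp
    rw [this]
    positivity
  · have hn1 : (1 : ℝ) ≤ n := by exact_mod_cast hn
    have hn0 : (0 : ℝ) < n := by linarith
    have h3 : ld n ≤ n := by
      have h4 : ld n ≤ Real.log n := ArithmeticFunction.vonMangoldt_le_log
      have h5 := Real.log_le_sub_one_of_pos hn0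
      linarith
    obtain ⟨x, hx⟩ : ∃ x : ℝ, x = Real.log n := ⟨_, rfl⟩
    have h6 : ph u (Real.log n) ≤
        Real.exp ((u + 5 / 2) ^ 2 / 2 - u ^ 2 / 2) * (1 / (n : ℝ) ^ 3) := by
      have h7 : (1 / (n : ℝ) ^ 3) = Real.exp (-3 * x) := by
        have h8 : (n : ℝ) ^ 3 = Real.exp (3 * x) := by
          have h9 : (3 : ℝ) * x = ((3 : ℕ) : ℝ) * x := by norm_num
          rw [h9, Real.exp_nat_mul, hx, Real.exp_log hn0]
        rw [h8, one_div, ← Real.exp_neg]
        congr 1
        ring
      unfold ph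
      rw [h7, ← Real.exp_add, ← hx]
      apply Real.exp_le_exp.2
      nlinarith [sq_nonneg (x - (u + 5 / 2))]
    calc c u n ≤ n * (Real.exp ((u + 5 / 2) ^ 2 / 2 - u ^ 2 / 2) * (1 / (n : ℝ) ^ 3)) :=
          mul_le_mul h3 h6 (Real.exp_pos _).le hn0.le
      _ = _ := by
          field_simp

/-- the first measure -/
noncomputable def mu1 (u : ℝ) : Measure ℝ :=
  Measure.sum fun n : ℕ => ENNReal.ofReal (c u n) • Measure.dirac (Real.log n)

theorem fin1 (u : ℝ) : IsFiniteMeasure (mu1 u) := by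
  refine ⟨?_⟩
  unfold mu1
  rw [Measure.sum_apply _ MeasurableSet.univ]
  have : ∀ n : ℕ, (ENNReal.ofReal (c u n) • Measure.dirac (Real.log n)) Set.univ =
      ENNReal.ofReal (c u n) := by
    intro n
    simp
  simp_rw [this]
  rw [← ENNReal.ofReal_tsum_of_nonneg (c_nonneg u) (summable_c u)]
  exact ENNReal.ofReal_lt_top

theorem real1 (u y h : ℝ) : (mu1 u).real (Set.Ioc y (y + h)) =
    ∑' n : ℕ, if y < Real.log n ∧ Real.log n ≤ y + h then ld n * ph u (Real.log n) else 0 := by
  unfold Measure.real mu1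
  rw [Measure.sum_apply _ measurableSet_Ioc, ENNReal.tsum_toReal_eq]
  · refine tsum_congr fun n => ?_
    rw [Measure.smul_apply, Measure.dirac_apply' _ measurableSet_Ioc, smul_eq_mul]
    by_cases hn : y < Real.log n ∧ Real.log n ≤ y + h
    · rw [if_pos hn, Set.indicator_of_mem (show Real.log n ∈ Set.Ioc y (y + h) from hn)]
      rw [Pi.one_apply, mul_one, ENNReal.toReal_ofReal (c_nonneg u n)]
      rfl
    · rw [if_neg hn, Set.indicator_of_notMem (show Real.log n ∉ Set.Ioc y (y + h) from hn)]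
      simp
  · intro n
    rw [Measure.smul_apply, smul_eq_mul]
    exact ENNReal.mul_ne_top ENNReal.ofReal_ne_top (measure_ne_top _ _)

theorem four1 (u t : ℝ) : ∫ v, cexp (-(t * v * I)) ∂(mu1 u) = P u t := by
  have := fin1 u
  have hi : Integrable (fun v : ℝ => cexp (-(t * v * I))) (mu1 u) := by
    refine Integrable.mono' (integrable_const (1 : ℝ)) (cont_e t).aestronglyMeasurable
      (Eventually.of_forall fun v => ?_)
    rw [norm_e]
  unfold mu1 at hi ⊢
  rw [integral_sum_measure hi]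
  unfold P
  refine tsum_congr fun n => ?_
  rw [integral_smul_measure, integral_dirac, ENNReal.toReal_ofReal (c_nonneg u n)]
  rcases Nat.eq_zero_or_pos n with hn | hn
  · subst hn
    unfold c ld
    simp
  · have hn0 : (n : ℂ) ≠ 0 := by
      have : n ≠ 0 := by omega
      exact_mod_cast this
    rw [Complex.cpow_def_of_ne_zero hn0, Complex.natCast_log]
    unfold c ph
    rw [Complex.real_smul]
    push_cast
    have e2 : cexp (-((u : ℂ) - Complex.log n) ^ 2 / 2 - Complex.log n / 2) *
        cexp (-(t * Complex.log n * I)) =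
        cexp (Complex.log n * -(1 / 2 + t * I)) * cexp (-((u : ℂ) - Complex.log n) ^ 2 / 2) := by
      rw [← Complex.exp_add, ← Complex.exp_add]
      congr 1
      ring
    rw [mul_assoc (ld n : ℂ), mul_assoc (ld n : ℂ), e2]

/-- the density -/
noncomputable def g (u v : ℝ) : ℝ := ph u v * Real.exp v

theorem g_pos (u v : ℝ) : 0 < g u v := mul_pos (Real.exp_pos _) (Real.exp_pos _)

theorem g_cexp (u t v : ℝ) : ((g u v : ℝ) : ℂ) * cexp (-(t * v * I)) =
    cexp ((-(1 / 2) : ℂ) * (v : ℂ) ^ 2 + (u + (1 / 2 - t * I)) * v + (-(u : ℂ) ^ 2 / 2)) := by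
  unfold g ph
  push_cast
  rw [← Complex.exp_add, ← Complex.exp_add]
  congr 1
  ring

theorem int_g (u : ℝ) : Integrable (g u) := by
  have h1 := integrable_cexp_quadratic' (b := (-(1 / 2) : ℂ)) (by norm_num)
    ((u : ℂ) + (1 / 2 - (0 : ℝ) * I)) (-(u : ℂ) ^ 2 / 2)
  have h2 := h1.norm
  refine h2.congr (Eventually.of_forall fun v => ?_)
  show ‖_‖ = g u v
  rw [← g_cexp u 0 v, norm_mul, norm_e, mul_one, Complex.norm_real, Real.norm_eq_abs,
    abs_of_pos (g_pos u v)]

/-- the second measure -/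
noncomputable def mu2 (u : ℝ) : Measure ℝ :=
  volume.withDensity fun v : ℝ => ENNReal.ofReal (g u v)

theorem fin2 (u : ℝ) : IsFiniteMeasure (mu2 u) :=
  isFiniteMeasure_withDensity_ofReal (int_g u).2

theorem real2 (u y h : ℝ) (hh : 0 < h) : (mu2 u).real (Set.Ioc y (y + h)) =
    ∫ v in y..(y + h), ph u v * Real.exp v := by
  unfold Measure.real mu2
  rw [withDensity_apply _ measurableSet_Ioc, intervalIntegral.integral_of_le (by linarith)]
  show _ = ∫ v in Set.Ioc y (y + h), g u v
  rw [integral_eq_lintegral_of_nonneg_ae (Eventually.of_forall fun v => (g_pos u v).le)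
      (int_g u).1.restrict]

theorem four2 (u t : ℝ) : ∫ v, cexp (-(t * v * I)) ∂(mu2 u) = R u t := by
  unfold mu2
  have hm : Measurable (fun v : ℝ => ENNReal.ofReal (g u v)) := by
    unfold g ph
    fun_prop
  rw [integral_withDensity_eq_integral_toReal_smul hm
    (Eventually.of_forall fun v => ENNReal.ofReal_lt_top)]
  have e1 : ∀ v : ℝ, (ENNReal.ofReal (g u v)).toReal • cexp (-(t * v * I)) =
      cexp ((-(1 / 2) : ℂ) * (v : ℂ) ^ 2 + (u + (1 / 2 - t * I)) * v + (-(u : ℂ) ^ 2 / 2)) := by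
    intro v
    rw [ENNReal.toReal_ofReal (g_pos u v).le, Complex.real_smul, g_cexp]
  simp_rw [e1]
  rw [integral_cexp_quadratic (by norm_num)]
  unfold R
  congr 1
  · have h1 : ((Real.pi : ℂ) / -(-(1 / 2) : ℂ)) = ((2 * Real.pi : ℝ) : ℂ) := by
      push_cast
      ring
    rw [h1, Real.sqrt_eq_rpow, Complex.ofReal_cpow (by positivity)]
    norm_num
  · congr 1
    field_simp
    ring

end FT784

open FT784 in
theorem ft : S_FT := by
  intro u h hh
  have f1 := fin1 u
  have f2 := fin2 u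
  obtain ⟨i1, k1⟩ := key (mu1 u) h hh
  obtain ⟨i2, k2⟩ := key (mu2 u) h hh
  have hA : ∀ y : ℝ, A u y h = (mu1 u).real (Set.Ioc y (y + h)) -
      (mu2 u).real (Set.Ioc y (y + h)) := by
    intro y
    rw [real1, real2 u y h hh]
    rfl
  have hI : Integrable (fun y : ℝ => (A u y h : ℂ)) := by
    simp_rw [hA]
    exact (i1.sub i2).ofReal
  refine ⟨hI, ?_, fun t ht => ?_⟩
  · refine memLp_two _ hI ((mu1 u).real Set.univ + (mu2 u).real Set.univ) (fun y => ?_)
    rw [Complex.norm_real, Real.norm_eq_abs, hA]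
    have b1 : (mu1 u).real (Set.Ioc y (y + h)) ≤ (mu1 u).real Set.univ :=
      measureReal_mono (Set.subset_univ _)
    have b2 : (mu2 u).real (Set.Ioc y (y + h)) ≤ (mu2 u).real Set.univ :=
      measureReal_mono (Set.subset_univ _)
    have b3 : 0 ≤ (mu1 u).real (Set.Ioc y (y + h)) := measureReal_nonneg
    have b4 : 0 ≤ (mu2 u).real (Set.Ioc y (y + h)) := measureReal_nonneg
    rw [abs_le]
    constructor <;> linarith
  · have j : ∀ F : ℝ → ℝ, Integrable F →
        Integrable (fun y : ℝ => ((F y : ℝ) : ℂ) * cexp (-(t * y * I))) := by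
      intro F hF
      refine Integrable.mono' hF.norm ?_ (Eventually.of_forall fun y => ?_)
      · exact (Complex.continuous_ofReal.comp_aestronglyMeasurable hF.1).mul
          (cont_e t).aestronglyMeasurable
      · rw [norm_mul, norm_e, mul_one, Complex.norm_real]
    have e1 : ∀ y : ℝ, (A u y h : ℂ) * cexp (-(t * y * I)) =
        (((mu1 u).real (Set.Ioc y (y + h)) : ℝ) : ℂ) * cexp (-(t * y * I)) -
        (((mu2 u).real (Set.Ioc y (y + h)) : ℝ) : ℂ) * cexp (-(t * y * I)) := by
      intro y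
      rw [hA]
      push_cast
      ring
    simp_rw [e1]
    rw [integral_sub (j _ i1) (j _ i2), k1 t ht, k2 t ht, four1, four2]
    unfold Q
    ring

end H479.Z
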