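import Pool.Agent.H479.Z.Stm

/-! # crude bounds, measurability and integrability (proved by helper548) -/


open MeasureTheory Complex Filter Topology
open scoped ENNReal

namespace H479.Z

theorem jc : S_JC := by
  have hpm : Measurable Chebyshev.psi := Chebyshev.psi_mono.measurable
  refine ⟨?_, ?_⟩
  · unfold J
    exact ((hpm.comp ((Real.measurable_exp.comp measurable_snd).mul measurable_fst)).sub
      (hpm.comp measurable_fst)).sub
        (((Real.measurable_exp.comp measurable_snd).sub measurable_const).mul measurable_fst)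
  · have hC : 0 < Real.log 4 + 4 := by
      have : 0 < Real.log 4 := Real.log_pos (by norm_num)
      linarith
    refine ⟨2 * (Real.log 4 + 4) + 1, by linarith, ?_, ?_⟩
    · intro x s hx hs
      have he : 1 ≤ Real.exp s := Real.one_le_exp hs.le
      have hex : x ≤ Real.exp s * x := le_mul_of_one_le_left hx.le he
      have h1 := Chebyshev.psi_le_const_mul_self (x := Real.exp s * x) (by positivity)
      have h2 := Chebyshev.psi_le_const_mul_self hx.le
      have h3 := Chebyshev.psi_nonneg (Real.exp s * x)
      have h4 := Chebyshev.psi_nonneg x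
      have h5 : (Real.log 4 + 4) * x ≤ (Real.log 4 + 4) * (Real.exp s * x) :=
        mul_le_mul_of_nonneg_left hex hC.le
      unfold J
      rw [abs_le]
      constructor
      · nlinarith
      · nlinarith
    · intro x s hx hx1 hs hs2
      have h1 : Real.exp s < 2 := by
        have := Real.exp_lt_exp.2 hs2
        rwa [Real.exp_log (by norm_num)] at this
      have h2 : Real.exp s * x < 2 := by nlinarith [Real.exp_pos s]
      unfold J
      rw [Chebyshev.psi_eq_zero_of_lt_two h2, Chebyshev.psi_eq_zero_of_lt_two (by linarith)]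
      ring

theorem in_ (hJC : S_JC) : S_IN := by
  obtain ⟨hm, K, hK, hb, -⟩ := hJC
  have hpart1 : ∀ T : ℝ, 4 ≤ T → ∃ C : ℝ, ∀ x : ℝ, 0 < x → 0 ≤ EJ T x ∧ EJ T x ≤ C * x ^ 2 := by
    intro T hT
    refine ⟨∫ h in Set.Ioi (0 : ℝ), T * K ^ 2 * Real.exp (-(T - 2) * h), fun x hx => ⟨?_, ?_⟩⟩
    · unfold EJ
      refine setIntegral_nonneg measurableSet_Ioi fun h _ => ?_
      have : 0 < T := by linarith
      positivity
    · unfold EJ
      have hI : IntegrableOn (fun h : ℝ => T * K ^ 2 * Real.exp (-(T - 2) * h)) (Set.Ioi 0) :=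
        (exp_neg_integrableOn_Ioi 0 (by linarith)).const_mul _
      rw [mul_comm, ← integral_const_mul]
      refine integral_mono_of_nonneg ?_ (hI.const_mul _) ?_
      · filter_upwards with h
        have : 0 < T := by linarith
        have h1 : 0 ≤ T * Real.exp (-(T * h)) * J x h ^ 2 := by positivity
        exact h1
      · filter_upwards [ae_restrict_mem measurableSet_Ioi] with h hh
        have h1 := hb x h hx hh
        have h2 : J x h ^ 2 ≤ (K * Real.exp h * x) ^ 2 := by
          rw [← sq_abs]
          exact pow_le_pow_left₀ (abs_nonneg _) h1 2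
        have hT0 : 0 < T := by linarith
        calc T * Real.exp (-(T * h)) * J x h ^ 2 ≤
              T * Real.exp (-(T * h)) * (K * Real.exp h * x) ^ 2 :=
              mul_le_mul_of_nonneg_left h2 (by positivity)
          _ = x ^ 2 * (T * K ^ 2 * (Real.exp (-(T * h)) * (Real.exp h * Real.exp h))) := by ring
          _ = x ^ 2 * (T * K ^ 2 * Real.exp (-(T - 2) * h)) := by
              rw [← Real.exp_add, ← Real.exp_add]
              congr 3
              ring
  refine ⟨hpart1, ?_⟩
  intro T b x₁ x₂ hT hx1 hx12
  obtain ⟨C, hC⟩ := hpart1 T hT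
  have hmE : Measurable (fun x : ℝ => EJ T x) := by
    have h1 : Measurable (fun p : ℝ × ℝ => T * Real.exp (-(T * p.2)) * J p.1 p.2 ^ 2) := by
      refine Measurable.mul ?_ (hm.pow_const 2)
      fun_prop
    have h2 := h1.stronglyMeasurable.integral_prod_right' (ν := volume.restrict (Set.Ioi (0 : ℝ)))
    exact h2.measurable
  have hmg : Measurable (fun x : ℝ => (b - Real.log x / Real.log T) * EJ T x / x ^ 2) := by
    refine Measurable.div (Measurable.mul ?_ hmE) (measurable_id.pow_const 2)
    exact measurable_const.sub (Real.measurable_log.div_const _)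
  rw [intervalIntegrable_iff_integrableOn_Icc_of_le hx12]
  have hlT : 0 < Real.log T := Real.log_pos (by linarith)
  refine IntegrableOn.of_bound (by simp) hmg.aestronglyMeasurable
    ((|b| + (|Real.log x₁| + |Real.log x₂|) / Real.log T) * |C|) ?_
  filter_upwards [ae_restrict_mem measurableSet_Icc] with x hx
  have hx0 : 0 < x := lt_of_lt_of_le hx1 hx.1
  have hx2 : 0 < x ^ 2 := by positivity
  obtain ⟨h1, h2⟩ := hC x hx0
  have hC0 : EJ T x / x ^ 2 ≤ |C| := by
    rw [div_le_iff₀ hx2]
    exact h2.trans (mul_le_mul_of_nonneg_right (le_abs_self C) hx2.le)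
  have hlog : |Real.log x| ≤ |Real.log x₁| + |Real.log x₂| := by
    have l1 : Real.log x₁ ≤ Real.log x := Real.log_le_log hx1 hx.1
    have l2 : Real.log x ≤ Real.log x₂ := Real.log_le_log hx0 hx.2
    rw [abs_le]
    constructor
    · linarith [neg_abs_le (Real.log x₁), abs_nonneg (Real.log x₂)]
    · linarith [le_abs_self (Real.log x₂), abs_nonneg (Real.log x₁)]
  have hcoef : |b - Real.log x / Real.log T| ≤
      |b| + (|Real.log x₁| + |Real.log x₂|) / Real.log T := by
    refine (abs_sub _ _).trans ?_
    rw [abs_div, abs_of_pos hlT]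
    gcongr
  rw [mul_div_assoc, norm_mul, Real.norm_eq_abs, Real.norm_of_nonneg (div_nonneg h1 hx2.le)]
  exact mul_le_mul hcoef hC0 (div_nonneg h1 hx2.le) (by positivity)

end H479.Z
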