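import Pool.Agent.H479.Z.Stm
import Pool.Graph.R_seed8.Helper923.HMertens

/-! # a sum over the prime powers (proved by helper874) -/

/-!
# H479-Z-L2: a sum over the prime powers
-/

set_option autoImplicit false

open MeasureTheory Complex Filter Topology
open scoped ENNReal

namespace H479.Z

namespace L2aux

open Finset

/-- `log p / p` at the primes -/
noncomputable def c (n : ℕ) : ℝ := if n.Prime then Real.log n / n else 0

/-- partial sums -/
noncomputable def S (t : ℝ) : ℝ := ∑ k ∈ Icc 0 ⌊t⌋₊, c k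

theorem c_zero : c 0 = 0 := by
  unfold c
  rw [if_neg Nat.not_prime_zero]

theorem S_bound : ∃ C : ℝ, 0 ≤ C ∧ ∀ t : ℝ, 1 ≤ t → |S t - Real.log t| ≤ C := by
  obtain ⟨C, hC⟩ := Pool.Agent.Helper923.HMertens.mertens_log
  refine ⟨|C| + 1, by positivity, fun t ht => ?_⟩
  have hN : 1 ≤ ⌊t⌋₊ := Nat.le_floor (by exact_mod_cast ht)
  have h1 := hC ⌊t⌋₊ hN
  have h2 : S t = ∑ p ∈ (Icc 1 ⌊t⌋₊).filter Nat.Prime, Real.log p / p := by
    unfold S c
    rw [← sum_filter]
    refine sum_congr ?_ (fun _ _ => rfl)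
    ext p
    simp only [mem_filter, mem_Icc]
    constructor
    · rintro ⟨⟨_, h⟩, hp⟩
      exact ⟨⟨hp.one_le, h⟩, hp⟩
    · rintro ⟨⟨_, h⟩, hp⟩
      exact ⟨⟨Nat.zero_le _, h⟩, hp⟩
  have h3 : (⌊t⌋₊ : ℝ) ≤ t := Nat.floor_le (by linarith)
  have h4 : t < ⌊t⌋₊ + 1 := Nat.lt_floor_add_one t
  have h5 : (1 : ℝ) ≤ ⌊t⌋₊ := by exact_mod_cast hN
  have h6 : Real.log ⌊t⌋₊ ≤ Real.log t := Real.log_le_log (by linarith) h3
  have h7 : Real.log t ≤ Real.log ⌊t⌋₊ + 1 := by
    have h8 : t ≤ 2 * ⌊t⌋₊ := by linarith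
    have h9 := Real.log_le_log (by linarith : (0 : ℝ) < t) h8
    rw [Real.log_mul (by norm_num) (by linarith)] at h9
    have := Real.log_two_lt_d9
    linarith
  rw [abs_le] at h1
  rw [h2, abs_le]
  have := le_abs_self C
  constructor <;> linarith

/-- the weight -/
noncomputable def g (b L t : ℝ) : ℝ := Real.log t * (b - Real.log t / L)

/-- its derivative -/
noncomputable def D (b L t : ℝ) : ℝ := (b - 2 * Real.log t / L) / t

theorem g_deriv (b L t : ℝ) (ht : 0 < t) : HasDerivAt (g b L) (D b L t) t := by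
  have h1 := Real.hasDerivAt_log ht.ne'
  have h2 : HasDerivAt (fun t => b - Real.log t / L) (-(t⁻¹ / L)) t :=
    (h1.div_const L).const_sub b
  have h3 := h1.mul h2
  refine h3.congr_deriv ?_
  unfold D
  ring

theorem log_cont (T : ℝ) : ContinuousOn Real.log (Set.Icc 1 T) :=
  Real.continuousOn_log.mono fun x hx => by
    have : (0 : ℝ) < x := lt_of_lt_of_le one_pos hx.1
    exact this.ne'

theorem D_cont (b L T : ℝ) : ContinuousOn (D b L) (Set.Icc 1 T) := by
  unfold D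
  refine ContinuousOn.div (continuousOn_const.sub ((continuousOn_const.mul (log_cont T)).div_const L))
    continuousOn_id fun x hx => ?_
  have : (0 : ℝ) < x := lt_of_lt_of_le one_pos hx.1
  exact this.ne'

theorem ftc (H h : ℝ → ℝ) (T : ℝ) (hT : 1 ≤ T) (hd : ∀ t, 0 < t → HasDerivAt H (h t) t)
    (hc : ContinuousOn h (Set.Icc 1 T)) : ∫ t in Set.Ioc 1 T, h t = H T - H 1 := by
  rw [← intervalIntegral.integral_of_le hT]
  refine intervalIntegral.integral_eq_sub_of_hasDerivAt ?_ ?_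
  · intro t ht
    rw [Set.uIcc_of_le hT] at ht
    exact hd t (lt_of_lt_of_le one_pos ht.1)
  · refine ContinuousOn.intervalIntegrable ?_
    rw [Set.uIcc_of_le hT]
    exact hc

theorem int_main (b L T : ℝ) (hT : 1 ≤ T) : ∫ t in Set.Ioc 1 T, D b L t * Real.log t =
    b * Real.log T ^ 2 / 2 - 2 / 3 * Real.log T ^ 3 / L := by
  rw [ftc (fun t => b * Real.log t ^ 2 / 2 - 2 / 3 * Real.log t ^ 3 / L) _ T hT]
  · simp
  · intro t ht
    have h1 := Real.hasDerivAt_log ht.ne'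
    have h2 : HasDerivAt (fun t => b * Real.log t ^ 2 / 2) (b * (2 * Real.log t ^ (2 - 1) * t⁻¹) / 2) t :=
      ((h1.pow 2).const_mul b).div_const 2
    have h3 : HasDerivAt (fun t => 2 / 3 * Real.log t ^ 3 / L)
        (2 / 3 * (3 * Real.log t ^ (3 - 1) * t⁻¹) / L) t :=
      ((h1.pow 3).const_mul (2 / 3)).div_const L
    refine (h2.sub h3).congr_deriv ?_
    unfold D
    ring
  · exact (D_cont b L T).mul (log_cont T)

theorem int_inv (K T : ℝ) (hT : 1 ≤ T) : ∫ t in Set.Ioc 1 T, K * t⁻¹ = K * Real.log T := by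
  rw [ftc (fun t => K * Real.log t) _ T hT]
  · simp
  · intro t ht
    exact (Real.hasDerivAt_log ht.ne').const_mul K
  · refine continuousOn_const.mul (continuousOn_inv₀.mono fun x hx => ?_)
    have : (0 : ℝ) < x := lt_of_lt_of_le one_pos hx.1
    exact this.ne'

theorem prime_sum : ∃ C : ℝ, 0 ≤ C ∧ ∀ b T : ℝ, 1 ≤ b → 1 < T →
    |∑ k ∈ Icc 0 ⌊T⌋₊, g b (Real.log T) k * c k - Real.log T ^ 2 * (b / 2 - 1 / 3)| ≤
      (2 * b + 1) * C * Real.log T := by
  obtain ⟨C, hC0, hC⟩ := S_bound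
  refine ⟨C, hC0, fun b T hb hT => ?_⟩
  obtain ⟨L, hL⟩ : ∃ L, L = Real.log T := ⟨_, rfl⟩
  have hL0 : 0 < L := by
    rw [hL]
    exact Real.log_pos hT
  rw [← hL]
  have hDint : IntegrableOn (D b L) (Set.Icc 1 T) := (D_cont b L T).integrableOn_Icc
  have hderiv : ∀ t ∈ Set.Icc 1 T, deriv (g b L) t = D b L t := fun t ht =>
    (g_deriv b L t (lt_of_lt_of_le one_pos ht.1)).deriv
  have hAb := sum_mul_eq_sub_integral_mul₀ c c_zero (f := g b L) T
    (fun t ht => (g_deriv b L t (lt_of_lt_of_le one_pos ht.1)).differentiableAt)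
    (hDint.congr_fun (fun t ht => (hderiv t ht).symm) measurableSet_Icc)
  have hS : ∑ k ∈ Icc 0 ⌊T⌋₊, c k = S T := rfl
  have hI : ∫ t in Set.Ioc 1 T, deriv (g b L) t * ∑ k ∈ Icc 0 ⌊t⌋₊, c k =
      ∫ t in Set.Ioc 1 T, (D b L t * Real.log t + D b L t * (S t - Real.log t)) := by
    refine setIntegral_congr_fun measurableSet_Ioc fun t ht => ?_
    have h1 := hderiv t (Set.Ioc_subset_Icc_self ht)
    simp only [h1]
    change D b L t * S t = _
    ring
  have hi1 : IntegrableOn (fun t => D b L t * Real.log t) (Set.Ioc 1 T) :=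
    (((D_cont b L T).mul (log_cont T)).integrableOn_Icc).mono_set Set.Ioc_subset_Icc_self
  have hi2 : IntegrableOn (fun t => D b L t * S t) (Set.Ioc 1 T) :=
    (integrableOn_mul_sum_Icc c (m := 0) zero_le_one hDint).mono_set Set.Ioc_subset_Icc_self
  have hi3 : IntegrableOn (fun t => D b L t * (S t - Real.log t)) (Set.Ioc 1 T) := by
    refine (hi2.sub hi1).congr_fun (fun t _ => ?_) measurableSet_Ioc
    simp only [Pi.sub_apply]
    ring
  have hlogle : ∀ t ∈ Set.Ioc 1 T, 0 ≤ Real.log t ∧ Real.log t ≤ L := by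
    intro t ht
    exact ⟨Real.log_nonneg ht.1.le, by rw [hL]; exact Real.log_le_log (by linarith [ht.1]) ht.2⟩
  have herr : |∫ t in Set.Ioc 1 T, D b L t * (S t - Real.log t)| ≤ (b + 2) * C * L := by
    have h1 : ‖∫ t in Set.Ioc 1 T, D b L t * (S t - Real.log t)‖ ≤
        ∫ t in Set.Ioc 1 T, (b + 2) * C * t⁻¹ := by
      refine norm_integral_le_of_norm_le ?_ ?_
      · have h2 : ContinuousOn (fun t : ℝ => (b + 2) * C * t⁻¹) (Set.Icc 1 T) := by
          refine continuousOn_const.mul (continuousOn_inv₀.mono fun x hx => ?_)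
          have : (0 : ℝ) < x := lt_of_lt_of_le one_pos hx.1
          exact this.ne'
        exact h2.integrableOn_Icc.mono_set Set.Ioc_subset_Icc_self
      · refine (ae_restrict_mem measurableSet_Ioc).mono fun t ht => ?_
        obtain ⟨h3, h4⟩ := hlogle t ht
        have ht0 : 0 < t := lt_trans one_pos ht.1
        have h5 : |b - 2 * Real.log t / L| ≤ b + 2 := by
          have h6 : Real.log t / L ≤ 1 := (div_le_one hL0).2 h4
          have h7 : 0 ≤ Real.log t / L := div_nonneg h3 hL0.le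
          have h8 : 2 * Real.log t / L = 2 * (Real.log t / L) := by ring
          rw [h8, abs_le]
          constructor <;> linarith
        rw [norm_mul, Real.norm_eq_abs, Real.norm_eq_abs]
        have h9 : |D b L t| ≤ (b + 2) * t⁻¹ := by
          unfold D
          rw [abs_div, abs_of_pos ht0, div_eq_mul_inv]
          exact mul_le_mul_of_nonneg_right h5 (inv_nonneg.2 ht0.le)
        calc |D b L t| * |S t - Real.log t| ≤ ((b + 2) * t⁻¹) * C :=
              mul_le_mul h9 (hC t ht.1.le) (abs_nonneg _)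
                (mul_nonneg (by linarith) (inv_nonneg.2 ht0.le))
          _ = (b + 2) * C * t⁻¹ := by ring
    rw [int_inv _ T hT.le, ← hL] at h1
    exact h1
  rw [hI, integral_add hi1 hi3, int_main b L T hT.le, ← hL, hS] at hAb
  obtain ⟨err, herr'⟩ : ∃ err, err = ∫ t in Set.Ioc 1 T, D b L t * (S t - Real.log t) := ⟨_, rfl⟩
  rw [← herr'] at herr hAb
  have hgT : g b L T = L * (b - 1) := by
    unfold g
    rw [← hL, div_self hL0.ne']
  have hST := hC T hT.le
  rw [← hL] at hST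
  rw [hAb, hgT]
  have h10 : L * (b - 1) * S T - (b * L ^ 2 / 2 - 2 / 3 * L ^ 3 / L + err) -
      L ^ 2 * (b / 2 - 1 / 3) = L * (b - 1) * (S T - L) - err := by
    have h11 : L ^ 3 / L = L ^ 2 := by
      field_simp
    have h12 : 2 / 3 * L ^ 3 / L = 2 / 3 * (L ^ 3 / L) := by ring
    rw [h12, h11]
    ring
  rw [h10]
  have h13 : |L * (b - 1) * (S T - L)| ≤ L * (b - 1) * C := by
    rw [abs_mul, abs_of_nonneg (mul_nonneg hL0.le (by linarith))]
    exact mul_le_mul_of_nonneg_left hST (mul_nonneg hL0.le (by linarith))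
  calc |L * (b - 1) * (S T - L) - err| ≤ |L * (b - 1) * (S T - L)| + |err| := abs_sub _ _
    _ ≤ L * (b - 1) * C + (b + 2) * C * L := add_le_add h13 herr
    _ = (2 * b + 1) * C * L := by ring

/-- the part of the von Mangoldt function at the higher prime powers -/
noncomputable def u (n : ℕ) : ℝ := if n.Prime then 0 else ArithmeticFunction.vonMangoldt n

theorem u_nonneg (n : ℕ) : 0 ≤ u n := by
  unfold u
  split_ifs
  · exact le_rfl
  · exact ArithmeticFunction.vonMangoldt_nonneg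

theorem U_bound : ∃ C : ℝ, 0 ≤ C ∧ ∀ N : ℕ, ∑ n ∈ Ioc 0 N, u n ≤ C * Real.sqrt N := by
  obtain ⟨C, hC⟩ := Chebyshev.psi_sub_theta_le_mul_sqrt
  refine ⟨|C|, abs_nonneg _, fun N => ?_⟩
  have h1 := hC N
  rw [Chebyshev.psi_sub_theta_eq_sum_not_prime, Nat.floor_natCast] at h1
  have h2 : ∑ n ∈ Ioc 0 N, u n =
      ∑ n ∈ (Ioc 0 N).filter (fun n => ¬ n.Prime), ArithmeticFunction.vonMangoldt n := by
    unfold u
    rw [sum_filter]
    refine sum_congr rfl fun n _ => ?_
    by_cases h : n.Prime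
    · rw [if_pos h, if_neg (not_not.2 h)]
    · rw [if_neg h, if_pos h]
  rw [h2]
  exact h1.trans (mul_le_mul_of_nonneg_right (le_abs_self C) (Real.sqrt_nonneg _))

theorem B_bound : ∃ C : ℝ, 0 ≤ C ∧ ∀ N : ℕ, ∑ n ∈ Ioc 0 N, u n / n ≤ C := by
  obtain ⟨C, hC0, hC⟩ := U_bound
  refine ⟨3 * C, by positivity, fun N => ?_⟩
  rcases Nat.eq_zero_or_pos N with rfl | hN
  · simp [hC0]
  have key : ∀ N : ℕ, 1 ≤ N → ∑ n ∈ Ioc 0 N, u n / n ≤
      (∑ n ∈ Ioc 0 N, u n) / N + 2 * C * (1 - 1 / Real.sqrt N) := by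
    intro N hN
    induction N, hN using Nat.le_induction with
    | base => simp
    | succ N hN ih =>
      rw [sum_Ioc_succ_top (Nat.zero_le N), sum_Ioc_succ_top (Nat.zero_le N)]
      obtain ⟨U, hU⟩ : ∃ U, U = ∑ n ∈ Ioc 0 N, u n := ⟨_, rfl⟩
      have hUC := hC N
      rw [← hU] at ih hUC ⊢
      have hN0 : (0 : ℝ) < N := by exact_mod_cast hN
      have hN1 : (0 : ℝ) < ((N + 1 : ℕ) : ℝ) := by positivity
      have hN1' : ((N + 1 : ℕ) : ℝ) = N + 1 := by push_cast; rfl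
      obtain ⟨s, hs⟩ : ∃ s, s = Real.sqrt N := ⟨_, rfl⟩
      obtain ⟨r, hr⟩ : ∃ r, r = Real.sqrt ((N + 1 : ℕ) : ℝ) := ⟨_, rfl⟩
      have hs0 : 0 < s := by rw [hs]; exact Real.sqrt_pos.2 hN0
      have hr0 : 0 < r := by rw [hr]; exact Real.sqrt_pos.2 hN1
      have hs2 : s ^ 2 = N := by rw [hs]; exact Real.sq_sqrt hN0.le
      have hr2 : r ^ 2 = N + 1 := by rw [hr, Real.sq_sqrt hN1.le, hN1']
      have hsr : s ≤ r := by
        have : s ^ 2 ≤ r ^ 2 := by rw [hs2, hr2]; linarith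
        exact (pow_le_pow_iff_left₀ hs0.le hr0.le two_ne_zero).1 this
      rw [← hs] at ih hUC
      rw [← hr]
      have h1 : U / N - U / ((N + 1 : ℕ) : ℝ) ≤ 2 * C * (1 / s - 1 / r) := by
        have e1 : U / N - U / ((N + 1 : ℕ) : ℝ) = U / (s ^ 2 * r ^ 2) := by
          have hrs1 : r ^ 2 - s ^ 2 = 1 := by rw [hs2, hr2]; ring
          rw [hN1', ← hr2, ← hs2, div_sub_div _ _ (pow_ne_zero 2 hs0.ne') (pow_ne_zero 2 hr0.ne')]
          congr 1
          linear_combination U * hrs1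
        have e2 : U / (s ^ 2 * r ^ 2) ≤ C * s / (s ^ 2 * r ^ 2) :=
          div_le_div_of_nonneg_right hUC (by positivity)
        have e3 : 1 / s - 1 / r = 1 / (s * r * (r + s)) := by
          have : r ^ 2 - s ^ 2 = 1 := by rw [hs2, hr2]; ring
          field_simp
          linarith
        have e4 : C * s / (s ^ 2 * r ^ 2) ≤ 2 * C * (1 / (s * r * (r + s))) := by
          have e5 : C * s / (s ^ 2 * r ^ 2) = C * (1 / (s * r ^ 2)) := by
            field_simp
          have e6 : 2 * C * (1 / (s * r * (r + s))) = C * (2 / (s * r * (r + s))) := by ring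
          rw [e5, e6]
          refine mul_le_mul_of_nonneg_left ?_ hC0
          rw [div_le_div_iff₀ (by positivity) (by positivity)]
          have : s * r * (r + s) ≤ s * r * (2 * r) :=
            mul_le_mul_of_nonneg_left (by linarith) (by positivity)
          nlinarith
        rw [e1, e3]
        exact e2.trans e4
      have h2 : (U + u (N + 1)) / ((N + 1 : ℕ) : ℝ) = U / ((N + 1 : ℕ) : ℝ) +
          u (N + 1) / ((N + 1 : ℕ) : ℝ) := add_div _ _ _
      rw [h2]
      have h3 : 2 * C * (1 - 1 / r) = 2 * C * (1 - 1 / s) + 2 * C * (1 / s - 1 / r) := by ring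
      rw [h3]
      linarith
  have h1 := key N hN
  have hN0 : (0 : ℝ) < N := by exact_mod_cast hN
  have hN1 : (1 : ℝ) ≤ N := by exact_mod_cast hN
  have h2 : (∑ n ∈ Ioc 0 N, u n) / N ≤ C := by
    rw [div_le_iff₀ hN0]
    refine (hC N).trans (mul_le_mul_of_nonneg_left ?_ hC0)
    rw [Real.sqrt_le_left hN0.le]
    nlinarith
  have h3 : 2 * C * (1 - 1 / Real.sqrt N) ≤ 2 * C := by
    have h4 : (0 : ℝ) ≤ 1 / Real.sqrt N := by positivity
    nlinarith
  linarith

theorem total : ∃ C : ℝ, 0 ≤ C ∧ ∀ b T : ℝ, 1 ≤ b → 1 < T →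
    |∑ n ∈ Icc 1 ⌊T⌋₊, ld n ^ 2 / n * (b - Real.log n / Real.log T) -
      Real.log T ^ 2 * (b / 2 - 1 / 3)| ≤ (3 * b + 1) * C * Real.log T := by
  obtain ⟨C₁, hC₁0, hC₁⟩ := prime_sum
  obtain ⟨C₂, hC₂0, hC₂⟩ := B_bound
  refine ⟨C₁ + C₂, by positivity, fun b T hb hT => ?_⟩
  have h1 := hC₁ b T hb hT
  obtain ⟨L, hL⟩ : ∃ L, L = Real.log T := ⟨_, rfl⟩
  have hL0 : 0 < L := by
    rw [hL]
    exact Real.log_pos hT
  rw [← hL] at h1 ⊢
  have e0 : Icc 1 ⌊T⌋₊ = Ioc 0 ⌊T⌋₊ := by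
    ext n
    simp only [mem_Icc, mem_Ioc]
    omega
  have e1 : ∑ k ∈ Icc 0 ⌊T⌋₊, g b L k * c k = ∑ k ∈ Ioc 0 ⌊T⌋₊, g b L k * c k := by
    rw [← add_sum_Ioc_eq_sum_Icc (f := fun k : ℕ => g b L k * c k) (Nat.zero_le _), c_zero,
      mul_zero, zero_add]
  have e2 : ∀ n ∈ Ioc 0 ⌊T⌋₊, ld n ^ 2 / n * (b - Real.log n / L) =
      g b L n * c n + ld n * (b - Real.log n / L) * (u n / n) := by
    intro n _
    by_cases hp : n.Prime
    · unfold g c u ld
      rw [if_pos hp, if_pos hp, ArithmeticFunction.vonMangoldt_apply_prime hp]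
      ring
    · unfold g c u ld
      rw [if_neg hp, if_neg hp]
      ring
  have e3 : ∀ n ∈ Ioc 0 ⌊T⌋₊, 0 ≤ ld n * (b - Real.log n / L) * (u n / n) ∧
      ld n * (b - Real.log n / L) * (u n / n) ≤ L * b * (u n / n) := by
    intro n hn
    rw [mem_Ioc] at hn
    have hn1 : (1 : ℝ) ≤ n := by exact_mod_cast hn.1
    have hnT : (n : ℝ) ≤ T := by
      have : (⌊T⌋₊ : ℝ) ≤ T := Nat.floor_le (by linarith)
      have h3 : (n : ℝ) ≤ ⌊T⌋₊ := by exact_mod_cast hn.2
      linarith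
    have h3 : 0 ≤ Real.log n := Real.log_nonneg hn1
    have h4 : Real.log n ≤ L := by
      rw [hL]
      exact Real.log_le_log (by linarith) hnT
    have h5 : Real.log n / L ≤ 1 := (div_le_one hL0).2 h4
    have h6 : 0 ≤ Real.log n / L := div_nonneg h3 hL0.le
    have h7 : 0 ≤ ld n := ArithmeticFunction.vonMangoldt_nonneg
    have h8 : ld n ≤ L := (ArithmeticFunction.vonMangoldt_le_log).trans h4
    have h9 : 0 ≤ u n / n := div_nonneg (u_nonneg n) (by linarith)
    refine ⟨mul_nonneg (mul_nonneg h7 (by linarith)) h9, mul_le_mul_of_nonneg_right ?_ h9⟩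
    exact mul_le_mul h8 (by linarith) (by linarith) hL0.le
  rw [e1] at h1
  rw [e0, sum_congr rfl e2, sum_add_distrib]
  have h2 : 0 ≤ ∑ n ∈ Ioc 0 ⌊T⌋₊, ld n * (b - Real.log n / L) * (u n / n) :=
    sum_nonneg fun n hn => (e3 n hn).1
  have h3 : ∑ n ∈ Ioc 0 ⌊T⌋₊, ld n * (b - Real.log n / L) * (u n / n) ≤ L * b * C₂ := by
    refine (sum_le_sum fun n hn => (e3 n hn).2).trans ?_
    rw [← mul_sum]
    exact mul_le_mul_of_nonneg_left (hC₂ _) (by positivity)
  have h4 : L * b * C₂ ≤ (b * C₂) * L := le_of_eq (by ring)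
  have h5 : 0 ≤ b * C₁ * L := by positivity
  have h6 : 0 ≤ (2 * b + 1) * C₂ * L := by positivity
  rw [abs_le] at h1 ⊢
  constructor
  · nlinarith
  · nlinarith

end L2aux

theorem l2 : S_L2 := by
  intro b hb
  obtain ⟨C, hC0, hC⟩ := L2aux.total
  have h0 : Tendsto (fun T : ℝ => (3 * b + 1) * C * (Real.log T)⁻¹) atTop (𝓝 0) := by
    have := (tendsto_inv_atTop_zero.comp Real.tendsto_log_atTop).const_mul ((3 * b + 1) * C)
    rw [mul_zero] at this
    exact this
  rw [tendsto_iff_norm_sub_tendsto_zero]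
  refine squeeze_zero' (Eventually.of_forall fun _ => norm_nonneg _) ?_ h0
  filter_upwards [eventually_gt_atTop 1] with T hT
  have hL0 : 0 < Real.log T := Real.log_pos hT
  have h1 := hC b T hb hT
  rw [Real.norm_eq_abs]
  have h2 : 1 / Real.log T ^ 2 *
      ∑ n ∈ Finset.Icc 1 ⌊T⌋₊, ld n ^ 2 / n * (b - Real.log n / Real.log T) - (b / 2 - 1 / 3) =
      (1 / Real.log T ^ 2) *
        (∑ n ∈ Finset.Icc 1 ⌊T⌋₊, ld n ^ 2 / n * (b - Real.log n / Real.log T) -
          Real.log T ^ 2 * (b / 2 - 1 / 3)) := by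
    rw [mul_sub, ← mul_assoc (1 / Real.log T ^ 2), one_div_mul_cancel (pow_ne_zero 2 hL0.ne'),
      one_mul]
  rw [h2, abs_mul, abs_of_nonneg (by positivity : (0 : ℝ) ≤ 1 / Real.log T ^ 2)]
  calc 1 / Real.log T ^ 2 * |∑ n ∈ Finset.Icc 1 ⌊T⌋₊, ld n ^ 2 / n * (b - Real.log n / Real.log T) -
          Real.log T ^ 2 * (b / 2 - 1 / 3)|
      ≤ 1 / Real.log T ^ 2 * ((3 * b + 1) * C * Real.log T) :=
        mul_le_mul_of_nonneg_left h1 (by positivity)
    _ = (3 * b + 1) * C * (Real.log T)⁻¹ := by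
        field_simp

end H479.Z
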