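import Pool.Agent.H479.Z.Stm

/-! # solving an inequality for the mean square (proved by helper549) -/


set_option autoImplicit false

open MeasureTheory Complex Filter Topology
open scoped ENNReal

namespace H479.Z

namespace MB549

theorem term_bound (U u t : ℝ) (hu : u ≤ U) (n : ℕ) :
    ‖(ld n : ℂ) * (n : ℂ) ^ (-(1 / 2 + t * I)) * Real.exp (-(u - Real.log n) ^ 2 / 2)‖ ≤
      Real.exp (3 * U + 9 / 2) * (1 / (n : ℝ) ^ 2) := by
  rcases Nat.eq_zero_or_pos n with rfl | hn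
  · simp [ld]
  · have hn1 : (1 : ℝ) ≤ n := by exact_mod_cast hn
    have hn0 : (0 : ℝ) < n := by linarith
    have h1 : ‖(ld n : ℂ)‖ ≤ n := by
      rw [Complex.norm_real, Real.norm_of_nonneg (by exact ArithmeticFunction.vonMangoldt_nonneg)]
      refine le_trans (ArithmeticFunction.vonMangoldt_le_log) ?_
      have := Real.log_le_sub_one_of_pos hn0
      linarith
    have h2 : ‖(n : ℂ) ^ (-(1 / 2 + t * I))‖ ≤ 1 := by
      rw [Complex.norm_natCast_cpow_of_pos hn]
      have h3 : (-(1 / 2 + t * I) : ℂ).re = -(1 / 2) := by simp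
      rw [h3]
      exact Real.rpow_le_one_of_one_le_of_nonpos hn1 (by norm_num)
    have h3 : ‖((Real.exp (-(u - Real.log n) ^ 2 / 2) : ℝ) : ℂ)‖ * (n : ℝ) ^ 3 ≤
        Real.exp (3 * U + 9 / 2) := by
      rw [Complex.norm_real, Real.norm_of_nonneg (Real.exp_nonneg _)]
      have h4 : (n : ℝ) ^ 3 = Real.exp (3 * Real.log n) := by
        have h5 : (3 : ℝ) * Real.log n = ((3 : ℕ) : ℝ) * Real.log n := by norm_num
        rw [h5, Real.exp_nat_mul, Real.exp_log hn0]
      rw [h4, ← Real.exp_add]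
      apply Real.exp_le_exp.2
      nlinarith [sq_nonneg (Real.log n - u - 3)]
    rw [norm_mul, norm_mul]
    have h5 : ‖((Real.exp (-(u - Real.log n) ^ 2 / 2) : ℝ) : ℂ)‖ ≤
        Real.exp (3 * U + 9 / 2) / (n : ℝ) ^ 3 := by
      rw [le_div_iff₀ (by positivity)]
      exact h3
    calc ‖(ld n : ℂ)‖ * ‖(n : ℂ) ^ (-(1 / 2 + t * I))‖ *
          ‖((Real.exp (-(u - Real.log n) ^ 2 / 2) : ℝ) : ℂ)‖
        ≤ (n * 1) * (Real.exp (3 * U + 9 / 2) / (n : ℝ) ^ 3) := by
          apply mul_le_mul (mul_le_mul h1 h2 (norm_nonneg _) hn0.le) h5 (norm_nonneg _)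
          positivity
      _ = Real.exp (3 * U + 9 / 2) * (1 / (n : ℝ) ^ 2) := by
          field_simp

theorem P_bound (U : ℝ) : ∃ C : ℝ, 0 ≤ C ∧ ∀ u t : ℝ, u ≤ U → ‖P u t‖ ≤ C := by
  have hs : Summable (fun n : ℕ => Real.exp (3 * U + 9 / 2) * (1 / (n : ℝ) ^ 2)) :=
    (Real.summable_one_div_nat_pow.2 (by norm_num)).mul_left _
  refine ⟨∑' n : ℕ, Real.exp (3 * U + 9 / 2) * (1 / (n : ℝ) ^ 2),
    tsum_nonneg fun n => by positivity, fun u t hu => ?_⟩
  exact tsum_of_norm_bounded hs.hasSum fun n => term_bound U u t hu n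

theorem P_meas (hMZ : S_MZ) : Measurable (fun p : ℝ × ℝ => P p.1 p.2) := by
  have h1 : (fun p : ℝ × ℝ => P p.1 p.2) = fun p : ℝ × ℝ => Q p.1 p.2 + R p.1 p.2 := by
    funext p
    simp only [Q, sub_add_cancel]
  rw [h1]
  refine hMZ.2.2.1.add ?_
  apply Continuous.measurable
  unfold R
  fun_prop

theorem M_int (hMZ : S_MZ) (b T : ℝ) (hb : 0 ≤ b) (hT : 1 ≤ T) :
    IntervalIntegrable (fun α => M α T) volume 0 b := by
  have hT2 : T ≤ 2 * T := by linarith
  have hL : 0 ≤ Real.log T := Real.log_nonneg hT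
  obtain ⟨C, hC0, hC⟩ := P_bound (b * Real.log T)
  unfold M
  apply IntervalIntegrable.const_mul
  rw [intervalIntegrable_iff_integrableOn_Ioc_of_le hb]
  have hm : StronglyMeasurable
      (fun α : ℝ => ∫ t in T..(2 * T), ‖P (α * Real.log T) t‖ ^ 2) := by
    simp_rw [intervalIntegral.integral_of_le hT2]
    have h1 : Measurable (fun p : ℝ × ℝ => ‖P (p.1 * Real.log T) p.2‖ ^ 2) := by
      have h2 : Measurable (fun p : ℝ × ℝ => (p.1 * Real.log T, p.2)) := by fun_prop
      exact ((P_meas hMZ).comp h2).norm.pow_const 2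
    exact StronglyMeasurable.integral_prod_right h1.stronglyMeasurable
  refine Measure.integrableOn_of_bounded (M := C ^ 2 * |2 * T - T|) ?_ hm.aestronglyMeasurable ?_
  · rw [Real.volume_Ioc]
    exact ENNReal.ofReal_ne_top
  · refine (ae_restrict_iff' measurableSet_Ioc).2 (Eventually.of_forall fun α hα => ?_)
    refine intervalIntegral.norm_integral_le_of_norm_le_const fun t _ => ?_
    rw [Real.norm_of_nonneg (by positivity)]
    exact pow_le_pow_left₀ (norm_nonneg _)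
      (hC _ _ (mul_le_mul_of_nonneg_right hα.2 hL)) 2

theorem int_min (b : ℝ) (hb : 1 ≤ b) :
    ∫ α in (0 : ℝ)..b, (b - α) * min α 1 = b * (b - 1) / 2 + 1 / 6 := by
  have hc : Continuous (fun α : ℝ => (b - α) * min α 1) := by fun_prop
  rw [← intervalIntegral.integral_add_adjacent_intervals (b := 1)
    (hc.intervalIntegrable _ _) (hc.intervalIntegrable _ _)]
  have h1 : ∫ α in (0 : ℝ)..1, (b - α) * min α 1 = ∫ α in (0 : ℝ)..1, (b * α - α ^ 2) := by
    apply intervalIntegral.integral_congr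
    intro α hα
    rw [Set.uIcc_of_le zero_le_one] at hα
    simp only
    rw [min_eq_left hα.2]
    ring
  have h2 : ∫ α in (1 : ℝ)..b, (b - α) * min α 1 = ∫ α in (1 : ℝ)..b, (b - α) := by
    apply intervalIntegral.integral_congr
    intro α hα
    rw [Set.uIcc_of_le hb] at hα
    simp only
    rw [min_eq_right hα.1]
    ring
  rw [h1, h2, intervalIntegral.integral_sub
      (Continuous.intervalIntegrable (by fun_prop) _ _)
      (Continuous.intervalIntegrable (by fun_prop) _ _),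
    intervalIntegral.integral_sub
      (Continuous.intervalIntegrable (by fun_prop) _ _)
      (Continuous.intervalIntegrable (by fun_prop) _ _),
    intervalIntegral.integral_const_mul, integral_id, integral_id, integral_pow,
    intervalIntegral.integral_const]
  simp only [smul_eq_mul]
  norm_num
  ring

theorem Nb_nonneg (hFIN : S_FIN) (a b : ℝ) (ha : 0 ≤ a) : 0 ≤ Nb a b := by
  have hf := hFIN.1 a b ha
  unfold Nb
  rw [sub_nonneg]
  have h1 : Ns a b ≤ N a b := by
    unfold Ns N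
    have h2 : {s ∈ zeros a b | s.re = 1 / 2 ∧ mult s = 1}.ncard ≤ (zeros a b).ncard :=
      Set.ncard_le_ncard (fun s hs => hs.1) hf
    refine h2.trans ?_
    rw [Set.ncard_eq_toFinset_card _ hf, finsum_mem_eq_finite_toFinset_sum _ hf,
      Finset.card_eq_sum_ones]
    refine Finset.sum_le_sum fun s hs => ?_
    rw [Set.Finite.mem_toFinset] at hs
    exact hFIN.2 s hs.1 hs.2.1 (lt_of_le_of_lt ha hs.2.2.1) hs.2.2.2.2
  exact_mod_cast h1

end MB549

open MB549 in
theorem mb (hPM : S_PM) (hCN : S_CN) (hFIN : S_FIN) (hMZ : S_MZ) : S_MB := by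
  intro b ε hb hε
  have hb0 : 0 < b := by linarith
  obtain ⟨e, he⟩ : ∃ e : ℝ, e = ε / b ^ 2 := ⟨_, rfl⟩
  have he0 : 0 < e := by rw [he]; positivity
  have heb : e * b ^ 2 = ε := by rw [he]; field_simp
  have hee : e ≤ ε := by
    have hb2 : 1 ≤ b ^ 2 := one_le_pow₀ hb
    rw [← heb]
    exact le_mul_of_one_le_right he0.le hb2
  obtain ⟨T₁, h1⟩ := hPM b e hb he0
  obtain ⟨T₂, h2⟩ := hCN.1 e he0
  refine ⟨max (max T₁ T₂) 3, fun T hT => ?_⟩
  have hT1 : T₁ ≤ T := (le_max_left _ _).trans ((le_max_left _ _).trans hT)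
  have hT2 : T₂ ≤ T := (le_max_right _ _).trans ((le_max_left _ _).trans hT)
  have hT3 : (3 : ℝ) ≤ T := (le_max_right _ _).trans hT
  have h3 := h1 T hT1
  obtain ⟨h4, h5⟩ := h2 T hT2
  have hT0 : 0 < T := by linarith
  have hL : 0 < Real.log T := Real.log_pos (by linarith)
  have hMi := M_int hMZ b T hb0.le (by linarith)
  have hNb := Nb_nonneg hFIN T (2 * T) hT0.le
  -- the integral
  have hJ : b * (∫ α in (0 : ℝ)..b, (1 - α / b) * (M α T - min α 1)) =
      (∫ α in (0 : ℝ)..b, (b - α) * M α T) - (b * (b - 1) / 2 + 1 / 6) := by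
    rw [← int_min b hb, ← intervalIntegral.integral_const_mul, ← intervalIntegral.integral_sub]
    · apply intervalIntegral.integral_congr
      intro α _
      simp only
      field_simp
    · exact hMi.continuousOn_mul (by fun_prop)
    · apply Continuous.intervalIntegrable
      fun_prop
  obtain ⟨J, hJd⟩ : ∃ J, J = ∫ α in (0 : ℝ)..b, (1 - α / b) * (M α T - min α 1) := ⟨_, rfl⟩
  obtain ⟨X, hX⟩ : ∃ X, X = ∫ α in (0 : ℝ)..b, (b - α) * M α T := ⟨_, rfl⟩
  rw [← hJd] at h3 hJ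
  rw [← hX] at hJ ⊢
  obtain ⟨n, hn⟩ : ∃ n : ℝ, n = (N T (2 * T) : ℝ) := ⟨_, rfl⟩
  obtain ⟨m, hm⟩ : ∃ m : ℝ, m = Nb T (2 * T) := ⟨_, rfl⟩
  have hns : (Ns T (2 * T) : ℝ) = n - m := by rw [hn, hm, Nb]; ring
  rw [hns, ← hn] at h3
  rw [← hn] at h4 h5
  rw [← hm] at hNb ⊢
  obtain ⟨W, hW⟩ : ∃ W : ℝ, W = T * Real.log T := ⟨_, rfl⟩
  have hW0 : 0 < W := by rw [hW]; positivity
  rw [← hW] at h5 ⊢
  have hpi := Real.pi_pos
  -- `(b² / 2) m ≤ (X - b (b - 1) / 2 + e b² / 2) n`
  have h6 : b ^ 2 / 2 * m ≤ (X - b * (b - 1) / 2 + e * b ^ 2 / 2) * n := by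
    have h7 : m ≤ (1 / (3 * b ^ 2) + 2 / b * J + e) * n := by
      have h8 : (1 - 1 / (3 * b ^ 2) - 2 / b * J - e) * n =
        n - (1 / (3 * b ^ 2) + 2 / b * J + e) * n := by ring
      rw [h8] at h3
      linarith
    have h8 : b ^ 2 / 2 * m ≤ b ^ 2 / 2 * ((1 / (3 * b ^ 2) + 2 / b * J + e) * n) :=
      mul_le_mul_of_nonneg_left h7 (by positivity)
    have h9 : b ^ 2 / 2 * ((1 / (3 * b ^ 2) + 2 / b * J + e) * n) =
        (1 / 6 + b * J + e * b ^ 2 / 2) * n := by
      field_simp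
      ring
    rw [h9, hJ] at h8
    have h10 : (1 / 6 + (X - (b * (b - 1) / 2 + 1 / 6)) + e * b ^ 2 / 2) * n =
      (X - b * (b - 1) / 2 + e * b ^ 2 / 2) * n := by ring
    rw [h10] at h8
    exact h8
  have hY0 : 0 ≤ X - b * (b - 1) / 2 + e * b ^ 2 / 2 := by
    by_contra hneg
    push Not at hneg
    have : (X - b * (b - 1) / 2 + e * b ^ 2 / 2) * n < 0 := mul_neg_of_neg_of_pos hneg h4
    have h7 : 0 ≤ b ^ 2 / 2 * m := by positivity
    linarith
  have h7 : b ^ 2 / 2 * m ≤ (X - b * (b - 1) / 2 + e * b ^ 2 / 2) *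
      ((1 + e) * (W / (2 * Real.pi))) :=
    h6.trans (mul_le_mul_of_nonneg_left h5 hY0)
  have h8 : (1 - e) * Real.pi * b ^ 2 * m / W ≤ X - b * (b - 1) / 2 + e * b ^ 2 / 2 := by
    rw [div_le_iff₀ hW0]
    rcases le_or_gt e 1 with he1 | he1
    · have h9 : (1 - e) * (b ^ 2 / 2 * m) ≤ (1 - e) * ((X - b * (b - 1) / 2 + e * b ^ 2 / 2) *
          ((1 + e) * (W / (2 * Real.pi)))) := mul_le_mul_of_nonneg_left h7 (by linarith)
      have h10 : (1 - e) * ((X - b * (b - 1) / 2 + e * b ^ 2 / 2) *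
          ((1 + e) * (W / (2 * Real.pi)))) = (X - b * (b - 1) / 2 + e * b ^ 2 / 2) * W *
          (1 - e ^ 2) / (2 * Real.pi) := by
        field_simp
        ring
      have h11 : (X - b * (b - 1) / 2 + e * b ^ 2 / 2) * W * (1 - e ^ 2) / (2 * Real.pi) ≤
          (X - b * (b - 1) / 2 + e * b ^ 2 / 2) * W / (2 * Real.pi) := by
        apply div_le_div_of_nonneg_right _ (by positivity)
        have h12 : 0 ≤ (X - b * (b - 1) / 2 + e * b ^ 2 / 2) * W := mul_nonneg hY0 hW0.le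
        nlinarith [sq_nonneg e]
      have h12 : (1 - e) * (b ^ 2 / 2 * m) ≤
          (X - b * (b - 1) / 2 + e * b ^ 2 / 2) * W / (2 * Real.pi) := by
        rw [h10] at h9
        exact h9.trans h11
      rw [le_div_iff₀ (by positivity)] at h12
      calc (1 - e) * Real.pi * b ^ 2 * m = (1 - e) * (b ^ 2 / 2 * m) * (2 * Real.pi) := by ring
        _ ≤ _ := h12
    · have h9 : (1 - e) * Real.pi * b ^ 2 * m ≤ 0 := by
        have h10 : 0 ≤ (e - 1) * Real.pi * b ^ 2 * m := by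
          have : 0 ≤ e - 1 := by linarith
          positivity
        linarith
      exact h9.trans (mul_nonneg hY0 hW0.le)
  have h9 : (1 - ε) * Real.pi * b ^ 2 * m / W ≤ (1 - e) * Real.pi * b ^ 2 * m / W := by
    apply div_le_div_of_nonneg_right _ hW0.le
    have h10 : 0 ≤ Real.pi * b ^ 2 * m := by positivity
    nlinarith
  have h10 : e * b ^ 2 / 2 ≤ ε := by
    rw [heb]
    linarith
  linarith

end H479.Z
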