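import Pool.Agent.H479.Z.Stm

/-! # measurability and symmetry (proved by helper229) -/

open MeasureTheory Complex Filter Topology
open scoped ENNReal

namespace H479.Z

namespace MZ229

theorem gauss_le (u v : ℝ) : Real.exp (-(u - v) ^ 2 / 2) ≤ Real.exp (9 / 2 + 3 * u) * Real.exp (-(3 * v)) := by
  rw [← Real.exp_add]
  apply Real.exp_le_exp.mpr
  nlinarith [sq_nonneg (v - u - 3)]

theorem ld_nonneg (n : ℕ) : 0 ≤ ld n := ArithmeticFunction.vonMangoldt_nonneg

theorem ld_le (n : ℕ) : ld n ≤ n := by
  rcases Nat.eq_zero_or_pos n with rfl | hn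
  · simp [ld]
  · have h1 : ld n ≤ Real.log n := ArithmeticFunction.vonMangoldt_le_log
    have h2 : Real.log n ≤ n := Real.log_le_self (Nat.cast_nonneg n)
    linarith

theorem ld_zero : ld 0 = 0 := by simp [ld]

/-- the summable majorant -/
theorem maj (u : ℝ) (n : ℕ) : ld n * Real.exp (-(u - Real.log n) ^ 2 / 2) ≤
    Real.exp (9 / 2 + 3 * u) * (1 / (n : ℝ) ^ 2) := by
  rcases Nat.eq_zero_or_pos n with rfl | hn
  · simp [ld_zero]
  · have hn' : (0 : ℝ) < n := by exact_mod_cast hn
    have h1 := gauss_le u (Real.log n)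
    have h2 : Real.exp (-(3 * Real.log n)) = 1 / (n : ℝ) ^ 3 := by
      rw [Real.exp_neg, mul_comm, Real.exp_mul, Real.exp_log hn']
      norm_num
    rw [h2] at h1
    calc ld n * Real.exp (-(u - Real.log n) ^ 2 / 2)
        ≤ n * (Real.exp (9 / 2 + 3 * u) * (1 / (n : ℝ) ^ 3)) :=
          mul_le_mul (ld_le n) h1 (Real.exp_pos _).le hn'.le
      _ = Real.exp (9 / 2 + 3 * u) * (1 / (n : ℝ) ^ 2) := by
          field_simp

theorem summ0 (u : ℝ) : Summable (fun n : ℕ => Real.exp (9 / 2 + 3 * u) * (1 / (n : ℝ) ^ 2)) :=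
  (Real.summable_one_div_nat_pow.mpr (by norm_num)).mul_left _

theorem cpow_norm_le (t : ℝ) (n : ℕ) : ‖(n : ℂ) ^ (-(1 / 2 + t * I))‖ ≤ 1 ∨ n = 0 := by
  rcases Nat.eq_zero_or_pos n with rfl | hn
  · right; rfl
  · left
    rw [Complex.norm_natCast_cpow_of_pos hn]
    have : (-(1 / 2 + (t : ℂ) * I)).re = -(1 / 2) := by simp
    rw [this]
    exact Real.rpow_le_one_of_one_le_of_nonpos (by exact_mod_cast hn) (by norm_num)

/-- the terms of `P` -/
noncomputable def tm (u t : ℝ) (n : ℕ) : ℂ :=
  (ld n : ℂ) * (n : ℂ) ^ (-(1 / 2 + t * I)) * Real.exp (-(u - Real.log n) ^ 2 / 2)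

theorem P_eq (u t : ℝ) : P u t = ∑' n, tm u t n := rfl

theorem tm_norm (u t : ℝ) (n : ℕ) : ‖tm u t n‖ ≤ Real.exp (9 / 2 + 3 * u) * (1 / (n : ℝ) ^ 2) := by
  unfold tm
  rcases cpow_norm_le t n with h | h
  · rw [norm_mul, norm_mul, Complex.norm_real, Complex.norm_real, Real.norm_of_nonneg (ld_nonneg n),
      Real.norm_of_nonneg (Real.exp_pos _).le]
    refine le_trans ?_ (maj u n)
    apply mul_le_mul_of_nonneg_right _ (Real.exp_pos _).le
    calc ld n * ‖(n : ℂ) ^ (-(1 / 2 + (t : ℂ) * I))‖ ≤ ld n * 1 :=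
        mul_le_mul_of_nonneg_left h (ld_nonneg n)
      _ = ld n := mul_one _
  · subst h
    simp [ld_zero]

theorem tm_summable (u t : ℝ) : Summable (tm u t) :=
  Summable.of_norm_bounded (summ0 u) (tm_norm u t)

theorem tm_cont (n : ℕ) : Continuous (fun p : ℝ × ℝ => tm p.1 p.2 n) := by
  rcases Nat.eq_zero_or_pos n with rfl | hn
  · simp only [tm, ld_zero, ofReal_zero, zero_mul]
    exact continuous_const
  · have hn' : (n : ℂ) ≠ 0 := by exact_mod_cast hn.ne'
    unfold tm
    refine Continuous.mul (Continuous.mul continuous_const ?_) ?_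
    · apply Continuous.const_cpow _ (Or.inl hn')
      fun_prop
    · fun_prop

theorem P_cont (u : ℝ) : Continuous (fun t : ℝ => P u t) := by
  simp only [P_eq]
  refine continuous_tsum (fun n => ?_) (summ0 u) (fun n t => tm_norm u t n)
  have h := Continuous.comp (g := fun p : ℝ × ℝ => tm p.1 p.2 n) (f := fun t : ℝ => (u, t))
    (tm_cont n) (by fun_prop)
  exact h

theorem P_meas : Measurable (fun p : ℝ × ℝ => P p.1 p.2) := by
  refine measurable_of_tendsto_metrizable (f := fun N (p : ℝ × ℝ) => ∑ n ∈ Finset.range N, tm p.1 p.2 n)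
    (fun N => ?_) ?_
  · exact (continuous_finsetSum _ fun n _ => tm_cont n).measurable
  · rw [tendsto_pi_nhds]
    intro p
    exact (tm_summable p.1 p.2).hasSum.tendsto_sum_nat

theorem conj_two : (starRingEnd ℂ) 2 = 2 := map_ofNat (starRingEnd ℂ) 2

theorem R_cont : Continuous (fun p : ℝ × ℝ => R p.1 p.2) := by
  unfold R
  have h1 : Continuous (fun p : ℝ × ℝ => (p.1 : ℂ)) := Complex.continuous_ofReal.comp continuous_fst
  have h2 : Continuous (fun p : ℝ × ℝ => (p.2 : ℂ)) := Complex.continuous_ofReal.comp continuous_snd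
  have h3 : Continuous (fun p : ℝ × ℝ => (1 / 2 - (p.2 : ℂ) * I)) :=
    continuous_const.sub (h2.mul continuous_const)
  exact continuous_const.mul (Complex.continuous_exp.comp ((h3.mul h1).add ((h3.pow 2).div_const 2)))

theorem tm_conj (u t : ℝ) (n : ℕ) : (starRingEnd ℂ) (tm u t n) = tm u (-t) n := by
  rcases Nat.eq_zero_or_pos n with rfl | hn
  · simp [tm, ld_zero]
  · unfold tm
    rw [map_mul, map_mul, Complex.conj_ofReal, Complex.conj_ofReal]
    congr 2
    have harg : (n : ℂ).arg ≠ Real.pi := by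
      rw [Complex.natCast_arg]
      exact Real.pi_pos.ne
    have h1 := Complex.cpow_conj (n : ℂ) (-(1 / 2 + (t : ℂ) * I)) harg
    rw [Complex.conj_natCast] at h1
    rw [← h1]
    congr 1
    simp [conj_two]

theorem P_conj (u t : ℝ) : P u (-t) = (starRingEnd ℂ) (P u t) := by
  rw [P_eq, P_eq, Complex.conj_tsum]
  exact tsum_congr fun n => (tm_conj u t n).symm

theorem R_conj (u t : ℝ) : R u (-t) = (starRingEnd ℂ) (R u t) := by
  unfold R
  rw [map_mul, Complex.conj_ofReal, ← Complex.exp_conj]
  congr 2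
  simp [conj_two]

theorem A_meas (u : ℝ) : Measurable (fun p : ℝ × ℝ => A u p.1 p.2) := by
  unfold A
  refine Measurable.sub ?_ ?_
  · refine measurable_of_tendsto_metrizable
      (f := fun N (p : ℝ × ℝ) => ∑ n ∈ Finset.range N,
        (if p.1 < Real.log n ∧ Real.log n ≤ p.1 + p.2 then ld n * ph u (Real.log n) else 0))
      (fun N => ?_) ?_
    · refine Finset.measurable_fun_sum _ fun n _ => ?_
      refine Measurable.ite ?_ measurable_const measurable_const
      exact (measurableSet_lt measurable_fst measurable_const).inter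
        (measurableSet_le measurable_const (measurable_fst.add measurable_snd))
    · rw [tendsto_pi_nhds]
      intro p
      refine (Summable.hasSum ?_).tendsto_sum_nat
      refine Summable.of_norm_bounded (summ0 u) (fun n => ?_)
      split_ifs with h
      · have hp : 0 ≤ ph u (Real.log n) := (Real.exp_pos _).le
        rw [norm_mul, Real.norm_of_nonneg (ld_nonneg n), Real.norm_of_nonneg hp]
        refine le_trans ?_ (maj u n)
        apply mul_le_mul_of_nonneg_left _ (ld_nonneg n)
        unfold ph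
        apply Real.exp_le_exp.mpr
        have : 0 ≤ Real.log n := Real.log_natCast_nonneg n
        linarith
      · simp
        positivity
  · have hc : Continuous (fun v => ph u v * Real.exp v) := by
      unfold ph
      fun_prop
    have hG : Continuous (fun y => ∫ v in (0:ℝ)..y, ph u v * Real.exp v) :=
      intervalIntegral.continuous_primitive (fun a b => hc.intervalIntegrable a b) 0
    have h1 : (fun p : ℝ × ℝ => ∫ v in p.1..(p.1 + p.2), ph u v * Real.exp v) =
        fun p : ℝ × ℝ => (∫ v in (0:ℝ)..(p.1 + p.2), ph u v * Real.exp v) -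
          ∫ v in (0:ℝ)..p.1, ph u v * Real.exp v := by
      funext p
      rw [intervalIntegral.integral_interval_sub_left (hc.intervalIntegrable _ _)
        (hc.intervalIntegrable _ _)]
    rw [h1]
    apply Continuous.measurable
    exact (hG.comp (continuous_fst.add continuous_snd)).sub (hG.comp continuous_fst)

end MZ229

theorem mz : S_MZ := by
  refine ⟨MZ229.A_meas, fun u => ?_, ?_, fun u t => ?_⟩
  · unfold Q
    have h := Continuous.comp (g := fun p : ℝ × ℝ => R p.1 p.2) (f := fun t : ℝ => (u, t))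
      MZ229.R_cont (by fun_prop)
    exact (MZ229.P_cont u).sub h
  · unfold Q
    exact MZ229.P_meas.sub MZ229.R_cont.measurable
  · unfold Q
    rw [MZ229.P_conj, MZ229.R_conj, ← map_sub, Complex.norm_conj]

end H479.Z
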