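import Pool.Agent.H479.Z.Stm

/-! # the Gaussian average of the weight (proved by helper71) -/


open MeasureTheory Complex Filter Topology
open scoped ENNReal

namespace H479.Z

namespace OMx

theorem gauss {a b : ℝ} (v : ℝ) (ha : 0 < a) (hb : 0 ≤ b) :
    ∫ u in (0 : ℝ)..b, Real.exp (-a * (u - v) ^ 2) ≤ Real.sqrt (Real.pi / a) := by
  rw [intervalIntegral.integral_of_le hb]
  have hi : Integrable (fun u : ℝ => Real.exp (-a * (u - v) ^ 2)) :=
    (integrable_exp_neg_mul_sq ha).comp_sub_right v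
  refine (setIntegral_le_integral hi (Filter.Eventually.of_forall fun u => ?_)).trans ?_
  · exact (Real.exp_pos _).le
  · rw [integral_sub_right_eq_self (fun z : ℝ => Real.exp (-a * z ^ 2)) v, integral_gaussian]

theorem ph_sq (u v : ℝ) : ph u v ^ 2 = Real.exp (-(u - v) ^ 2) * Real.exp (-v) := by
  unfold ph
  rw [← Real.exp_nat_mul, ← Real.exp_add]
  congr 1
  push_cast
  ring

theorem sq_le (z : ℝ) : (z - 1 / 2) ^ 2 ≤ 8 * Real.exp (z ^ 2 / 4) := by
  have h := Real.add_one_le_exp (z ^ 2 / 4)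
  nlinarith [sq_nonneg (z + 1 / 2)]

theorem exp_sq_le (z : ℝ) :
    Real.exp (-z ^ 2) * (z - 1 / 2) ^ 2 ≤ 8 * Real.exp (-(3 / 4) * z ^ 2) := by
  have h := mul_le_mul_of_nonneg_left (sq_le z) (Real.exp_pos (-z ^ 2)).le
  have h2 : Real.exp (-z ^ 2) * (8 * Real.exp (z ^ 2 / 4)) = 8 * Real.exp (-(3 / 4) * z ^ 2) := by
    rw [mul_left_comm, ← Real.exp_add]
    congr 2
    ring
  rwa [h2] at h

theorem abs_exp_le (z : ℝ) :
    |z| * Real.exp (-z ^ 2) ≤ (1 / Real.sqrt 2) * Real.exp (-(1 / 2) * z ^ 2) := by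
  have h1 : z ^ 2 ≤ 1 / 2 * Real.exp (z ^ 2) := by
    have h := Real.add_one_le_exp (z ^ 2 - 1)
    rw [Real.exp_sub] at h
    have he : 2 ≤ Real.exp 1 := by
      have := Real.add_one_le_exp (1 : ℝ)
      linarith
    have h3 : z ^ 2 * Real.exp 1 ≤ Real.exp (z ^ 2) := by
      rw [← le_div_iff₀ (Real.exp_pos 1)]
      linarith
    nlinarith [sq_nonneg z]
  have h2 : |z| ≤ (1 / Real.sqrt 2) * Real.exp (z ^ 2 / 2) := by
    refine abs_le_of_sq_le_sq ?_ (by positivity)
    rw [mul_pow, div_pow, one_pow, Real.sq_sqrt (by norm_num), ← Real.exp_nat_mul]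
    have h3 : ((2 : ℕ) : ℝ) * (z ^ 2 / 2) = z ^ 2 := by
      push_cast
      ring
    rw [h3]
    exact h1
  have h3 := mul_le_mul_of_nonneg_right h2 (Real.exp_pos (-z ^ 2)).le
  have h4 : 1 / Real.sqrt 2 * Real.exp (z ^ 2 / 2) * Real.exp (-z ^ 2) =
      (1 / Real.sqrt 2) * Real.exp (-(1 / 2) * z ^ 2) := by
    rw [mul_assoc, ← Real.exp_add]
    congr 2
    ring
  rwa [h4] at h3

end OMx

theorem om_ : S_OM := by
  intro bp η hbp hη
  have hD : 0 < 1 + 1 / η := by positivity
  set D : ℝ := 1 + 1 / η with hDdef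
  have hC1 : 0 < (1 + η) + 8 * D := by positivity
  set C1 : ℝ := (1 + η) + 8 * D with hC1def
  refine ⟨2 * bp * C1 + 32 * bp * D, by positivity, ?_⟩
  intro T y s hT hs
  have hT1 : 1 ≤ T := by
    have := Real.add_one_le_exp (1 : ℝ)
    linarith
  have hT0 : 0 < T := by linarith
  have hL : 1 ≤ Real.log T := by
    rw [← Real.log_exp 1]
    exact Real.log_le_log (Real.exp_pos 1) hT
  have hL0 : 0 < Real.log T := by linarith
  set L : ℝ := Real.log T with hLdef
  have hbL : 0 ≤ bp * L := by positivity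
  have hπ : 0 < Real.sqrt Real.pi := Real.sqrt_pos.2 Real.pi_pos
  set v : ℝ := y + s with hv
  set κ : ℝ := D * ((s + 1 / T) / T) with hκ
  have hκ0 : 0 ≤ κ := by positivity
  have hTi : 1 / T ≤ 1 := by
    rw [div_le_one hT0]
    exact hT1
  have hκ1 : κ ≤ D * (1 + s) := by
    refine mul_le_mul_of_nonneg_left ?_ hD.le
    rw [div_le_iff₀ hT0]
    nlinarith
  have hom : ∀ u : ℝ, om η T u y s =
      Real.exp (-v) * (Real.exp (-(u - v) ^ 2) * ((1 + η) + κ * (u - v - 1 / 2) ^ 2)) := by
    intro u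
    unfold om
    rw [← hv, OMx.ph_sq]
    ring
  have hcont : Continuous fun u : ℝ => (bp - u / L) / Real.sqrt Real.pi * om η T u y s := by
    have h1 : (fun u : ℝ => (bp - u / L) / Real.sqrt Real.pi * om η T u y s) = fun u : ℝ =>
        (bp - u / L) / Real.sqrt Real.pi * (Real.exp (-v) *
          (Real.exp (-(u - v) ^ 2) * ((1 + η) + κ * (u - v - 1 / 2) ^ 2))) := by
      funext u
      rw [hom]
    rw [h1]
    fun_prop
  have hw : ∀ u ∈ Set.Icc (0 : ℝ) (bp * L), 0 ≤ bp - u / L ∧ bp - u / L ≤ bp := by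
    intro u hu
    have h1 : u / L ≤ bp := by
      rw [div_le_iff₀ hL0]
      exact hu.2
    have h2 : 0 ≤ u / L := div_nonneg hu.1 hL0.le
    exact ⟨by linarith, by linarith⟩
  have hgc : ∀ a : ℝ, Continuous fun u : ℝ => Real.exp (-a * (u - v) ^ 2) := by
    intro a
    fun_prop
  -- a bound for the weight
  have hU : ∀ u : ℝ, Real.exp (-(u - v) ^ 2) * ((1 + η) + κ * (u - v - 1 / 2) ^ 2) ≤
      (1 + s) * C1 * Real.exp (-(3 / 4) * (u - v) ^ 2) := by
    intro u
    have h1 : Real.exp (-(u - v) ^ 2) ≤ Real.exp (-(3 / 4) * (u - v) ^ 2) :=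
      Real.exp_le_exp.2 (by nlinarith [sq_nonneg (u - v)])
    have h2 := OMx.exp_sq_le (u - v)
    have h3 : 0 < Real.exp (-(3 / 4) * (u - v) ^ 2) := Real.exp_pos _
    have h4 : κ * (Real.exp (-(u - v) ^ 2) * (u - v - 1 / 2) ^ 2) ≤
        D * (1 + s) * (8 * Real.exp (-(3 / 4) * (u - v) ^ 2)) :=
      mul_le_mul hκ1 h2 (by positivity) (by positivity)
    have h5 : (1 + η) * Real.exp (-(u - v) ^ 2) ≤
        (1 + s) * (1 + η) * Real.exp (-(3 / 4) * (u - v) ^ 2) := by
      refine mul_le_mul ?_ h1 (Real.exp_pos _).le (by positivity)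
      nlinarith
    calc Real.exp (-(u - v) ^ 2) * ((1 + η) + κ * (u - v - 1 / 2) ^ 2)
        = (1 + η) * Real.exp (-(u - v) ^ 2) +
          κ * (Real.exp (-(u - v) ^ 2) * (u - v - 1 / 2) ^ 2) := by ring
      _ ≤ (1 + s) * (1 + η) * Real.exp (-(3 / 4) * (u - v) ^ 2) +
          D * (1 + s) * (8 * Real.exp (-(3 / 4) * (u - v) ^ 2)) := add_le_add h5 h4
      _ = (1 + s) * C1 * Real.exp (-(3 / 4) * (u - v) ^ 2) := by
          rw [hC1def]
          ring
  have hsq4 : Real.sqrt (Real.pi / (1 / 4)) = 2 * Real.sqrt Real.pi := by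
    rw [show Real.pi / (1 / 4) = 2 ^ 2 * Real.pi by ring, Real.sqrt_mul (by positivity),
      Real.sqrt_sq (by norm_num)]
  have hsq2 : Real.sqrt (Real.pi / (1 / 2)) = Real.sqrt 2 * Real.sqrt Real.pi := by
    rw [show Real.pi / (1 / 2) = 2 * Real.pi by ring, Real.sqrt_mul (by norm_num)]
  -- the estimate with a constant factor
  have hgen : ∀ F : ℝ, 0 ≤ F → (∀ u ∈ Set.Icc (0 : ℝ) (bp * L),
      Real.exp (-(3 / 4) * (u - v) ^ 2) ≤ F * Real.exp (-(1 / 4) * (u - v) ^ 2)) →
      OM η T bp y s ≤ (2 * bp * C1) * (1 + s) * (Real.exp (-v) * F) := by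
    intro F hF hb
    have h1 : OM η T bp y s ≤ ∫ u in (0 : ℝ)..(bp * L),
        (bp / Real.sqrt Real.pi * (Real.exp (-v) * ((1 + s) * C1 * F))) *
          Real.exp (-(1 / 4) * (u - v) ^ 2) := by
      unfold OM
      refine intervalIntegral.integral_mono_on hbL (hcont.intervalIntegrable _ _)
        ((continuous_const.mul (hgc _)).intervalIntegrable _ _) fun u hu => ?_
      rw [hom]
      have h2 := hw u hu
      have h3 : (bp - u / L) / Real.sqrt Real.pi ≤ bp / Real.sqrt Real.pi :=
        div_le_div_of_nonneg_right h2.2 hπ.le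
      have h4 : Real.exp (-(u - v) ^ 2) * ((1 + η) + κ * (u - v - 1 / 2) ^ 2) ≤
          (1 + s) * C1 * (F * Real.exp (-(1 / 4) * (u - v) ^ 2)) :=
        (hU u).trans (mul_le_mul_of_nonneg_left (hb u hu) (by positivity))
      have h5 : Real.exp (-v) * (Real.exp (-(u - v) ^ 2) * ((1 + η) + κ * (u - v - 1 / 2) ^ 2)) ≤
          Real.exp (-v) * ((1 + s) * C1 * (F * Real.exp (-(1 / 4) * (u - v) ^ 2))) :=
        mul_le_mul_of_nonneg_left h4 (Real.exp_pos _).le
      calc (bp - u / L) / Real.sqrt Real.pi *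
            (Real.exp (-v) * (Real.exp (-(u - v) ^ 2) * ((1 + η) + κ * (u - v - 1 / 2) ^ 2)))
          ≤ bp / Real.sqrt Real.pi *
            (Real.exp (-v) * ((1 + s) * C1 * (F * Real.exp (-(1 / 4) * (u - v) ^ 2)))) :=
            mul_le_mul h3 h5 (by positivity) (by positivity)
        _ = _ := by ring
    refine h1.trans ?_
    rw [intervalIntegral.integral_const_mul]
    refine (mul_le_mul_of_nonneg_left (OMx.gauss v (by norm_num) hbL) (by positivity)).trans ?_
    rw [hsq4]
    apply le_of_eq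
    field_simp
  have hM : 0 ≤ 32 * bp * D := by positivity
  refine ⟨?_, ?_, ?_, ?_⟩
  · unfold OM
    refine intervalIntegral.integral_nonneg hbL fun u hu => ?_
    rw [hom]
    have h2 := (hw u hu).1
    positivity
  · refine (hgen 1 zero_le_one fun u _ => ?_).trans ?_
    · rw [one_mul]
      exact Real.exp_le_exp.2 (by nlinarith [sq_nonneg (u - v)])
    · rw [mul_one]
      refine mul_le_mul_of_nonneg_right ?_ (Real.exp_pos _).le
      refine mul_le_mul_of_nonneg_right ?_ (by linarith)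
      linarith
  · intro hvL
    refine (hgen (Real.exp (-(v - bp * L) ^ 2 / 2)) (Real.exp_pos _).le fun u hu => ?_).trans ?_
    · rw [← Real.exp_add]
      refine Real.exp_le_exp.2 ?_
      have h1 : u ≤ bp * L := hu.2
      have h2 : (v - bp * L) ^ 2 ≤ (u - v) ^ 2 := by
        nlinarith
      linarith
    · rw [← Real.exp_add]
      have h3 : -v + -(v - bp * L) ^ 2 / 2 = -v - (v - bp * L) ^ 2 / 2 := by ring
      rw [h3]
      refine mul_le_mul_of_nonneg_right ?_ (Real.exp_pos _).le
      refine mul_le_mul_of_nonneg_right ?_ (by linarith)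
      linarith
  · intro hs1
    have hκ2 : κ ≤ D * (2 / T) := by
      refine mul_le_mul_of_nonneg_left ?_ hD.le
      exact div_le_div_of_nonneg_right (by linarith) hT0.le
    set M : ℝ := max (bp - v / L) 0 with hMdef
    have hM0 : 0 ≤ M := le_max_right _ _
    have h1 : OM η T bp y s ≤ ∫ u in (0 : ℝ)..(bp * L),
        ((Real.exp (-v) * (1 + η) * M / Real.sqrt Real.pi) * Real.exp (-1 * (u - v) ^ 2) +
          (Real.exp (-v) * (1 + η) / L / Real.sqrt 2 / Real.sqrt Real.pi) *
            Real.exp (-(1 / 2) * (u - v) ^ 2)) +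
          (Real.exp (-v) * (bp * (D * (2 / T)) * 8) / Real.sqrt Real.pi) *
            Real.exp (-(1 / 4) * (u - v) ^ 2) := by
      unfold OM
      refine intervalIntegral.integral_mono_on hbL (hcont.intervalIntegrable _ _)
        ((((continuous_const.mul (hgc _)).add (continuous_const.mul (hgc _))).add
          (continuous_const.mul (hgc _))).intervalIntegrable _ _) fun u hu => ?_
      rw [hom]
      have h2 := hw u hu
      have h3 : bp - u / L ≤ M + |u - v| / L := by
        have h4 : bp - u / L = (bp - v / L) + -(u - v) / L := by ring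
        rw [h4]
        refine add_le_add (le_max_left _ _) ?_
        exact div_le_div_of_nonneg_right (neg_le_abs _) hL0.le
      have h5 : (bp - u / L) * Real.exp (-(u - v) ^ 2) ≤
          M * Real.exp (-(u - v) ^ 2) +
            (1 / L) * ((1 / Real.sqrt 2) * Real.exp (-(1 / 2) * (u - v) ^ 2)) := by
        refine (mul_le_mul_of_nonneg_right h3 (Real.exp_pos _).le).trans ?_
        have h6 := mul_le_mul_of_nonneg_left (OMx.abs_exp_le (u - v))
          (show 0 ≤ 1 / L by positivity)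
        calc (M + |u - v| / L) * Real.exp (-(u - v) ^ 2)
            = M * Real.exp (-(u - v) ^ 2) + 1 / L * (|u - v| * Real.exp (-(u - v) ^ 2)) := by ring
          _ ≤ _ := by linarith
      have h7 : κ * (Real.exp (-(u - v) ^ 2) * (u - v - 1 / 2) ^ 2) ≤
          D * (2 / T) * (8 * Real.exp (-(1 / 4) * (u - v) ^ 2)) := by
        refine mul_le_mul hκ2 ((OMx.exp_sq_le (u - v)).trans ?_) (by positivity) (by positivity)
        refine mul_le_mul_of_nonneg_left ?_ (by norm_num)
        exact Real.exp_le_exp.2 (by nlinarith [sq_nonneg (u - v)])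
      have h8 : (bp - u / L) * (κ * (Real.exp (-(u - v) ^ 2) * (u - v - 1 / 2) ^ 2)) ≤
          bp * (D * (2 / T) * (8 * Real.exp (-(1 / 4) * (u - v) ^ 2))) :=
        mul_le_mul h2.2 h7 (by positivity) hbp.le
      have h9 : (bp - u / L) * Real.exp (-(u - v) ^ 2) * (1 + η) +
          (bp - u / L) * (κ * (Real.exp (-(u - v) ^ 2) * (u - v - 1 / 2) ^ 2)) ≤
          (M * Real.exp (-(u - v) ^ 2) +
            (1 / L) * ((1 / Real.sqrt 2) * Real.exp (-(1 / 2) * (u - v) ^ 2))) * (1 + η) +
          bp * (D * (2 / T) * (8 * Real.exp (-(1 / 4) * (u - v) ^ 2))) :=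
        add_le_add (mul_le_mul_of_nonneg_right h5 (by positivity)) h8
      have h10 := mul_le_mul_of_nonneg_left h9
        (show 0 ≤ Real.exp (-v) / Real.sqrt Real.pi by positivity)
      have h11 : Real.exp (-1 * (u - v) ^ 2) = Real.exp (-(u - v) ^ 2) := by
        rw [neg_one_mul]
      rw [h11]
      calc (bp - u / L) / Real.sqrt Real.pi *
            (Real.exp (-v) * (Real.exp (-(u - v) ^ 2) * ((1 + η) + κ * (u - v - 1 / 2) ^ 2)))
          = Real.exp (-v) / Real.sqrt Real.pi *
            ((bp - u / L) * Real.exp (-(u - v) ^ 2) * (1 + η) +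
            (bp - u / L) * (κ * (Real.exp (-(u - v) ^ 2) * (u - v - 1 / 2) ^ 2))) := by ring
        _ ≤ _ := h10
        _ = _ := by ring
    refine h1.trans ?_
    have hi : ∀ c a : ℝ, IntervalIntegrable (fun u : ℝ => c * Real.exp (-a * (u - v) ^ 2))
        volume 0 (bp * L) := fun c a => (continuous_const.mul (hgc a)).intervalIntegrable _ _
    rw [intervalIntegral.integral_add ((hi _ _).add (hi _ _)) (hi _ _),
      intervalIntegral.integral_add (hi _ _) (hi _ _), intervalIntegral.integral_const_mul,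
      intervalIntegral.integral_const_mul, intervalIntegral.integral_const_mul]
    have g1 := mul_le_mul_of_nonneg_left (OMx.gauss v (show (0 : ℝ) < 1 by norm_num) hbL)
      (show 0 ≤ Real.exp (-v) * (1 + η) * M / Real.sqrt Real.pi by positivity)
    have g2 := mul_le_mul_of_nonneg_left (OMx.gauss v (show (0 : ℝ) < 1 / 2 by norm_num) hbL)
      (show 0 ≤ Real.exp (-v) * (1 + η) / L / Real.sqrt 2 / Real.sqrt Real.pi by positivity)
    have g3 := mul_le_mul_of_nonneg_left (OMx.gauss v (show (0 : ℝ) < 1 / 4 by norm_num) hbL)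
      (show 0 ≤ Real.exp (-v) * (bp * (D * (2 / T)) * 8) / Real.sqrt Real.pi by positivity)
    rw [hsq4] at g3
    rw [hsq2] at g2
    rw [div_one] at g1
    refine (add_le_add (add_le_add g1 g2) g3).trans ?_
    have h2 : 0 < Real.sqrt 2 := by positivity
    have e1 : Real.exp (-v) * (1 + η) * M / Real.sqrt Real.pi * Real.sqrt Real.pi =
        Real.exp (-v) * (1 + η) * M := by field_simp
    have e2 : Real.exp (-v) * (1 + η) / L / Real.sqrt 2 / Real.sqrt Real.pi *
        (Real.sqrt 2 * Real.sqrt Real.pi) = Real.exp (-v) * (1 + η) * (1 / L) := by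
      field_simp
    have e3 : Real.exp (-v) * (bp * (D * (2 / T)) * 8) / Real.sqrt Real.pi *
        (2 * Real.sqrt Real.pi) = Real.exp (-v) * (32 * bp * D / T) := by
      field_simp
      ring
    rw [e1, e2, e3]
    have h4 : 32 * bp * D / T ≤ (2 * bp * C1 + 32 * bp * D) / T := by
      refine div_le_div_of_nonneg_right ?_ hT0.le
      have : 0 ≤ 2 * bp * C1 := by positivity
      linarith
    have h5 := mul_le_mul_of_nonneg_left h4 (Real.exp_pos (-v)).le
    calc Real.exp (-v) * (1 + η) * M + Real.exp (-v) * (1 + η) * (1 / L) +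
          Real.exp (-v) * (32 * bp * D / T)
        ≤ Real.exp (-v) * (1 + η) * M + Real.exp (-v) * (1 + η) * (1 / L) +
          Real.exp (-v) * ((2 * bp * C1 + 32 * bp * D) / T) := by linarith
      _ = _ := by ring

end H479.Z
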