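import Pool.Agent.H479.Z.Stm

/-! # Plancherel for the smoothed mass (proved by helper280) -/

/-!
# Plancherel for the smoothed mass (subtask H479-Z-PL)
-/

set_option autoImplicit false

open MeasureTheory Complex Filter Topology
open scoped ENNReal

namespace H479.Z.PLaux

/-- the Fourier integral -/
noncomputable def FI (u h t : ℝ) : ℂ := ∫ y : ℝ, (A u y h : ℂ) * cexp (-(t * y * I))

theorem scale (g : ℝ → ℝ≥0∞) : ∫⁻ ξ : ℝ, g (2 * Real.pi * ξ) =
    ENNReal.ofReal (1 / (2 * Real.pi)) * ∫⁻ t : ℝ, g t := by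
  have hpi : (2 * Real.pi : ℝ) ≠ 0 := by positivity
  have h1 : ∫⁻ ξ : ℝ, g (2 * Real.pi * ξ) =
      ∫⁻ t : ℝ, g t ∂(Measure.map (fun x : ℝ => 2 * Real.pi * x) volume) := by
    have h2 : MeasurableEmbedding (fun x : ℝ => 2 * Real.pi * x) :=
      (Homeomorph.mulLeft₀ (2 * Real.pi) hpi).measurableEmbedding
    rw [h2.lintegral_map]
  rw [h1, Real.map_volume_mul_left hpi, lintegral_smul_measure, smul_eq_mul]
  congr 2
  rw [abs_of_pos (by positivity), one_div]

theorem norm_sq (θ : ℝ) : ‖cexp ((θ : ℂ) * I) - 1‖ ^ 2 = 2 * (1 - Real.cos θ) := by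
  rw [← Complex.normSq_eq_norm_sq, Complex.normSq_apply, Complex.sub_re, Complex.sub_im,
    Complex.exp_ofReal_mul_I_re, Complex.exp_ofReal_mul_I_im, Complex.one_re, Complex.one_im]
  have h := Real.sin_sq_add_cos_sq θ
  nlinarith

theorem enorm_sq (z : ℂ) : ‖z‖ₑ ^ 2 = ENNReal.ofReal (‖z‖ ^ 2) := by
  rw [ENNReal.ofReal_pow (norm_nonneg z), ofReal_norm]

end H479.Z.PLaux

namespace H479.Z

open PLaux

theorem pl (hFT : S_FT) : S_PL := by
  intro u h hh
  obtain ⟨h1, h2, h3⟩ := hFT u h hh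
  have hP := Pool.Agent.H153R4.plancherel (fun y : ℝ => (A u y h : ℂ)) h1 h2
  have e1 : ∀ y : ℝ, ‖(A u y h : ℂ)‖ₑ ^ 2 = ENNReal.ofReal (A u y h ^ 2) := by
    intro y
    rw [enorm_sq, Complex.norm_real, Real.norm_eq_abs, sq_abs]
  simp only [e1] at hP
  rw [← hP]
  have e2 : ∀ ξ : ℝ, ‖FourierTransform.fourier (fun y : ℝ => (A u y h : ℂ)) ξ‖ₑ ^ 2 =
      (fun t : ℝ => ENNReal.ofReal (‖FI u h t‖ ^ 2)) (2 * Real.pi * ξ) := by
    intro ξ
    rw [enorm_sq, Real.fourier_real_eq_integral_exp_smul]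
    show ENNReal.ofReal (‖∫ v : ℝ, cexp (((-2 * Real.pi * v * ξ : ℝ) : ℂ) * I) • (A u v h : ℂ)‖ ^ 2)
      = ENNReal.ofReal (‖FI u h (2 * Real.pi * ξ)‖ ^ 2)
    have e3 : ∫ v : ℝ, cexp (((-2 * Real.pi * v * ξ : ℝ) : ℂ) * I) • (A u v h : ℂ) =
        FI u h (2 * Real.pi * ξ) := by
      unfold FI
      refine integral_congr_ae (Eventually.of_forall fun v => ?_)
      simp only
      rw [smul_eq_mul, mul_comm]
      congr 2
      push_cast
      ring
    rw [e3]
  simp only [e2]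
  rw [scale (fun t : ℝ => ENNReal.ofReal (‖FI u h t‖ ^ 2)), ← lintegral_const_mul']
  · have h0 : ∀ᵐ t : ℝ, t ≠ 0 := by
      rw [ae_iff]
      simp
    refine lintegral_congr_ae ?_
    filter_upwards [h0] with t ht
    rw [← ENNReal.ofReal_mul (by positivity)]
    congr 1
    have e4 : FI u h t = Q u t * ((cexp (t * h * I) - 1) / (t * I)) := h3 t ht
    have e5 : cexp (t * h * I) = cexp (((t * h : ℝ) : ℂ) * I) := by
      push_cast
      rfl
    rw [e4, e5, norm_mul, norm_div, mul_pow, div_pow, norm_sq, norm_mul, Complex.norm_I, mul_one,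
      Complex.norm_real, Real.norm_eq_abs, sq_abs]
    have hpi : Real.pi ≠ 0 := Real.pi_ne_zero
    field_simp
  · exact ENNReal.ofReal_ne_top

end H479.Z
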