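import Mathlib
import Pool.Graph.R_seed8.H153R4.Pl
set_option autoImplicit false

/-!
# Project Z of helper479: a lower bound for the variance of the primes in short intervals

Definitions and the statements of the steps.
-/

open MeasureTheory Filter Topology Complex
open scoped ENNReal

namespace H479.Z

/-- `ψ(e^h x) - ψ(x) - (e^h - 1) x` -/
noncomputable def J (x h : ℝ) : ℝ :=
  Chebyshev.psi (Real.exp h * x) - Chebyshev.psi x - (Real.exp h - 1) * x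

/-- the mean of `J²` over exponentially distributed `h` of mean `1/T` -/
noncomputable def EJ (T x : ℝ) : ℝ :=
  ∫ h in Set.Ioi (0 : ℝ), T * Real.exp (-(T * h)) * J x h ^ 2

/-- the weighted mean over `x` between `T^a` and `T^b` -/
noncomputable def I0 (a b T : ℝ) : ℝ :=
  ∫ x in (T ^ a)..(T ^ b), (b - Real.log x / Real.log T) * EJ T x / x ^ 2

/-- `e^{-(u-v)²/2} e^{-v/2}` -/
noncomputable def ph (u v : ℝ) : ℝ := Real.exp (-(u - v) ^ 2 / 2 - v / 2)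

/-- the von Mangoldt function, real valued -/
noncomputable def ld (n : ℕ) : ℝ := ArithmeticFunction.vonMangoldt n

/-- the mass of the smooth centred measure `ph u v (dψ(e^v) - e^v dv)` on `(y, y+h]` -/
noncomputable def A (u y h : ℝ) : ℝ :=
  (∑' n : ℕ, if y < Real.log n ∧ Real.log n ≤ y + h then ld n * ph u (Real.log n) else 0) -
    ∫ v in y..(y + h), ph u v * Real.exp v

/-- the prime polynomial -/
noncomputable def P (u t : ℝ) : ℂ :=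
  ∑' n : ℕ, (ld n : ℂ) * (n : ℂ) ^ (-(1 / 2 + t * I)) * Real.exp (-(u - Real.log n) ^ 2 / 2)

/-- its main term `∫ e^{(1/2-it)v} e^{-(u-v)²/2} dv` -/
noncomputable def R (u t : ℝ) : ℂ :=
  Real.sqrt (2 * Real.pi) * cexp ((1 / 2 - t * I) * u + (1 / 2 - t * I) ^ 2 / 2)

noncomputable def Q (u t : ℝ) : ℂ := P u t - R u t

/-- the Fourier transform of `A u · h` -/
def S_FT : Prop := ∀ u h : ℝ, 0 < h →
  Integrable (fun y : ℝ => (A u y h : ℂ)) ∧ MemLp (fun y : ℝ => (A u y h : ℂ)) 2 ∧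
  ∀ t : ℝ, t ≠ 0 → ∫ y : ℝ, (A u y h : ℂ) * cexp (-(t * y * I)) =
    Q u t * ((cexp (t * h * I) - 1) / (t * I))

/-- Plancherel -/
def S_PL : Prop := ∀ u h : ℝ, 0 < h →
  ∫⁻ y : ℝ, ENNReal.ofReal (A u y h ^ 2) =
    ∫⁻ t : ℝ, ENNReal.ofReal (‖Q u t‖ ^ 2 * ((1 - Real.cos (t * h)) / (Real.pi * t ^ 2)))

/-- the average over `h` -/
def S_AV : Prop := ∀ T t : ℝ, 0 < T → t ≠ 0 →
  ∫⁻ h in Set.Ioi (0 : ℝ), ENNReal.ofReal
    (T * Real.exp (-(T * h)) * ((1 - Real.cos (t * h)) / (Real.pi * t ^ 2))) =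
      ENNReal.ofReal (1 / (Real.pi * (T ^ 2 + t ^ 2)))

/-- measurability and symmetry -/
def S_MZ : Prop :=
  (∀ u : ℝ, Measurable (fun p : ℝ × ℝ => A u p.1 p.2)) ∧
  (∀ u : ℝ, Continuous (fun t : ℝ => Q u t)) ∧ (Measurable (fun p : ℝ × ℝ => Q p.1 p.2)) ∧
  ∀ u t : ℝ, ‖Q u (-t)‖ = ‖Q u t‖

/-- time side and frequency side -/
def S_TF : Prop := ∀ u T : ℝ, 0 < T →
  ∫⁻ y : ℝ, ∫⁻ h in Set.Ioi (0 : ℝ), ENNReal.ofReal (T * Real.exp (-(T * h)) * A u y h ^ 2) =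
    ∫⁻ t in Set.Ioi (0 : ℝ), ENNReal.ofReal (2 * ‖Q u t‖ ^ 2 / (Real.pi * (T ^ 2 + t ^ 2)))

/-- partial summation -/
def S_PS : Prop := ∀ u y h : ℝ, 0 < h →
  A u y h = ph u (y + h) * J (Real.exp y) h -
    ∫ s in (0 : ℝ)..h, ph u (y + s) * (u - (y + s) - 1 / 2) * J (Real.exp y) s

/-- the weight after the inequality of Cauchy-Schwarz -/
noncomputable def om (η T u y s : ℝ) : ℝ :=
  ph u (y + s) ^ 2 * ((1 + η) + (1 + 1 / η) * ((s + 1 / T) / T) * (u - (y + s) - 1 / 2) ^ 2)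

def S_SQ : Prop := ∀ u y T η : ℝ, 0 < T → 0 < η →
  ∫⁻ h in Set.Ioi (0 : ℝ), ENNReal.ofReal (T * Real.exp (-(T * h)) * A u y h ^ 2) ≤
    ∫⁻ s in Set.Ioi (0 : ℝ), ENNReal.ofReal
      (T * Real.exp (-(T * s)) * J (Real.exp y) s ^ 2 * om η T u y s)

/-- the weight integrated over `u` -/
noncomputable def OM (η T bp y s : ℝ) : ℝ :=
  ∫ u in (0 : ℝ)..(bp * Real.log T), (bp - u / Real.log T) / Real.sqrt Real.pi * om η T u y s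

def S_OM : Prop := ∀ bp η : ℝ, 0 < bp → 0 < η → ∃ C : ℝ, 0 < C ∧
  ∀ T y s : ℝ, Real.exp 1 ≤ T → 0 < s → 0 ≤ OM η T bp y s ∧
    OM η T bp y s ≤ C * (1 + s) * Real.exp (-(y + s)) ∧
    (bp * Real.log T ≤ y + s →
      OM η T bp y s ≤ C * (1 + s) * Real.exp (-(y + s) - (y + s - bp * Real.log T) ^ 2 / 2)) ∧
    (s ≤ 1 → OM η T bp y s ≤ Real.exp (-(y + s)) *
      ((1 + η) * (max (bp - (y + s) / Real.log T) 0 + 1 / Real.log T) + C / T))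

/-- crude bounds for `J`, and its measurability -/
def S_JC : Prop := Measurable (fun p : ℝ × ℝ => J p.1 p.2) ∧
  ∃ K : ℝ, 0 < K ∧ (∀ x s : ℝ, 0 < x → 0 < s → |J x s| ≤ K * Real.exp s * x) ∧
    (∀ x s : ℝ, 0 < x → x < 1 → 0 < s → s < Real.log 2 → J x s = -((Real.exp s - 1) * x))

/-- exchange of the integrations -/
def S_SW : Prop := ∀ bp η T : ℝ, 0 < bp → 0 < η → Real.exp 1 ≤ T →
  ∫⁻ u in Set.Ioc (0 : ℝ) (bp * Real.log T),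
    ENNReal.ofReal ((bp - u / Real.log T) / Real.sqrt Real.pi) *
      ∫⁻ y : ℝ, ∫⁻ s in Set.Ioi (0 : ℝ), ENNReal.ofReal
        (T * Real.exp (-(T * s)) * J (Real.exp y) s ^ 2 * om η T u y s) =
  ∫⁻ y : ℝ, ∫⁻ s in Set.Ioi (0 : ℝ), ENNReal.ofReal
    (T * Real.exp (-(T * s)) * J (Real.exp y) s ^ 2 * OM η T bp y s)

/-- the time side is at most the mean of the variance -/
def S_TSB : Prop := ∀ bp b η ε : ℝ, 0 < bp → bp < b → 0 < η → 0 < ε →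
  ∃ T₀ : ℝ, ∀ T : ℝ, T₀ ≤ T →
    ∫⁻ y : ℝ, ∫⁻ s in Set.Ioi (0 : ℝ), ENNReal.ofReal
      (T * Real.exp (-(T * s)) * J (Real.exp y) s ^ 2 * OM η T bp y s) ≤
        ENNReal.ofReal ((1 + η) * I0 0 b T + ε * Real.log T ^ 2 / T)

/-- the weights of the dyadic blocks -/
noncomputable def q (m : ℕ) (x : ℝ) : ℝ :=
  ∑ k ∈ Finset.range m, 8 * 4 ^ k * x / (1 + 4 ^ (k + 1) * x ^ 2) ^ 2

/-- `1/(T²+t²)` as a combination of dyadic blocks -/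
def S_BL : Prop := ∀ f : ℝ → ℝ≥0∞, Measurable f → ∀ (T K : ℝ) (m : ℕ), 0 < T → 1 ≤ K →
  ∫⁻ τ in Set.Icc (T / K) (K * T), ENNReal.ofReal (q m (τ / T) / T ^ 3) *
    (∫⁻ t in Set.Ioc τ (2 * τ), f t) ≤
      ∫⁻ t in Set.Ioi (0 : ℝ), f t * ENNReal.ofReal (1 / (T ^ 2 + t ^ 2))

/-- the masses -/
def S_QM : Prop := ∀ ε : ℝ, 0 < ε → ∃ K₀ : ℝ, 1 ≤ K₀ ∧ ∀ K : ℝ, K₀ ≤ K → ∃ m : ℕ,
  (Real.pi / 2 - ε ≤ ∫ x in (1 / K)..K, x * q m x) ∧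
  ∀ x : ℝ, 2 / K ≤ x → x ≤ 1 → 1 / 2 - ε ≤ ∫ y in (x / 2)..x, q m y

/-- the nontrivial zeros of zeta with imaginary part in `(a, b]` -/
def zeros (a b : ℝ) : Set ℂ :=
  {s : ℂ | 0 < s.re ∧ s.re < 1 ∧ a < s.im ∧ s.im ≤ b ∧ riemannZeta s = 0}

/-- the multiplicity -/
noncomputable def mult (s : ℂ) : ℕ := analyticOrderNatAt riemannZeta s

/-- the number of zeros, with multiplicity -/
noncomputable def N (a b : ℝ) : ℕ := ∑ᶠ s ∈ zeros a b, mult s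

/-- the number of simple zeros on the critical line -/
noncomputable def Ns (a b : ℝ) : ℕ := {s ∈ zeros a b | s.re = 1 / 2 ∧ mult s = 1}.ncard

/-- the number, with multiplicity, of the zeros that are multiple or off the line -/
noncomputable def Nb (a b : ℝ) : ℝ := (N a b : ℝ) - Ns a b

/-- finiteness and multiplicities -/
def S_FIN : Prop := (∀ a b : ℝ, 0 ≤ a → (zeros a b).Finite) ∧
  ∀ s : ℂ, 0 < s.re → s.re < 1 → 0 < s.im → riemannZeta s = 0 → 1 ≤ mult s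

/-- the zeros in the blocks -/
def S_BAD : Prop := ∀ (K : ℝ) (m : ℕ) (c T : ℝ), 2 ≤ K → 0 < T → 0 ≤ c →
  (∀ x : ℝ, 2 / K ≤ x → x ≤ 1 → c ≤ ∫ y in (x / 2)..x, q m y) →
    ENNReal.ofReal (c / T ^ 2 * Nb (2 * T / K) T) ≤
      ∫⁻ τ in Set.Icc (T / K) (K * T), ENNReal.ofReal (q m (τ / T) / T ^ 3 * Nb τ (2 * τ))

/-- the number of zeros -/
def S_CN : Prop :=
  (∀ ε : ℝ, 0 < ε → ∃ T₀ : ℝ, ∀ T : ℝ, T₀ ≤ T → 0 < (N T (2 * T) : ℝ) ∧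
    (N T (2 * T) : ℝ) ≤ (1 + ε) * (T * Real.log T / (2 * Real.pi))) ∧
  (∃ C T₀ : ℝ, ∀ T : ℝ, T₀ ≤ T → (N 0 T : ℝ) ≤ C * (T * Real.log T))

/-- the mean square of the prime polynomial -/
noncomputable def M (α T : ℝ) : ℝ :=
  1 / (Real.sqrt Real.pi * (T * Real.log T)) * ∫ t in T..(2 * T), ‖P (α * Real.log T) t‖ ^ 2

/-- the theorem on the mean square (PrimeMeanSquare, `χ = 1`, `k = 0`) -/
def S_PM : Prop := ∀ b ε : ℝ, 1 ≤ b → 0 < ε → ∃ T₀ : ℝ, ∀ T : ℝ, T₀ ≤ T →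
  (1 - 1 / (3 * b ^ 2) - 2 / b * (∫ α in (0 : ℝ)..b, (1 - α / b) * (M α T - min α 1)) - ε) *
    N T (2 * T) ≤ Ns T (2 * T)

/-- the same, solved for the mean square -/
def S_MB : Prop := ∀ b ε : ℝ, 1 ≤ b → 0 < ε → ∃ T₀ : ℝ, ∀ T : ℝ, T₀ ≤ T →
  b * (b - 1) / 2 - ε + (1 - ε) * Real.pi * b ^ 2 * Nb T (2 * T) / (T * Real.log T) ≤
    ∫ α in (0 : ℝ)..b, (b - α) * M α T

/-- lower bound for a block -/
def S_BK : Prop := ∀ bq bp K ε : ℝ, 1 ≤ bq → bq < bp → 1 ≤ K → 0 < ε → ∃ T₀ : ℝ,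
  ∀ T : ℝ, T₀ ≤ T → ∀ τ : ℝ, T / K ≤ τ → τ ≤ K * T →
    ENNReal.ofReal (Real.log T ^ 2 * τ * (bq * (bq - 1) / 2 - ε) +
      (1 - ε) * Real.pi * bq ^ 2 * Real.log T * Nb τ (2 * τ)) ≤
    ∫⁻ t in Set.Ioc τ (2 * τ), ∫⁻ u in Set.Ioc (0 : ℝ) (bp * Real.log T),
      ENNReal.ofReal ((bp - u / Real.log T) / Real.sqrt Real.pi * ‖Q u t‖ ^ 2)

/-- a sum over the prime powers -/
def S_L2 : Prop := ∀ b : ℝ, 1 ≤ b → Tendsto (fun T : ℝ => 1 / Real.log T ^ 2 *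
  ∑ n ∈ Finset.Icc 1 ⌊T⌋₊, ld n ^ 2 / n * (b - Real.log n / Real.log T)) atTop
    (𝓝 (b / 2 - 1 / 3))

/-- the range `x ≤ T` -/
def S_DG : Prop := ∀ b ε : ℝ, 1 ≤ b → 0 < ε → ∃ T₀ : ℝ, ∀ T : ℝ, T₀ ≤ T →
  T / Real.log T ^ 2 * (∫ x in (1 : ℝ)..T, (b - Real.log x / Real.log T) * EJ T x / x ^ 2) ≤
    b / 2 - 1 / 3 + ε

/-- integrability of the integrand in `I0` -/
def S_IN : Prop := (∀ T : ℝ, 4 ≤ T → ∃ C : ℝ, ∀ x : ℝ, 0 < x → 0 ≤ EJ T x ∧ EJ T x ≤ C * x ^ 2) ∧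
  ∀ T b x₁ x₂ : ℝ, 4 ≤ T → 0 < x₁ → x₁ ≤ x₂ →
    IntervalIntegrable (fun x => (b - Real.log x / Real.log T) * EJ T x / x ^ 2) volume x₁ x₂

end H479.Z
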