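import Pool.Agent.Results.MP_1e057a_nt.PrimeMeanSquare
import Pool.Agent.H479.Z.Stm

/-! # the theorem on the mean square of the prime polynomials, for the zeta function -/

open MeasureTheory Complex Filter Topology
open scoped ENNReal

namespace H479.Z

namespace PmAux

open Pool.Agent.Results.MP_1e057a_nt

noncomputable abbrev chi : DirichletCharacter ℂ 1 := 1

lemma LF : chi.LFunction = riemannZeta := DirichletCharacter.LFunction_modOne_eq

lemma zeros_eq (a b : ℝ) : PrimeMeanSquare.zeros chi a b = zeros a b := by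
  unfold PrimeMeanSquare.zeros zeros
  rw [LF]

lemma mult_eq (s : ℂ) : PrimeMeanSquare.mult chi s = mult s := by
  unfold PrimeMeanSquare.mult mult
  rw [LF]

lemma N_eq (a b : ℝ) : PrimeMeanSquare.N chi a b = N a b := by
  unfold PrimeMeanSquare.N N
  rw [zeros_eq]
  simp_rw [mult_eq]

lemma Ns_eq (a b : ℝ) : PrimeMeanSquare.Ns chi a b = Ns a b := by
  unfold PrimeMeanSquare.Ns Ns
  rw [zeros_eq]
  simp_rw [mult_eq]

lemma chi_one (n : ℕ) : chi (n : ZMod 1) = 1 := by
  have : (n : ZMod 1) = 1 := Subsingleton.elim _ _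
  rw [this, map_one]

lemma P_eq (u t : ℝ) : PrimeMeanSquare.P chi u t = P u t := by
  unfold PrimeMeanSquare.P P
  refine tsum_congr fun n => ?_
  rw [chi_one, mul_one]
  rfl

lemma M_eq (α T : ℝ) : PrimeMeanSquare.M chi α T = M α T := by
  unfold PrimeMeanSquare.M M
  simp_rw [P_eq]

end PmAux

open PmAux in
theorem pm : S_PM := by
  intro b ε hb hε
  obtain ⟨T₀, h⟩ := (Pool.Agent.Results.MP_1e057a_nt.PrimeMeanSquare.result 1 chi).1 b 0 ε hb
    le_rfl zero_le_one hε
  refine ⟨T₀, fun T hT => ?_⟩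
  have := h T hT
  simp_rw [M_eq, N_eq, Ns_eq] at this
  exact this

end H479.Z
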