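import Pool.Agent.H479.Z.Stm

/-! # partial summation (proved by helper376) -/


open MeasureTheory Complex Filter Topology
open scoped ENNReal

namespace H479.Z

namespace PS

/-- `ψ(e^{y+s}) - ψ(e^y)` as a sum over a fixed finite set -/
theorem psi_diff {y h s : ℝ} (hs : 0 ≤ s) (hsh : s ≤ h) :
    Chebyshev.psi (Real.exp s * Real.exp y) - Chebyshev.psi (Real.exp y) =
      ∑ n ∈ Finset.Ioc ⌊Real.exp y⌋₊ ⌊Real.exp (y + h)⌋₊,
        if Real.log n ≤ y + s then ld n else 0 := by
  classical
  have e1 : Real.exp s * Real.exp y = Real.exp (y + s) := by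
    rw [← Real.exp_add, add_comm]
  rw [e1]
  unfold Chebyshev.psi
  have h1 : ⌊Real.exp y⌋₊ ≤ ⌊Real.exp (y + s)⌋₊ :=
    Nat.floor_le_floor (Real.exp_le_exp.2 (by linarith))
  have h2 : ⌊Real.exp (y + s)⌋₊ ≤ ⌊Real.exp (y + h)⌋₊ :=
    Nat.floor_le_floor (Real.exp_le_exp.2 (by linarith))
  have h3 := Finset.sum_Ioc_consecutive (fun n : ℕ => ArithmeticFunction.vonMangoldt n)
    (Nat.zero_le ⌊Real.exp y⌋₊) h1
  rw [← h3, add_sub_cancel_left, ← Finset.sum_filter]
  refine Finset.sum_congr ?_ fun _ _ => rfl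
  ext n
  simp only [Finset.mem_filter, Finset.mem_Ioc]
  constructor
  · rintro ⟨h4, h5⟩
    have h6 : (0 : ℝ) < n := by exact_mod_cast (by omega : 0 < n)
    refine ⟨⟨h4, h5.trans h2⟩, ?_⟩
    rw [Real.log_le_iff_le_exp h6]
    exact (Nat.le_floor_iff (Real.exp_pos _).le).1 h5
  · rintro ⟨⟨h4, h5⟩, h6⟩
    have h7 : (0 : ℝ) < n := by exact_mod_cast (by omega : 0 < n)
    rw [Real.log_le_iff_le_exp h7] at h6
    exact ⟨h4, (Nat.le_floor_iff (Real.exp_pos _).le).2 h6⟩

/-- the tsum as a finite sum -/
theorem tsum_eq (u y h : ℝ) :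
    (∑' n : ℕ, if y < Real.log n ∧ Real.log n ≤ y + h then ld n * ph u (Real.log n) else 0) =
      ∑ n ∈ Finset.Ioc ⌊Real.exp y⌋₊ ⌊Real.exp (y + h)⌋₊, ld n * ph u (Real.log n) := by
  rw [tsum_eq_sum (s := Finset.Ioc ⌊Real.exp y⌋₊ ⌊Real.exp (y + h)⌋₊)]
  · refine Finset.sum_congr rfl fun n hn => ?_
    rw [Finset.mem_Ioc] at hn
    have h1 : (0 : ℝ) < n := by exact_mod_cast (by omega : 0 < n)
    rw [if_pos]
    constructor
    · rw [Real.lt_log_iff_exp_lt h1]
      exact (Nat.floor_lt (Real.exp_pos _).le).1 hn.1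
    · rw [Real.log_le_iff_le_exp h1]
      exact (Nat.le_floor_iff (Real.exp_pos _).le).1 hn.2
  · intro n hn
    rcases Nat.eq_zero_or_pos n with rfl | hn0
    · simp [ld]
    have h1 : (0 : ℝ) < n := by exact_mod_cast hn0
    rw [if_neg]
    rintro ⟨h2, h3⟩
    apply hn
    rw [Real.lt_log_iff_exp_lt h1] at h2
    rw [Real.log_le_iff_le_exp h1] at h3
    rw [Finset.mem_Ioc]
    exact ⟨(Nat.floor_lt (Real.exp_pos _).le).2 h2, (Nat.le_floor_iff (Real.exp_pos _).le).2 h3⟩

/-- the derivative of `ph u` -/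
noncomputable def dph (u v : ℝ) : ℝ := ph u v * (u - v - 1 / 2)

theorem hasDerivAt_ph (u v : ℝ) : HasDerivAt (ph u) (dph u v) v := by
  unfold ph dph
  have h1 : HasDerivAt (fun v : ℝ => -(u - v) ^ 2 / 2 - v / 2) (u - v - 1 / 2) v := by
    have h2 : HasDerivAt (fun v : ℝ => u - v) (-1) v := by
      simpa using (hasDerivAt_id v).const_sub u
    have h3 := (((h2.pow 2).neg).div_const 2).sub ((hasDerivAt_id v).div_const 2)
    refine h3.congr_deriv ?_
    simp
  exact h1.exp

theorem continuous_ph (u : ℝ) : Continuous (ph u) := by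
  unfold ph
  fun_prop

theorem continuous_dph (u : ℝ) : Continuous (dph u) := by
  unfold dph
  have := continuous_ph u
  fun_prop

theorem hasDerivAt_shift (u y s : ℝ) : HasDerivAt (fun s => ph u (y + s)) (dph u (y + s)) s := by
  have h1 : HasDerivAt (fun s : ℝ => y + s) 1 s := by
    simpa using (hasDerivAt_id s).const_add y
  have h2 := HasDerivAt.scomp s (hasDerivAt_ph u (y + s)) h1
  rw [one_smul] at h2
  exact h2

theorem integral_dph (u y a b : ℝ) :
    ∫ s in a..b, dph u (y + s) = ph u (y + b) - ph u (y + a) := by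
  refine intervalIntegral.integral_eq_sub_of_hasDerivAt (f := fun s => ph u (y + s))
    (fun s _ => hasDerivAt_shift u y s) ?_
  have := continuous_dph u
  exact Continuous.intervalIntegrable (by fun_prop) _ _

/-- one prime power -/
theorem integral_one (u y h l : ℝ) (h1 : y < l) (h2 : l ≤ y + h) :
    ∫ s in (0 : ℝ)..h, (if l ≤ y + s then dph u (y + s) else 0) = ph u (y + h) - ph u l := by
  have hh : 0 ≤ h := by linarith
  rw [intervalIntegral.integral_of_le hh]
  have e1 : ∀ s : ℝ, (if l ≤ y + s then dph u (y + s) else 0) =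
      (Set.Ici (l - y)).indicator (fun s => dph u (y + s)) s := by
    intro s
    by_cases hs : l ≤ y + s
    · rw [if_pos hs, Set.indicator_of_mem (show s ∈ Set.Ici (l - y) from by
        rw [Set.mem_Ici]; linarith)]
    · rw [if_neg hs, Set.indicator_of_notMem (show s ∉ Set.Ici (l - y) from by
        rw [Set.mem_Ici]; intro h'; apply hs; linarith)]
  simp only [e1]
  rw [setIntegral_indicator measurableSet_Ici]
  have e2 : Set.Ioc 0 h ∩ Set.Ici (l - y) = Set.Icc (l - y) h := by
    ext s
    simp only [Set.mem_inter_iff, Set.mem_Ioc, Set.mem_Ici, Set.mem_Icc]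
    constructor
    · rintro ⟨⟨_, h4⟩, h5⟩
      exact ⟨h5, h4⟩
    · rintro ⟨h4, h5⟩
      exact ⟨⟨by linarith, h5⟩, h4⟩
  rw [e2, integral_Icc_eq_integral_Ioc, ← intervalIntegral.integral_of_le (by linarith),
    integral_dph]
  congr 2
  ring

theorem integrable_one (u y h l : ℝ) (h1 : y < l) (h2 : l ≤ y + h) :
    IntervalIntegrable (fun s => if l ≤ y + s then dph u (y + s) else 0) volume 0 h := by
  have hh : 0 ≤ h := by linarith
  have := continuous_dph u
  rw [intervalIntegrable_iff_integrableOn_Ioc_of_le hh]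
  have e1 : (fun s : ℝ => if l ≤ y + s then dph u (y + s) else 0) =
      (Set.Ici (l - y)).indicator (fun s => dph u (y + s)) := by
    funext s
    by_cases hs : l ≤ y + s
    · rw [if_pos hs, Set.indicator_of_mem (show s ∈ Set.Ici (l - y) from by
        rw [Set.mem_Ici]; linarith)]
    · rw [if_neg hs, Set.indicator_of_notMem (show s ∉ Set.Ici (l - y) from by
        rw [Set.mem_Ici]; intro h'; apply hs; linarith)]
  rw [e1]
  refine Integrable.indicator ?_ measurableSet_Ici
  exact (Continuous.integrableOn_Icc (by fun_prop)).mono_set Set.Ioc_subset_Icc_self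

/-- the main part -/
theorem integral_main (u y h : ℝ) :
    ∫ s in (0 : ℝ)..h, dph u (y + s) * (Real.exp (y + s) - Real.exp y) =
      ph u (y + h) * (Real.exp (y + h) - Real.exp y) - ∫ s in (0 : ℝ)..h,
        ph u (y + s) * Real.exp (y + s) := by
  have c1 := continuous_dph u
  have c2 := continuous_ph u
  have hE : ∀ s : ℝ, HasDerivAt (fun s => Real.exp (y + s) - Real.exp y) (Real.exp (y + s)) s := by
    intro s
    have h1 : HasDerivAt (fun s : ℝ => y + s) 1 s := by
      simpa using (hasDerivAt_id s).const_add y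
    simpa using (h1.exp).sub_const (Real.exp y)
  have := intervalIntegral.integral_deriv_mul_eq_sub (a := 0) (b := h)
    (u := fun s => ph u (y + s)) (v := fun s => Real.exp (y + s) - Real.exp y)
    (u' := fun s => dph u (y + s)) (v' := fun s => Real.exp (y + s))
    (fun s _ => hasDerivAt_shift u y s) (fun s _ => hE s)
    (Continuous.intervalIntegrable (by fun_prop) _ _)
    (Continuous.intervalIntegrable (by fun_prop) _ _)
  rw [intervalIntegral.integral_add (Continuous.intervalIntegrable (by fun_prop) _ _)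
    (Continuous.intervalIntegrable (by fun_prop) _ _)] at this
  rw [add_zero, sub_self, mul_zero, sub_zero] at this
  linarith

end PS

open PS in
theorem ps : S_PS := by
  classical
  intro u y h hh
  have c1 := continuous_dph u
  have c2 := continuous_ph u
  set S := Finset.Ioc ⌊Real.exp y⌋₊ ⌊Real.exp (y + h)⌋₊ with hS
  have hlog : ∀ n ∈ S, y < Real.log n ∧ Real.log n ≤ y + h := by
    intro n hn
    rw [hS, Finset.mem_Ioc] at hn
    have h1 : (0 : ℝ) < n := by exact_mod_cast (by omega : 0 < n)
    constructor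
    · rw [Real.lt_log_iff_exp_lt h1]
      exact (Nat.floor_lt (Real.exp_pos _).le).1 hn.1
    · rw [Real.log_le_iff_le_exp h1]
      exact (Nat.le_floor_iff (Real.exp_pos _).le).1 hn.2
  have hJ : ∀ s, 0 ≤ s → s ≤ h → J (Real.exp y) s =
      (∑ n ∈ S, if Real.log n ≤ y + s then ld n else 0) - (Real.exp (y + s) - Real.exp y) := by
    intro s h0 h1
    unfold J
    rw [psi_diff h0 h1, ← hS]
    have : (Real.exp s - 1) * Real.exp y = Real.exp (y + s) - Real.exp y := by
      rw [Real.exp_add]
      ring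
    rw [this]
  have hJh : J (Real.exp y) h = (∑ n ∈ S, ld n) - (Real.exp (y + h) - Real.exp y) := by
    rw [hJ h hh.le le_rfl]
    congr 1
    exact Finset.sum_congr rfl fun n hn => if_pos (hlog n hn).2
  have hint : ∫ s in (0 : ℝ)..h, ph u (y + s) * (u - (y + s) - 1 / 2) * J (Real.exp y) s =
      (∑ n ∈ S, ld n * (ph u (y + h) - ph u (Real.log n))) -
        (ph u (y + h) * (Real.exp (y + h) - Real.exp y) - ∫ s in (0 : ℝ)..h,
        ph u (y + s) * Real.exp (y + s)) := by
    have e1 : ∫ s in (0 : ℝ)..h, ph u (y + s) * (u - (y + s) - 1 / 2) * J (Real.exp y) s =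
        ∫ s in (0 : ℝ)..h, ((∑ n ∈ S, ld n * (if Real.log n ≤ y + s then dph u (y + s) else 0)) -
          dph u (y + s) * (Real.exp (y + s) - Real.exp y)) := by
      refine intervalIntegral.integral_congr fun s hs => ?_
      rw [Set.uIcc_of_le hh.le, Set.mem_Icc] at hs
      change ph u (y + s) * (u - (y + s) - 1 / 2) * J (Real.exp y) s =
        ((∑ n ∈ S, ld n * (if Real.log n ≤ y + s then dph u (y + s) else 0)) -
          dph u (y + s) * (Real.exp (y + s) - Real.exp y))
      rw [hJ s hs.1 hs.2, mul_sub, Finset.mul_sum]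
      congr 1
      refine Finset.sum_congr rfl fun n _ => ?_
      unfold dph
      split_ifs <;> ring
    rw [e1, intervalIntegral.integral_sub, intervalIntegral.integral_finsetSum, integral_main]
    · congr 1
      refine Finset.sum_congr rfl fun n hn => ?_
      rw [intervalIntegral.integral_const_mul, integral_one u y h _ (hlog n hn).1 (hlog n hn).2]
    · intro n hn
      exact (integrable_one u y h _ (hlog n hn).1 (hlog n hn).2).const_mul _
    · have h5 := IntervalIntegrable.sum (μ := volume) (a := 0) (b := h) S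
        (f := fun n s => ld n * (if Real.log n ≤ y + s then dph u (y + s) else 0))
        fun n hn => (integrable_one u y h _ (hlog n hn).1 (hlog n hn).2).const_mul _
      refine h5.congr ?_
      intro s _
      simp only [Finset.sum_apply]
    · exact Continuous.intervalIntegrable (by fun_prop) _ _
  have hshift : ∫ v in y..(y + h), ph u v * Real.exp v =
      ∫ s in (0 : ℝ)..h, ph u (y + s) * Real.exp (y + s) := by
    rw [intervalIntegral.integral_comp_add_left (fun v => ph u v * Real.exp v) y, add_zero]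
  unfold A
  rw [tsum_eq, ← hS, hJh, hint, hshift]
  have e3 : ∑ n ∈ S, ld n * (ph u (y + h) - ph u (Real.log n)) =
      (∑ n ∈ S, ld n) * ph u (y + h) - ∑ n ∈ S, ld n * ph u (Real.log n) := by
    rw [Finset.sum_mul, ← Finset.sum_sub_distrib]
    exact Finset.sum_congr rfl fun n _ => by ring
  rw [e3]
  ring

end H479.Z
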