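import Pool.Agent.H479.Z.Stm

/-! # the inequality of Cauchy-Schwarz under the exponential average (proved by helper97) -/


set_option autoImplicit false

open MeasureTheory Complex Filter Topology
open scoped ENNReal

namespace H479.Z

namespace H97SQ

lemma ph_cont (u : ℝ) : Continuous (ph u) := by
  unfold ph
  fun_prop

lemma sec {g : ℝ × ℝ → ℝ} (hg : Measurable g) (x : ℝ) : Measurable (fun s => g (x, s)) := by
  have hpr : Measurable (fun s : ℝ => ((x, s) : ℝ × ℝ)) := by fun_prop
  exact hg.comp hpr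

/-- Cauchy-Schwarz on an interval -/
lemma cs {f : ℝ → ℝ} {h B : ℝ} (hh : 0 < h) (hf : Measurable f)
    (hB : ∀ s ∈ Set.Ioc 0 h, |f s| ≤ B) :
    ENNReal.ofReal ((∫ s in (0 : ℝ)..h, f s) ^ 2) ≤
      ENNReal.ofReal h * ∫⁻ s in Set.Ioc 0 h, ENNReal.ofReal (f s ^ 2) := by
  have hv : (volume : Measure ℝ) (Set.Ioc 0 h) ≠ ∞ := by
    rw [Real.volume_Ioc]
    exact ENNReal.ofReal_ne_top
  have hi : IntegrableOn f (Set.Ioc 0 h) := by
    refine Measure.integrableOn_of_bounded (M := B) hv hf.aestronglyMeasurable ?_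
    exact (ae_restrict_iff' measurableSet_Ioc).2 (ae_of_all _ fun s hs => by
      rw [Real.norm_eq_abs]
      exact hB s hs)
  have hi2 : IntegrableOn (fun s => f s ^ 2) (Set.Ioc 0 h) := by
    refine Measure.integrableOn_of_bounded (M := B ^ 2) hv (hf.pow_const 2).aestronglyMeasurable ?_
    exact (ae_restrict_iff' measurableSet_Ioc).2 (ae_of_all _ fun s hs => by
      rw [Real.norm_eq_abs, abs_pow]
      exact pow_le_pow_left₀ (abs_nonneg _) (hB s hs) 2)
  set b := ∫ s in (0 : ℝ)..h, f s with hb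
  have e1 : b = ∫ s in Set.Ioc 0 h, f s := intervalIntegral.integral_of_le hh.le
  have e2 : 0 ≤ ∫ s in Set.Ioc 0 h, (f s - b / h) ^ 2 := integral_nonneg fun s => sq_nonneg _
  have e3 : ∫ s in Set.Ioc 0 h, (f s - b / h) ^ 2 = (∫ s in Set.Ioc 0 h, f s ^ 2) - b ^ 2 / h := by
    have e4 : (fun s => (f s - b / h) ^ 2) =
        fun s => (f s ^ 2 - (2 * (b / h)) * f s) + (b / h) ^ 2 := by
      funext s
      ring
    have e5 : (volume.restrict (Set.Ioc 0 h)).real Set.univ = h := by
      rw [measureReal_restrict_apply_univ, Real.volume_real_Ioc_of_le hh.le, sub_zero]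
    have i1 : Integrable (fun s => 2 * (b / h) * f s) (volume.restrict (Set.Ioc 0 h)) :=
      hi.const_mul _
    have i2 : Integrable (fun s => f s ^ 2 - 2 * (b / h) * f s)
        (volume.restrict (Set.Ioc 0 h)) := hi2.sub i1
    rw [e4, integral_add i2 (integrableOn_const hv), integral_sub hi2 i1, integral_const_mul,
      integral_const, ← e1, e5, smul_eq_mul]
    field_simp
    ring
  rw [e3] at e2
  have e6 : b ^ 2 ≤ h * ∫ s in Set.Ioc 0 h, f s ^ 2 := by
    have e7 : b ^ 2 / h ≤ ∫ s in Set.Ioc 0 h, f s ^ 2 := by linarith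
    rw [div_le_iff₀ hh] at e7
    linarith
  refine (ENNReal.ofReal_le_ofReal e6).trans (le_of_eq ?_)
  rw [ENNReal.ofReal_mul hh.le, ofReal_integral_eq_lintegral_ofReal hi2
    (ae_of_all _ fun s => sq_nonneg _)]

/-- the tail of the exponential average -/
lemma tail {T s : ℝ} (hT : 0 < T) (hs : 0 ≤ s) :
    ∫⁻ h in Set.Ioi s, ENNReal.ofReal (T * Real.exp (-(T * h)) * h) =
      ENNReal.ofReal ((s + 1 / T) * Real.exp (-(T * s))) := by
  have hd : ∀ x ∈ Set.Ici s, HasDerivAt (fun h : ℝ => -((h + 1 / T) * Real.exp (-(T * h))))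
      (T * Real.exp (-(T * x)) * x) x := by
    intro x _
    have h1 : HasDerivAt (fun h : ℝ => h + 1 / T) 1 x := (hasDerivAt_id' x).add_const _
    have h2 : HasDerivAt (fun h : ℝ => Real.exp (-(T * h))) (Real.exp (-(T * x)) * (-(T * 1))) x :=
      (((hasDerivAt_id' x).const_mul T).fun_neg).exp
    refine (h1.fun_mul h2).fun_neg.congr_deriv ?_
    field_simp
    ring
  have hl : Tendsto (fun h : ℝ => -((h + 1 / T) * Real.exp (-(T * h)))) atTop (𝓝 0) := by
    have h1 := tendsto_rpow_mul_exp_neg_mul_atTop_nhds_zero 1 T hT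
    have h2 := tendsto_rpow_mul_exp_neg_mul_atTop_nhds_zero 0 T hT
    have h3 := (h1.add (h2.const_mul (1 / T))).neg
    rw [mul_zero, add_zero, neg_zero] at h3
    refine h3.congr fun x => ?_
    rw [Real.rpow_one, Real.rpow_zero, neg_mul]
    ring
  have hp : ∀ x ∈ Set.Ioi s, 0 ≤ T * Real.exp (-(T * x)) * x := by
    intro x hx
    have : 0 < x := lt_of_le_of_lt hs hx
    positivity
  have hint := integrableOn_Ioi_deriv_of_nonneg' hd hp hl
  have hval := integral_Ioi_of_hasDerivAt_of_nonneg' hd hp hl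
  rw [← ofReal_integral_eq_lintegral_ofReal hint
    ((ae_restrict_iff' measurableSet_Ioi).2 (ae_of_all _ hp)), hval]
  congr 1
  ring

/-- the exchange of the integrations -/
lemma swp {c F : ℝ → ℝ≥0∞} (hc : Measurable c) (hF : Measurable F) :
    ∫⁻ h in Set.Ioi (0 : ℝ), c h * ∫⁻ s in Set.Ioc 0 h, F s =
      ∫⁻ s in Set.Ioi (0 : ℝ), F s * ∫⁻ h in Set.Ioi s, c h := by
  have hG : Measurable (fun z : ℝ × ℝ => {w : ℝ × ℝ | w.2 ≤ w.1}.indicator
      (fun w => c w.1 * F w.2) z) := by
    refine Measurable.indicator ?_ (measurableSet_le measurable_snd measurable_fst)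
    exact (hc.comp measurable_fst).mul (hF.comp measurable_snd)
  have h1 : ∀ h : ℝ, c h * ∫⁻ s in Set.Ioc 0 h, F s =
      ∫⁻ s in Set.Ioi (0 : ℝ), {w : ℝ × ℝ | w.2 ≤ w.1}.indicator
        (fun w => c w.1 * F w.2) (h, s) := by
    intro h
    have e1 : ∀ s : ℝ, {w : ℝ × ℝ | w.2 ≤ w.1}.indicator (fun w => c w.1 * F w.2) (h, s) =
        (Set.Iic h).indicator (fun s => c h * F s) s := fun s => rfl
    simp only [e1]
    rw [lintegral_indicator measurableSet_Iic, Measure.restrict_restrict measurableSet_Iic,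
      Set.inter_comm, Set.Ioi_inter_Iic, lintegral_const_mul _ hF]
  have h2 : ∀ s ∈ Set.Ioi (0 : ℝ), F s * ∫⁻ h in Set.Ioi s, c h =
      ∫⁻ h in Set.Ioi (0 : ℝ), {w : ℝ × ℝ | w.2 ≤ w.1}.indicator
        (fun w => c w.1 * F w.2) (h, s) := by
    intro s hs
    have e1 : ∀ h : ℝ, {w : ℝ × ℝ | w.2 ≤ w.1}.indicator (fun w => c w.1 * F w.2) (h, s) =
        (Set.Ici s).indicator (fun h => c h * F s) h := fun h => rfl
    have e2 : Set.Ici s ∩ Set.Ioi 0 = Set.Ici s :=
      Set.inter_eq_left.2 fun x hx => Set.mem_Ioi.2 (lt_of_lt_of_le (Set.mem_Ioi.1 hs)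
        (Set.mem_Ici.1 hx))
    simp only [e1]
    rw [lintegral_indicator measurableSet_Ici, Measure.restrict_restrict measurableSet_Ici, e2,
      Measure.restrict_congr_set Ioi_ae_eq_Ici.symm, lintegral_mul_const _ hc, mul_comm]
  rw [lintegral_congr h1, setLIntegral_congr_fun measurableSet_Ioi h2]
  exact lintegral_lintegral_swap hG.aemeasurable

end H97SQ

open H97SQ

theorem sq (hPS : S_PS) (hJC : S_JC) : S_SQ := by
  intro u y T η hT hη
  obtain ⟨hJm, K, hK, hJb, -⟩ := hJC
  set x := Real.exp y with hx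
  have hx0 : 0 < x := Real.exp_pos y
  have hj : Measurable (fun s => J x s) := by
    have h := sec hJm x
    simpa using h
  have hph : Continuous (fun s => ph u (y + s)) := (ph_cont u).comp (continuous_const.add continuous_id)
  have hpc : Continuous (fun s => ph u (y + s) * (u - (y + s) - 1 / 2)) := by
    refine hph.mul ?_
    fun_prop
  set p : ℝ → ℝ := fun s => ph u (y + s) * (u - (y + s) - 1 / 2) with hp
  have hpj : Measurable (fun s => p s * J x s) := hpc.measurable.mul hj
  -- the pointwise bound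
  have key : ∀ h ∈ Set.Ioi (0 : ℝ), ENNReal.ofReal (T * Real.exp (-(T * h)) * A u y h ^ 2) ≤
      ENNReal.ofReal (T * Real.exp (-(T * h)) * ((1 + η) * (ph u (y + h) * J x h) ^ 2)) +
      ENNReal.ofReal ((1 + 1 / η) * (T * Real.exp (-(T * h)) * h)) *
        ∫⁻ s in Set.Ioc 0 h, ENNReal.ofReal ((p s * J x s) ^ 2) := by
    intro h hh
    have hh0 : 0 < h := hh
    obtain ⟨B, hB⟩ : ∃ B, ∀ s ∈ Set.Ioc 0 h, |p s * J x s| ≤ B := by
      obtain ⟨B₀, hB₀⟩ := (isCompact_Icc (a := (0 : ℝ)) (b := h)).exists_bound_of_continuousOn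
        hpc.continuousOn
      refine ⟨B₀ * (K * Real.exp h * x), fun s hs => ?_⟩
      rw [abs_mul]
      have h1 := hB₀ s ⟨hs.1.le, hs.2⟩
      have h2 := hJb x s hx0 hs.1
      have h3 : K * Real.exp s * x ≤ K * Real.exp h * x := by
        have := Real.exp_le_exp.2 hs.2
        gcongr
      exact mul_le_mul h1 (h2.trans h3) (abs_nonneg _) ((norm_nonneg _).trans h1)
    have hcs := cs hh0 hpj hB
    set a := ph u (y + h) * J x h with ha
    set b := ∫ s in (0 : ℝ)..h, p s * J x s with hb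
    have hA : A u y h = a - b := hPS u y h hh0
    have h1 : A u y h ^ 2 ≤ (1 + η) * a ^ 2 + (1 + 1 / η) * b ^ 2 := by
      rw [hA]
      have h2 : 0 ≤ (η * a + b) ^ 2 / η := by positivity
      have h3 : (η * a + b) ^ 2 / η = (1 + η) * a ^ 2 + (1 + 1 / η) * b ^ 2 - (a - b) ^ 2 := by
        field_simp
        ring
      linarith
    have hw : 0 ≤ T * Real.exp (-(T * h)) := by positivity
    calc ENNReal.ofReal (T * Real.exp (-(T * h)) * A u y h ^ 2) ≤
        ENNReal.ofReal (T * Real.exp (-(T * h)) * ((1 + η) * a ^ 2) +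
          ((1 + 1 / η) * (T * Real.exp (-(T * h)))) * b ^ 2) := by
          apply ENNReal.ofReal_le_ofReal
          have := mul_le_mul_of_nonneg_left h1 hw
          linarith
      _ = ENNReal.ofReal (T * Real.exp (-(T * h)) * ((1 + η) * a ^ 2)) +
          ENNReal.ofReal ((1 + 1 / η) * (T * Real.exp (-(T * h)))) * ENNReal.ofReal (b ^ 2) := by
          rw [ENNReal.ofReal_add (by positivity) (by positivity), ENNReal.ofReal_mul (by positivity)
            (p := (1 + 1 / η) * (T * Real.exp (-(T * h))))]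
      _ ≤ ENNReal.ofReal (T * Real.exp (-(T * h)) * ((1 + η) * a ^ 2)) +
          ENNReal.ofReal ((1 + 1 / η) * (T * Real.exp (-(T * h)))) *
          (ENNReal.ofReal h * ∫⁻ s in Set.Ioc 0 h, ENNReal.ofReal ((p s * J x s) ^ 2)) := by
          gcongr
      _ = _ := by
          have e9 : ENNReal.ofReal ((1 + 1 / η) * (T * Real.exp (-(T * h))) * h) =
              ENNReal.ofReal ((1 + 1 / η) * (T * Real.exp (-(T * h)))) * ENNReal.ofReal h :=
            ENNReal.ofReal_mul (by positivity)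
          rw [show (1 + 1 / η) * (T * Real.exp (-(T * h)) * h) =
            (1 + 1 / η) * (T * Real.exp (-(T * h))) * h by ring, e9,
            mul_assoc (ENNReal.ofReal ((1 + 1 / η) * (T * Real.exp (-(T * h)))))]
  refine (setLIntegral_mono' measurableSet_Ioi key).trans ?_
  have hm1 : Measurable (fun h => ENNReal.ofReal (T * Real.exp (-(T * h)) *
      ((1 + η) * (ph u (y + h) * J x h) ^ 2))) := by
    apply ENNReal.measurable_ofReal.comp
    refine Measurable.mul (by fun_prop) (Measurable.mul measurable_const ?_)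
    exact (hph.measurable.mul hj).pow_const 2
  have hm2 : Measurable (fun h : ℝ =>
      ENNReal.ofReal ((1 + 1 / η) * (T * Real.exp (-(T * h)) * h))) := by
    apply ENNReal.measurable_ofReal.comp
    fun_prop
  have hm3 : Measurable (fun s => ENNReal.ofReal ((p s * J x s) ^ 2)) :=
    ENNReal.measurable_ofReal.comp (hpj.pow_const 2)
  rw [lintegral_add_left hm1, swp hm2 hm3, ← lintegral_add_left hm1]
  refine le_of_eq (setLIntegral_congr_fun measurableSet_Ioi fun s hs => ?_)
  have hs0 : (0 : ℝ) < s := hs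
  have h1 : ∫⁻ h in Set.Ioi s, ENNReal.ofReal ((1 + 1 / η) * (T * Real.exp (-(T * h)) * h)) =
      ENNReal.ofReal ((1 + 1 / η) * ((s + 1 / T) * Real.exp (-(T * s)))) := by
    have h2 : ∀ h : ℝ, ENNReal.ofReal ((1 + 1 / η) * (T * Real.exp (-(T * h)) * h)) =
        ENNReal.ofReal (1 + 1 / η) * ENNReal.ofReal (T * Real.exp (-(T * h)) * h) :=
      fun h => ENNReal.ofReal_mul (by positivity)
    simp only [h2]
    rw [lintegral_const_mul _ (by fun_prop), tail hT hs0.le,
      ENNReal.ofReal_mul (p := 1 + 1 / η) (by positivity)]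
  show ENNReal.ofReal (T * Real.exp (-(T * s)) * ((1 + η) * (ph u (y + s) * J x s) ^ 2)) +
    ENNReal.ofReal ((p s * J x s) ^ 2) *
      ∫⁻ h in Set.Ioi s, ENNReal.ofReal ((1 + 1 / η) * (T * Real.exp (-(T * h)) * h)) =
    ENNReal.ofReal (T * Real.exp (-(T * s)) * J x s ^ 2 * om η T u y s)
  rw [h1, ← ENNReal.ofReal_mul (by positivity), ← ENNReal.ofReal_add (by positivity)
    (by positivity)]
  congr 1
  unfold om
  show T * Real.exp (-(T * s)) * ((1 + η) * (ph u (y + s) * J x s) ^ 2) +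
    ((ph u (y + s) * (u - (y + s) - 1 / 2)) * J x s) ^ 2 *
      ((1 + 1 / η) * ((s + 1 / T) * Real.exp (-(T * s)))) = _
  field_simp

end H479.Z
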