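import Pool.Agent.H479.Z.Stm

/-! # exchange of integrations (proved by helper788) -/


open MeasureTheory Complex Filter Topology
open scoped ENNReal

namespace H479.Z

namespace SWaux

/-- the integrand -/
noncomputable def G (bp η T u y s : ℝ) : ℝ≥0∞ :=
  ENNReal.ofReal ((bp - u / Real.log T) / Real.sqrt Real.pi) *
    ENNReal.ofReal (T * Real.exp (-(T * s)) * J (Real.exp y) s ^ 2 * om η T u y s)

theorem om_cont (η T : ℝ) : Continuous fun p : (ℝ × ℝ) × ℝ => om η T p.1.1 p.1.2 p.2 := by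
  unfold om ph
  fun_prop

theorem om_nonneg {η T s : ℝ} (u y : ℝ) (hη : 0 < η) (hT : 0 < T) (hs : 0 < s) :
    0 ≤ om η T u y s := by
  unfold om
  positivity

theorem G_meas (hJ : Measurable (fun p : ℝ × ℝ => J p.1 p.2)) (bp η T : ℝ) :
    Measurable fun p : (ℝ × ℝ) × ℝ => G bp η T p.1.1 p.1.2 p.2 := by
  have h1 : Measurable fun p : (ℝ × ℝ) × ℝ => (Real.exp p.1.2, p.2) := by fun_prop
  have h2 : Measurable fun p : (ℝ × ℝ) × ℝ => J (Real.exp p.1.2) p.2 ^ 2 :=
    (hJ.comp h1).pow_const 2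
  have h3 : Measurable fun p : (ℝ × ℝ) × ℝ => T * Real.exp (-(T * p.2)) := by fun_prop
  have h4 : Measurable fun p : (ℝ × ℝ) × ℝ =>
      T * Real.exp (-(T * p.2)) * J (Real.exp p.1.2) p.2 ^ 2 * om η T p.1.1 p.1.2 p.2 :=
    (h3.mul h2).mul (om_cont η T).measurable
  have h5 : Measurable fun p : (ℝ × ℝ) × ℝ => (bp - p.1.1 / Real.log T) / Real.sqrt Real.pi := by
    fun_prop
  exact (ENNReal.measurable_ofReal.comp h5).mul (ENNReal.measurable_ofReal.comp h4)

/-- the integral over `u` -/
theorem inner {bp η T y s : ℝ} (hbp : 0 < bp) (hη : 0 < η) (hT : Real.exp 1 ≤ T) (hs : 0 < s) :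
    ∫⁻ u in Set.Ioc (0 : ℝ) (bp * Real.log T), G bp η T u y s =
      ENNReal.ofReal (T * Real.exp (-(T * s)) * J (Real.exp y) s ^ 2 * OM η T bp y s) := by
  have hT0 : 0 < T := (Real.exp_pos 1).trans_le hT
  have hL : 1 ≤ Real.log T := (Real.le_log_iff_exp_le hT0).2 hT
  have hL0 : 0 < Real.log T := by linarith
  obtain ⟨A, hA⟩ : ∃ A, A = T * Real.exp (-(T * s)) * J (Real.exp y) s ^ 2 := ⟨_, rfl⟩
  have hA0 : 0 ≤ A := by
    rw [hA]
    positivity
  have hc : ∀ u ∈ Set.Ioc (0 : ℝ) (bp * Real.log T),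
      0 ≤ (bp - u / Real.log T) / Real.sqrt Real.pi := by
    intro u hu
    refine div_nonneg (sub_nonneg.2 ?_) (Real.sqrt_nonneg _)
    rw [div_le_iff₀ hL0]
    exact hu.2
  have hcont : Continuous fun u : ℝ => (bp - u / Real.log T) / Real.sqrt Real.pi *
      (A * om η T u y s) := by
    have h0 : Continuous fun u : ℝ => ((u, y), s) := by fun_prop
    have h1 := (om_cont η T).comp h0
    simp only [Function.comp_def] at h1
    have h2 : Continuous fun u : ℝ => (bp - u / Real.log T) / Real.sqrt Real.pi := by fun_prop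
    exact h2.mul (continuous_const.mul h1)
  have h1 : ∫⁻ u in Set.Ioc (0 : ℝ) (bp * Real.log T), G bp η T u y s =
      ∫⁻ u in Set.Ioc (0 : ℝ) (bp * Real.log T),
        ENNReal.ofReal ((bp - u / Real.log T) / Real.sqrt Real.pi * (A * om η T u y s)) := by
    have h0 : ∀ u ∈ Set.Ioc (0 : ℝ) (bp * Real.log T), G bp η T u y s =
        ENNReal.ofReal ((bp - u / Real.log T) / Real.sqrt Real.pi * (A * om η T u y s)) := by
      intro u hu
      rw [ENNReal.ofReal_mul (hc u hu), hA]
      rfl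
    exact setLIntegral_congr_fun measurableSet_Ioc h0
  rw [h1, ← ofReal_integral_eq_lintegral_ofReal]
  · congr 1
    have h2 : ∫ u in Set.Ioc (0 : ℝ) (bp * Real.log T),
        (bp - u / Real.log T) / Real.sqrt Real.pi * (A * om η T u y s) =
        A * ∫ u in Set.Ioc (0 : ℝ) (bp * Real.log T),
          (bp - u / Real.log T) / Real.sqrt Real.pi * om η T u y s := by
      rw [← integral_const_mul]
      refine integral_congr_ae (Eventually.of_forall fun u => ?_)
      simp only []
      ring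
    rw [h2, ← hA]
    unfold OM
    rw [intervalIntegral.integral_of_le (by positivity)]
  · exact (hcont.integrableOn_Icc (a := 0) (b := bp * Real.log T)).mono_set Set.Ioc_subset_Icc_self
  · refine (ae_restrict_iff' measurableSet_Ioc).2 (Eventually.of_forall fun u hu => ?_)
    exact mul_nonneg (hc u hu) (mul_nonneg hA0 (om_nonneg u y hη hT0 hs))

end SWaux

open SWaux in
theorem sw (hJC : S_JC) : S_SW := by
  intro bp η T hbp hη hT
  have hG := G_meas hJC.1 bp η T
  have h1 : ∀ u : ℝ, ENNReal.ofReal ((bp - u / Real.log T) / Real.sqrt Real.pi) *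
      ∫⁻ y : ℝ, ∫⁻ s in Set.Ioi (0 : ℝ), ENNReal.ofReal
        (T * Real.exp (-(T * s)) * J (Real.exp y) s ^ 2 * om η T u y s) =
      ∫⁻ y : ℝ, ∫⁻ s in Set.Ioi (0 : ℝ), G bp η T u y s := by
    intro u
    have e1 : ∀ y : ℝ, ENNReal.ofReal ((bp - u / Real.log T) / Real.sqrt Real.pi) *
        ∫⁻ s in Set.Ioi (0 : ℝ), ENNReal.ofReal
          (T * Real.exp (-(T * s)) * J (Real.exp y) s ^ 2 * om η T u y s) =
        ∫⁻ s in Set.Ioi (0 : ℝ), G bp η T u y s := fun y =>
      (lintegral_const_mul' (ENNReal.ofReal ((bp - u / Real.log T) / Real.sqrt Real.pi))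
        (fun s => ENNReal.ofReal
          (T * Real.exp (-(T * s)) * J (Real.exp y) s ^ 2 * om η T u y s))
        ENNReal.ofReal_ne_top).symm
    have e2 := lintegral_const_mul' (μ := (volume : Measure ℝ))
      (ENNReal.ofReal ((bp - u / Real.log T) / Real.sqrt Real.pi))
      (fun y => ∫⁻ s in Set.Ioi (0 : ℝ), ENNReal.ofReal
          (T * Real.exp (-(T * s)) * J (Real.exp y) s ^ 2 * om η T u y s))
      ENNReal.ofReal_ne_top
    rw [← e2]
    exact lintegral_congr e1
  rw [lintegral_congr fun u => h1 u]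
  rw [lintegral_lintegral_swap]
  · refine lintegral_congr fun y => ?_
    rw [lintegral_lintegral_swap]
    · have h0 : ∀ s ∈ Set.Ioi (0 : ℝ),
          ∫⁻ u in Set.Ioc (0 : ℝ) (bp * Real.log T), G bp η T u y s =
            ENNReal.ofReal (T * Real.exp (-(T * s)) * J (Real.exp y) s ^ 2 * OM η T bp y s) :=
        fun s hs => inner hbp hη hT hs
      exact setLIntegral_congr_fun measurableSet_Ioi h0
    · have h0 : Measurable fun p : ℝ × ℝ => ((p.1, y), p.2) := by fun_prop
      have h2 := hG.comp h0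
      simp only [Function.comp_def] at h2
      exact h2.aemeasurable
  · exact (Measurable.lintegral_prod_right' hG).aemeasurable

end H479.Z
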