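import Pool.Agent.H479.Z.Stm

/-! # time side and frequency side (proved by helper79) -/


open MeasureTheory Complex Filter Topology
open scoped ENNReal

namespace H479.Z

namespace H79TF

theorem even_int (g : ℝ → ℝ≥0∞) (hg : ∀ t, g (-t) = g t) :
    ∫⁻ t : ℝ, g t = 2 * ∫⁻ t in Set.Ioi (0 : ℝ), g t := by
  have h1 : ∫⁻ t in Set.Iio (0 : ℝ), g t = ∫⁻ t in Set.Ioi (0 : ℝ), g t := by
    have h2 := (Measure.measurePreserving_neg (volume : Measure ℝ)).setLIntegral_comp_preimage_emb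
      (Homeomorph.neg ℝ).measurableEmbedding g (Set.Iio (0 : ℝ))
    have h3 : (Neg.neg : ℝ → ℝ) ⁻¹' (Set.Iio (0 : ℝ)) = Set.Ioi (0 : ℝ) := by
      ext t
      rw [Set.mem_preimage, Set.mem_Iio, Set.mem_Ioi, neg_lt_zero]
    rw [h3] at h2
    rw [← h2]
    exact lintegral_congr fun t => hg t
  have h4 : ∫⁻ t in Set.Iic (0 : ℝ), g t = ∫⁻ t in Set.Iio (0 : ℝ), g t :=
    setLIntegral_congr Iio_ae_eq_Iic.symm
  rw [← lintegral_add_compl g (measurableSet_Iic (a := (0 : ℝ))), Set.compl_Iic, h4, h1, two_mul]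

end H79TF

theorem tf (hPL : S_PL) (hAV : S_AV) (hMZ : S_MZ) : S_TF := by
  intro u T hT
  have hA : Measurable fun p : ℝ × ℝ => A u p.1 p.2 := hMZ.1 u
  have hQ : Measurable fun t : ℝ => Q u t := (hMZ.2.1 u).measurable
  have hE : Measurable fun h : ℝ => T * Real.exp (-(T * h)) := by fun_prop
  have hE0 : ∀ h : ℝ, 0 ≤ T * Real.exp (-(T * h)) := fun h => by positivity
  have hc0 : ∀ t h : ℝ, 0 ≤ (1 - Real.cos (t * h)) / (Real.pi * t ^ 2) := fun t h =>
    div_nonneg (sub_nonneg.2 (Real.cos_le_one _)) (by positivity)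
  have hswap1 : ∫⁻ y : ℝ, ∫⁻ h in Set.Ioi (0 : ℝ),
      ENNReal.ofReal (T * Real.exp (-(T * h)) * A u y h ^ 2) =
      ∫⁻ h in Set.Ioi (0 : ℝ), ∫⁻ y : ℝ,
        ENNReal.ofReal (T * Real.exp (-(T * h)) * A u y h ^ 2) := by
    refine lintegral_lintegral_swap (Measurable.aemeasurable ?_)
    have h1 : Measurable fun p : ℝ × ℝ => T * Real.exp (-(T * p.2)) := hE.comp measurable_snd
    have h2 : Measurable fun p : ℝ × ℝ => A u p.1 p.2 ^ 2 := hA.pow_const 2
    have h3 : Measurable fun p : ℝ × ℝ => T * Real.exp (-(T * p.2)) * A u p.1 p.2 ^ 2 :=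
      h1.mul h2
    exact h3.ennreal_ofReal
  have hmeas2 : Measurable fun p : ℝ × ℝ => ENNReal.ofReal (‖Q u p.2‖ ^ 2) *
      ENNReal.ofReal (T * Real.exp (-(T * p.1)) *
        ((1 - Real.cos (p.2 * p.1)) / (Real.pi * p.2 ^ 2))) := by
    have h1 : Measurable fun p : ℝ × ℝ => ENNReal.ofReal (‖Q u p.2‖ ^ 2) :=
      ((hQ.comp measurable_snd).norm.pow_const 2).ennreal_ofReal
    have h2 : Measurable fun p : ℝ × ℝ => T * Real.exp (-(T * p.1)) *
        ((1 - Real.cos (p.2 * p.1)) / (Real.pi * p.2 ^ 2)) := by fun_prop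
    have h3 := h2.ennreal_ofReal
    exact h1.mul h3
  have hstep : ∀ h ∈ Set.Ioi (0 : ℝ), ∫⁻ y : ℝ,
      ENNReal.ofReal (T * Real.exp (-(T * h)) * A u y h ^ 2) =
      ∫⁻ t : ℝ, ENNReal.ofReal (‖Q u t‖ ^ 2) * ENNReal.ofReal (T * Real.exp (-(T * h)) *
        ((1 - Real.cos (t * h)) / (Real.pi * t ^ 2))) := by
    intro h hh
    have h1 : ∀ y, ENNReal.ofReal (T * Real.exp (-(T * h)) * A u y h ^ 2) =
        ENNReal.ofReal (T * Real.exp (-(T * h))) * ENNReal.ofReal (A u y h ^ 2) := fun y =>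
      ENNReal.ofReal_mul (hE0 h)
    rw [lintegral_congr h1, lintegral_const_mul' _ _ ENNReal.ofReal_ne_top, hPL u h hh,
      ← lintegral_const_mul' _ _ ENNReal.ofReal_ne_top]
    refine lintegral_congr fun t => ?_
    rw [← ENNReal.ofReal_mul (hE0 h), ← ENNReal.ofReal_mul (by positivity)]
    congr 1
    ring
  rw [hswap1, setLIntegral_congr_fun measurableSet_Ioi hstep,
    lintegral_lintegral_swap (f := fun h t => ENNReal.ofReal (‖Q u t‖ ^ 2) *
      ENNReal.ofReal (T * Real.exp (-(T * h)) * ((1 - Real.cos (t * h)) / (Real.pi * t ^ 2))))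
      hmeas2.aemeasurable]
  have hne : ∀ᵐ t : ℝ, t ≠ 0 := by
    rw [ae_iff]
    simp
  have hstep2 : ∀ᵐ t : ℝ, ∫⁻ h in Set.Ioi (0 : ℝ), ENNReal.ofReal (‖Q u t‖ ^ 2) *
      ENNReal.ofReal (T * Real.exp (-(T * h)) * ((1 - Real.cos (t * h)) / (Real.pi * t ^ 2))) =
      ENNReal.ofReal (‖Q u t‖ ^ 2 / (Real.pi * (T ^ 2 + t ^ 2))) := by
    filter_upwards [hne] with t ht
    rw [lintegral_const_mul' _ _ ENNReal.ofReal_ne_top, hAV T t hT ht,
      ← ENNReal.ofReal_mul (by positivity), mul_one_div]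
  rw [lintegral_congr_ae hstep2, H79TF.even_int]
  · rw [← lintegral_const_mul' _ _ ENNReal.ofNat_ne_top]
    refine lintegral_congr fun t => ?_
    have h2 : (2 : ℝ≥0∞) = ENNReal.ofReal 2 := by norm_num
    rw [h2, ← ENNReal.ofReal_mul (by norm_num), mul_div_assoc]
  · intro t
    rw [hMZ.2.2.2 u t, neg_sq]

end H479.Z
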