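import Pool.Agent.H479.Z.Stm

/-! # the time side is bounded by the mean of the variance (proved by helper412) -/

set_option autoImplicit false

open MeasureTheory Complex Filter Topology
open scoped ENNReal

namespace H479.Z.TSB412

lemma lexp (A a c : ℝ) (hA : 0 ≤ A) (ha : 0 < a) :
    ∫⁻ s in Set.Ioi c, ENNReal.ofReal (A * Real.exp (-(a * s))) =
      ENNReal.ofReal (A * Real.exp (-(a * c)) / a) := by
  have h1 := integral_exp_mul_Ioi (a := -a) (by linarith) c
  have h2 := integrableOn_exp_mul_Ioi (a := -a) (by linarith) c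
  have h3 : Integrable (fun s => A * Real.exp (-(a * s))) (volume.restrict (Set.Ioi c)) := by
    have h4 := h2.const_mul A
    simpa only [neg_mul] using h4
  rw [← ofReal_integral_eq_lintegral_ofReal h3 (Filter.Eventually.of_forall fun s => by positivity)]
  congr 1
  rw [integral_const_mul]
  have h5 : (fun x : ℝ => Real.exp (-a * x)) = fun x => Real.exp (-(a * x)) := by
    funext x; rw [neg_mul]
  rw [h5] at h1
  rw [h1]
  rw [neg_mul]
  field_simp

lemma lexpI (A c : ℝ) (hA : 0 ≤ A) :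
    ∫⁻ y in Set.Iic c, ENNReal.ofReal (A * Real.exp y) = ENNReal.ofReal (A * Real.exp c) := by
  have h2 := (integrableOn_exp_Iic c).const_mul A
  rw [← ofReal_integral_eq_lintegral_ofReal h2 (Filter.Eventually.of_forall fun s => by positivity)]
  congr 1
  rw [integral_const_mul, integral_exp_Iic]

/-- `J²` is bounded by `K₃ s² e^{2s} x²` for `x < 1` -/
lemma jsmall (hJC : S_JC) : ∃ K₃ : ℝ, 0 < K₃ ∧ ∀ y s : ℝ, y < 0 → 0 < s →
    J (Real.exp y) s ^ 2 ≤ K₃ * s ^ 2 * Real.exp (2 * s) * Real.exp (2 * y) := by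
  obtain ⟨-, K, hK, h1, h2⟩ := hJC
  have hl : 0 < Real.log 2 := Real.log_pos (by norm_num)
  refine ⟨1 + K ^ 2 / Real.log 2 ^ 2, by positivity, ?_⟩
  intro y s hy hs
  have he : Real.exp (2 * y) = Real.exp y ^ 2 := by
    rw [← Real.exp_nat_mul]; norm_num
  have hes : Real.exp (2 * s) = Real.exp s ^ 2 := by
    rw [← Real.exp_nat_mul]; norm_num
  have hR : 0 ≤ s ^ 2 * Real.exp (2 * s) * Real.exp (2 * y) := by positivity
  by_cases hc : s < Real.log 2
  · rw [h2 _ _ (Real.exp_pos y) (by rw [← Real.exp_zero]; exact Real.exp_lt_exp.mpr hy) hs hc]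
    have h3 : 0 ≤ Real.exp s - 1 := by
      have := Real.add_one_le_exp s
      linarith
    have h4 : Real.exp s - 1 ≤ s * Real.exp s := by
      have h5 := Real.add_one_le_exp (-s)
      have h6 : Real.exp s * Real.exp (-s) = 1 := by rw [← Real.exp_add]; simp
      nlinarith [Real.exp_pos s]
    have h5 : (Real.exp s - 1) ^ 2 ≤ (s * Real.exp s) ^ 2 := by
      apply pow_le_pow_left₀ h3 h4
    calc (-((Real.exp s - 1) * Real.exp y)) ^ 2 = (Real.exp s - 1) ^ 2 * Real.exp y ^ 2 := by ring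
      _ ≤ (s * Real.exp s) ^ 2 * Real.exp y ^ 2 := by
          apply mul_le_mul_of_nonneg_right h5 (by positivity)
      _ = 1 * (s ^ 2 * Real.exp (2 * s) * Real.exp (2 * y)) := by rw [he, hes]; ring
      _ ≤ (1 + K ^ 2 / Real.log 2 ^ 2) * (s ^ 2 * Real.exp (2 * s) * Real.exp (2 * y)) := by
          apply mul_le_mul_of_nonneg_right _ hR
          have : 0 ≤ K ^ 2 / Real.log 2 ^ 2 := by positivity
          linarith
      _ = _ := by ring
  · push Not at hc
    have h3 := h1 (Real.exp y) s (Real.exp_pos y) hs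
    have h4 : J (Real.exp y) s ^ 2 ≤ (K * Real.exp s * Real.exp y) ^ 2 := by
      rw [← sq_abs]
      apply pow_le_pow_left₀ (abs_nonneg _) h3
    have h5 : 1 ≤ s ^ 2 / Real.log 2 ^ 2 := by
      rw [one_le_div (by positivity)]
      apply pow_le_pow_left₀ hl.le hc
    calc J (Real.exp y) s ^ 2 ≤ (K * Real.exp s * Real.exp y) ^ 2 := h4
      _ = K ^ 2 * Real.exp (2 * s) * Real.exp (2 * y) * 1 := by rw [he, hes]; ring
      _ ≤ K ^ 2 * Real.exp (2 * s) * Real.exp (2 * y) * (s ^ 2 / Real.log 2 ^ 2) := by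
          apply mul_le_mul_of_nonneg_left h5 (by positivity)
      _ = (K ^ 2 / Real.log 2 ^ 2) * (s ^ 2 * Real.exp (2 * s) * Real.exp (2 * y)) := by ring
      _ ≤ (1 + K ^ 2 / Real.log 2 ^ 2) * (s ^ 2 * Real.exp (2 * s) * Real.exp (2 * y)) := by
          apply mul_le_mul_of_nonneg_right _ hR
          linarith
      _ = _ := by ring

/-- the square of `J` is bounded by `K² e^{2s} e^{2y}` -/
lemma jbig (K : ℝ) (h1 : ∀ x s : ℝ, 0 < x → 0 < s → |J x s| ≤ K * Real.exp s * x)
    (y s : ℝ) (hs : 0 < s) :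
    J (Real.exp y) s ^ 2 ≤ K ^ 2 * Real.exp (2 * s) * Real.exp (2 * y) := by
  have he : Real.exp (2 * y) = Real.exp y ^ 2 := by
    rw [← Real.exp_nat_mul]; norm_num
  have hes : Real.exp (2 * s) = Real.exp s ^ 2 := by
    rw [← Real.exp_nat_mul]; norm_num
  have h3 := h1 (Real.exp y) s (Real.exp_pos y) hs
  have h4 : J (Real.exp y) s ^ 2 ≤ (K * Real.exp s * Real.exp y) ^ 2 := by
    rw [← sq_abs]
    apply pow_le_pow_left₀ (abs_nonneg _) h3
  refine h4.trans (le_of_eq ?_)
  rw [he, hes]; ring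

lemma measSlice (f : ℝ → ℝ → ℝ) (hm : Measurable (fun p : ℝ × ℝ => f p.1 p.2)) (x : ℝ) :
    Measurable (fun s : ℝ => f x s) := by
  have hpr : Measurable (fun s : ℝ => (x, s)) := by fun_prop
  exact hm.comp hpr

/-- the inner integral over `s` is `EJ` -/
lemma inner (hJC : S_JC) (T y : ℝ) (hT : 4 ≤ T) :
    ∫⁻ s in Set.Ioi (0 : ℝ), ENNReal.ofReal (T * Real.exp (-(T * s)) * J (Real.exp y) s ^ 2) =
      ENNReal.ofReal (EJ T (Real.exp y)) := by
  obtain ⟨hm, K, hK, h1, h2⟩ := hJC
  have hT0 : 0 < T := by linarith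
  have hmy : Measurable (fun s : ℝ => J (Real.exp y) s) := measSlice J hm _
  have hb := integrableOn_exp_mul_Ioi (a := -(T - 2)) (by linarith) 0
  have hmm : Measurable (fun s : ℝ => T * Real.exp (-(T * s)) * J (Real.exp y) s ^ 2) := by
    have h5 : Measurable (fun s : ℝ => T * Real.exp (-(T * s))) := by fun_prop
    exact h5.mul (hmy.pow_const 2)
  have hbd : ∀ s ∈ Set.Ioi (0 : ℝ), ‖T * Real.exp (-(T * s)) * J (Real.exp y) s ^ 2‖ ≤
      T * K ^ 2 * Real.exp (2 * y) * Real.exp (-(T - 2) * s) := by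
    intro s hs
    have h3 := jbig K h1 y s hs
    rw [Real.norm_of_nonneg (by positivity)]
    calc T * Real.exp (-(T * s)) * J (Real.exp y) s ^ 2
          ≤ T * Real.exp (-(T * s)) * (K ^ 2 * Real.exp (2 * s) * Real.exp (2 * y)) := by
            apply mul_le_mul_of_nonneg_left h3 (by positivity)
        _ = T * K ^ 2 * Real.exp (2 * y) * (Real.exp (-(T * s)) * Real.exp (2 * s)) := by ring
        _ = T * K ^ 2 * Real.exp (2 * y) * Real.exp (-(T - 2) * s) := by
            rw [← Real.exp_add]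
            congr 2
            ring
  have hi : Integrable (fun s : ℝ => T * Real.exp (-(T * s)) * J (Real.exp y) s ^ 2)
      (volume.restrict (Set.Ioi 0)) :=
    Integrable.mono' (hb.const_mul (T * K ^ 2 * Real.exp (2 * y))) hmm.aestronglyMeasurable
      ((ae_restrict_iff' measurableSet_Ioi).mpr (Filter.Eventually.of_forall hbd))
  have hnn : 0 ≤ᵐ[volume.restrict (Set.Ioi 0)]
      (fun s : ℝ => T * Real.exp (-(T * s)) * J (Real.exp y) s ^ 2) :=
    Filter.Eventually.of_forall fun s => by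
      show (0 : ℝ) ≤ T * Real.exp (-(T * s)) * J (Real.exp y) s ^ 2
      positivity
  have h7 := ofReal_integral_eq_lintegral_ofReal hi hnn
  rw [← h7]
  rfl

/-- the main term -/
lemma mainT (hIN : S_IN) (η b T : ℝ) (hη : 0 < η) (hb : 0 < b) (hT : 4 ≤ T) :
    ∫⁻ y in Set.Ioc 0 (b * Real.log T), ENNReal.ofReal
      ((1 + η) * ((b - y / Real.log T) * Real.exp (-y) * EJ T (Real.exp y))) ≤
      ENNReal.ofReal ((1 + η) * I0 0 b T) := by
  have hT0 : 0 < T := by linarith
  have hL : 0 < Real.log T := Real.log_pos (by linarith)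
  obtain ⟨h1, h2⟩ := hIN
  obtain ⟨C, hC⟩ := h1 T hT
  have hTb : T ^ b = Real.exp (b * Real.log T) := by
    rw [Real.rpow_def_of_pos hT0, mul_comm]
  have h1b : (1 : ℝ) ≤ T ^ b := by
    rw [hTb]; exact Real.one_le_exp (by positivity)
  have hsub := lintegral_image_eq_lintegral_abs_deriv_mul
    (s := Set.Ioc 0 (b * Real.log T)) (f := Real.exp) (f' := Real.exp) measurableSet_Ioc
    (fun x _ => (Real.hasDerivAt_exp x).hasDerivWithinAt) (Real.exp_injective.injOn)
    (fun x => ENNReal.ofReal ((1 + η) * ((b - Real.log x / Real.log T) * EJ T x / x ^ 2)))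
  have heq : ∫⁻ y in Set.Ioc 0 (b * Real.log T), ENNReal.ofReal
      ((1 + η) * ((b - y / Real.log T) * Real.exp (-y) * EJ T (Real.exp y))) =
      ∫⁻ x in Set.Ioc 0 (b * Real.log T), ENNReal.ofReal |Real.exp x| *
        ENNReal.ofReal ((1 + η) * ((b - Real.log (Real.exp x) / Real.log T) *
          EJ T (Real.exp x) / Real.exp x ^ 2)) := by
    refine lintegral_congr fun y => ?_
    rw [← ENNReal.ofReal_mul (abs_nonneg _), abs_of_pos (Real.exp_pos y), Real.log_exp]
    congr 1
    rw [Real.exp_neg]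
    have := (Real.exp_pos y).ne'
    field_simp
  rw [heq, ← hsub]
  have himg : Real.exp '' Set.Ioc 0 (b * Real.log T) ⊆ Set.Ioc 1 (T ^ b) := by
    rintro _ ⟨y, hy, rfl⟩
    refine ⟨?_, ?_⟩
    · exact Real.one_lt_exp_iff.mpr hy.1
    · rw [hTb]; exact Real.exp_le_exp.mpr hy.2
  refine (lintegral_mono_set himg).trans ?_
  have hint := (h2 T b 1 (T ^ b) hT one_pos h1b).1.const_mul (1 + η)
  rw [← ofReal_integral_eq_lintegral_ofReal hint]
  · apply ENNReal.ofReal_le_ofReal
    rw [integral_const_mul]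
    unfold I0
    rw [Real.rpow_zero, intervalIntegral.integral_of_le h1b]
  · refine (ae_restrict_iff' measurableSet_Ioc).mpr (Filter.Eventually.of_forall fun x hx => ?_)
    have hx0 : 0 < x := by linarith [hx.1]
    have h3 := (hC x hx0).1
    have h4 : Real.log x ≤ b * Real.log T := by
      rw [Real.log_le_iff_le_exp hx0, ← hTb]
      exact hx.2
    have h5 : 0 ≤ b - Real.log x / Real.log T := by
      rw [sub_nonneg, div_le_iff₀ hL]
      exact h4
    show 0 ≤ (1 + η) * ((b - Real.log x / Real.log T) * EJ T x / x ^ 2)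
    positivity

/-- the bound of `OM` -/
def OMB (C η T bp : ℝ) : Prop := ∀ y s : ℝ, 0 < s → 0 ≤ OM η T bp y s ∧
    OM η T bp y s ≤ C * (1 + s) * Real.exp (-(y + s)) ∧
    (bp * Real.log T ≤ y + s →
      OM η T bp y s ≤ C * (1 + s) * Real.exp (-(y + s) - (y + s - bp * Real.log T) ^ 2 / 2)) ∧
    (s ≤ 1 → OM η T bp y s ≤ Real.exp (-(y + s)) *
      ((1 + η) * (max (bp - (y + s) / Real.log T) 0 + 1 / Real.log T) + C / T))

lemma sqexp (a s : ℝ) (ha : 0 < a) (hs : 0 < s) : s ^ 2 ≤ 8 / a ^ 2 * Real.exp (a * s / 2) := by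
  have h := Real.quadratic_le_exp_of_nonneg (x := a * s / 2) (by positivity)
  have h1 : (a * s / 2) ^ 2 / 2 ≤ Real.exp (a * s / 2) := by
    have : 0 < a * s / 2 := by positivity
    linarith
  rw [div_mul_eq_mul_div, le_div_iff₀ (by positivity)]
  nlinarith

/-- the region `y < 0` -/
lemma r3 (C K₃ η T bp : ℝ) (hC : 0 < C) (hK3 : 0 < K₃) (hT : 8 ≤ T)
    (hJ3 : ∀ y s : ℝ, y < 0 → 0 < s →
      J (Real.exp y) s ^ 2 ≤ K₃ * s ^ 2 * Real.exp (2 * s) * Real.exp (2 * y))
    (hO : OMB C η T bp) (y : ℝ) (hy : y < 0) :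
    ∫⁻ s in Set.Ioi (0 : ℝ), ENNReal.ofReal
      (T * Real.exp (-(T * s)) * J (Real.exp y) s ^ 2 * OM η T bp y s) ≤
      ENNReal.ofReal (128 * C * K₃ / T ^ 2 * Real.exp y) := by
  have hT0 : 0 < T := by linarith
  have ha : 0 < (T - 2) / 2 := by linarith
  have h1 : ∀ s ∈ Set.Ioi (0 : ℝ), ENNReal.ofReal
      (T * Real.exp (-(T * s)) * J (Real.exp y) s ^ 2 * OM η T bp y s) ≤
      ENNReal.ofReal (C * K₃ * T * (8 / (T - 2) ^ 2) * Real.exp y *
        Real.exp (-((T - 2) / 2 * s))) := by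
    intro s hs
    have hs0 : 0 < s := hs
    apply ENNReal.ofReal_le_ofReal
    have h2 := hJ3 y s hy hs0
    obtain ⟨h3, h4, -, -⟩ := hO y s hs0
    have h5 : OM η T bp y s ≤ C * Real.exp s * Real.exp (-(y + s)) := by
      refine h4.trans ?_
      apply mul_le_mul_of_nonneg_right _ (Real.exp_pos _).le
      apply mul_le_mul_of_nonneg_left _ hC.le
      have := Real.add_one_le_exp s
      linarith
    have h6 := sqexp (T - 2) s (by linarith) hs0
    calc T * Real.exp (-(T * s)) * J (Real.exp y) s ^ 2 * OM η T bp y s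
        ≤ T * Real.exp (-(T * s)) * (K₃ * s ^ 2 * Real.exp (2 * s) * Real.exp (2 * y)) *
          (C * Real.exp s * Real.exp (-(y + s))) := by
          apply mul_le_mul _ h5 h3 (by positivity)
          apply mul_le_mul_of_nonneg_left h2 (by positivity)
      _ = C * K₃ * T * s ^ 2 * (Real.exp (-(T * s)) * Real.exp (2 * s) * Real.exp (2 * y) *
          Real.exp s * Real.exp (-(y + s))) := by ring
      _ = C * K₃ * T * s ^ 2 * Real.exp (y - (T - 2) * s) := by
          rw [← Real.exp_add, ← Real.exp_add, ← Real.exp_add, ← Real.exp_add]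
          congr 2
          ring
      _ ≤ C * K₃ * T * (8 / (T - 2) ^ 2 * Real.exp ((T - 2) * s / 2)) *
          Real.exp (y - (T - 2) * s) := by
          apply mul_le_mul_of_nonneg_right _ (Real.exp_pos _).le
          apply mul_le_mul_of_nonneg_left h6 (by positivity)
      _ = C * K₃ * T * (8 / (T - 2) ^ 2) * (Real.exp ((T - 2) * s / 2) *
          Real.exp (y - (T - 2) * s)) := by ring
      _ = C * K₃ * T * (8 / (T - 2) ^ 2) * (Real.exp y * Real.exp (-((T - 2) / 2 * s))) := by
          rw [← Real.exp_add, ← Real.exp_add]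
          congr 2
          ring
      _ = _ := by ring
  refine (setLIntegral_mono' measurableSet_Ioi h1).trans ?_
  rw [lexp _ _ _ (by positivity) ha]
  apply ENNReal.ofReal_le_ofReal
  rw [mul_zero, neg_zero, Real.exp_zero, mul_one]
  have h7 : 0 < T - 2 := by linarith
  have h8 : C * K₃ * T * (8 / (T - 2) ^ 2) * Real.exp y / ((T - 2) / 2) =
      C * K₃ * Real.exp y * (16 * T / (T - 2) ^ 3) := by
    field_simp
    ring
  have h9 : 128 * C * K₃ / T ^ 2 * Real.exp y = C * K₃ * Real.exp y * (128 / T ^ 2) := by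
    ring
  rw [h8, h9]
  apply mul_le_mul_of_nonneg_left _ (by positivity)
  rw [div_le_div_iff₀ (by positivity) (by positivity)]
  have h10 : (T / 2) ^ 3 ≤ (T - 2) ^ 3 := pow_le_pow_left₀ (by positivity) (by linarith) 3
  nlinarith

/-- the region `y > y1` -/
lemma r1 (C K η T bp y : ℝ) (M : ℝ) (hC : 0 < C) (hK : 0 < K) (hT : 8 ≤ T)
    (hJ : ∀ x s : ℝ, 0 < x → 0 < s → |J x s| ≤ K * Real.exp s * x)
    (hO : OMB C η T bp) (hM : 2 * (M + 1) ≤ y - bp * Real.log T)
    (hM0 : 0 ≤ M) :
    ∫⁻ s in Set.Ioi (0 : ℝ), ENNReal.ofReal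
      (T * Real.exp (-(T * s)) * J (Real.exp y) s ^ 2 * OM η T bp y s) ≤
      ENNReal.ofReal (2 * C * K ^ 2 * Real.exp ((1 + M) * (bp * Real.log T)) *
        Real.exp (-(M * y))) := by
  have hT0 : 0 < T := by linarith
  have ha : 0 < T - 2 := by linarith
  have h1 : ∀ s ∈ Set.Ioi (0 : ℝ), ENNReal.ofReal
      (T * Real.exp (-(T * s)) * J (Real.exp y) s ^ 2 * OM η T bp y s) ≤
      ENNReal.ofReal (C * K ^ 2 * T * (Real.exp ((1 + M) * (bp * Real.log T)) *
        Real.exp (-(M * y))) * Real.exp (-((T - 2) * s))) := by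
    intro s hs
    have hs0 : 0 < s := hs
    apply ENNReal.ofReal_le_ofReal
    have h2 := jbig K hJ y s hs0
    obtain ⟨h3, -, h4, -⟩ := hO y s hs0
    have h4' := h4 (by linarith)
    have h6 : -(y + s) - (y + s - bp * Real.log T) ^ 2 / 2 ≤
        -(y + s) - (M + 1) * (y - bp * Real.log T) := by
      have h7 : 2 * ((M + 1) * (y - bp * Real.log T)) ≤ (y + s - bp * Real.log T) ^ 2 := by
        nlinarith
      linarith
    have h5 : OM η T bp y s ≤ C * Real.exp s *
        Real.exp (-(y + s) - (M + 1) * (y - bp * Real.log T)) := by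
      refine h4'.trans ?_
      apply mul_le_mul _ (Real.exp_le_exp.mpr h6) (Real.exp_pos _).le (by positivity)
      apply mul_le_mul_of_nonneg_left _ hC.le
      have := Real.add_one_le_exp s
      linarith
    calc T * Real.exp (-(T * s)) * J (Real.exp y) s ^ 2 * OM η T bp y s
        ≤ T * Real.exp (-(T * s)) * (K ^ 2 * Real.exp (2 * s) * Real.exp (2 * y)) *
          (C * Real.exp s * Real.exp (-(y + s) - (M + 1) * (y - bp * Real.log T))) := by
          apply mul_le_mul _ h5 h3 (by positivity)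
          apply mul_le_mul_of_nonneg_left h2 (by positivity)
      _ = C * K ^ 2 * T * (Real.exp (-(T * s)) * Real.exp (2 * s) * Real.exp (2 * y) *
          Real.exp s * Real.exp (-(y + s) - (M + 1) * (y - bp * Real.log T))) := by ring
      _ = C * K ^ 2 * T * (Real.exp ((1 + M) * (bp * Real.log T)) *
          Real.exp (-(M * y)) * Real.exp (-((T - 2) * s))) := by
          rw [← Real.exp_add, ← Real.exp_add, ← Real.exp_add, ← Real.exp_add, ← Real.exp_add,
            ← Real.exp_add]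
          congr 2
          ring
      _ = _ := by ring
  refine (setLIntegral_mono' measurableSet_Ioi h1).trans ?_
  rw [lexp _ _ _ (by positivity) ha]
  apply ENNReal.ofReal_le_ofReal
  rw [mul_zero, neg_zero, Real.exp_zero, mul_one]
  rw [div_le_iff₀ ha]
  have h8 : 0 < C * K ^ 2 * (Real.exp ((1 + M) * (bp * Real.log T)) * Real.exp (-(M * y))) := by
    positivity
  nlinarith

/-- the region `0 ≤ y ≤ y1` -/
lemma r0 (C K η T bp b y : ℝ) (hJC : S_JC) (hC : 0 < C) (hK : 0 < K) (hη : 0 < η) (hT : 8 ≤ T)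
    (hbb : bp < b)
    (hJ : ∀ x s : ℝ, 0 < x → 0 < s → |J x s| ≤ K * Real.exp s * x)
    (hO : OMB C η T bp) (hL : 0 < Real.log T)
    (hsm : (1 + η) / Real.log T + C / T ≤ (1 + η) * ((b - bp) / 2))
    (hy1 : y ≤ (bp + b) / 2 * Real.log T) :
    ∫⁻ s in Set.Ioi (0 : ℝ), ENNReal.ofReal
      (T * Real.exp (-(T * s)) * J (Real.exp y) s ^ 2 * OM η T bp y s) ≤
      ENNReal.ofReal ((1 + η) * ((b - y / Real.log T) * Real.exp (-y) * EJ T (Real.exp y))) +
      ENNReal.ofReal (2 * C * K ^ 2 * Real.exp (-(T - 2)) * Real.exp y) := by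
  have hT0 : 0 < T := by linarith
  have ha : 0 < T - 2 := by linarith
  have hyL : y / Real.log T ≤ (bp + b) / 2 := by
    rw [div_le_iff₀ hL]; exact hy1
  have hc0 : 0 ≤ (1 + η) * ((b - y / Real.log T) * Real.exp (-y)) := by
    have : 0 ≤ b - y / Real.log T := by linarith
    positivity
  have hU : Set.Ioi (0 : ℝ) = Set.Ioc 0 1 ∪ Set.Ioi 1 := by
    rw [Set.Ioc_union_Ioi_eq_Ioi zero_le_one]
  rw [hU]
  refine (lintegral_union_le _ _ _).trans ?_
  apply add_le_add
  · have h1 : ∀ s ∈ Set.Ioc (0 : ℝ) 1, ENNReal.ofReal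
        (T * Real.exp (-(T * s)) * J (Real.exp y) s ^ 2 * OM η T bp y s) ≤
        ENNReal.ofReal ((1 + η) * ((b - y / Real.log T) * Real.exp (-y))) *
        ENNReal.ofReal (T * Real.exp (-(T * s)) * J (Real.exp y) s ^ 2) := by
      intro s hs
      rw [← ENNReal.ofReal_mul hc0]
      apply ENNReal.ofReal_le_ofReal
      obtain ⟨h3, -, -, h4⟩ := hO y s hs.1
      have h4' := h4 hs.2
      have h5 : OM η T bp y s ≤ (1 + η) * ((b - y / Real.log T) * Real.exp (-y)) := by
        refine h4'.trans ?_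
        have h6 : Real.exp (-(y + s)) ≤ Real.exp (-y) := Real.exp_le_exp.mpr (by linarith [hs.1])
        have h7 : max (bp - (y + s) / Real.log T) 0 ≤ b - y / Real.log T - (b - bp) / 2 := by
          apply max_le
          · have h8 : y / Real.log T ≤ (y + s) / Real.log T :=
              div_le_div_of_nonneg_right (by linarith [hs.1]) hL.le
            linarith
          · linarith
        have h9 : (1 + η) * (max (bp - (y + s) / Real.log T) 0 + 1 / Real.log T) + C / T ≤
            (1 + η) * (b - y / Real.log T) := by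
          have h10 : (1 + η) * max (bp - (y + s) / Real.log T) 0 ≤
              (1 + η) * (b - y / Real.log T - (b - bp) / 2) :=
            mul_le_mul_of_nonneg_left h7 (by linarith)
          have h11 : (1 + η) * (1 / Real.log T) = (1 + η) / Real.log T := by ring
          rw [mul_add, h11]
          linarith
        have h12 : 0 ≤ (1 + η) * (max (bp - (y + s) / Real.log T) 0 + 1 / Real.log T) + C / T := by
          have : 0 ≤ max (bp - (y + s) / Real.log T) 0 := le_max_right _ _
          positivity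
        calc _ ≤ Real.exp (-y) * ((1 + η) * (b - y / Real.log T)) :=
              mul_le_mul h6 h9 h12 (Real.exp_pos _).le
          _ = _ := by ring
      calc T * Real.exp (-(T * s)) * J (Real.exp y) s ^ 2 * OM η T bp y s
          ≤ T * Real.exp (-(T * s)) * J (Real.exp y) s ^ 2 *
            ((1 + η) * ((b - y / Real.log T) * Real.exp (-y))) := by
            apply mul_le_mul_of_nonneg_left h5 (by positivity)
        _ = _ := by ring
    refine (setLIntegral_mono' measurableSet_Ioc h1).trans ?_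
    refine (lintegral_mono_set (t := Set.Ioi 0) Set.Ioc_subset_Ioi_self).trans ?_
    rw [lintegral_const_mul' _ _ ENNReal.ofReal_ne_top, inner hJC T y (by linarith),
      ← ENNReal.ofReal_mul hc0]
    apply ENNReal.ofReal_le_ofReal
    apply le_of_eq
    ring
  · have h1 : ∀ s ∈ Set.Ioi (1 : ℝ), ENNReal.ofReal
        (T * Real.exp (-(T * s)) * J (Real.exp y) s ^ 2 * OM η T bp y s) ≤
        ENNReal.ofReal (C * K ^ 2 * T * Real.exp y * Real.exp (-((T - 2) * s))) := by
      intro s hs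
      have hs1 : 1 < s := hs
      have hs0 : 0 < s := by linarith
      apply ENNReal.ofReal_le_ofReal
      have h2 := jbig K hJ y s hs0
      obtain ⟨h3, h4, -, -⟩ := hO y s hs0
      have h5 : OM η T bp y s ≤ C * Real.exp s * Real.exp (-(y + s)) := by
        refine h4.trans ?_
        apply mul_le_mul_of_nonneg_right _ (Real.exp_pos _).le
        apply mul_le_mul_of_nonneg_left _ hC.le
        have := Real.add_one_le_exp s
        linarith
      calc T * Real.exp (-(T * s)) * J (Real.exp y) s ^ 2 * OM η T bp y s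
          ≤ T * Real.exp (-(T * s)) * (K ^ 2 * Real.exp (2 * s) * Real.exp (2 * y)) *
            (C * Real.exp s * Real.exp (-(y + s))) := by
            apply mul_le_mul _ h5 h3 (by positivity)
            apply mul_le_mul_of_nonneg_left h2 (by positivity)
        _ = C * K ^ 2 * T * (Real.exp (-(T * s)) * Real.exp (2 * s) * Real.exp (2 * y) *
            Real.exp s * Real.exp (-(y + s))) := by ring
        _ = C * K ^ 2 * T * (Real.exp y * Real.exp (-((T - 2) * s))) := by
            rw [← Real.exp_add, ← Real.exp_add, ← Real.exp_add, ← Real.exp_add, ← Real.exp_add]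
            congr 2
            ring
        _ = _ := by ring
    refine (setLIntegral_mono' measurableSet_Ioi h1).trans ?_
    rw [lexp _ _ _ (by positivity) ha]
    apply ENNReal.ofReal_le_ofReal
    rw [mul_one, div_le_iff₀ ha]
    have h8 : 0 < C * K ^ 2 * Real.exp (-(T - 2)) * Real.exp y := by positivity
    nlinarith

lemma expdecay (s : ℝ) : Tendsto (fun T : ℝ => T ^ s * Real.exp (-(T - 2))) atTop (𝓝 0) := by
  have h := tendsto_rpow_mul_exp_neg_mul_atTop_nhds_zero s 1 one_pos
  have h2 := h.mul_const (Real.exp 2)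
  rw [zero_mul] at h2
  refine h2.congr fun T => ?_
  rw [mul_assoc, ← Real.exp_add]
  congr 2
  ring

end H479.Z.TSB412

namespace H479.Z

open TSB412 in
theorem tsb (hOM : S_OM) (hJC : S_JC) (hIN : S_IN) : S_TSB := by
  intro bp b η ε hbp hb hη hε
  obtain ⟨C, hC0, hC⟩ := hOM bp η hbp hη
  obtain ⟨K₃, hK3, hJ3⟩ := jsmall hJC
  obtain ⟨K, hK, hJ, -⟩ := hJC.2
  have hd : 0 < (b - bp) / 2 := by linarith
  obtain ⟨M, hM1, hMd⟩ : ∃ M : ℝ, 1 ≤ M ∧ bp + 2 ≤ M * ((b - bp) / 2) := by
    refine ⟨(bp + 2) / ((b - bp) / 2) + 1, ?_, ?_⟩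
    · have : 0 < (bp + 2) / ((b - bp) / 2) := by positivity
      linarith
    · rw [add_mul, div_mul_cancel₀ _ hd.ne']
      linarith
  have e1 : ∀ᶠ T : ℝ in atTop, 8 ≤ T := eventually_ge_atTop 8
  have e2 : ∀ᶠ T : ℝ in atTop, Real.exp 1 ≤ T := eventually_ge_atTop _
  have e3 : ∀ᶠ T : ℝ in atTop, (1 + η) / Real.log T + C / T ≤ (1 + η) * ((b - bp) / 2) := by
    have h1 : Tendsto (fun T : ℝ => (1 + η) / Real.log T + C / T) atTop (𝓝 (0 + 0)) :=
      (Real.tendsto_log_atTop.const_div_atTop _).add (tendsto_id.const_div_atTop _)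
    rw [add_zero] at h1
    have h2 : (0 : ℝ) < (1 + η) * ((b - bp) / 2) := by positivity
    exact (h1.eventually (gt_mem_nhds h2)).mono fun _ h => h.le
  have e4 : ∀ᶠ T : ℝ in atTop, 2 * (M + 1) ≤ (b - bp) / 2 * Real.log T :=
    (Real.tendsto_log_atTop.const_mul_atTop hd).eventually_ge_atTop _
  have e5 : ∀ᶠ T : ℝ in atTop, (128 * C * K₃ + 2 * C * K ^ 2) / T +
      2 * C * K ^ 2 * (T ^ (b + 1) * Real.exp (-(T - 2))) ≤ ε := by
    have h1 : Tendsto (fun T : ℝ => (128 * C * K₃ + 2 * C * K ^ 2) / T +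
      2 * C * K ^ 2 * (T ^ (b + 1) * Real.exp (-(T - 2)))) atTop (𝓝 (0 + 2 * C * K ^ 2 * 0)) :=
      (tendsto_id.const_div_atTop _).add ((expdecay (b + 1)).const_mul _)
    rw [mul_zero, add_zero] at h1
    exact (h1.eventually (gt_mem_nhds hε)).mono fun _ h => h.le
  obtain ⟨T₀, hT₀⟩ := eventually_atTop.mp (e1.and (e2.and (e3.and (e4.and e5))))
  refine ⟨T₀, fun T hT => ?_⟩
  obtain ⟨h8, he, hsm, hML, hfin⟩ := hT₀ T hT
  have hT0 : 0 < T := by linarith
  have hL1 : 1 ≤ Real.log T := by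
    rw [Real.le_log_iff_exp_le hT0]; exact he
  have hL : 0 < Real.log T := by linarith
  have hO : OMB C η T bp := fun y s hs => hC T y s he hs
  have hTb : T ^ b = Real.exp (b * Real.log T) := by
    rw [Real.rpow_def_of_pos hT0, mul_comm]
  have hTT : T = Real.exp (Real.log T) := (Real.exp_log hT0).symm
  have hbpos : 0 < b := by linarith
  have hI0 : 0 ≤ I0 0 b T := by
    have h1b : (1 : ℝ) ≤ T ^ b := by
      rw [hTb]; exact Real.one_le_exp (by positivity)
    unfold I0
    rw [Real.rpow_zero]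
    apply intervalIntegral.integral_nonneg h1b
    intro x hx
    have hx0 : 0 < x := by linarith [hx.1]
    obtain ⟨C', hC'⟩ := hIN.1 T (by linarith)
    have h3 := (hC' x hx0).1
    have h4 : Real.log x ≤ b * Real.log T := by
      rw [Real.log_le_iff_le_exp hx0, ← hTb]
      exact hx.2
    have h5 : 0 ≤ b - Real.log x / Real.log T := by
      rw [sub_nonneg, div_le_iff₀ hL]
      exact h4
    positivity
  -- splitting
  have hU : (Set.univ : Set ℝ) = Set.Iio 0 ∪ (Set.Ioc 0 ((bp + b) / 2 * Real.log T) ∪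
      Set.Ioi ((bp + b) / 2 * Real.log T)) ∪ {0} := by
    ext y
    simp only [Set.mem_univ, Set.mem_union, Set.mem_Iio, Set.mem_Ioc, Set.mem_Ioi,
      Set.mem_singleton_iff, true_iff]
    rcases lt_trichotomy y 0 with h | h | h
    · exact Or.inl (Or.inl h)
    · exact Or.inr h
    · rcases le_or_gt y ((bp + b) / 2 * Real.log T) with h' | h'
      · exact Or.inl (Or.inr (Or.inl ⟨h, h'⟩))
      · exact Or.inl (Or.inr (Or.inr h'))
  rw [← setLIntegral_univ, hU]
  refine (lintegral_union_le _ _ _).trans ?_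
  have hz : ∀ F : ℝ → ℝ≥0∞, ∫⁻ y in ({0} : Set ℝ), F y = 0 := fun F => by simp
  rw [hz, add_zero]
  refine (lintegral_union_le _ _ _).trans ?_
  refine (add_le_add_right (lintegral_union_le _ _ _) _).trans ?_
  have A3 : ∫⁻ y in Set.Iio (0 : ℝ), ∫⁻ s in Set.Ioi (0 : ℝ), ENNReal.ofReal
      (T * Real.exp (-(T * s)) * J (Real.exp y) s ^ 2 * OM η T bp y s) ≤
      ENNReal.ofReal (128 * C * K₃ / T ^ 2) := by
    refine (setLIntegral_mono' measurableSet_Iio
      (fun y hy => r3 C K₃ η T bp hC0 hK3 h8 hJ3 hO y hy)).trans ?_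
    refine (lintegral_mono_set (t := Set.Iic 0) Set.Iio_subset_Iic_self).trans ?_
    rw [lexpI _ _ (by positivity), Real.exp_zero, mul_one]
  have A1 : ∫⁻ y in Set.Ioi ((bp + b) / 2 * Real.log T), ∫⁻ s in Set.Ioi (0 : ℝ),
      ENNReal.ofReal (T * Real.exp (-(T * s)) * J (Real.exp y) s ^ 2 * OM η T bp y s) ≤
      ENNReal.ofReal (2 * C * K ^ 2 / T ^ 2) := by
    refine (setLIntegral_mono' measurableSet_Ioi
      (fun y hy => r1 C K η T bp y M hC0 hK h8 hJ hO ?_ (by linarith))).trans ?_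
    · have : (bp + b) / 2 * Real.log T < y := hy
      linarith
    · rw [lexp _ _ _ (by positivity) (by linarith)]
      apply ENNReal.ofReal_le_ofReal
      rw [div_le_iff₀ (by linarith)]
      have h10 : Real.exp ((1 + M) * (bp * Real.log T)) *
          Real.exp (-(M * ((bp + b) / 2 * Real.log T))) ≤ 1 / T ^ 2 := by
        rw [← Real.exp_add]
        have h11 : 1 / T ^ 2 = Real.exp (-(2 * Real.log T)) := by
          rw [Real.exp_neg, one_div]
          congr 1
          rw [← Real.exp_log (pow_pos hT0 2), Real.log_pow]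
          norm_num
        rw [h11]
        apply Real.exp_le_exp.mpr
        nlinarith
      calc 2 * C * K ^ 2 * Real.exp ((1 + M) * (bp * Real.log T)) *
          Real.exp (-(M * ((bp + b) / 2 * Real.log T)))
          = 2 * C * K ^ 2 * (Real.exp ((1 + M) * (bp * Real.log T)) *
          Real.exp (-(M * ((bp + b) / 2 * Real.log T)))) := by ring
        _ ≤ 2 * C * K ^ 2 * (1 / T ^ 2) := mul_le_mul_of_nonneg_left h10 (by positivity)
        _ = 2 * C * K ^ 2 / T ^ 2 * 1 := by ring
        _ ≤ 2 * C * K ^ 2 / T ^ 2 * M := mul_le_mul_of_nonneg_left hM1 (by positivity)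
  have A0 : ∫⁻ y in Set.Ioc 0 ((bp + b) / 2 * Real.log T), ∫⁻ s in Set.Ioi (0 : ℝ),
      ENNReal.ofReal (T * Real.exp (-(T * s)) * J (Real.exp y) s ^ 2 * OM η T bp y s) ≤
      ENNReal.ofReal ((1 + η) * I0 0 b T) +
        ENNReal.ofReal (2 * C * K ^ 2 * (T ^ b * Real.exp (-(T - 2)))) := by
    refine (setLIntegral_mono' measurableSet_Ioc
      (fun y hy => r0 C K η T bp b y hJC hC0 hK hη h8 hb hJ hO hL hsm hy.2)).trans ?_
    have hms : Measurable (fun y : ℝ =>
        ENNReal.ofReal (2 * C * K ^ 2 * Real.exp (-(T - 2)) * Real.exp y)) := by fun_prop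
    rw [lintegral_add_right _ hms]
    apply add_le_add
    · refine le_trans ?_ (mainT hIN η b T hη (by linarith) (by linarith))
      apply lintegral_mono_set
      apply Set.Ioc_subset_Ioc_right
      nlinarith
    · refine (lintegral_mono_set (t := Set.Iic ((bp + b) / 2 * Real.log T))
        Set.Ioc_subset_Iic_self).trans ?_
      rw [lexpI _ _ (by positivity)]
      apply ENNReal.ofReal_le_ofReal
      have h12 : Real.exp ((bp + b) / 2 * Real.log T) ≤ T ^ b := by
        rw [hTb]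
        apply Real.exp_le_exp.mpr
        nlinarith
      calc 2 * C * K ^ 2 * Real.exp (-(T - 2)) * Real.exp ((bp + b) / 2 * Real.log T)
          ≤ 2 * C * K ^ 2 * Real.exp (-(T - 2)) * T ^ b :=
            mul_le_mul_of_nonneg_left h12 (by positivity)
        _ = _ := by ring
  refine (add_le_add A3 (add_le_add A0 A1)).trans ?_
  have hm0 : 0 ≤ (1 + η) * I0 0 b T := mul_nonneg (by linarith) hI0
  have ha0 : 0 ≤ 128 * C * K₃ / T ^ 2 := by positivity
  have hb0 : 0 ≤ 2 * C * K ^ 2 * (T ^ b * Real.exp (-(T - 2))) := by positivity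
  have hc0 : 0 ≤ 2 * C * K ^ 2 / T ^ 2 := by positivity
  rw [← ENNReal.ofReal_add hm0 hb0, ← ENNReal.ofReal_add (add_nonneg hm0 hb0) hc0,
    ← ENNReal.ofReal_add ha0 (add_nonneg (add_nonneg hm0 hb0) hc0)]
  apply ENNReal.ofReal_le_ofReal
  have h13 : 128 * C * K₃ / T ^ 2 + 2 * C * K ^ 2 / T ^ 2 +
      2 * C * K ^ 2 * (T ^ b * Real.exp (-(T - 2))) =
      ((128 * C * K₃ + 2 * C * K ^ 2) / T +
      2 * C * K ^ 2 * (T ^ (b + 1) * Real.exp (-(T - 2)))) / T := by
    rw [Real.rpow_add_one hT0.ne']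
    field_simp
  have h14 : ((128 * C * K₃ + 2 * C * K ^ 2) / T +
      2 * C * K ^ 2 * (T ^ (b + 1) * Real.exp (-(T - 2)))) / T ≤ ε * Real.log T ^ 2 / T := by
    apply div_le_div_of_nonneg_right _ hT0.le
    refine hfin.trans ?_
    have : 1 ≤ Real.log T ^ 2 := one_le_pow₀ hL1
    nlinarith
  linarith

end H479.Z
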