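import Pool.Agent.H479.Z.Ft
import Pool.Agent.H479.Z.Pl
import Pool.Agent.H479.Z.Av
import Pool.Agent.H479.Z.Mz
import Pool.Agent.H479.Z.Tf
import Pool.Agent.H479.Z.Ps
import Pool.Agent.H479.Z.Sq
import Pool.Agent.H479.Z.Om
import Pool.Agent.H479.Z.Jc
import Pool.Agent.H479.Z.Sw
import Pool.Agent.H479.Z.Tsb
import Pool.Agent.H479.Z.Bl
import Pool.Agent.H479.Z.Qm
import Pool.Agent.H479.Z.Bad
import Pool.Agent.H479.Z.Mb
import Pool.Agent.H479.Z.Bk
import Pool.Agent.H479.Z.L2
import Pool.Agent.H479.Z.Dg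
import Pool.Agent.H479.Z.Pm
import Pool.Agent.H479.Z.Blk
import Pool.Agent.H479.Z.Alg

/-! # the lower bound for the variance -/

open MeasureTheory Complex Filter Topology
open scoped ENNReal

namespace H479.Z

lemma Nb_le_N (a b : ℝ) : Nb a b ≤ N a b := by
  unfold Nb
  have : (0 : ℝ) ≤ Ns a b := Nat.cast_nonneg _
  linarith

lemma Nb_split {a b : ℝ} (h0 : 0 ≤ a) (hab : a ≤ b) : Nb 0 b ≤ Nb a b + N 0 a := by
  have h1 := N_add le_rfl h0 hab
  have h2 : Ns a b ≤ Ns 0 b := by
    unfold Ns
    refine Set.ncard_le_ncard ?_ ((fin.1 0 b le_rfl).subset fun s hs => hs.1)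
    rintro s ⟨⟨h1, h2, h3, h4, h5⟩, h6⟩
    exact ⟨⟨h1, h2, lt_of_le_of_lt h0 h3, h4, h5⟩, h6⟩
  unfold Nb
  have h3 : (N 0 b : ℝ) = N 0 a + N a b := by exact_mod_cast h1
  have h4 : (Ns a b : ℝ) ≤ Ns 0 b := by exact_mod_cast h2
  linarith

theorem lower_bound (b ε : ℝ) (hb : 1 < b) (hε : 0 < ε) : ∃ T₀ : ℝ, ∀ T : ℝ, T₀ ≤ T →
    (b - 1) ^ 2 / 2 - 1 / 6 + b ^ 2 * Nb 0 T / (T * Real.log T) - ε ≤
      T / Real.log T ^ 2 * I0 1 b T := by
  -- the ingredients
  have hPL : S_PL := pl ft
  have hTF : S_TF := tf hPL av mz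
  have hSQ : S_SQ := sq ps jc
  have hIN : S_IN := in_ jc
  have hSW : S_SW := sw jc
  have hTSB : S_TSB := tsb om_ jc hIN
  have hBAD : S_BAD := bad fin
  have hMB : S_MB := mb pm cn fin mz
  have hBK : S_BK := bk hMB fin mz
  have hDG : S_DG := dg l2 jc hIN
  obtain ⟨C0, T1, hC0⟩ := cn.2
  obtain ⟨C, hCdef⟩ : ∃ C : ℝ, C = max C0 0 := ⟨_, rfl⟩
  have hC : 0 ≤ C := by rw [hCdef]; exact le_max_right _ _
  have hCC : C0 ≤ C := by rw [hCdef]; exact le_max_left _ _
  obtain ⟨e, he0, he1, he2, halg⟩ := alg b C (ε / 2) hb hC (by linarith)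
  obtain ⟨K0, hK0, hqm⟩ := qm e he0
  obtain ⟨K, hKdef⟩ : ∃ K : ℝ, K = max (max K0 2) (2 * C / e) := ⟨_, rfl⟩
  have hKK0 : K0 ≤ K := by rw [hKdef]; exact (le_max_left _ _).trans (le_max_left _ _)
  have hK2 : 2 ≤ K := by rw [hKdef]; exact (le_max_right _ _).trans (le_max_left _ _)
  have hKC : 2 * C / e ≤ K := by rw [hKdef]; exact le_max_right _ _
  have hKpos : 0 < K := by linarith
  have hKe : 2 * C ≤ e * K := by
    rw [div_le_iff₀ he0] at hKC
    linarith
  obtain ⟨m, hI, hcx⟩ := hqm K hKK0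
  have hk0 : 0 < (b - e) * ((b - e) - 1) / 2 - e := by nlinarith
  obtain ⟨T2, hblk⟩ := blocks mz bl hBK hBAD (b - e) (b - e / 2) K e (1 / 2 - e)
    (Real.pi / 2 - e) m (by linarith) (by linarith) hK2 he0 (by linarith) hk0.le (by linarith)
    hI hcx
  obtain ⟨T3, htsb⟩ := hTSB (b - e / 2) b e e (by linarith) (by linarith) he0 he0
  obtain ⟨T4, hdg⟩ := hDG b (ε / 2) hb.le (by linarith)
  refine ⟨max (max (max T1 T2) (max T3 T4)) (max (max 4 (Real.exp 1)) (max 0 T1 * K)), fun T hT => ?_⟩
  have hT1 : T1 ≤ T := (((le_max_left _ _).trans (le_max_left _ _)).trans (le_max_left _ _)).trans hT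
  have hT2 : T2 ≤ T := (((le_max_right _ _).trans (le_max_left _ _)).trans (le_max_left _ _)).trans hT
  have hT3 : T3 ≤ T := (((le_max_left _ _).trans (le_max_right _ _)).trans (le_max_left _ _)).trans hT
  have hT4 : T4 ≤ T := (((le_max_right _ _).trans (le_max_right _ _)).trans (le_max_left _ _)).trans hT
  have h4 : 4 ≤ T := (((le_max_left _ _).trans (le_max_left _ _)).trans (le_max_right _ _)).trans hT
  have he : Real.exp 1 ≤ T := (((le_max_right _ _).trans (le_max_left _ _)).trans (le_max_right _ _)).trans hT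
  have hTK : max 0 T1 * K ≤ T := ((le_max_right _ _).trans (le_max_right _ _)).trans hT
  have hTpos : 0 < T := by linarith
  have hL : 1 ≤ Real.log T := by rw [Real.le_log_iff_exp_le hTpos]; exact he
  have hL0 : 0 < Real.log T := by linarith
  have hπ := Real.pi_pos
  have hπ3 := Real.pi_gt_three
  -- the inequality between the two sides
  obtain ⟨nb, hnb⟩ : ∃ nb : ℝ, nb = Nb (2 * T / K) T := ⟨_, rfl⟩
  have hnb0 : 0 ≤ nb := by rw [hnb]; exact Nb_nonneg _ _ (by positivity)
  have hmain : 2 / Real.pi * (Real.log T ^ 2 * ((b - e) * ((b - e) - 1) / 2 - e) / T *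
        (Real.pi / 2 - e) +
        (1 - e) * Real.pi * (b - e) ^ 2 * Real.log T * ((1 / 2 - e) / T ^ 2 * nb)) ≤
      (1 + e) * I0 0 b T + e * Real.log T ^ 2 / T := by
    have h1 := htsb T hT3
    have h2 := freq_le mz hTF hSQ hSW (bp := b - e / 2) (η := e) (T := T) (by linarith) he0 he
    have h3 := mul_le_mul_right (hblk T hT2) (ENNReal.ofReal (2 / Real.pi))
    have h5 := (h3.trans h2).trans h1
    rw [← ENNReal.ofReal_mul (by positivity), ENNReal.ofReal_le_ofReal_iff', ← hnb] at h5
    rcases h5 with h5 | h5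
    · exact h5
    · exfalso
      have hp1 : 0 < Real.log T ^ 2 * ((b - e) * ((b - e) - 1) / 2 - e) / T * (Real.pi / 2 - e) := by
        have : 0 < Real.pi / 2 - e := by linarith
        positivity
      have hp2 : 0 ≤ (1 - e) * Real.pi * (b - e) ^ 2 * Real.log T * ((1 / 2 - e) / T ^ 2 * nb) := by
        have h6 : 0 ≤ 1 - e := by linarith
        have h7 : 0 ≤ 1 / 2 - e := by linarith
        positivity
      have : 0 < 2 / Real.pi * (Real.log T ^ 2 * ((b - e) * ((b - e) - 1) / 2 - e) / T *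
        (Real.pi / 2 - e) +
        (1 - e) * Real.pi * (b - e) ^ 2 * Real.log T * ((1 / 2 - e) / T ^ 2 * nb)) := by
        apply mul_pos (by positivity)
        linarith
      linarith
  have hscale : 2 / Real.pi * (((b - e) * ((b - e) - 1) / 2 - e) * (Real.pi / 2 - e) +
        (1 - e) * Real.pi * (b - e) ^ 2 * ((1 / 2 - e) * (nb / (T * Real.log T)))) ≤
      (1 + e) * (T / Real.log T ^ 2 * I0 0 b T) + e := by
    have hf : 0 ≤ T / Real.log T ^ 2 := by positivity
    have h1 := mul_le_mul_of_nonneg_left hmain hf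
    have e1 : T / Real.log T ^ 2 * (2 / Real.pi * (Real.log T ^ 2 *
        ((b - e) * ((b - e) - 1) / 2 - e) / T * (Real.pi / 2 - e) +
        (1 - e) * Real.pi * (b - e) ^ 2 * Real.log T * ((1 / 2 - e) / T ^ 2 * nb))) =
        2 / Real.pi * (((b - e) * ((b - e) - 1) / 2 - e) * (Real.pi / 2 - e) +
        (1 - e) * Real.pi * (b - e) ^ 2 * ((1 / 2 - e) * (nb / (T * Real.log T)))) := by
      generalize (b - e) * ((b - e) - 1) / 2 - e = κ
      field_simp
    have e2 : T / Real.log T ^ 2 * ((1 + e) * I0 0 b T + e * Real.log T ^ 2 / T) =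
        (1 + e) * (T / Real.log T ^ 2 * I0 0 b T) + e := by
      field_simp
    rw [e1, e2] at h1
    exact h1
  -- the number of zeros
  have hTL : 0 < T * Real.log T := by positivity
  have hn' : nb / (T * Real.log T) ≤ C := by
    rw [div_le_iff₀ hTL, hnb]
    have h1 := Nb_le_N (2 * T / K) T
    have h2 : (N (2 * T / K) T : ℝ) ≤ N 0 T := by
      exact_mod_cast N_mono le_rfl (by positivity) le_rfl
    have h3 := hC0 T hT1
    have h5 : C0 * (T * Real.log T) ≤ C * (T * Real.log T) := by gcongr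
    linarith
  have hn : Nb 0 T / (T * Real.log T) ≤ nb / (T * Real.log T) + e := by
    have h2K : 2 * T / K ≤ T := by
      rw [div_le_iff₀ hKpos]
      nlinarith
    have h1 := Nb_split (a := 2 * T / K) (b := T) (by positivity) h2K
    have hT12 : T1 ≤ 2 * T / K := by
      rw [le_div_iff₀ hKpos]
      have : T1 * K ≤ max 0 T1 * K := by
        gcongr
        exact le_max_right _ _
      linarith
    have h3 := hC0 (2 * T / K) hT12
    have h2pos : 0 < 2 * T / K := by positivity
    have h5 : (N 0 (2 * T / K) : ℝ) ≤ C * (2 * T / K * Real.log T) := by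
      have h6 : Real.log (2 * T / K) ≤ Real.log T := Real.log_le_log h2pos h2K
      by_cases h7 : 0 ≤ Real.log (2 * T / K)
      · calc (N 0 (2 * T / K) : ℝ) ≤ C0 * (2 * T / K * Real.log (2 * T / K)) := h3
          _ ≤ C * (2 * T / K * Real.log (2 * T / K)) := by gcongr
          _ ≤ _ := by gcongr
      · push Not at h7
        have h8 : 2 * T / K < 1 := by
          by_contra hcon
          push Not at hcon
          exact absurd (Real.log_nonneg hcon) (not_le.2 h7)
        have h9 : (N 0 (2 * T / K) : ℝ) ≤ 0 ∨ 0 < (N 0 (2 * T / K) : ℝ) := le_or_gt _ _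
        rcases h9 with h9 | h9
        · exact h9.trans (by positivity)
        · -- then `C0 < 0` is impossible, since `log` is negative
          have h10 : C0 * (2 * T / K * Real.log (2 * T / K)) ≤ 0 ∨
              0 < C0 * (2 * T / K * Real.log (2 * T / K)) := le_or_gt _ _
          rcases h10 with h10 | h10
          · linarith
          · exfalso
            have h11 : T1 ≤ 2 * T / K := hT12
            -- use the bound at height `T`
            have h12 := hC0 T hT1
            have h13 : (N 0 (2 * T / K) : ℝ) ≤ N 0 T := by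
              exact_mod_cast N_mono le_rfl le_rfl h2K
            have h14 : 0 < C0 := by
              by_contra h15
              push Not at h15
              have : C0 * (T * Real.log T) ≤ 0 := mul_nonpos_of_nonpos_of_nonneg h15 hTL.le
              linarith
            have : 2 * T / K * Real.log (2 * T / K) < 0 := mul_neg_of_pos_of_neg h2pos h7
            have : C0 * (2 * T / K * Real.log (2 * T / K)) < 0 := mul_neg_of_pos_of_neg h14 this
            linarith
    have h6 : C * (2 * T / K * Real.log T) ≤ e * (T * Real.log T) := by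
      have : C * (2 * T / K * Real.log T) = 2 * C / K * (T * Real.log T) := by
        field_simp
      rw [this]
      have h7 : 2 * C / K ≤ e := by
        rw [div_le_iff₀ hKpos]
        linarith
      gcongr
    rw [div_le_iff₀ hTL, add_mul, div_mul_cancel₀ _ hTL.ne', hnb]
    linarith
  have hX := halg (T / Real.log T ^ 2 * I0 0 b T) (Nb 0 T / (T * Real.log T))
    (nb / (T * Real.log T)) (by positivity) hn' hn hscale
  -- the range `x ≤ T`
  have hd := hdg T hT4
  have hsplit : I0 0 b T = (∫ x in (1 : ℝ)..T, (b - Real.log x / Real.log T) * EJ T x / x ^ 2) +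
      I0 1 b T := by
    unfold I0
    rw [Real.rpow_zero, Real.rpow_one]
    have hTb : T ≤ T ^ b := by
      calc T = T ^ (1 : ℝ) := (Real.rpow_one T).symm
        _ ≤ T ^ b := Real.rpow_le_rpow_of_exponent_le (by linarith) hb.le
    rw [intervalIntegral.integral_add_adjacent_intervals]
    · exact hIN.2 T b 1 T h4 one_pos (by linarith)
    · exact hIN.2 T b T (T ^ b) h4 hTpos hTb
  rw [hsplit, mul_add] at hX
  have e3 : b ^ 2 * Nb 0 T / (T * Real.log T) = b ^ 2 * (Nb 0 T / (T * Real.log T)) := by ring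
  rw [e3]
  have e4 : (b - 1) ^ 2 / 2 - 1 / 6 = b * (b - 1) / 2 - (b / 2 - 1 / 3) := by ring
  rw [e4]
  linarith

end H479.Z
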