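import Pool.Agent.H479.Z.Main
import Pool.Agent.H479.Z.Spl

/-! # the lower bound for the variance, with the sharp weights of the zeros -/

open MeasureTheory Complex Filter Topology
open scoped ENNReal

namespace H479.Z

lemma qm2 (ε : ℝ) (hε : 0 < ε) : ∃ K₀ : ℝ, 1 ≤ K₀ ∧ ∀ K : ℝ, K₀ ≤ K → ∀ A : ℝ, ∃ m : ℕ,
    (Real.pi / 2 - ε ≤ ∫ x in (1 / K)..K, x * q m x) ∧ A ≤ 4 ^ m := by
  obtain ⟨M, hM⟩ := exists_pow_lt_of_lt_one
    (show 0 < ε / 2 / (Real.pi / 2) by positivity) (show (1 / 2 : ℝ) < 1 by norm_num)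
  have h1 : (1 / 2 ^ M) * (Real.pi / 2) ≤ ε / 2 := by
    rw [← one_div_pow, ← le_div_iff₀ (by positivity)]
    exact hM.le
  refine ⟨max 1 (2 * (2 + 2 ^ M) / ε), le_max_left _ _, fun K hK A => ?_⟩
  have hK1 : 1 ≤ K := (le_max_left _ _).trans hK
  have hK0 : 0 < K := by linarith
  have hK2 : 2 * (2 + 2 ^ M) / ε ≤ K := (le_max_right _ _).trans hK
  have h2 : (2 + 2 ^ M) / K ≤ ε / 2 := by
    rw [div_le_iff₀ hε] at hK2
    rw [div_le_iff₀ hK0]
    linarith
  obtain ⟨m₁, hm₁⟩ := pow_unbounded_of_one_lt A (show (1 : ℝ) < 4 by norm_num)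
  refine ⟨max M m₁, QM921.partA M _ (le_max_left _ _) hK1 h1 h2, hm₁.le.trans ?_⟩
  exact pow_le_pow_right₀ (by norm_num) (le_max_right _ _)

/-- a nonnegative constant for the number of zeros -/
lemma N_upper : ∃ C T₁ : ℝ, 0 ≤ C ∧ 1 ≤ T₁ ∧ ∀ T : ℝ, T₁ ≤ T → (N 0 T : ℝ) ≤ C * (T * Real.log T) := by
  obtain ⟨C0, T1, h⟩ := cn.2
  refine ⟨max C0 0, max T1 1, le_max_right _ _, le_max_right _ _, fun T hT => ?_⟩
  have h1 : 1 ≤ T := (le_max_right _ _).trans hT
  have hL := Real.log_nonneg h1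
  refine (h T ((le_max_left _ _).trans hT)).trans ?_
  exact mul_le_mul_of_nonneg_right (le_max_left _ _) (by positivity)

lemma SB_le_N (m : ℕ) (K K₀ T : ℝ) (ha : 0 ≤ 2 * T / K) : SB m K K₀ T ha ≤ N 0 (K₀ * T) := by
  unfold SB
  have h1 : ∑ s ∈ ZB (2 * T / K) (K₀ * T) ha, cm m (s.im / T) * BADL.wt s ≤
      ∑ s ∈ ZB (2 * T / K) (K₀ * T) ha, (mult s : ℝ) := by
    apply Finset.sum_le_sum
    intro s _
    have h2 := mul_le_mul (cm_le_one m (s.im / T)) (wt_le_mult s) (BADL.wt_nonneg s)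
      (by norm_num)
    linarith
  refine h1.trans ?_
  rw [N_eq_sum 0 (K₀ * T) le_rfl]
  apply Finset.sum_le_sum_of_subset_of_nonneg
  · intro s hs
    obtain ⟨h2, h3, h4, h5, h6⟩ := mem_ZB.1 hs
    exact mem_ZB.2 ⟨h2, h3, lt_of_le_of_lt ha h4, h5, h6⟩
  · intro s _ _
    exact Nat.cast_nonneg _

lemma scale_aux (b e T I κ S : ℝ) (hTpos : 0 < T) (hL0 : 0 < Real.log T) (he0 : 0 < e)
    (he1 : e ≤ 1 / 4) (hS0 : 0 ≤ S)
    (hmain : 2 / Real.pi * (Real.log T ^ 2 * κ / T * (Real.pi / 2 - e) +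
        (1 - e) * Real.pi * (b - e) ^ 2 * Real.log T * (1 / T ^ 2 * S)) ≤
      (1 + e) * I + e * Real.log T ^ 2 / T) :
    2 / Real.pi * (κ * (Real.pi / 2 - e) +
        (1 - e) * Real.pi * (b - e) ^ 2 * ((1 / 2 - e) * (2 * S / (T * Real.log T)))) ≤
      (1 + e) * (T / Real.log T ^ 2 * I) + e := by
  have hπ := Real.pi_pos
  have hf : 0 ≤ T / Real.log T ^ 2 := by positivity
  have h1 := mul_le_mul_of_nonneg_left hmain hf
  have e1 : T / Real.log T ^ 2 * (2 / Real.pi * (Real.log T ^ 2 *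
      κ / T * (Real.pi / 2 - e) +
      (1 - e) * Real.pi * (b - e) ^ 2 * Real.log T * (1 / T ^ 2 * S))) =
      2 / Real.pi * (κ * (Real.pi / 2 - e) +
      (1 - e) * Real.pi * (b - e) ^ 2 * (S / (T * Real.log T))) := by
    field_simp
  have e2 : T / Real.log T ^ 2 * ((1 + e) * I + e * Real.log T ^ 2 / T) =
      (1 + e) * (T / Real.log T ^ 2 * I) + e := by
    field_simp
  rw [e1, e2] at h1
  refine le_trans ?_ h1
  have h6 : 0 ≤ 1 - e := by linarith
  have h7 : (1 / 2 - e) * (2 * S / (T * Real.log T)) ≤ S / (T * Real.log T) := by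
    have h8 : 0 ≤ S / (T * Real.log T) := by positivity
    have h9 : 2 * S / (T * Real.log T) = 2 * (S / (T * Real.log T)) := by ring
    rw [h9]
    nlinarith
  have h10 : 0 ≤ 2 / Real.pi := by positivity
  have h11 : 0 ≤ (1 - e) * Real.pi * (b - e) ^ 2 := by positivity
  exact mul_le_mul_of_nonneg_left (add_le_add le_rfl (mul_le_mul_of_nonneg_left h7 h11)) h10

theorem lower_bound2 (b ε K₀ : ℝ) (hb : 1 < b) (hε : 0 < ε) (hK₀ : 0 < K₀) :
    ∃ T₀ : ℝ, ∀ T : ℝ, T₀ ≤ T →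
    (b - 1) ^ 2 / 2 - 1 / 6 + 2 * b ^ 2 * (T / Real.log T * nB K₀ T) - ε ≤
      T / Real.log T ^ 2 * I0 1 b T := by
  -- the ingredients
  have hPL : S_PL := pl ft
  have hTF : S_TF := tf hPL av mz
  have hSQ : S_SQ := sq ps jc
  have hIN : S_IN := in_ jc
  have hSW : S_SW := sw jc
  have hTSB : S_TSB := tsb om_ jc hIN
  have hMB : S_MB := mb pm cn fin mz
  have hBK : S_BK := bk hMB fin mz
  have hDG : S_DG := dg l2 jc hIN
  obtain ⟨C1, T1, hC1, hT1, hCN⟩ := N_upper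
  -- the constant for the zeros up to `K₀ T`
  obtain ⟨C, hCdef⟩ : ∃ C : ℝ, C = 4 * C1 * (K₀ + 1) := ⟨_, rfl⟩
  have hC : 0 ≤ C := by rw [hCdef]; positivity
  obtain ⟨e, he0, he1, he2, halg⟩ := alg b C (ε / 2) hb hC (by linarith)
  obtain ⟨K1, hK1, hqm⟩ := qm2 e he0
  obtain ⟨K, hKdef⟩ : ∃ K : ℝ, K = max (max K1 (K₀ + 2)) (8 * C1 / e) := ⟨_, rfl⟩
  have hKK1 : K1 ≤ K := by rw [hKdef]; exact (le_max_left _ _).trans (le_max_left _ _)
  have hKK2 : K₀ + 2 ≤ K := by rw [hKdef]; exact (le_max_right _ _).trans (le_max_left _ _)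
  have hKC : 8 * C1 / e ≤ K := by rw [hKdef]; exact le_max_right _ _
  have hK2 : 2 ≤ K := by linarith
  have hKK0 : K₀ ≤ K := by linarith
  have hKpos : 0 < K := by linarith
  have hKe : 8 * C1 ≤ e * K := by
    rw [div_le_iff₀ he0] at hKC
    linarith
  obtain ⟨m, hI, hm4⟩ := hqm K hKK1 (2 * C * K ^ 2 / e)
  have hm4' : 2 * C * K ^ 2 ≤ e * 4 ^ m := by
    rw [div_le_iff₀ he0] at hm4
    linarith
  have hk0 : 0 < (b - e) * ((b - e) - 1) / 2 - e := by nlinarith
  obtain ⟨T2, hblk⟩ := blocks2 mz bl hBK (b - e) (b - e / 2) K K₀ e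
    (Real.pi / 2 - e) m (by linarith) (by linarith) hK2 hKK0 he0 (by linarith) hk0.le hI
  obtain ⟨T3, htsb⟩ := hTSB (b - e / 2) b e e (by linarith) (by linarith) he0 he0
  obtain ⟨T4, hdg⟩ := hDG b (ε / 2) hb.le (by linarith)
  refine ⟨max (max (max T1 T2) (max T3 T4)) (max (max (max 4 K₀) (Real.exp 1))
    (max (T1 * K) (T1 / K₀))), fun T hT => ?_⟩
  simp only [max_le_iff] at hT
  obtain ⟨⟨⟨hTT1, hT2⟩, ⟨hT3, hT4⟩⟩, ⟨⟨h4, hTK₀⟩, he⟩, hTK, hTK2⟩ := hT
  have hTpos : 0 < T := by linarith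
  have hL : 1 ≤ Real.log T := by rw [Real.le_log_iff_exp_le hTpos]; exact he
  have hL0 : 0 < Real.log T := by linarith
  have hπ := Real.pi_pos
  have hπ3 := Real.pi_gt_three
  have ha : 0 ≤ 2 * T / K := by positivity
  have hTL : 0 < T * Real.log T := by positivity
  -- the sums over the zeros
  obtain ⟨S, hS⟩ : ∃ S : ℝ, S = SB m K K₀ T ha := ⟨_, rfl⟩
  have hS0 : 0 ≤ S := by rw [hS]; exact SB_nonneg _ _ _ _ _
  have hNK : (N 0 (K₀ * T) : ℝ) ≤ C / 2 * (T * Real.log T) := by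
    have h1 : T1 ≤ K₀ * T := by
      rw [div_le_iff₀ hK₀] at hTK2
      linarith
    have h2 := hCN (K₀ * T) h1
    have h3 : Real.log (K₀ * T) ≤ 2 * Real.log T := by
      rw [Real.log_mul hK₀.ne' hTpos.ne']
      have := Real.log_le_log hK₀ hTK₀
      linarith
    have h5 : C1 * (K₀ * T * Real.log (K₀ * T)) ≤ C1 * (K₀ * T * (2 * Real.log T)) := by
      gcongr
    have h6 : C / 2 * (T * Real.log T) = C1 * (K₀ * T * (2 * Real.log T)) +
        C1 * (2 * (T * Real.log T)) := by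
      rw [hCdef]
      ring
    have h7 : 0 ≤ C1 * (2 * (T * Real.log T)) := by positivity
    linarith
  have hSN : S ≤ N 0 (K₀ * T) := by
    rw [hS]
    exact SB_le_N m K K₀ T ha
  -- the inequality between the two sides
  have hmain : 2 / Real.pi * (Real.log T ^ 2 * ((b - e) * ((b - e) - 1) / 2 - e) / T *
        (Real.pi / 2 - e) +
        (1 - e) * Real.pi * (b - e) ^ 2 * Real.log T * (1 / T ^ 2 * S)) ≤
      (1 + e) * I0 0 b T + e * Real.log T ^ 2 / T := by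
    have h1 := htsb T hT3
    have h2 := freq_le mz hTF hSQ hSW (bp := b - e / 2) (η := e) (T := T) (by linarith) he0 he
    have h3 := mul_le_mul_right (hblk T hT2 ha) (ENNReal.ofReal (2 / Real.pi))
    have h5 := (h3.trans h2).trans h1
    rw [← ENNReal.ofReal_mul (by positivity), ENNReal.ofReal_le_ofReal_iff', ← hS] at h5
    rcases h5 with h5 | h5
    · exact h5
    · exfalso
      have hp1 : 0 < Real.log T ^ 2 * ((b - e) * ((b - e) - 1) / 2 - e) / T * (Real.pi / 2 - e) := by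
        have : 0 < Real.pi / 2 - e := by linarith
        positivity
      have hp2 : 0 ≤ (1 - e) * Real.pi * (b - e) ^ 2 * Real.log T * (1 / T ^ 2 * S) := by
        have h6 : 0 ≤ 1 - e := by linarith
        positivity
      have : 0 < 2 / Real.pi * (Real.log T ^ 2 * ((b - e) * ((b - e) - 1) / 2 - e) / T *
        (Real.pi / 2 - e) +
        (1 - e) * Real.pi * (b - e) ^ 2 * Real.log T * (1 / T ^ 2 * S)) := by
        apply mul_pos (by positivity)
        linarith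
      linarith
  have hscale : 2 / Real.pi * (((b - e) * ((b - e) - 1) / 2 - e) * (Real.pi / 2 - e) +
        (1 - e) * Real.pi * (b - e) ^ 2 * ((1 / 2 - e) * (2 * S / (T * Real.log T)))) ≤
      (1 + e) * (T / Real.log T ^ 2 * I0 0 b T) + e := by
    exact scale_aux b e T _ _ S hTpos hL0 he0 he1 hS0 hmain
  -- the number of zeros
  have hn' : 2 * S / (T * Real.log T) ≤ C := by
    rw [div_le_iff₀ hTL]
    linarith
  have hn : 2 * (T / Real.log T * nB K₀ T) ≤ 2 * S / (T * Real.log T) + e := by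
    have h1 := split2 m K K₀ T hK2 hTpos ha
    rw [← hS] at h1
    have h2K : 2 * T / K ≤ T := by
      rw [div_le_iff₀ hKpos]
      nlinarith
    have hT12 : T1 ≤ 2 * T / K := by
      rw [le_div_iff₀ hKpos]
      linarith
    have h3 := hCN (2 * T / K) hT12
    have h2pos : 0 < 2 * T / K := by positivity
    have h5 : (N 0 (2 * T / K) : ℝ) ≤ e / 4 * (T * Real.log T) := by
      have h6 : Real.log (2 * T / K) ≤ Real.log T := Real.log_le_log h2pos h2K
      calc (N 0 (2 * T / K) : ℝ) ≤ C1 * (2 * T / K * Real.log (2 * T / K)) := h3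
        _ ≤ C1 * (2 * T / K * Real.log T) := by gcongr
        _ = 2 * C1 / K * (T * Real.log T) := by field_simp
        _ ≤ e / 4 * (T * Real.log T) := by
          have h7 : 2 * C1 / K ≤ e / 4 := by
            rw [div_le_iff₀ hKpos]
            linarith
          gcongr
    have h44 : (0 : ℝ) < 4 ^ m := by positivity
    have h6 : K ^ 2 / 4 ^ m * (N 0 (K₀ * T) : ℝ) ≤ e / 4 * (T * Real.log T) := by
      calc K ^ 2 / 4 ^ m * (N 0 (K₀ * T) : ℝ) ≤ K ^ 2 / 4 ^ m * (C / 2 * (T * Real.log T)) := by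
            gcongr
        _ = 2 * C * K ^ 2 / 4 ^ m / 4 * (T * Real.log T) := by ring
        _ ≤ e / 4 * (T * Real.log T) := by
          have h7 : 2 * C * K ^ 2 / 4 ^ m ≤ e := by
            rw [div_le_iff₀ h44]
            linarith
          gcongr
    have h8 : T ^ 2 * nB K₀ T ≤ S + e / 2 * (T * Real.log T) := by linarith
    have h9 : 2 * (T / Real.log T * nB K₀ T) = 2 * (T ^ 2 * nB K₀ T) / (T * Real.log T) := by
      field_simp
    rw [h9, div_le_iff₀ hTL, add_mul, div_mul_cancel₀ _ hTL.ne']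
    linarith
  have hX := halg (T / Real.log T ^ 2 * I0 0 b T) (2 * (T / Real.log T * nB K₀ T))
    (2 * S / (T * Real.log T)) (by positivity) hn' hn hscale
  -- the range `x ≤ T`
  have hd := hdg T hT4
  have hsplit : I0 0 b T = (∫ x in (1 : ℝ)..T, (b - Real.log x / Real.log T) * EJ T x / x ^ 2) +
      I0 1 b T := by
    unfold I0
    rw [Real.rpow_zero, Real.rpow_one]
    have hTb : T ≤ T ^ b := by
      calc T = T ^ (1 : ℝ) := (Real.rpow_one T).symm
        _ ≤ T ^ b := Real.rpow_le_rpow_of_exponent_le (by linarith) hb.le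
    rw [intervalIntegral.integral_add_adjacent_intervals]
    · exact hIN.2 T b 1 T h4 one_pos (by linarith)
    · exact hIN.2 T b T (T ^ b) h4 hTpos hTb
  rw [hsplit, mul_add] at hX
  have e3 : 2 * b ^ 2 * (T / Real.log T * nB K₀ T) = b ^ 2 * (2 * (T / Real.log T * nB K₀ T)) := by
    ring
  rw [e3]
  have e4 : (b - 1) ^ 2 / 2 - 1 / 6 = b * (b - 1) / 2 - (b / 2 - 1 / 3) := by ring
  rw [e4]
  linarith

end H479.Z
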